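import Pool.Agent.H.MP_c30e5d_gt.AlgDefs

/-!
# Existence of the configuration

PROOF.  Let `O = MvPowerSeries (Fin 8) k` (a domain; `MvPowerSeries.mul_inv_cancel`: elements with
nonzero constant coefficient are invertible), `L = FractionRing O`, `res = constantCoeff`.
Put `τ j = C (τ⁰ j) + X j` with `τ⁰ = (1, -5, 7, -3, 0, 0, 10, 0)`; these are algebraically
independent over `k` (translate the variables; `MvPolynomial.coe_injective`-type lemma; then
compose with the injection `O → L`).  Write `t1 … ` for `τ 1 …`.  All the following elements are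
defined in `O`; every division is by an element with nonzero constant coefficient
(the constant coefficients are given in brackets):

`p 0 = t0` [1],
`q 1 = (t2 - p0 t1) / (t1 - p0)` [-2; denominator -6],
`b' = 1`, `c' = 2`, `ga' = 3 (t4² - t5) / (t6 - t4 t5)` [0; den. 10], `al' = -3 t4 - ga' t5` [0],
`p 1 = -(al' + 2 q1) / (1 + ga' q1)` [4; den. 1],
`q 0 = (p1 t1 - t2) / (p1 - t1)` [-3; den. 9],
`be = -t3` [3], `al = -(be t1 + t2)` [8],
`b = -(al + be q1 + p1 q1) / (p1 - q1)` [1; den. 6], `c = be - b` [2],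
`p 2 = -p1 - (al' + c - al ga' - 2 b) / (1 - b ga')` [-4; den. 1],
`q 2 = -(al' + p2) / (2 + ga' p2)` [2; den. 2],
`s 2 = (t6 - t3 t5 + al t4) / (t5 - t3 t4 + al)` [5/4; den. 8],
`q 3 = -(al' + 2 s2) / (1 + ga' s2)` [-5/2; den. 1],
`p 3 = -(al' + 2 q3) / (1 + ga' q3)` [5; den. 1],
`dl = al' ga' - 2` [-2], `m00 = 2/dl` [-1], `m01 = ga'/dl` [0], `m10 = -al'/dl` [0],
`m11 = -1/dl` [1/2],
`n l = -(2 + ga' p (l+1))` [-2, -2, -2],
`s l = (m10 + m11 q (l+1)) / (m00 + m01 q (l+1))` [1, -1, 5/4] (for `l = 2` this equals `s 2`: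
 `-al' - q3 = s2 (2 + ga' q3)` is the equation defining `q 3`),
`r i = 1 / (p i - q i)` [1/4, 1/6, -1/6, 2/15].

Verification of the equations:
* `h4a`, `h4b`, `hbc`, `hal`, `hpsi` (all `i`), `hpsi1`, `hpsi2`, `hs4`, `hr`, `hs`: definitions.
* `hphi 1` (`al + b p1 + c q1 + p1 q1 = 0`): definition of `b`.
* `hphi 0`: with `P = p - t1`, `Q = q - t1`: `h4a`, `h4b` say `P0 Q1 = P1 Q0 = t1² - t2`, and
  `(p1 - t1) * (al + b p0 + c q0 + p0 q0) = 0` follows from `h4a, h4b, hal, hphi 1`
  (polynomial identity: `linear_combination`); `p1 - t1` is a unit.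
* `hphi 2`: let `A = 1 - b ga'`, `Q = al' + c - al ga' - 2b`, `C = al' c - 2 al`.  Multiply
  `q1 (2 + ga' p1) = -(al' + p1)` by `(c + p1)` and use `(c + p1) q1 = -(al + b p1)`:
  `A p1² + Q p1 + C = 0`.  As `A (p1 + p2) = -Q`, also `A p2² + Q p2 + C = 0`, i.e.
  `(al' + p2)(c + p2) = (al + b p2)(2 + ga' p2)`; with `q2 (2 + ga' p2) = -(al' + p2)` this gives
  `(2 + ga' p2) (al + b p2 + c q2 + p2 q2) = 0`.
* `hM0`: `dl` times it: `2 + ga' p + n (2 + ga' q) = (2 + ga' p)(-1 - ga' q)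
  = -2 - ga' (p + 2 q + ga' p q) = -2 + ga' al' = dl` by `hpsi`.  `hM1` similarly:
  `-al' - p + (2 + ga' p)(al' + q) = dl p`.

The inequalities: each left side is the image in `L` of an element of `O` whose constant
coefficient is the corresponding expression in the bracketed numbers, a nonzero rational number
(`norm_num`; `k` has characteristic `0`).  For reference: the slopes of the 11 edges have
constant coefficients `(3,1), (-1,1), (2,1), (-4,1), (-2,1), (4,1), (5/2,1), (-5,1), (8,1), (-8,1),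
(10,1)`; the points for `(s,t) = (-6,30)`, `c = 0` are
`(3,3), (0,0), (-6,30), (3,12), (-7,28), (2,10), (6,15)` and the alternants are
`alt4 = 1458`, `alt5 = 102060`, `alt7 = -1289630160`; `hdet` is `9`, `hG` is `-5/8`.
-/

namespace Pool.Agent.H.MP_c30e5d_gt

open MvPolynomial

section

variable {O L K : Type} [CommRing O] [Field L] [Field K]

/-- `x` is the image of an element of `O` with residue `a` -/
def algconfigR (φ : O →+* L) (ρ : O →+* K) (x : L) (a : K) : Prop := ∃ y, φ y = x ∧ ρ y = a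

variable {φ : O →+* L} {ρ : O →+* K} {x x' : L} {a a' : K}

theorem algconfigR.add (h : algconfigR φ ρ x a) (h' : algconfigR φ ρ x' a') :
    algconfigR φ ρ (x + x') (a + a') := by
  obtain ⟨y, rfl, rfl⟩ := h
  obtain ⟨y', rfl, rfl⟩ := h'
  exact ⟨y + y', map_add _ _ _, map_add _ _ _⟩

theorem algconfigR.sub (h : algconfigR φ ρ x a) (h' : algconfigR φ ρ x' a') :
    algconfigR φ ρ (x - x') (a - a') := by
  obtain ⟨y, rfl, rfl⟩ := h
  obtain ⟨y', rfl, rfl⟩ := h'
  exact ⟨y - y', map_sub _ _ _, map_sub _ _ _⟩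

theorem algconfigR.mul (h : algconfigR φ ρ x a) (h' : algconfigR φ ρ x' a') :
    algconfigR φ ρ (x * x') (a * a') := by
  obtain ⟨y, rfl, rfl⟩ := h
  obtain ⟨y', rfl, rfl⟩ := h'
  exact ⟨y * y', map_mul _ _ _, map_mul _ _ _⟩

theorem algconfigR.neg (h : algconfigR φ ρ x a) : algconfigR φ ρ (-x) (-a) := by
  obtain ⟨y, rfl, rfl⟩ := h
  exact ⟨-y, map_neg _ _, map_neg _ _⟩

theorem algconfigR.one : algconfigR φ ρ 1 1 := ⟨1, map_one _, map_one _⟩

theorem algconfigR.zero : algconfigR φ ρ 0 0 := ⟨0, map_zero _, map_zero _⟩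

theorem algconfigR.int (m : ℤ) : algconfigR φ ρ (m : L) (m : K) :=
  ⟨m, map_intCast _ _, map_intCast _ _⟩

theorem algconfigR.ne (hu : ∀ y, ρ y ≠ 0 → IsUnit y) (h : algconfigR φ ρ x a) (ha : a ≠ 0) :
    x ≠ 0 := by
  obtain ⟨y, rfl, rfl⟩ := h
  exact ((hu y ha).map φ).ne_zero

theorem algconfigR.div (hu : ∀ y, ρ y ≠ 0 → IsUnit y) {D N : L} {d n : K}
    (hD : algconfigR φ ρ D d) (hN : algconfigR φ ρ N n) (v : K) (hd : d ≠ 0) (hv : d * v = n) :
    ∃ x, D * x = N ∧ algconfigR φ ρ x v := by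
  obtain ⟨y, rfl, rfl⟩ := hD
  obtain ⟨z, rfl, rfl⟩ := hN
  obtain ⟨u, rfl⟩ := hu y hd
  refine ⟨φ (↑u⁻¹ * z), ?_, ↑u⁻¹ * z, rfl, ?_⟩
  · rw [← map_mul, ← mul_assoc, Units.mul_inv, one_mul]
  · apply mul_left_cancel₀ hd
    rw [hv, ← map_mul, ← mul_assoc, Units.mul_inv, one_mul]

theorem algconfig_alt_map {A B : Type} [CommRing A] [CommRing B] (f : A →+* B) {k : ℕ}
    (hk : k ≤ 7) (E : Fin k → ℕ × ℕ) (x y : Fin 7 → A) :
    f (alt hk E x y) = alt hk E (fun i => f (x i)) (fun i => f (y i)) := by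
  unfold alt
  rw [RingHom.map_det]
  congr 1
  ext i j
  simp [RingHom.mapMatrix_apply, Matrix.map_apply, map_mul, map_pow]

theorem algconfigR.altern {k : ℕ} (hk : k ≤ 7) (E : Fin k → ℕ × ℕ) {x y : Fin 7 → L}
    {X Y : Fin 7 → ℤ} (hx : ∀ i, algconfigR φ ρ (x i) ((X i : ℤ) : K))
    (hy : ∀ i, algconfigR φ ρ (y i) ((Y i : ℤ) : K)) :
    algconfigR φ ρ (alt hk E x y) ((alt hk E X Y : ℤ) : K) := by
  choose x' hx1 hx2 using hx
  choose y' hy1 hy2 using hy
  refine ⟨alt hk E x' y', ?_, ?_⟩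
  · rw [algconfig_alt_map]
    congr 1
    · funext i; exact hx1 i
    · funext i; exact hy1 i
  · rw [algconfig_alt_map]
    have h := algconfig_alt_map (Int.castRingHom K) hk E X Y
    rw [eq_intCast] at h
    rw [h]
    congr 1
    · funext i; rw [hx2 i, eq_intCast]
    · funext i; rw [hy2 i, eq_intCast]

end


theorem algconfigR.cast {O L K : Type} [CommRing O] [Field L] [Field K] {φ : O →+* L}
    {ρ : O →+* K} {x : L} {a b : K} (h : algconfigR φ ρ x a) (e : a = b) : algconfigR φ ρ x b :=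
  e ▸ h

/-- the integral points of the reference configuration -/
def algconfigX : Fin 7 → ℤ := ![3, 0, -6, 3, -7, 2, 6]

/-- the integral points of the reference configuration -/
def algconfigY : Fin 7 → ℤ := ![3, 0, 30, 12, 28, 10, 15]

/-- a multiple of the inverse of the matrix of `alt7 (3, 0)` -/
def algconfigN : Matrix (Fin 7) (Fin 7) ℤ :=
  ![![0, 147420, 0, 0, 0, 0, 0],
  ![65520, -38610, 12285, 81900, -12420, -85995, -22680],
  ![-6552, -21060, -4095, -65520, 3672, 85995, 7560],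
  ![0, 780, -3640, -4550, 4050, 0, 3360],
  ![-3276, 3120, -910, 9100, 576, -8190, -420],
  ![0, 780, 455, 3640, -360, -4095, -420],
  ![0, -390, 455, -4550, -450, 4095, 840]]

theorem algconfig_mul : (Matrix.of fun i j : Fin 7 =>
    algconfigX (Fin.castLE le_rfl i) ^ (E7 (3, 0) j).1 *
      algconfigY (Fin.castLE le_rfl i) ^ (E7 (3, 0) j).2) * algconfigN =
    (147420 : ℤ) • (1 : Matrix (Fin 7) (Fin 7) ℤ) := by
  decide +kernel

theorem algconfig_alt7 : alt7 (3, 0) algconfigX algconfigY ≠ 0 := by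
  intro h
  have h1 := congrArg Matrix.det algconfig_mul
  rw [Matrix.det_mul, Matrix.det_smul, Matrix.det_one] at h1
  unfold alt7 alt at h
  rw [h] at h1
  norm_num at h1

theorem algconfig_alt4 : alt4 (2, 0) algconfigX algconfigY ≠ 0 := by
  decide +kernel

theorem algconfig_alt5 : alt5 (1, 1) algconfigX algconfigY ≠ 0 := by
  decide +kernel

/-- twice the slopes of the edges -/
def algconfigA : Fin 11 → ℤ := ![6, -2, 4, -8, -4, 8, 5, -10, 16, -16, 20]

theorem algconfigA_inj : ∀ e f : Fin 11, algconfigA e = algconfigA f → e = f := by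
  decide

theorem algconfig_indep (k : Type) [Field k] (t : Fin 8 → k) :
    AlgebraicIndependent k (fun i => algebraMap (MvPowerSeries (Fin 8) k)
      (FractionRing (MvPowerSeries (Fin 8) k)) (MvPowerSeries.C (t i) + MvPowerSeries.X i)) := by
  have h1 : AlgebraicIndependent k (fun i => (C (t i) + X i : MvPolynomial (Fin 8) k)) := by
    rw [AlgebraicIndependent]
    apply Function.LeftInverse.injective
      (g := aeval (R := k) fun i => (X i - C (t i) : MvPolynomial (Fin 8) k))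
    intro P
    have h2 : (aeval (R := k) fun i => (X i - C (t i) : MvPolynomial (Fin 8) k)).comp
        (aeval (R := k) fun i => (C (t i) + X i : MvPolynomial (Fin 8) k)) =
        AlgHom.id k (MvPolynomial (Fin 8) k) := by
      apply MvPolynomial.algHom_ext
      intro i
      simp
    exact congrArg (fun f : MvPolynomial (Fin 8) k →ₐ[k] MvPolynomial (Fin 8) k => f P) h2
  have h2 := h1.map' (f := MvPolynomial.coeToMvPowerSeries.algHom k)
    (MvPolynomial.coe_injective (Fin 8) k)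
  have h3 := h2.map' (f := IsScalarTower.toAlgHom k (MvPowerSeries (Fin 8) k)
    (FractionRing (MvPowerSeries (Fin 8) k)))
    (IsFractionRing.injective (MvPowerSeries (Fin 8) k) (FractionRing (MvPowerSeries (Fin 8) k)))
  convert h3 using 1
  funext i
  simp

set_option maxHeartbeats 4000000 in
theorem algconfig_main {k L O : Type} [Field k] [CharZero k] [Field L] [Algebra k L]
    [CommRing O] (φ : O →+* L) (ρ : O →+* k) (hu : ∀ y, ρ y ≠ 0 → IsUnit y) (τ : Fin 8 → L)
    (ind : AlgebraicIndependent k τ) (r0 : algconfigR φ ρ (τ 0) 1)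
    (r1 : algconfigR φ ρ (τ 1) (-5)) (r2 : algconfigR φ ρ (τ 2) 7)
    (r3 : algconfigR φ ρ (τ 3) (-3)) (r4 : algconfigR φ ρ (τ 4) 0)
    (r5 : algconfigR φ ρ (τ 5) 0) (r6 : algconfigR φ ρ (τ 6) 10)
    (r7 : algconfigR φ ρ (τ 7) 0) : Nonempty (Config k L) := by
  have i1 : algconfigR φ ρ (1 : L) 1 := algconfigR.one
  have i2 : algconfigR φ ρ (2 : L) 2 := by simpa using algconfigR.int (φ := φ) (ρ := ρ) 2
  have i3 : algconfigR φ ρ (3 : L) 3 := by simpa using algconfigR.int (φ := φ) (ρ := ρ) 3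
  have i6 : algconfigR φ ρ (-6 : L) (-6) := by simpa using algconfigR.int (φ := φ) (ρ := ρ) (-6)
  have i30 : algconfigR φ ρ (30 : L) 30 := by simpa using algconfigR.int (φ := φ) (ρ := ρ) 30
  obtain ⟨q1, eq1, rq1⟩ := algconfigR.div hu (r1.sub r0) (r2.sub (r0.mul r1)) (-2)
    (by norm_num) (by norm_num)
  obtain ⟨ga, ega, rga⟩ := algconfigR.div hu (r6.sub (r4.mul r5))
    (i3.mul ((r4.mul r4).sub r5)) 0 (by norm_num) (by norm_num)
  obtain ⟨al', eal', ral'⟩ : ∃ x, x = -(3 * τ 4) - ga * τ 5 ∧ algconfigR φ ρ x 0 :=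
    ⟨_, rfl, (((i3.mul r4).neg).sub (rga.mul r5)).cast (by norm_num)⟩
  obtain ⟨p1, ep1, rp1⟩ := algconfigR.div hu (i1.add (rga.mul rq1))
    (ral'.add (i2.mul rq1)).neg 4 (by norm_num) (by norm_num)
  obtain ⟨q0, eq0, rq0⟩ := algconfigR.div hu (rp1.sub r1) ((rp1.mul r1).sub r2) (-3)
    (by norm_num) (by norm_num)
  obtain ⟨be, ebe, rbe⟩ : ∃ x, x = -τ 3 ∧ algconfigR φ ρ x 3 :=
    ⟨_, rfl, (r3.neg).cast (by norm_num)⟩
  obtain ⟨al, eal, ral⟩ : ∃ x, x = -(be * τ 1 + τ 2) ∧ algconfigR φ ρ x 8 :=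
    ⟨_, rfl, (((rbe.mul r1).add r2).neg).cast (by norm_num)⟩
  obtain ⟨b, eb, rb⟩ := algconfigR.div hu (rp1.sub rq1)
    ((ral.add (rbe.mul rq1)).add (rp1.mul rq1)).neg 1 (by norm_num) (by norm_num)
  obtain ⟨c, ec, rc⟩ : ∃ x, x = be - b ∧ algconfigR φ ρ x 2 :=
    ⟨_, rfl, (rbe.sub rb).cast (by norm_num)⟩
  obtain ⟨z, ez, rz⟩ := algconfigR.div hu (i1.sub (rb.mul rga))
    (((ral'.add rc).sub (ral.mul rga)).sub (i2.mul rb)).neg 0 (by norm_num) (by norm_num)
  obtain ⟨p2, ep2, rp2⟩ : ∃ x, x = z - p1 ∧ algconfigR φ ρ x (-4) :=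
    ⟨_, rfl, (rz.sub rp1).cast (by norm_num)⟩
  obtain ⟨q2, eq2, rq2⟩ := algconfigR.div hu (i2.add (rga.mul rp2)) (ral'.add rp2).neg 2
    (by norm_num) (by norm_num)
  obtain ⟨s2, es2, rs2⟩ := algconfigR.div hu ((r5.sub (r3.mul r4)).add ral)
    ((r6.sub (r3.mul r5)).add (ral.mul r4)) (5 / 4) (by norm_num) (by norm_num)
  obtain ⟨q3, eq3, rq3⟩ := algconfigR.div hu (i1.add (rga.mul rs2)) (ral'.add (i2.mul rs2)).neg
    (-5 / 2) (by norm_num) (by norm_num)
  obtain ⟨p3, ep3, rp3⟩ := algconfigR.div hu (i1.add (rga.mul rq3)) (ral'.add (i2.mul rq3)).neg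
    5 (by norm_num) (by norm_num)
  have rdl : algconfigR φ ρ (al' * ga - 2) (-2) := ((ral'.mul rga).sub i2).cast (by norm_num)
  obtain ⟨m00, e00, r00⟩ := algconfigR.div hu rdl i2 (-1) (by norm_num) (by norm_num)
  obtain ⟨m01, e01, r01⟩ := algconfigR.div hu rdl rga 0 (by norm_num) (by norm_num)
  obtain ⟨m10, e10, r10⟩ := algconfigR.div hu rdl ral'.neg 0 (by norm_num) (by norm_num)
  obtain ⟨m11, e11, r11⟩ := algconfigR.div hu rdl i1.neg (1 / 2) (by norm_num) (by norm_num)
  obtain ⟨n0, en0, rn0⟩ : ∃ x, x = -(2 + ga * p1) ∧ algconfigR φ ρ x (-2) :=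
    ⟨_, rfl, ((i2.add (rga.mul rp1)).neg).cast (by norm_num)⟩
  obtain ⟨n1, en1, rn1⟩ : ∃ x, x = -(2 + ga * p2) ∧ algconfigR φ ρ x (-2) :=
    ⟨_, rfl, ((i2.add (rga.mul rp2)).neg).cast (by norm_num)⟩
  obtain ⟨n2, en2, rn2⟩ : ∃ x, x = -(2 + ga * p3) ∧ algconfigR φ ρ x (-2) :=
    ⟨_, rfl, ((i2.add (rga.mul rp3)).neg).cast (by norm_num)⟩
  have rd0 : algconfigR φ ρ (m00 + m01 * q1) (-1) := (r00.add (r01.mul rq1)).cast (by norm_num)
  have rd1 : algconfigR φ ρ (m00 + m01 * q2) (-1) := (r00.add (r01.mul rq2)).cast (by norm_num)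
  have rd2 : algconfigR φ ρ (m00 + m01 * q3) (-1) := (r00.add (r01.mul rq3)).cast (by norm_num)
  obtain ⟨s0, es0, rs0⟩ := algconfigR.div hu rd0 (r10.add (r11.mul rq1)) 1
    (by norm_num) (by norm_num)
  obtain ⟨s1, es1, rs1⟩ := algconfigR.div hu rd1 (r10.add (r11.mul rq2)) (-1)
    (by norm_num) (by norm_num)
  obtain ⟨v0, ev0, rv0⟩ := algconfigR.div hu (r0.sub rq0) i1 (1 / 4) (by norm_num) (by norm_num)
  obtain ⟨v1, ev1, rv1⟩ := algconfigR.div hu (rp1.sub rq1) i1 (1 / 6) (by norm_num) (by norm_num)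
  obtain ⟨v2, ev2, rv2⟩ := algconfigR.div hu (rp2.sub rq2) i1 (-1 / 6)
    (by norm_num) (by norm_num)
  obtain ⟨v3, ev3, rv3⟩ := algconfigR.div hu (rp3.sub rq3) i1 (2 / 15)
    (by norm_num) (by norm_num)
  -- equations
  have hp1t : p1 - τ 1 ≠ 0 := (rp1.sub r1).ne hu (by norm_num)
  have hdl : al' * ga - 2 ≠ 0 := rdl.ne hu (by norm_num)
  have h2p : 2 + ga * p2 ≠ 0 := (i2.add (rga.mul rp2)).ne hu (by norm_num)
  have h4a : τ 2 - (τ 0 + q1) * τ 1 + τ 0 * q1 = 0 := by linear_combination -eq1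
  have h4b : τ 2 - (p1 + q0) * τ 1 + p1 * q0 = 0 := by linear_combination eq0
  have hbc : b + c = -τ 3 := by rw [ec, ebe]; ring
  have hal : al + (b + c) * τ 1 + τ 2 = 0 := by rw [eal, ec]; ring
  have hphi1 : al + b * p1 + c * q1 + p1 * q1 = 0 := by
    rw [ec]; linear_combination eb
  have hphi0 : al + b * τ 0 + c * q0 + τ 0 * q0 = 0 := by
    apply mul_left_cancel₀ hp1t
    linear_combination (τ 0 - τ 1) * hphi1 + (c + τ 0) * h4b - (c + p1) * h4a +
      (p1 - τ 0) * hal
  have hpsi0 : al' + 1 * p1 + 2 * q1 + ga * p1 * q1 = 0 := by linear_combination ep1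
  have hpsi1 : al' + 1 * p2 + 2 * q2 + ga * p2 * q2 = 0 := by linear_combination eq2
  have hpsi2 : al' + 1 * p3 + 2 * q3 + ga * p3 * q3 = 0 := by linear_combination ep3
  have hD2 : (1 - b * ga) * (p1 + p2) + (al' + c - al * ga - 2 * b) = 0 := by
    rw [ep2]; linear_combination ez
  have hphi2 : al + b * p2 + c * q2 + p2 * q2 = 0 := by
    apply mul_left_cancel₀ h2p
    linear_combination (c + p2) * hpsi1 - (c + p1) * hpsi0 + (2 + ga * p1) * hphi1 -
      (p2 - p1) * hD2
  have hM0 : ∀ p q : L, al' + 1 * p + 2 * q + ga * p * q = 0 →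
      m00 + m01 * p + -(2 + ga * p) * (m00 + m01 * q) = 1 := by
    intro p q h
    apply mul_left_cancel₀ hdl
    linear_combination (1 + -(2 + ga * p)) * e00 + (p + -(2 + ga * p) * q) * e01 - ga * h
  have hM1 : ∀ p q : L, al' + 1 * p + 2 * q + ga * p * q = 0 →
      m10 + m11 * p + -(2 + ga * p) * (m10 + m11 * q) = p := by
    intro p q h
    apply mul_left_cancel₀ hdl
    linear_combination (1 + -(2 + ga * p)) * e10 + (p + -(2 + ga * p) * q) * e11 + h
  have hs2 : m10 + m11 * q3 = s2 * (m00 + m01 * q3) := by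
    apply mul_left_cancel₀ hdl
    linear_combination e10 + q3 * e11 - s2 * e00 - s2 * q3 * e01 - eq3
  -- residues of the edges
  have hk1 : ∀ e : Fin 11, algconfigR φ ρ
      (ecoef ![τ 0, p1, p2, p3] ![q0, q1, q2, q3] ![n0, n1, n2] e).1
      (((algconfigA e : ℤ) : k) / 2) := by
    intro e
    fin_cases e
    · exact rq0.neg.cast (by norm_num [algconfigA])
    · exact r0.neg.cast (by norm_num [algconfigA])
    · exact rq1.neg.cast (by norm_num [algconfigA])
    · exact rp1.neg.cast (by norm_num [algconfigA])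
    · exact rq2.neg.cast (by norm_num [algconfigA])
    · exact rp2.neg.cast (by norm_num [algconfigA])
    · exact rq3.neg.cast (by norm_num [algconfigA])
    · exact rp3.neg.cast (by norm_num [algconfigA])
    · exact (rp1.add (rn0.mul rq1)).cast (by norm_num [algconfigA])
    · exact (rp2.add (rn1.mul rq2)).cast (by norm_num [algconfigA])
    · exact (rp3.add (rn2.mul rq3)).cast (by norm_num [algconfigA])
  have hk2 : ∀ e : Fin 11, algconfigR φ ρ
      (ecoef ![τ 0, p1, p2, p3] ![q0, q1, q2, q3] ![n0, n1, n2] e).2 1 := by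
    intro e
    fin_cases e
    · exact i1
    · exact i1
    · exact i1
    · exact i1
    · exact i1
    · exact i1
    · exact i1
    · exact i1
    · exact (i1.add rn0).neg.cast (by norm_num)
    · exact (i1.add rn1).neg.cast (by norm_num)
    · exact (i1.add rn2).neg.cast (by norm_num)
  -- residues of the points
  have hX : ∀ i : Fin 7, algconfigR φ ρ
      (ptX (τ 7) ![q0, q1, q2, q3] ![v0, v1, v2, v3] m00 m01 (-6) 30 i)
      ((algconfigX i : ℤ) : k) := by
    intro i
    fin_cases i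
    · exact (r7.add (rv0.mul (i30.sub (rq0.mul i6)))).cast (by norm_num [algconfigX])
    · exact r7.cast (by norm_num [algconfigX])
    · exact (r7.add i6).cast (by norm_num [algconfigX])
    · exact (r7.add (rv1.mul (i30.sub (rq1.mul i6)))).cast (by norm_num [algconfigX])
    · exact (r7.add (rv2.mul (i30.sub (rq2.mul i6)))).cast (by norm_num [algconfigX])
    · exact (r7.add (rv3.mul (i30.sub (rq3.mul i6)))).cast (by norm_num [algconfigX])
    · exact ((r7.add (r00.mul i6)).add (r01.mul i30)).cast (by norm_num [algconfigX])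
  have hY : ∀ i : Fin 7, algconfigR φ ρ
      (ptY ![τ 0, p1, p2, p3] ![q0, q1, q2, q3] ![v0, v1, v2, v3] m10 m11 (-6) 30 i)
      ((algconfigY i : ℤ) : k) := by
    intro i
    fin_cases i
    · exact (r0.mul (rv0.mul (i30.sub (rq0.mul i6)))).cast (by norm_num [algconfigY])
    · exact algconfigR.zero.cast (by norm_num [algconfigY])
    · exact i30.cast (by norm_num [algconfigY])
    · exact (rp1.mul (rv1.mul (i30.sub (rq1.mul i6)))).cast (by norm_num [algconfigY])
    · exact (rp2.mul (rv2.mul (i30.sub (rq2.mul i6)))).cast (by norm_num [algconfigY])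
    · exact (rp3.mul (rv3.mul (i30.sub (rq3.mul i6)))).cast (by norm_num [algconfigY])
    · exact ((r10.mul i6).add (r11.mul i30)).cast (by norm_num [algconfigY])
  exact ⟨{
    τ := τ
    indep := ind
    p := ![τ 0, p1, p2, p3]
    q := ![q0, q1, q2, q3]
    r := ![v0, v1, v2, v3]
    n := ![n0, n1, n2]
    s := ![s0, s1, s2]
    m00 := m00
    m01 := m01
    m10 := m10
    m11 := m11
    al := al
    b := b
    c := c
    al' := al'
    b' := 1
    c' := 2
    ga' := ga
    hr := by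
      intro i
      fin_cases i
      · show v0 * (τ 0 - q0) = 1
        linear_combination ev0
      · show v1 * (p1 - q1) = 1
        linear_combination ev1
      · show v2 * (p2 - q2) = 1
        linear_combination ev2
      · show v3 * (p3 - q3) = 1
        linear_combination ev3
    hp0 := rfl
    h4a := h4a
    h4b := h4b
    hphi := by
      intro i
      fin_cases i
      · exact hphi0
      · exact hphi1
      · exact hphi2
    hbc := hbc
    hal := hal
    hpsi := by
      intro i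
      fin_cases i
      · exact hpsi0
      · exact hpsi1
      · exact hpsi2
    hpsi1 := by rw [eal']; ring
    hpsi2 := by rw [eal']; linear_combination ega
    hs4 := by
      show (τ 6 - s2 * τ 5) + (b + c) * (τ 5 - s2 * τ 4) + al * (τ 4 - s2) = 0
      rw [hbc]; linear_combination -es2
    hM0 := by
      intro l
      fin_cases l
      · show m00 + m01 * p1 + n0 * (m00 + m01 * q1) = 1
        rw [en0]; exact hM0 p1 q1 hpsi0
      · show m00 + m01 * p2 + n1 * (m00 + m01 * q2) = 1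
        rw [en1]; exact hM0 p2 q2 hpsi1
      · show m00 + m01 * p3 + n2 * (m00 + m01 * q3) = 1
        rw [en2]; exact hM0 p3 q3 hpsi2
    hM1 := by
      intro l
      fin_cases l
      · show m10 + m11 * p1 + n0 * (m10 + m11 * q1) = p1
        rw [en0]; exact hM1 p1 q1 hpsi0
      · show m10 + m11 * p2 + n1 * (m10 + m11 * q2) = p2
        rw [en1]; exact hM1 p2 q2 hpsi1
      · show m10 + m11 * p3 + n2 * (m10 + m11 * q3) = p3
        rw [en2]; exact hM1 p3 q3 hpsi2
    hs := by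
      intro l
      fin_cases l
      · show m10 + m11 * q1 = s0 * (m00 + m01 * q1)
        linear_combination -es0
      · show m10 + m11 * q2 = s1 * (m00 + m01 * q2)
        linear_combination -es1
      · exact hs2
    hd := by
      intro l
      fin_cases l
      · exact rd0.ne hu (by norm_num)
      · exact rd1.ne hu (by norm_num)
      · exact rd2.ne hu (by norm_num)
    hker := by
      intro e f hef
      refine (((hk1 e).mul (hk2 f)).sub ((hk1 f).mul (hk2 e))).ne hu ?_
      intro h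
      apply hef
      apply algconfigA_inj
      have h2 : ((algconfigA e : ℤ) : k) = ((algconfigA f : ℤ) : k) := by
        have h3 : (2 : k) ≠ 0 := two_ne_zero
        field_simp at h
        linear_combination h
      exact_mod_cast h2
    hx12 := fun h => ((rv1.sub rv2).ne hu (by norm_num)) (sub_eq_zero.2 h)
    hx13 := fun h => ((rv1.sub rv3).ne hu (by norm_num)) (sub_eq_zero.2 h)
    hx23 := fun h => ((rv2.sub rv3).ne hu (by norm_num)) (sub_eq_zero.2 h)
    hx1 := fun h => ((r01.sub rv2).ne hu (by norm_num)) (sub_eq_zero.2 h)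
    hx2 := fun h => ((r01.sub rv3).ne hu (by norm_num)) (sub_eq_zero.2 h)
    h4d := ((r0.add rq1).sub (rp1.add rq0)).ne hu (by norm_num)
    hdet := (((i1.add i2).mul ((i1.add i2).sub (rga.mul ((rb.add rc).sub rs2)))).sub
      (rga.mul (ral'.sub (rga.mul (ral.sub ((rb.add rc).mul rs2)))))).ne hu (by norm_num)
    hG := (((r00.add (rv0.mul rq0)).mul (r11.sub (r0.mul rv0))).sub
      ((r01.sub rv0).mul (r10.add ((r0.mul rv0).mul rq0)))).ne hu (by norm_num)
    hg4 := (algconfigR.altern (by norm_num) (E4 (2, 0)) hX hY).ne hu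
      (Int.cast_ne_zero.2 algconfig_alt4)
    hg5 := (algconfigR.altern (by norm_num) (E5 (1, 1)) hX hY).ne hu
      (Int.cast_ne_zero.2 algconfig_alt5)
    hg7 := (algconfigR.altern le_rfl (E7 (3, 0)) hX hY).ne hu
      (Int.cast_ne_zero.2 algconfig_alt7) }⟩

theorem exists_config (k : Type) [Field k] [CharZero k] :
    ∃ (L : Type) (_ : Field L) (_ : Algebra k L), Nonempty (Config k L) := by
  refine ⟨FractionRing (MvPowerSeries (Fin 8) k), inferInstance, inferInstance, ?_⟩
  have hr : ∀ (t : k) (i : Fin 8), algconfigR (algebraMap (MvPowerSeries (Fin 8) k)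
      (FractionRing (MvPowerSeries (Fin 8) k))) (MvPowerSeries.constantCoeff (σ := Fin 8) (R := k))
      (algebraMap _ _ (MvPowerSeries.C t + MvPowerSeries.X i)) t :=
    fun t i => ⟨_, rfl, by simp⟩
  refine algconfig_main (algebraMap (MvPowerSeries (Fin 8) k)
    (FractionRing (MvPowerSeries (Fin 8) k))) (MvPowerSeries.constantCoeff (σ := Fin 8) (R := k))
    ?_ _ (algconfig_indep k ![1, -5, 7, -3, 0, 0, 10, 0]) (hr _ _) (hr _ _) (hr _ _) (hr _ _)
    (hr _ _) (hr _ _) (hr _ _) (hr _ _)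
  intro y hy
  exact IsUnit.of_mul_eq_one _ (MvPowerSeries.mul_inv_cancel y hy)

end Pool.Agent.H.MP_c30e5d_gt
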