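import Pool.Agent.H.MP_c30e5d_gt.AlgPoints

/-!
# The alternants are constant multiples of products of edge forms
-/

namespace Pool.Agent.H.MP_c30e5d_gt

open MvPolynomial

section
variable {k L : Type} [Field k] [Field L] [Algebra k L] (cf : Config k L)

/-- number of edges among the first `k` points -/
def nEdge : ℕ → ℕ
  | 2 => 1
  | 4 => 4
  | 5 => 6
  | 7 => 11
  | _ => 0

/-- A common divisor of the differences of two rows divides the determinant. -/
theorem algconst_dvd_det {A : Type} [CommRing A] {n : ℕ} (M : Matrix (Fin n) (Fin n) A)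
    (i j : Fin n) (hij : i ≠ j) (d : A) (h : ∀ l, d ∣ M i l - M j l) : d ∣ M.det := by
  choose w hw using h
  have h1 : (M.updateRow i (M i + (-1 : A) • M j)).det = M.det :=
    Matrix.det_updateRow_add_smul_self M hij (-1)
  have h2 : M i + (-1 : A) • M j = d • w := by
    funext l
    simp only [Pi.add_apply, Pi.smul_apply, smul_eq_mul]
    rw [← hw l]
    ring
  rw [← h1, h2, Matrix.det_updateRow_smul]
  exact dvd_mul_right _ _

theorem algconst_dvd_mon {A : Type} [CommRing A] (d x y x' y' : A) (hx : d ∣ x - x')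
    (hy : d ∣ y - y') (a b : ℕ) : d ∣ x ^ a * y ^ b - x' ^ a * y' ^ b := by
  have h1 : d ∣ x ^ a - x' ^ a := hx.trans (sub_dvd_pow_sub_pow x x' a)
  have h2 : d ∣ y ^ b - y' ^ b := hy.trans (sub_dvd_pow_sub_pow y y' b)
  have h3 : x ^ a * y ^ b - x' ^ a * y' ^ b = (x ^ a - x' ^ a) * y ^ b + x' ^ a * (y ^ b - y' ^ b) := by
    ring
  rw [h3]
  exact dvd_add (h1.mul_right _) (h2.mul_left _)

theorem algconst_forall7 {A : Type} (P : A → Prop) (v0 v1 v2 v3 v4 v5 v6 : A) (h0 : P v0)
    (h1 : P v1) (h2 : P v2) (h3 : P v3) (h4 : P v4) (h5 : P v5) (h6 : P v6) :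
    ∀ i : Fin 7, P ((![v0, v1, v2, v3, v4, v5, v6] : Fin 7 → A) i) := by
  intro i
  fin_cases i
  exacts [h0, h1, h2, h3, h4, h5, h6]

section deg
variable {F : Type} [Field F]

theorem algconst_add {f g : MvPolynomial (Fin 2) F} (hf : f.totalDegree ≤ 1)
    (hg : g.totalDegree ≤ 1) : (f + g).totalDegree ≤ 1 :=
  (totalDegree_add f g).trans (max_le hf hg)

theorem algconst_sub {f g : MvPolynomial (Fin 2) F} (hf : f.totalDegree ≤ 1)
    (hg : g.totalDegree ≤ 1) : (f - g).totalDegree ≤ 1 :=
  (totalDegree_sub f g).trans (max_le hf hg)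

theorem algconst_C (a : F) : (C a : MvPolynomial (Fin 2) F).totalDegree ≤ 1 := by
  rw [totalDegree_C]
  exact Nat.zero_le _

theorem algconst_zero : (0 : MvPolynomial (Fin 2) F).totalDegree ≤ 1 := by
  rw [totalDegree_zero]
  exact Nat.zero_le _

theorem algconst_X (i : Fin 2) : (X i : MvPolynomial (Fin 2) F).totalDegree ≤ 1 :=
  (totalDegree_X i).le

theorem algconst_Cmul (a : F) {f : MvPolynomial (Fin 2) F} (hf : f.totalDegree ≤ 1) :
    (C a * f).totalDegree ≤ 1 := by
  refine (totalDegree_mul _ _).trans ?_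
  rw [totalDegree_C, zero_add]
  exact hf

end deg

theorem algconst_degX (i : Fin 7) : (cf.PX i).totalDegree ≤ 1 := by
  refine algconst_forall7 (fun f : MvPolynomial (Fin 2) L => f.totalDegree ≤ 1)
    _ _ _ _ _ _ _ ?_ ?_ ?_ ?_ ?_ ?_ ?_ i
  · exact algconst_add (algconst_C _) (algconst_Cmul _ (algconst_sub (algconst_X _)
      (algconst_Cmul _ (algconst_X _))))
  · exact algconst_C _
  · exact algconst_add (algconst_C _) (algconst_X _)
  · exact algconst_add (algconst_C _) (algconst_Cmul _ (algconst_sub (algconst_X _)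
      (algconst_Cmul _ (algconst_X _))))
  · exact algconst_add (algconst_C _) (algconst_Cmul _ (algconst_sub (algconst_X _)
      (algconst_Cmul _ (algconst_X _))))
  · exact algconst_add (algconst_C _) (algconst_Cmul _ (algconst_sub (algconst_X _)
      (algconst_Cmul _ (algconst_X _))))
  · exact algconst_add (algconst_add (algconst_C _) (algconst_Cmul _ (algconst_X _)))
      (algconst_Cmul _ (algconst_X _))

theorem algconst_degY (i : Fin 7) : (cf.PY i).totalDegree ≤ 1 := by
  refine algconst_forall7 (fun f : MvPolynomial (Fin 2) L => f.totalDegree ≤ 1)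
    _ _ _ _ _ _ _ ?_ ?_ ?_ ?_ ?_ ?_ ?_ i
  · exact algconst_Cmul _ (algconst_Cmul _ (algconst_sub (algconst_X _)
      (algconst_Cmul _ (algconst_X _))))
  · exact algconst_zero
  · exact algconst_X _
  · exact algconst_Cmul _ (algconst_Cmul _ (algconst_sub (algconst_X _)
      (algconst_Cmul _ (algconst_X _))))
  · exact algconst_Cmul _ (algconst_Cmul _ (algconst_sub (algconst_X _)
      (algconst_Cmul _ (algconst_X _))))
  · exact algconst_Cmul _ (algconst_Cmul _ (algconst_sub (algconst_X _)
      (algconst_Cmul _ (algconst_X _))))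
  · exact algconst_add (algconst_Cmul _ (algconst_X _)) (algconst_Cmul _ (algconst_X _))

theorem algconst_alt_deg {n : ℕ} (hn : n ≤ 7) (E : Fin n → ℕ × ℕ) :
    (alt hn E cf.PX cf.PY).totalDegree ≤ ∑ j, ((E j).1 + (E j).2) := by
  rw [alt, Matrix.det_apply]
  refine totalDegree_finsetSum_le ?_
  intro σ _
  have h1 : (∏ i, (Matrix.of fun i j : Fin n =>
      cf.PX (Fin.castLE hn i) ^ (E j).1 * cf.PY (Fin.castLE hn i) ^ (E j).2) (σ i) i).totalDegree ≤
      ∑ j, ((E j).1 + (E j).2) := by
    refine (totalDegree_finsetProd _ _).trans ?_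
    refine Finset.sum_le_sum ?_
    intro j _
    rw [Matrix.of_apply]
    refine (totalDegree_mul _ _).trans ?_
    refine add_le_add ?_ ?_
    · refine (totalDegree_pow _ _).trans ?_
      calc (E j).1 * (cf.PX (Fin.castLE hn (σ j))).totalDegree ≤ (E j).1 * 1 :=
            Nat.mul_le_mul_left _ (algconst_degX cf _)
        _ = (E j).1 := mul_one _
    · refine (totalDegree_pow _ _).trans ?_
      calc (E j).2 * (cf.PY (Fin.castLE hn (σ j))).totalDegree ≤ (E j).2 * 1 :=
            Nat.mul_le_mul_left _ (algconst_degY cf _)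
        _ = (E j).2 := mul_one _
  rcases Int.units_eq_one_or (Equiv.Perm.sign σ) with h | h
  · rw [h, one_smul]
    exact h1
  · rw [h, Units.neg_smul, one_smul, totalDegree_neg]
    exact h1

theorem algconst_eps_ne (e : Fin 11) : cf.eps e ≠ 0 := by
  intro h
  have h1 := cf.eps_deg e
  rw [h, totalDegree_zero] at h1
  exact absurd h1 (by norm_num)

theorem algconst_prod_deg (s : Finset (Fin 11)) :
    (∏ e ∈ s, cf.eps e).totalDegree = s.card := by
  induction s using Finset.induction_on with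
  | empty => simp
  | insert a s ha ih =>
    rw [Finset.prod_insert ha, Finset.card_insert_of_notMem ha,
      totalDegree_mul_of_isDomain (algconst_eps_ne cf a)
        (Finset.prod_ne_zero_iff.mpr fun e _ => algconst_eps_ne cf e), ih, cf.eps_deg a, add_comm]

theorem algconst_card {n : ℕ} (hn' : n = 2 ∨ n = 4 ∨ n = 5 ∨ n = 7) :
    (Finset.univ.filter (fun e : Fin 11 => (e : ℕ) < nEdge n)).card = nEdge n := by
  rcases hn' with rfl | rfl | rfl | rfl <;> rfl

theorem algconst_ends {n : ℕ} (hn' : n = 2 ∨ n = 4 ∨ n = 5 ∨ n = 7) (e : Fin 11)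
    (he : (e : ℕ) < nEdge n) :
    (esrc e : ℕ) < n ∧ (edst e : ℕ) < n ∧ (esrc e : ℕ) ≠ (edst e : ℕ) := by
  rcases hn' with rfl | rfl | rfl | rfl <;> revert he <;> revert e <;> decide

theorem algconst_eps_dvd {n : ℕ} (hn : n ≤ 7) (hn' : n = 2 ∨ n = 4 ∨ n = 5 ∨ n = 7)
    (E : Fin n → ℕ × ℕ) (e : Fin 11) (he : (e : ℕ) < nEdge n) :
    cf.eps e ∣ alt hn E cf.PX cf.PY := by
  obtain ⟨h1, h2, h3⟩ := algconst_ends hn' e he
  obtain ⟨u, v, -, hu, hv⟩ := cf.edge e
  rw [alt]
  refine algconst_dvd_det _ ⟨esrc e, h1⟩ ⟨edst e, h2⟩ ?_ _ ?_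
  · intro h
    exact h3 (Fin.mk.inj h)
  · intro l
    rw [Matrix.of_apply, Matrix.of_apply]
    have e1 : Fin.castLE hn ⟨esrc e, h1⟩ = esrc e := Fin.ext rfl
    have e2 : Fin.castLE hn ⟨edst e, h2⟩ = edst e := Fin.ext rfl
    rw [e1, e2]
    apply algconst_dvd_mon
    · rw [hu]
      exact dvd_mul_left _ _
    · rw [hv]
      exact dvd_mul_left _ _

/-- An alternant of the first `k` points whose exponents have total degree at most `nEdge k` is a
constant multiple of the product of the edge forms of the edges among the first `k` points (these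
are the edges `e < nEdge k`).
PROOF.  Each such `eps e` divides it (subtract the two rows: `x^a y^b - x'^a y'^b` is divisible by
`eps e` as `x - x'`, `y - y'` are), the `eps e` are pairwise relatively prime, so the product
divides (`Finset.prod_dvd_of_isRelPrime`), and the total degree of the determinant is at most
`∑_j ((E j).1 + (E j).2) ≤ nEdge k` while the product has total degree `nEdge k`. -/
theorem Config.alt_const {n : ℕ} (hn : n ≤ 7) (hn' : n = 2 ∨ n = 4 ∨ n = 5 ∨ n = 7)
    (E : Fin n → ℕ × ℕ) (hE : ∑ j, ((E j).1 + (E j).2) ≤ nEdge n) :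
    ∃ c : L, alt hn E cf.PX cf.PY =
      C c * ∏ e ∈ Finset.univ.filter (fun e : Fin 11 => (e : ℕ) < nEdge n), cf.eps e := by
  have hdvd : ∏ e ∈ Finset.univ.filter (fun e : Fin 11 => (e : ℕ) < nEdge n), cf.eps e ∣
      alt hn E cf.PX cf.PY := by
    apply Finset.prod_dvd_of_isRelPrime
    · intro e _ f _ hef
      exact cf.eps_relPrime e f hef
    · intro e he
      exact algconst_eps_dvd cf hn hn' E e (Finset.mem_filter.mp he).2
  obtain ⟨w, hw⟩ := hdvd
  by_cases halt : alt hn E cf.PX cf.PY = 0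
  · exact ⟨0, by rw [halt, C_0, zero_mul]⟩
  · have hw0 : w ≠ 0 := by
      rintro rfl
      exact halt (by rw [hw, mul_zero])
    have hd := algconst_alt_deg cf hn E
    rw [hw, totalDegree_mul_of_isDomain
      (Finset.prod_ne_zero_iff.mpr fun e _ => algconst_eps_ne cf e) hw0,
      algconst_prod_deg, algconst_card hn'] at hd
    have hwd : w.totalDegree = 0 := by omega
    rw [totalDegree_eq_zero_iff_eq_C] at hwd
    refine ⟨coeff 0 w, ?_⟩
    rw [← hwd, hw, mul_comm]

end

end Pool.Agent.H.MP_c30e5d_gt
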