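import Mathlib

/-!
# The 7-point configuration: definitions

`0`-based strands `0, …, 6`.  Points `P_0, …, P_6` of the plane, depending linearly on
`v = (s, t)` (up to the common translation `(c, 0)`):
`P_0 = R_0`, `P_1 = 0`, `P_2 = v`, `P_3 = R_1`, `P_4 = R_2`, `P_5 = R_3`, `P_6 = M v`, where
`R_i = h_i (1, p_i)`, `h_i = (t - q_i s) / (p_i - q_i)` is the projection of `v` to the line of
slope `p_i` along the direction of slope `q_i`.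
-/

namespace Pool.Agent.H.MP_c30e5d_gt

open MvPolynomial

/-- The linking number of the strands `i < j` (it depends only on `j`):
`FT_2^N FT_4^{2N} FT_5^N FT_7^{3N}`. -/
def mexp (N : ℕ) : ℕ → ℕ
  | 1 => 7 * N
  | 2 => 6 * N
  | 3 => 6 * N
  | 4 => 4 * N
  | 5 => 3 * N
  | 6 => 3 * N
  | _ => 0

section
variable {B : Type} [CommRing B]

/-- Alternant `det (x_i ^ (E j).1 * y_i ^ (E j).2)` of the first `k` points. -/
def alt {k : ℕ} (hk : k ≤ 7) (E : Fin k → ℕ × ℕ) (x y : Fin 7 → B) : B :=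
  Matrix.det (Matrix.of fun i j : Fin k =>
    x (Fin.castLE hk i) ^ (E j).1 * y (Fin.castLE hk i) ^ (E j).2)

def E2 (d : ℕ × ℕ) : Fin 2 → ℕ × ℕ := ![(0, 0), d]
def E4 (d : ℕ × ℕ) : Fin 4 → ℕ × ℕ := ![(0, 0), (1, 0), (0, 1), d]
def E5 (d : ℕ × ℕ) : Fin 5 → ℕ × ℕ := ![(0, 0), (1, 0), (0, 1), (2, 0), d]
def E7 (d : ℕ × ℕ) : Fin 7 → ℕ × ℕ := ![(0, 0), (1, 0), (0, 1), (2, 0), (1, 1), (0, 2), d]

def alt2 (d : ℕ × ℕ) (x y : Fin 7 → B) : B := alt (by norm_num) (E2 d) x y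
def alt4 (d : ℕ × ℕ) (x y : Fin 7 → B) : B := alt (by norm_num) (E4 d) x y
def alt5 (d : ℕ × ℕ) (x y : Fin 7 → B) : B := alt (by norm_num) (E5 d) x y
def alt7 (d : ℕ × ℕ) (x y : Fin 7 → B) : B := alt le_rfl (E7 d) x y

/-- first coordinates of the points -/
def ptX (c : B) (q r : Fin 4 → B) (m0 m1 s t : B) : Fin 7 → B :=
  ![c + r 0 * (t - q 0 * s), c, c + s, c + r 1 * (t - q 1 * s), c + r 2 * (t - q 2 * s),
    c + r 3 * (t - q 3 * s), c + m0 * s + m1 * t]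

/-- second coordinates of the points -/
def ptY (p q r : Fin 4 → B) (m0 m1 s t : B) : Fin 7 → B :=
  ![p 0 * (r 0 * (t - q 0 * s)), 0, t, p 1 * (r 1 * (t - q 1 * s)), p 2 * (r 2 * (t - q 2 * s)),
    p 3 * (r 3 * (t - q 3 * s)), m0 * s + m1 * t]

/-- the edges: pairs of points whose difference vanishes along a line of the `v`-plane -/
def esrc : Fin 11 → Fin 7 := ![0, 0, 1, 2, 1, 2, 1, 2, 3, 4, 5]
def edst : Fin 11 → Fin 7 := ![1, 2, 3, 3, 4, 4, 5, 5, 6, 6, 6]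

/-- coefficients `(a, b)` of the linear form `a s + b t` vanishing on the kernel of the edge -/
def ecoef (p q : Fin 4 → B) (n : Fin 3 → B) : Fin 11 → B × B :=
  ![(-q 0, 1), (-p 0, 1), (-q 1, 1), (-p 1, 1), (-q 2, 1), (-p 2, 1), (-q 3, 1), (-p 3, 1),
    (p 1 + n 0 * q 1, -(1 + n 0)), (p 2 + n 1 * q 2, -(1 + n 1)), (p 3 + n 2 * q 3, -(1 + n 2))]

end

/-- A good configuration over a field `L` containing `k`, with algebraically independent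
`τ 0, …, τ 7`. -/
structure Config (k L : Type) [Field k] [Field L] [Algebra k L] where
  τ : Fin 8 → L
  indep : AlgebraicIndependent k τ
  p : Fin 4 → L
  q : Fin 4 → L
  r : Fin 4 → L
  n : Fin 3 → L
  s : Fin 3 → L
  m00 : L
  m01 : L
  m10 : L
  m11 : L
  al : L
  b : L
  c : L
  al' : L
  b' : L
  c' : L
  ga' : L
  hr : ∀ i, r i * (p i - q i) = 1
  hp0 : p 0 = τ 0
  h4a : τ 2 - (p 0 + q 1) * τ 1 + p 0 * q 1 = 0
  h4b : τ 2 - (p 1 + q 0) * τ 1 + p 1 * q 0 = 0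
  hphi : ∀ i : Fin 3, al + b * p i.castSucc + c * q i.castSucc + p i.castSucc * q i.castSucc = 0
  hbc : b + c = -τ 3
  hal : al + (b + c) * τ 1 + τ 2 = 0
  hpsi : ∀ i : Fin 3, al' + b' * p i.succ + c' * q i.succ + ga' * p i.succ * q i.succ = 0
  hpsi1 : ga' * τ 5 + (b' + c') * τ 4 + al' = 0
  hpsi2 : ga' * τ 6 + (b' + c') * τ 5 + al' * τ 4 = 0
  hs4 : (τ 6 - s 2 * τ 5) + (b + c) * (τ 5 - s 2 * τ 4) + al * (τ 4 - s 2) = 0
  hM0 : ∀ l : Fin 3, m00 + m01 * p l.succ + n l * (m00 + m01 * q l.succ) = 1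
  hM1 : ∀ l : Fin 3, m10 + m11 * p l.succ + n l * (m10 + m11 * q l.succ) = p l.succ
  hs : ∀ l : Fin 3, m10 + m11 * q l.succ = s l * (m00 + m01 * q l.succ)
  hd : ∀ l : Fin 3, m00 + m01 * q l.succ ≠ 0
  hker : ∀ e f : Fin 11, e ≠ f → (ecoef p q n e).1 * (ecoef p q n f).2 -
    (ecoef p q n f).1 * (ecoef p q n e).2 ≠ 0
  hx12 : r 1 ≠ r 2
  hx13 : r 1 ≠ r 3
  hx23 : r 2 ≠ r 3
  hx1 : m01 ≠ r 2
  hx2 : m01 ≠ r 3
  h4d : p 0 + q 1 - (p 1 + q 0) ≠ 0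
  hdet : (b' + c') * ((b' + c') - ga' * ((b + c) - s 2)) - ga' * (al' - ga' * (al - (b + c) * s 2)) ≠ 0
  hG : (m00 + r 0 * q 0) * (m11 - p 0 * r 0) - (m01 - r 0) * (m10 + p 0 * r 0 * q 0) ≠ 0
  hg4 : alt4 (2, 0) (ptX (τ 7) q r m00 m01 (-6) 30) (ptY p q r m10 m11 (-6) 30) ≠ 0
  hg5 : alt5 (1, 1) (ptX (τ 7) q r m00 m01 (-6) 30) (ptY p q r m10 m11 (-6) 30) ≠ 0
  hg7 : alt7 (3, 0) (ptX (τ 7) q r m00 m01 (-6) 30) (ptY p q r m10 m11 (-6) 30) ≠ 0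

end Pool.Agent.H.MP_c30e5d_gt
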