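import Pool.Agent.H.MP_c30e5d_gt.AlgDefs

/-!
# The big family of products of alternants
-/

namespace Pool.Agent.H.MP_c30e5d_gt

open MvPolynomial

/-- products of alternants, of exponents `N, 2N, N, 3N` for `k = 2, 4, 5, 7`, times a power of
`x_1`; over any ring, for any points `(x, y)` -/
def gfam {B : Type} [CommRing B] (x y : Fin 7 → B) (N : ℕ) (e : Fin 8 → ℕ) : B :=
  x 1 ^ e 7 *
  (alt2 (1, 0) x y ^ (N - e 0) * alt2 (0, 1) x y ^ e 0) *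
  (alt4 (2, 0) x y ^ (2 * N - e 1 - e 2) * alt4 (1, 1) x y ^ e 1 * alt4 (0, 2) x y ^ e 2) *
  (alt5 (1, 1) x y ^ (N - e 3) * alt5 (0, 2) x y ^ e 3) *
  (alt7 (3, 0) x y ^ (3 * N - e 4 - e 5 - e 6) * alt7 (2, 1) x y ^ e 4 *
    alt7 (1, 2) x y ^ e 5 * alt7 (0, 3) x y ^ e 6)

end Pool.Agent.H.MP_c30e5d_gt
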