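import Pool.Agent.H.MP_c30e5d_gt.AlgFam

/-!
# Degree bound and functoriality of the family
-/

namespace Pool.Agent.H.MP_c30e5d_gt

open MvPolynomial

theorem famdeg_alt {K : Type} [CommRing K] (y : Fin 7 → K) {k : ℕ} (hk : k ≤ 7)
    (E : Fin k → ℕ × ℕ) :
    (alt hk E (fun j => (X j : MvPolynomial (Fin 7) K)) (fun j => C (y j))).totalDegree
      ≤ ∑ j, (E j).1 := by
  unfold alt
  rw [Matrix.det_apply]
  refine (totalDegree_finsetSum _ _).trans (Finset.sup_le fun σ _ => ?_)
  have h1 : (Equiv.Perm.sign σ • ∏ i, (Matrix.of fun i j : Fin k =>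
      (X (Fin.castLE hk i) : MvPolynomial (Fin 7) K) ^ (E j).1 *
        (C (y (Fin.castLE hk i))) ^ (E j).2) (σ i) i).totalDegree ≤
      (∏ i, (Matrix.of fun i j : Fin k =>
      (X (Fin.castLE hk i) : MvPolynomial (Fin 7) K) ^ (E j).1 *
        (C (y (Fin.castLE hk i))) ^ (E j).2) (σ i) i).totalDegree := by
    rcases Int.units_eq_one_or (Equiv.Perm.sign σ) with h | h
    · rw [h, one_smul]
    · rw [h, Units.neg_smul, one_smul, totalDegree_neg]
  refine h1.trans ((totalDegree_finsetProd _ _).trans (Finset.sum_le_sum fun i _ => ?_))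
  rw [Matrix.of_apply, ← map_pow]
  refine (totalDegree_mul _ _).trans ?_
  rw [totalDegree_C, add_zero]
  refine (totalDegree_pow _ _).trans ?_
  calc (E i).1 * (X (Fin.castLE hk (σ i)) : MvPolynomial (Fin 7) K).totalDegree
      ≤ (E i).1 * 1 := Nat.mul_le_mul_left _ (by
        refine (totalDegree_monomial_le _ _).trans ?_
        simp)
    _ = (E i).1 := mul_one _

theorem famdeg_pow {K : Type} [CommRing K] {P : MvPolynomial (Fin 7) K} {d : ℕ}
    (h : P.totalDegree ≤ d) (n : ℕ) : (P ^ n).totalDegree ≤ n * d :=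
  (totalDegree_pow _ _).trans (Nat.mul_le_mul_left _ h)

theorem famdeg_mul {K : Type} [CommRing K] {P Q : MvPolynomial (Fin 7) K} {d d' : ℕ}
    (h : P.totalDegree ≤ d) (h' : Q.totalDegree ≤ d') : (P * Q).totalDegree ≤ d + d' :=
  (totalDegree_mul _ _).trans (Nat.add_le_add h h')

/-- For the generic points (`x_j = X j`, `y_j = C (X j)` in `k[y][x]`) the total degree in `x` is at
most `49 N`: `alt2, alt4, alt5, alt7` have `x`-degree at most `1, 4, 6, 11`. -/
theorem gfam_deg {K : Type} [CommRing K] (y : Fin 7 → K) (N : ℕ) (e : Fin 8 → ℕ)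
    (he : ∀ i, e i ≤ N) :
    (gfam (fun j => (X j : MvPolynomial (Fin 7) K)) (fun j => C (y j)) N e).totalDegree
      ≤ 49 * N := by
  have a2 : ∀ d : ℕ × ℕ, d.1 ≤ 1 → (alt2 d (fun j => (X j : MvPolynomial (Fin 7) K))
      (fun j => C (y j))).totalDegree ≤ 1 := fun d hd => (famdeg_alt y _ _).trans (by
    simp [E2, Fin.sum_univ_succ]; omega)
  have a4 : ∀ d : ℕ × ℕ, d.1 ≤ 2 → (alt4 d (fun j => (X j : MvPolynomial (Fin 7) K))
      (fun j => C (y j))).totalDegree ≤ 4 := fun d hd => (famdeg_alt y _ _).trans (by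
    simp [E4, Fin.sum_univ_succ]; omega)
  have a5 : ∀ d : ℕ × ℕ, d.1 ≤ 1 → (alt5 d (fun j => (X j : MvPolynomial (Fin 7) K))
      (fun j => C (y j))).totalDegree ≤ 6 := fun d hd => (famdeg_alt y _ _).trans (by
    simp [E5, Fin.sum_univ_succ]; omega)
  have a7 : ∀ d : ℕ × ℕ, d.1 ≤ 3 → (alt7 d (fun j => (X j : MvPolynomial (Fin 7) K))
      (fun j => C (y j))).totalDegree ≤ 11 := fun d hd => (famdeg_alt y _ _).trans (by
    simp [E7, Fin.sum_univ_succ]; omega)
  have aX : ((X 1 : MvPolynomial (Fin 7) K)).totalDegree ≤ 1 := by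
    refine (totalDegree_monomial_le _ _).trans ?_
    simp
  unfold gfam
  refine (famdeg_mul (famdeg_mul (famdeg_mul (famdeg_mul (famdeg_pow aX (e 7))
    (famdeg_mul (famdeg_pow (a2 _ (by norm_num)) _) (famdeg_pow (a2 _ (by norm_num)) _)))
    (famdeg_mul (famdeg_mul (famdeg_pow (a4 _ (by norm_num)) _)
      (famdeg_pow (a4 _ (by norm_num)) _)) (famdeg_pow (a4 _ (by norm_num)) _)))
    (famdeg_mul (famdeg_pow (a5 _ (by norm_num)) _) (famdeg_pow (a5 _ (by norm_num)) _)))
    (famdeg_mul (famdeg_mul (famdeg_mul (famdeg_pow (a7 _ (by norm_num)) _)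
      (famdeg_pow (a7 _ (by norm_num)) _)) (famdeg_pow (a7 _ (by norm_num)) _))
      (famdeg_pow (a7 _ (by norm_num)) _))).trans ?_
  have h0 := he 0
  have h1 := he 1
  have h2 := he 2
  have h3 := he 3
  have h4 := he 4
  have h5 := he 5
  have h6 := he 6
  have h7 := he 7
  omega

theorem famdeg_map {B B' : Type} [CommRing B] [CommRing B'] (f : B →+* B') (x y : Fin 7 → B)
    {k : ℕ} (hk : k ≤ 7) (E : Fin k → ℕ × ℕ) :
    f (alt hk E x y) = alt hk E (fun j => f (x j)) (fun j => f (y j)) := by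
  unfold alt
  rw [RingHom.map_det]
  congr 1
  ext i j
  simp

/-- `gfam` commutes with ring homomorphisms. -/
theorem gfam_map {B B' : Type} [CommRing B] [CommRing B'] (f : B →+* B') (x y : Fin 7 → B)
    (N : ℕ) (e : Fin 8 → ℕ) :
    f (gfam x y N e) = gfam (fun j => f (x j)) (fun j => f (y j)) N e := by
  simp only [gfam, alt2, alt4, alt5, alt7, map_mul, map_pow, famdeg_map]

end Pool.Agent.H.MP_c30e5d_gt
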