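import Pool.Agent.H.MP_c30e5d_gt.AlgFam

/-!
# The family lies in all the powers of the diagonal ideals
-/

namespace Pool.Agent.H.MP_c30e5d_gt

open MvPolynomial

theorem fammem_alt {B : Type} [CommRing B] {k : ℕ} (hk : k ≤ 7) (E : Fin k → ℕ × ℕ)
    (x y : Fin 7 → B) (i j : Fin 7) (hij : i < j) (hj : (j : ℕ) < k) :
    alt hk E x y ∈ Ideal.span {x i - x j, y i - y j} := by
  have hi : (i : ℕ) < k := lt_trans hij hj
  have hx : Ideal.Quotient.mk (Ideal.span {x i - x j, y i - y j}) (x i) =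
      Ideal.Quotient.mk (Ideal.span {x i - x j, y i - y j}) (x j) :=
    Ideal.Quotient.eq.2 (Ideal.subset_span (by simp))
  have hy : Ideal.Quotient.mk (Ideal.span {x i - x j, y i - y j}) (y i) =
      Ideal.Quotient.mk (Ideal.span {x i - x j, y i - y j}) (y j) :=
    Ideal.Quotient.eq.2 (Ideal.subset_span (by simp))
  rw [← Ideal.Quotient.eq_zero_iff_mem]
  unfold alt
  rw [RingHom.map_det]
  refine Matrix.det_zero_of_row_eq (i := ⟨i, hi⟩) (j := ⟨j, hj⟩) ?_ ?_
  · intro h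
    have h1 : (i : ℕ) = j := Fin.mk.inj_iff.1 h
    exact absurd h1 (by have : (i : ℕ) < j := hij; omega)
  · funext l
    have e1 : Fin.castLE hk ⟨i, hi⟩ = i := Fin.ext rfl
    have e2 : Fin.castLE hk ⟨j, hj⟩ = j := Fin.ext rfl
    simp only [RingHom.mapMatrix_apply, Matrix.map_apply, Matrix.of_apply, map_mul, map_pow,
      e1, e2, hx, hy]

theorem fammem_blk2 {B : Type} [CommRing B] {I : Ideal B} {a b : B} {m e : ℕ} (he : e ≤ m)
    (ha : a ∈ I) (hb : b ∈ I) : a ^ (m - e) * b ^ e ∈ I ^ m := by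
  have h1 : m = (m - e) + e := by omega
  have h2 : a ^ (m - e) * b ^ e ∈ I ^ ((m - e) + e) := by
    rw [pow_add]
    exact Ideal.mul_mem_mul (Ideal.pow_mem_pow ha _) (Ideal.pow_mem_pow hb _)
  rwa [← h1] at h2

theorem fammem_blk3 {B : Type} [CommRing B] {I : Ideal B} {a b c : B} {m e f : ℕ}
    (he : e + f ≤ m) (ha : a ∈ I) (hb : b ∈ I) (hc : c ∈ I) :
    a ^ (m - e - f) * b ^ e * c ^ f ∈ I ^ m := by
  have h1 : m = (m - e - f) + e + f := by omega
  have h2 : a ^ (m - e - f) * b ^ e * c ^ f ∈ I ^ ((m - e - f) + e + f) := by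
    rw [pow_add, pow_add]
    exact Ideal.mul_mem_mul (Ideal.mul_mem_mul (Ideal.pow_mem_pow ha _) (Ideal.pow_mem_pow hb _))
      (Ideal.pow_mem_pow hc _)
  rwa [← h1] at h2

theorem fammem_blk4 {B : Type} [CommRing B] {I : Ideal B} {a b c d : B} {m e f g : ℕ}
    (he : e + f + g ≤ m) (ha : a ∈ I) (hb : b ∈ I) (hc : c ∈ I) (hd : d ∈ I) :
    a ^ (m - e - f - g) * b ^ e * c ^ f * d ^ g ∈ I ^ m := by
  have h1 : m = (m - e - f - g) + e + f + g := by omega
  have h2 : a ^ (m - e - f - g) * b ^ e * c ^ f * d ^ g ∈ I ^ ((m - e - f - g) + e + f + g) := by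
    rw [pow_add, pow_add, pow_add]
    exact Ideal.mul_mem_mul (Ideal.mul_mem_mul (Ideal.mul_mem_mul (Ideal.pow_mem_pow ha _)
      (Ideal.pow_mem_pow hb _)) (Ideal.pow_mem_pow hc _)) (Ideal.pow_mem_pow hd _)
  rwa [← h1] at h2

/-- PROOF.  For `i < j < n` the alternant of the first `n` points lies in
`(x_i - x_j, y_i - y_j)` (in the quotient two rows become equal).  The number of factors of `gfam`
which are alternants of more than `j` points is `mexp N j`
(`j = 1`: `N + 2N + N + 3N`; `j = 2, 3`: `2N + N + 3N`; `j = 4`: `N + 3N`; `j = 5, 6`: `3N`). -/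
theorem gfam_mem {B : Type} [CommRing B] (x y : Fin 7 → B) (N : ℕ) (e : Fin 8 → ℕ)
    (he : ∀ i, e i ≤ N) (i j : Fin 7) (hij : i < j) :
    gfam x y N e ∈ (Ideal.span {x i - x j, y i - y j}) ^ (mexp N (j : ℕ)) := by
  have hm : mexp N (j : ℕ) = (if (j : ℕ) < 2 then N else 0) + (if (j : ℕ) < 4 then 2 * N else 0) +
      (if (j : ℕ) < 5 then N else 0) + 3 * N := by
    obtain ⟨j, hj⟩ := j
    have hj0 : 0 < j := lt_of_le_of_lt (Nat.zero_le _) (Fin.lt_def.1 hij)
    have hj1 : j = 1 ∨ j = 2 ∨ j = 3 ∨ j = 4 ∨ j = 5 ∨ j = 6 := by omega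
    rcases hj1 with h | h | h | h | h | h <;> subst h <;> simp [mexp] <;> ring
  rw [hm, pow_add, pow_add, pow_add]
  unfold gfam
  refine Ideal.mul_mem_mul (Ideal.mul_mem_mul (Ideal.mul_mem_mul (Ideal.mul_mem_left _ _ ?_) ?_)
    ?_) ?_
  · by_cases h : (j : ℕ) < 2
    · rw [if_pos h]
      exact fammem_blk2 (he 0) (fammem_alt _ _ x y i j hij h) (fammem_alt _ _ x y i j hij h)
    · rw [if_neg h, pow_zero, Ideal.one_eq_top]
      exact Submodule.mem_top
  · by_cases h : (j : ℕ) < 4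
    · rw [if_pos h]
      exact fammem_blk3 (by have := he 1; have := he 2; omega) (fammem_alt _ _ x y i j hij h)
        (fammem_alt _ _ x y i j hij h) (fammem_alt _ _ x y i j hij h)
    · rw [if_neg h, pow_zero, Ideal.one_eq_top]
      exact Submodule.mem_top
  · by_cases h : (j : ℕ) < 5
    · rw [if_pos h]
      exact fammem_blk2 (he 3) (fammem_alt _ _ x y i j hij h) (fammem_alt _ _ x y i j hij h)
    · rw [if_neg h, pow_zero, Ideal.one_eq_top]
      exact Submodule.mem_top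
  · exact fammem_blk4 (by have := he 4; have := he 5; have := he 6; omega)
      (fammem_alt _ _ x y i j hij j.2) (fammem_alt _ _ x y i j hij j.2)
      (fammem_alt _ _ x y i j hij j.2) (fammem_alt _ _ x y i j hij j.2)

end Pool.Agent.H.MP_c30e5d_gt
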