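import Mathlib

/-!
# Too many polynomials of bounded degree are linearly dependent
-/

namespace Pool.Agent.H.MP_c30e5d_gt

open MvPolynomial

/-- PROOF.  The polynomials of total degree `≤ 49 N` in `7` variables over a domain `K` lie in the
free submodule spanned by the `(49 N + 1)^7` monomials with all exponents `≤ 49 N`, and there are
`(N + 1)^8 > (49 N + 1)^7` elements in the family (`N ≥ 10^12 > 49^7`:
`(49 N + 1)^7 ≤ (49 (N+1))^7 = 49^7 (N+1)^7 < (N + 1)^8`).
(`Fintype.not_linearIndependent_iff`, `LinearIndependent.fintype_card_le_finrank`.) -/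
theorem exists_relation {K : Type} [CommRing K] [IsDomain K] (N : ℕ) (hN : 10 ^ 12 ≤ N)
    (g : (Fin 8 → Fin (N + 1)) → MvPolynomial (Fin 7) K)
    (hg : ∀ e, (g e).totalDegree ≤ 49 * N) :
    ∃ P : (Fin 8 → Fin (N + 1)) → K, P ≠ 0 ∧ ∑ e, C (P e) * g e = 0 := by
  set v : (Fin 8 → Fin (N + 1)) → ((Fin 7 → Fin (49 * N + 1)) → K) := fun e k =>
    coeff (Finsupp.equivFunOnFinite.symm fun i => (k i : ℕ)) (g e) with hv
  have hli : ¬ LinearIndependent K v := by
    intro h
    have h1 := h.fintype_card_le_finrank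
    rw [Module.finrank_fintype_fun_eq_card, Fintype.card_fun, Fintype.card_fun, Fintype.card_fin,
      Fintype.card_fin, Fintype.card_fin, Fintype.card_fin] at h1
    have h2 : (49 * N + 1) ^ 7 ≤ (49 * (N + 1)) ^ 7 := Nat.pow_le_pow_left (by omega) 7
    have h3 : (49 * (N + 1)) ^ 7 = 49 ^ 7 * (N + 1) ^ 7 := mul_pow _ _ _
    have h4 : 49 ^ 7 * (N + 1) ^ 7 < (N + 1) * (N + 1) ^ 7 := by
      apply Nat.mul_lt_mul_of_pos_right _ (by positivity)
      norm_num at hN ⊢
      omega
    have h5 : (N + 1) * (N + 1) ^ 7 = (N + 1) ^ 8 := by ring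
    omega
  obtain ⟨P, hP, i, hi⟩ := Fintype.not_linearIndependent_iff.1 hli
  refine ⟨P, fun h => hi (by rw [h]; rfl), ?_⟩
  ext m
  rw [coeff_sum, coeff_zero]
  simp only [coeff_C_mul]
  by_cases hm : ∀ i, m i < 49 * N + 1
  · have h1 := congrFun hP fun i => (⟨m i, hm i⟩ : Fin (49 * N + 1))
    rw [Finset.sum_apply] at h1
    simp only [Pi.smul_apply, smul_eq_mul, Pi.zero_apply, hv] at h1
    have h2 : (Finsupp.equivFunOnFinite.symm fun i => m i) = m := by
      ext i
      simp
    rw [h2] at h1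
    exact h1
  · push Not at hm
    obtain ⟨j, hj⟩ := hm
    apply Finset.sum_eq_zero
    intro e _
    have h1 : coeff m (g e) = 0 := by
      apply coeff_eq_zero_of_totalDegree_lt
      have h2 : m j ≤ ∑ i ∈ m.support, m i := by
        by_cases h3 : j ∈ m.support
        · exact Finset.single_le_sum (f := fun i => m i) (fun _ _ => Nat.zero_le _) h3
        · have h4 : m j = 0 := by simpa using h3
          omega
      have h5 := hg e
      omega
    rw [h1, mul_zero]

end Pool.Agent.H.MP_c30e5d_gt
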