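import Pool.Agent.H.MP_c30e5d_gt.AlgMainA
import Pool.Agent.H.MP_c30e5d_gt.FamMem
import Pool.Agent.H.MP_c30e5d_gt.FamDeg
import Pool.Agent.H.MP_c30e5d_gt.FamRel

/-!
# The contradiction
-/

namespace Pool.Agent.H.MP_c30e5d_gt

open MvPolynomial

section
variable {k L : Type} [Field k] [Field L] [Algebra k L] (cf : Config k L)

/-- the specialisation `x_j ↦ PX j`, `y_j ↦ PY j` of `k[y][x]` in `L[s,t]` -/
noncomputable def Config.th :
    MvPolynomial (Fin 7) (MvPolynomial (Fin 7) k) →+* MvPolynomial (Fin 2) L :=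
  eval₂Hom (eval₂Hom ((C : L →+* MvPolynomial (Fin 2) L).comp (algebraMap k L)) cf.PY) cf.PX

end

section
variable {k L : Type} [Field k] [Field L] [Algebra k L] (cf : Config k L)

theorem algmain_thX (j : Fin 7) : cf.th (X j) = cf.PX j := by
  simp [Config.th]

theorem algmain_thY (j : Fin 7) : cf.th (C (X j)) = cf.PY j := by
  simp [Config.th]

theorem algmain_thC (a : k) : cf.th (C (C a)) = C (algebraMap k L a) := by
  simp [Config.th]

theorem algmain_lt : ∀ e : Fin 11, esrc e < edst e := by decide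

theorem algmain_eps_ne (e : Fin 11) : cf.eps e ≠ 0 := by
  intro h
  have h1 := cf.eps_deg e
  rw [h, totalDegree_zero] at h1
  exact absurd h1 (by norm_num)

theorem algmain_PY (j : Fin 7) : constantCoeff (cf.PY j) = 0 := by
  fin_cases j <;> simp [Config.PY, ptY]

/-- Every element of the ideal becomes divisible by the product of the powers of the edge forms. -/
theorem algmain_dvd (N : ℕ) (F : Ideal (MvPolynomial (Fin 7) (MvPolynomial (Fin 7) k)))
    (T1 : ∀ (B : Type) [CommRing B] [IsDomain B]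
      (θ : MvPolynomial (Fin 7) (MvPolynomial (Fin 7) k) →+* B) (i j : Fin 7) (ε u : B),
      i < j → IsUnit u → θ (X i) - θ (X j) = u * ε → θ (X i) ≠ θ (X j) →
      ε ∣ θ (C (X i)) - θ (C (X j)) → (∀ l, i < l → l < j → θ (X l) ≠ θ (X j)) →
      ∀ g ∈ F, ε ^ mexp N (j : ℕ) ∣ θ g) (f : MvPolynomial (Fin 7) (MvPolynomial (Fin 7) k))
    (hf : f ∈ F) : (∏ e : Fin 11, cf.eps e ^ mexp N (edst e : ℕ)) ∣ cf.th f := by
  refine Finset.prod_dvd_of_isRelPrime ?_ ?_
  · intro e _ e' _ hne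
    exact (cf.eps_relPrime e e' hne).pow
  · intro e _
    obtain ⟨u, v, hu, h1, h2⟩ := cf.edge e
    refine T1 (MvPolynomial (Fin 2) L) cf.th (esrc e) (edst e) (cf.eps e) (C u) (algmain_lt e)
      ?_ ?_ ?_ ?_ ?_ f hf
    · exact (isUnit_iff_ne_zero.mpr hu).map C
    · rw [algmain_thX, algmain_thX]
      exact h1
    · rw [algmain_thX, algmain_thX]
      intro h3
      rw [h3, sub_self] at h1
      rcases mul_eq_zero.mp h1.symm with h4 | h4
      · exact hu (C_injective (Fin 2) L (by rw [h4, C_0]))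
      · exact algmain_eps_ne cf e h4
    · rw [algmain_thY, algmain_thY, h2]
      exact dvd_mul_left _ _
    · intro l hl1 hl2
      rw [algmain_thX, algmain_thX]
      exact cf.between e l hl1 hl2

/-- The monomials in the `τ j` are linearly independent over `k`. -/
theorem algmain_indep (N : ℕ) (c : (Fin 8 → Fin (N + 1)) → k)
    (h : ∑ e, algebraMap k L (c e) * cf.mon (fun i => (e i : ℕ)) = 0) : c = 0 := by
  classical
  have hq : (∑ e : Fin 8 → Fin (N + 1),
      monomial (Finsupp.equivFunOnFinite.symm (fun i => (e i : ℕ))) (c e)) =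
      (0 : MvPolynomial (Fin 8) k) := by
    refine cf.indep ?_
    rw [map_sum, map_zero, ← h]
    refine Finset.sum_congr rfl fun e _ => ?_
    rw [aeval_monomial, Finsupp.prod_fintype _ _ (fun i => pow_zero _)]
    rfl
  funext e₀
  have h1 := congrArg (coeff (Finsupp.equivFunOnFinite.symm (fun i => (e₀ i : ℕ)))) hq
  rw [coeff_sum, coeff_zero, Finset.sum_eq_single e₀] at h1
  · rw [coeff_monomial, if_pos rfl] at h1
    exact h1
  · intro e _ hne
    rw [coeff_monomial, if_neg]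
    intro h2
    apply hne
    funext i
    have h3 := DFunLike.congr_fun h2 i
    exact Fin.ext h3
  · intro h2
    exact absurd (Finset.mem_univ _) h2

end

/-- The final contradiction.
PROOF.  Take `cf` from `exists_config`, `θ = cf.th`, `g e = gfam X (C X) N e` for
`e : Fin 8 → Fin (N+1)`.  By `gfam_mem` and `T2`, `g e ∈ F`.  By `gfam_deg`, `exists_relation` and
`T3` there is `c ≠ 0` with `∑ C (C (c e)) * g e ∈ (y) F`.
Write `Π = ∏_e eps e ^ mexp N (edst e)`.  For every `f ∈ F`, `Π ∣ θ f`: by `T1` for each edge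
(`cf.edge`, `cf.between`; `ε = eps e`, `u = C u`; if `θ x_i = θ x_j` then `C u * eps e = 0`, no),
and the `eps e ^ m` are pairwise relatively prime.  So every element of `θ ((y) F)` is
`Π * Q` with `Q` of zero constant term, as `θ (y_j) = PY j` has zero constant term.  But
`θ (∑ C (C (c e)) g e) = C (∑ c_e mon e) * gfam PX PY N 0 = C (∑ c_e mon e) * C c₀ * Π` (`gfam_map`,
`gfam_eq`, `gfam_zero`).  So `∑ c_e mon e = 0`, and `c = 0` because the `mon e` are linearly
independent over `k` (`cf.indep`: `aeval τ (∑ c_e X^e) = 0`). -/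
theorem alg_contradiction (k : Type) [Field k] [CharZero k] (N : ℕ) (hN : 10 ^ 12 ≤ N)
    (F : Ideal (MvPolynomial (Fin 7) (MvPolynomial (Fin 7) k)))
    (T1 : ∀ (B : Type) [CommRing B] [IsDomain B]
      (θ : MvPolynomial (Fin 7) (MvPolynomial (Fin 7) k) →+* B) (i j : Fin 7) (ε u : B),
      i < j → IsUnit u → θ (X i) - θ (X j) = u * ε → θ (X i) ≠ θ (X j) →
      ε ∣ θ (C (X i)) - θ (C (X j)) → (∀ l, i < l → l < j → θ (X l) ≠ θ (X j)) →
      ∀ g ∈ F, ε ^ mexp N (j : ℕ) ∣ θ g)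
    (T2 : ∀ g, (∀ i j : Fin 7, i < j →
      g ∈ (Ideal.span {X i - X j, C (X i) - C (X j)}) ^ mexp N (j : ℕ)) → g ∈ F)
    (T3 : ∀ (ι : Type) [Fintype ι] (g : ι → MvPolynomial (Fin 7) (MvPolynomial (Fin 7) k))
      (P : ι → MvPolynomial (Fin 7) k), (∀ i, g i ∈ F) → P ≠ 0 → ∑ i, C (P i) * g i = 0 →
      ∃ c : ι → k, c ≠ 0 ∧ ∃ f : Fin 7 → MvPolynomial (Fin 7) (MvPolynomial (Fin 7) k),
        (∀ j, f j ∈ F) ∧ ∑ i, C (C (c i)) * g i = ∑ j, C (X j) * f j) :
    False := by
  classical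
  obtain ⟨L, iL, iA, ⟨cf⟩⟩ := exists_config k
  obtain ⟨g, hg⟩ : ∃ g : (Fin 8 → Fin (N + 1)) → MvPolynomial (Fin 7) (MvPolynomial (Fin 7) k),
      ∀ e, g e = gfam (B := MvPolynomial (Fin 7) (MvPolynomial (Fin 7) k)) (fun j => X j)
        (fun j => C (X j)) N (fun i => (e i : ℕ)) :=
    ⟨_, fun _ => rfl⟩
  have he : ∀ (e : Fin 8 → Fin (N + 1)) (i : Fin 8), (e i : ℕ) ≤ N := fun e i =>
    Nat.lt_succ_iff.mp (e i).2
  have gF : ∀ e, g e ∈ F := by
    intro e
    rw [hg]
    refine T2 _ fun i j hij => ?_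
    have h := gfam_mem (B := MvPolynomial (Fin 7) (MvPolynomial (Fin 7) k)) (fun j => X j)
      (fun j => C (X j)) N (fun i => (e i : ℕ)) (he e) i j hij
    exact h
  have gdeg : ∀ e, (g e).totalDegree ≤ 49 * N := by
    intro e
    rw [hg]
    have h := gfam_deg (K := MvPolynomial (Fin 7) k) (fun j => X j) N (fun i => (e i : ℕ)) (he e)
    exact h
  obtain ⟨P, hP, hsum⟩ := exists_relation N hN g gdeg
  obtain ⟨c, hc, f, hf, hrel⟩ := T3 (Fin 8 → Fin (N + 1)) g P gF hP hsum
  obtain ⟨c₀, hc₀, hz⟩ := cf.gfam_zero N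
  obtain ⟨Pi, hPi⟩ : ∃ Pi : MvPolynomial (Fin 2) L,
      Pi = ∏ e : Fin 11, cf.eps e ^ mexp N (edst e : ℕ) := ⟨_, rfl⟩
  have hPi0 : Pi ≠ 0 := by
    rw [hPi]
    exact Finset.prod_ne_zero_iff.mpr fun e _ => pow_ne_zero _ (algmain_eps_ne cf e)
  rw [← hPi] at hz
  have hdvd : ∀ j, ∃ Q, cf.th (f j) = Pi * Q := by
    intro j
    rw [hPi]
    exact algmain_dvd cf N F T1 (f j) (hf j)
  choose Q hQ using hdvd
  have hgth : ∀ e : Fin 8 → Fin (N + 1),
      cf.th (g e) = C (cf.mon (fun i => (e i : ℕ))) * (C c₀ * Pi) := by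
    intro e
    have h1 : (fun j : Fin 7 => cf.th (X j)) = cf.PX := by
      funext j
      exact algmain_thX cf j
    have h2 : (fun j : Fin 7 => cf.th (C (X j))) = cf.PY := by
      funext j
      exact algmain_thY cf j
    have h3 := gfam_map cf.th (fun j => X j) (fun j => C (X j)) N (fun i => (e i : ℕ))
    rw [h1, h2] at h3
    rw [hg, h3, cf.gfam_eq N _ (he e), hz]
  have hl : cf.th (∑ e, C (C (c e)) * g e) =
      C ((∑ e, algebraMap k L (c e) * cf.mon (fun i => (e i : ℕ))) * c₀) * Pi := by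
    rw [map_sum, C_mul, map_sum, Finset.sum_mul, Finset.sum_mul]
    refine Finset.sum_congr rfl fun e _ => ?_
    rw [map_mul, algmain_thC, hgth, C_mul]
    ring
  have hr : cf.th (∑ j, C (X j) * f j) = (∑ j, cf.PY j * Q j) * Pi := by
    rw [map_sum, Finset.sum_mul]
    refine Finset.sum_congr rfl fun j _ => ?_
    rw [map_mul, algmain_thY, hQ]
    ring
  have h1 : C ((∑ e, algebraMap k L (c e) * cf.mon (fun i => (e i : ℕ))) * c₀) =
      ∑ j, cf.PY j * Q j := by
    have h2 := congrArg cf.th hrel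
    rw [hl, hr] at h2
    exact mul_right_cancel₀ hPi0 h2
  have h2 := congrArg constantCoeff h1
  rw [constantCoeff_C, map_sum] at h2
  have h3 : ∑ j, constantCoeff (cf.PY j * Q j) = 0 := by
    refine Finset.sum_eq_zero fun j _ => ?_
    rw [map_mul, algmain_PY, zero_mul]
  rw [h3] at h2
  have h4 := (mul_eq_zero.mp h2).resolve_right hc₀
  exact hc (algmain_indep cf N c h4)

end Pool.Agent.H.MP_c30e5d_gt
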