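import Pool.Agent.H.MP_c30e5d_gt.AlgPoints

/-!
# The ratios of the alternants are the independent parameters `τ 0, …, τ 6`

General principle.  Let `N` be the matrix of the alternant without its last column (columns
`1, x, y, …`), and for a vector `f` let `φ f = det (N | f)` (`Matrix.cramer`-like, linear in `f`);
`φ` kills the columns of `N`.  If a polynomial `F(x, y) = m(x, y) + (combination of the columns of N
with coefficients in L[s,t])` vanishes at all the points then `φ(m) = 0`.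

Below `X' = x - c` (`c = τ 7`), `w = (X', y)`, `v = (s, t)`.

Line through two points with constant slope `σ`: `(y - y_0) - σ (x - x_0)`.

Conic: for `al, b, c, ga` put `β(v, w) = al v₁ w₁ + b v₁ w₂ + c v₂ w₁ + ga v₂ w₂`; the polynomial
`β(w, w) - β(v, w)` vanishes at `w = 0`, at `w = v`, and at `w = R_i` if
`al + b p_i + c q_i + ga p_i q_i = 0`: `R_i = h (1, p)`, `v = h (1, p) + g (1, q)`, so
`β(v, (1,p)) = h β((1,p),(1,p)) + g β((1,q),(1,p)) = h β((1,p),(1,p))`.
-/

namespace Pool.Agent.H.MP_c30e5d_gt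

open MvPolynomial

section
variable {B : Type} [CommRing B]

/-- The determinant as a function of the column `l`. -/
def algratioa_D {n : ℕ} (A : Matrix (Fin n) (Fin n) B) (l : Fin n) (f : Fin n → B) : B :=
  (A.updateCol l f).det

theorem algratioa_D_add {n : ℕ} (A : Matrix (Fin n) (Fin n) B) (l : Fin n) (f g : Fin n → B) :
    algratioa_D A l (fun i => f i + g i) = algratioa_D A l f + algratioa_D A l g :=
  Matrix.det_updateCol_add A l f g

theorem algratioa_D_smul {n : ℕ} (A : Matrix (Fin n) (Fin n) B) (l : Fin n) (a : B)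
    (f : Fin n → B) : algratioa_D A l (fun i => a * f i) = a * algratioa_D A l f :=
  Matrix.det_updateCol_smul A l a f

theorem algratioa_D_col {n : ℕ} (A : Matrix (Fin n) (Fin n) B) (l j : Fin n) (h : j ≠ l) :
    algratioa_D A l (fun i => A i j) = 0 := by
  refine Matrix.det_zero_of_column_eq h fun i => ?_
  rw [Matrix.updateCol_self, Matrix.updateCol_ne h]

/-- the alternants `alt4` in terms of one matrix -/
theorem algratioa_alt4 (d : ℕ × ℕ) (x y : Fin 7 → B) : alt4 d x y =
    algratioa_D (Matrix.of fun i j : Fin 4 =>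
      x (Fin.castLE (by norm_num) i) ^ (E4 (0, 0) j).1 *
        y (Fin.castLE (by norm_num) i) ^ (E4 (0, 0) j).2) 3
      (fun i => x (Fin.castLE (by norm_num) i) ^ d.1 * y (Fin.castLE (by norm_num) i) ^ d.2) := by
  unfold alt4 alt algratioa_D
  congr 1
  ext i j
  fin_cases j <;> simp [E4]

/-- the alternants `alt5` in terms of one matrix -/
theorem algratioa_alt5 (d : ℕ × ℕ) (x y : Fin 7 → B) : alt5 d x y =
    algratioa_D (Matrix.of fun i j : Fin 5 =>
      x (Fin.castLE (by norm_num) i) ^ (E5 (0, 0) j).1 *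
        y (Fin.castLE (by norm_num) i) ^ (E5 (0, 0) j).2) 4
      (fun i => x (Fin.castLE (by norm_num) i) ^ d.1 * y (Fin.castLE (by norm_num) i) ^ d.2) := by
  unfold alt5 alt algratioa_D
  congr 1
  ext i j
  fin_cases j <;> simp [E5]

/-- the general principle for four points -/
theorem algratioa_van4 (x y : Fin 7 → B) (a2 a11 a20 e0 e1 e2 : B)
    (h : ∀ i : Fin 4, a2 * y (Fin.castLE (by norm_num) i) ^ 2 +
      a11 * (x (Fin.castLE (by norm_num) i) * y (Fin.castLE (by norm_num) i)) +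
      a20 * x (Fin.castLE (by norm_num) i) ^ 2 =
      e0 + e1 * x (Fin.castLE (by norm_num) i) + e2 * y (Fin.castLE (by norm_num) i)) :
    a2 * alt4 (0, 2) x y + a11 * alt4 (1, 1) x y + a20 * alt4 (2, 0) x y = 0 := by
  rw [algratioa_alt4, algratioa_alt4, algratioa_alt4]
  obtain ⟨A, hA⟩ : ∃ A : Matrix (Fin 4) (Fin 4) B, A = (Matrix.of fun i j : Fin 4 =>
      x (Fin.castLE (by norm_num) i) ^ (E4 (0, 0) j).1 *
        y (Fin.castLE (by norm_num) i) ^ (E4 (0, 0) j).2) := ⟨_, rfl⟩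
  rw [← hA]
  have c0 : algratioa_D A 3 (fun _ => 1) = 0 := by
    have := algratioa_D_col A 3 0 (by decide)
    simpa [hA, E4] using this
  have c1 : algratioa_D A 3 (fun i => x (Fin.castLE (by norm_num) i)) = 0 := by
    have := algratioa_D_col A 3 1 (by decide)
    simpa [hA, E4] using this
  have c2 : algratioa_D A 3 (fun i => y (Fin.castLE (by norm_num) i)) = 0 := by
    have := algratioa_D_col A 3 2 (by decide)
    simpa [hA, E4] using this
  have h1 : algratioa_D A 3 (fun i => a2 * y (Fin.castLE (by norm_num) i) ^ 2 +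
      a11 * (x (Fin.castLE (by norm_num) i) * y (Fin.castLE (by norm_num) i)) +
      a20 * x (Fin.castLE (by norm_num) i) ^ 2) =
      algratioa_D A 3 (fun i => e0 * 1 + e1 * x (Fin.castLE (by norm_num) i) +
        e2 * y (Fin.castLE (by norm_num) i)) := by
    congr 1
    funext i
    rw [h i, mul_one]
  rw [algratioa_D_add, algratioa_D_add, algratioa_D_smul, algratioa_D_smul, algratioa_D_smul,
    algratioa_D_add, algratioa_D_add, algratioa_D_smul, algratioa_D_smul, algratioa_D_smul,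
    c0, c1, c2] at h1
  simpa using h1

/-- the general principle for five points -/
theorem algratioa_van5 (x y : Fin 7 → B) (a2 a11 a20 e0 e1 e2 : B)
    (h : ∀ i : Fin 5, a2 * y (Fin.castLE (by norm_num) i) ^ 2 +
      a11 * (x (Fin.castLE (by norm_num) i) * y (Fin.castLE (by norm_num) i)) +
      a20 * x (Fin.castLE (by norm_num) i) ^ 2 =
      e0 + e1 * x (Fin.castLE (by norm_num) i) + e2 * y (Fin.castLE (by norm_num) i)) :
    a2 * alt5 (0, 2) x y + a11 * alt5 (1, 1) x y = 0 := by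
  rw [algratioa_alt5, algratioa_alt5]
  obtain ⟨A, hA⟩ : ∃ A : Matrix (Fin 5) (Fin 5) B, A = (Matrix.of fun i j : Fin 5 =>
      x (Fin.castLE (by norm_num) i) ^ (E5 (0, 0) j).1 *
        y (Fin.castLE (by norm_num) i) ^ (E5 (0, 0) j).2) := ⟨_, rfl⟩
  rw [← hA]
  have c0 : algratioa_D A 4 (fun _ => 1) = 0 := by
    have := algratioa_D_col A 4 0 (by decide)
    simpa [hA, E5] using this
  have c1 : algratioa_D A 4 (fun i => x (Fin.castLE (by norm_num) i)) = 0 := by
    have := algratioa_D_col A 4 1 (by decide)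
    simpa [hA, E5] using this
  have c2 : algratioa_D A 4 (fun i => y (Fin.castLE (by norm_num) i)) = 0 := by
    have := algratioa_D_col A 4 2 (by decide)
    simpa [hA, E5] using this
  have c3 : algratioa_D A 4 (fun i => x (Fin.castLE (by norm_num) i) ^ 2) = 0 := by
    have := algratioa_D_col A 4 3 (by decide)
    simpa [hA, E5] using this
  have h1 : algratioa_D A 4 (fun i => a2 * y (Fin.castLE (by norm_num) i) ^ 2 +
      a11 * (x (Fin.castLE (by norm_num) i) * y (Fin.castLE (by norm_num) i)) +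
      a20 * x (Fin.castLE (by norm_num) i) ^ 2) =
      algratioa_D A 4 (fun i => e0 * 1 + e1 * x (Fin.castLE (by norm_num) i) +
        e2 * y (Fin.castLE (by norm_num) i)) := by
    congr 1
    funext i
    rw [h i, mul_one]
  rw [algratioa_D_add, algratioa_D_add, algratioa_D_smul, algratioa_D_smul, algratioa_D_smul,
    algratioa_D_add, algratioa_D_add, algratioa_D_smul, algratioa_D_smul, algratioa_D_smul,
    c0, c1, c2, c3] at h1
  simpa using h1

theorem algratioa_r4 [IsDomain B] (c m0 m1 m0' m1' s t t1 t2 : B) (p q r : Fin 4 → B)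
    (hr0 : r 0 * (p 0 - q 0) = 1) (hr1 : r 1 * (p 1 - q 1) = 1)
    (h4a : t2 - (p 0 + q 1) * t1 + p 0 * q 1 = 0)
    (h4b : t2 - (p 1 + q 0) * t1 + p 1 * q 0 = 0)
    (h4d : p 0 + q 1 - (p 1 + q 0) ≠ 0) :
    alt4 (1, 1) (ptX c q r m0 m1 s t) (ptY p q r m0' m1' s t) =
      t1 * alt4 (2, 0) (ptX c q r m0 m1 s t) (ptY p q r m0' m1' s t) ∧
    alt4 (0, 2) (ptX c q r m0 m1 s t) (ptY p q r m0' m1' s t) =
      t2 * alt4 (2, 0) (ptX c q r m0 m1 s t) (ptY p q r m0' m1' s t) := by
  have R1 := algratioa_van4 (ptX c q r m0 m1 s t) (ptY p q r m0' m1' s t) 1 (-(p 0 + q 1))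
    (p 0 * q 1)
    (-((p 0 * c) * (-t + q 1 * (c + s))))
    (p 0 * (-t + q 1 * (c + s)) + q 1 * (p 0 * c))
    (-((-t + q 1 * (c + s)) + p 0 * c)) (by
      intro i
      fin_cases i
      · simp [ptX, ptY, Fin.castLE]
        ring
      · simp [ptX, ptY, Fin.castLE]
        ring
      · simp [ptX, ptY, Fin.castLE]
        ring
      · simp [ptX, ptY, Fin.castLE]
        linear_combination ((p 0 * (c + r 1 * (t - q 1 * s)) - p 1 * (r 1 * (t - q 1 * s)) -
          p 0 * c) * (-(t - q 1 * s))) * hr1)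
  have R2 := algratioa_van4 (ptX c q r m0 m1 s t) (ptY p q r m0' m1' s t) 1 (-(p 1 + q 0))
    (p 1 * q 0)
    (-((p 1 * c) * (-t + q 0 * (c + s))))
    (p 1 * (-t + q 0 * (c + s)) + q 0 * (p 1 * c))
    (-((-t + q 0 * (c + s)) + p 1 * c)) (by
      intro i
      fin_cases i
      · simp [ptX, ptY, Fin.castLE]
        linear_combination ((p 1 * (c + r 0 * (t - q 0 * s)) - p 0 * (r 0 * (t - q 0 * s)) -
          p 1 * c) * (-(t - q 0 * s))) * hr0
      · simp [ptX, ptY, Fin.castLE]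
        ring
      · simp [ptX, ptY, Fin.castLE]
        ring
      · simp [ptX, ptY, Fin.castLE]
        ring)
  have e1 : alt4 (1, 1) (ptX c q r m0 m1 s t) (ptY p q r m0' m1' s t) =
      t1 * alt4 (2, 0) (ptX c q r m0 m1 s t) (ptY p q r m0' m1' s t) := by
    apply mul_left_cancel₀ h4d
    linear_combination R2 - R1 + (alt4 (2, 0) (ptX c q r m0 m1 s t) (ptY p q r m0' m1' s t)) *
      (h4a - h4b)
  refine ⟨e1, ?_⟩
  linear_combination R1 + (p 0 + q 1) * e1 -
    (alt4 (2, 0) (ptX c q r m0 m1 s t) (ptY p q r m0' m1' s t)) * h4a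

theorem algratioa_r5 (c m0 m1 m0' m1' s t al b c' : B) (p q r : Fin 4 → B)
    (hr0 : r 0 * (p 0 - q 0) = 1) (hr1 : r 1 * (p 1 - q 1) = 1) (hr2 : r 2 * (p 2 - q 2) = 1)
    (h0 : al + b * p 0 + c' * q 0 + p 0 * q 0 = 0)
    (h1 : al + b * p 1 + c' * q 1 + p 1 * q 1 = 0)
    (h2 : al + b * p 2 + c' * q 2 + p 2 * q 2 = 0) :
    alt5 (0, 2) (ptX c q r m0 m1 s t) (ptY p q r m0' m1' s t) =
      -(b + c') * alt5 (1, 1) (ptX c q r m0 m1 s t) (ptY p q r m0' m1' s t) := by
  have key : ∀ P Q R : B, R * (P - Q) = 1 → al + b * P + c' * Q + P * Q = 0 →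
      (P * (R * (t - Q * s))) ^ 2 + (b + c') * ((c + R * (t - Q * s)) * (P * (R * (t - Q * s)))) +
      al * (c + R * (t - Q * s)) ^ 2 =
      -(al * c ^ 2) - c * (al * s + c' * t) +
      (2 * al * c + (al * s + c' * t)) * (c + R * (t - Q * s)) +
      ((b + c') * c + (b * s + t)) * (P * (R * (t - Q * s))) := by
    intro P Q R hR hP
    linear_combination (-(R * (t - Q * s)) * (R * (P * s - t))) * hP +
      ((R * (t - Q * s)) * (s * (al + b * P) + t * (c' + P))) * hR
  have R1 := algratioa_van5 (ptX c q r m0 m1 s t) (ptY p q r m0' m1' s t) 1 (b + c') al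
    (-(al * c ^ 2) - c * (al * s + c' * t)) (2 * al * c + (al * s + c' * t))
    ((b + c') * c + (b * s + t)) (by
      intro i
      fin_cases i
      · have := key _ _ _ hr0 h0
        simp [ptX, ptY, Fin.castLE]
        linear_combination this
      · simp [ptX, ptY, Fin.castLE]
        ring
      · simp [ptX, ptY, Fin.castLE]
        ring
      · have := key _ _ _ hr1 h1
        simp [ptX, ptY, Fin.castLE]
        linear_combination this
      · have := key _ _ _ hr2 h2
        simp [ptX, ptY, Fin.castLE]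
        linear_combination this)
  linear_combination R1

end

section
variable {k L : Type} [Field k] [Field L] [Algebra k L] (cf : Config k L)

/-- `x_1 - x_0 = -h_0`, `y_1 - y_0 = - p_0 h_0`. -/
theorem Config.ratio2 : alt2 (0, 1) cf.PX cf.PY = C (cf.τ 0) * alt2 (1, 0) cf.PX cf.PY := by
  rw [← cf.hp0]
  simp [alt2, alt, Matrix.det_fin_two, E2, Config.PX, Config.PY, ptX, ptY, Fin.castLE]

/-- PROOF.  The product of the line `P_1 P_0` (slope `p_0`) and the line `P_2 P_3` (slope `q_1`), and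
the product of the line `P_1 P_3` (slope `p_1`) and the line `P_2 P_0` (slope `q_0`), vanish at
`P_0, …, P_3`.  So (`Δ_{02}, Δ_{11}, Δ_{20}` the alternants)
`Δ_{02} - (p_0 + q_1) Δ_{11} + p_0 q_1 Δ_{20} = 0`, `Δ_{02} - (p_1 + q_0) Δ_{11} + p_1 q_0 Δ_{20} = 0`.
With `h4a`, `h4b` and `h4d`: `Δ_{11} = τ_1 Δ_{20}` and `Δ_{02} = τ_2 Δ_{20}`. -/
theorem Config.ratio4 :
    alt4 (1, 1) cf.PX cf.PY = C (cf.τ 1) * alt4 (2, 0) cf.PX cf.PY ∧
    alt4 (0, 2) cf.PX cf.PY = C (cf.τ 2) * alt4 (2, 0) cf.PX cf.PY := by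
  refine algratioa_r4 _ _ _ _ _ _ _ _ _ _ _ _ ?_ ?_ ?_ ?_ ?_
  · rw [← C_sub, ← C_mul, cf.hr 0, C_1]
  · rw [← C_sub, ← C_mul, cf.hr 1, C_1]
  · rw [← C_add, ← C_mul, ← C_mul, ← C_sub, ← C_add, cf.h4a, C_0]
  · rw [← C_add, ← C_mul, ← C_mul, ← C_sub, ← C_add, cf.h4b, C_0]
  · rw [← C_add, ← C_add, ← C_sub]
    exact C_ne_zero.2 cf.h4d

/-- PROOF.  The conic with coefficients `al, b, c, 1` vanishes at `P_0, …, P_4` (`hphi`), so
`φ(y²) + (b + c) φ(x y) + al φ(x²) = 0` with `φ(x²) = 0`; use `hbc`. -/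
theorem Config.ratio5 :
    alt5 (0, 2) cf.PX cf.PY = C (cf.τ 3) * alt5 (1, 1) cf.PX cf.PY := by
  have h := algratioa_r5 (C (cf.τ 7)) (C cf.m00) (C cf.m01) (C cf.m10) (C cf.m11)
    (X 0 : MvPolynomial (Fin 2) L) (X 1) (C cf.al) (C cf.b) (C cf.c) (fun i => C (cf.p i))
    (fun i => C (cf.q i)) (fun i => C (cf.r i))
    (by rw [← C_sub, ← C_mul, cf.hr 0, C_1]) (by rw [← C_sub, ← C_mul, cf.hr 1, C_1])
    (by rw [← C_sub, ← C_mul, cf.hr 2, C_1])
    (by rw [← C_mul, ← C_mul, ← C_mul, ← C_add, ← C_add, ← C_add]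
        exact (congrArg C (cf.hphi 0)).trans C_0)
    (by rw [← C_mul, ← C_mul, ← C_mul, ← C_add, ← C_add, ← C_add]
        exact (congrArg C (cf.hphi 1)).trans C_0)
    (by rw [← C_mul, ← C_mul, ← C_mul, ← C_add, ← C_add, ← C_add]
        exact (congrArg C (cf.hphi 2)).trans C_0)
  have h1 : -(C cf.b + C cf.c : MvPolynomial (Fin 2) L) = C (cf.τ 3) := by
    rw [← C_add, cf.hbc, C_neg, neg_neg]
  rw [h1] at h
  exact h

end

end Pool.Agent.H.MP_c30e5d_gt
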