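import Pool.Agent.H.MP_c30e5d_gt.AlgConst

/-!
# The ratios of the alternants are the independent parameters `τ 0, …, τ 6`

General principle.  Let `N` be the matrix of the alternant without its last column (columns
`1, x, y, …`), and for a vector `f` let `φ f = det (N | f)` (`Matrix.cramer`-like, linear in `f`);
`φ` kills the columns of `N`.  If a polynomial `F(x, y) = m(x, y) + (combination of the columns of N
with coefficients in L[s,t])` vanishes at all the points then `φ(m) = 0`.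

Below `X' = x - c` (`c = τ 7`), `w = (X', y)`, `v = (s, t)`.

Line through two points with constant slope `σ`: `(y - y_0) - σ (x - x_0)`.

Conic: for `al, b, c, ga` put `β(v, w) = al v₁ w₁ + b v₁ w₂ + c v₂ w₁ + ga v₂ w₂`; the polynomial
`β(w, w) - β(v, w)` vanishes at `w = 0`, at `w = v`, and at `w = R_i` if
`al + b p_i + c q_i + ga p_i q_i = 0`: `R_i = h (1, p)`, `v = h (1, p) + g (1, q)`, so
`β(v, (1,p)) = h β((1,p),(1,p)) + g β((1,q),(1,p)) = h β((1,p),(1,p))`.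
-/

namespace Pool.Agent.H.MP_c30e5d_gt

open MvPolynomial

section
variable {B : Type} [CommRing B]

/-- the cofactors of the last column -/
def kap7 (x y : Fin 7 → B) (i : Fin 7) : B :=
  (-1) ^ ((i : ℕ) + 6) * Matrix.det (Matrix.of fun a b : Fin 6 =>
    x (i.succAbove a) ^ (E7 (0, 0) b.castSucc).1 * y (i.succAbove a) ^ (E7 (0, 0) b.castSucc).2)

theorem E7_last (d : ℕ × ℕ) : E7 d (Fin.last 6) = d := by
  simp [E7, Fin.last]

theorem E7_castSucc (d : ℕ × ℕ) (b : Fin 6) : E7 d b.castSucc = E7 (0, 0) b.castSucc := by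
  fin_cases b <;> simp [E7, Fin.castSucc, Fin.castAdd, Fin.castLE]

theorem alt7_eq_sum (d : ℕ × ℕ) (x y : Fin 7 → B) :
    alt7 d x y = ∑ i, kap7 x y i * (x i ^ d.1 * y i ^ d.2) := by
  unfold alt7 alt
  rw [Matrix.det_succ_column _ (Fin.last 6)]
  refine Finset.sum_congr rfl fun i _ => ?_
  have h3 : (Matrix.of fun i j : Fin 7 =>
      x (Fin.castLE le_rfl i) ^ (E7 d j).1 * y (Fin.castLE le_rfl i) ^ (E7 d j).2).submatrix
        i.succAbove (Fin.last 6).succAbove = (Matrix.of fun a b : Fin 6 =>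
    x (i.succAbove a) ^ (E7 (0, 0) b.castSucc).1 * y (i.succAbove a) ^ (E7 (0, 0) b.castSucc).2) := by
    ext a b
    simp only [Matrix.submatrix_apply, Matrix.of_apply, Fin.succAbove_last, Fin.castLE_rfl, id,
      E7_castSucc d]
  rw [h3]
  simp only [Matrix.of_apply, Fin.castLE_rfl, id, E7_last, kap7, Fin.val_last]
  ring

theorem alt7_low (d : ℕ × ℕ) (x y : Fin 7 → B) (j : Fin 6) (h : E7 (0, 0) j.castSucc = d) :
    alt7 d x y = 0 := by
  unfold alt7 alt
  refine Matrix.det_zero_of_column_eq (i := j.castSucc) (j := Fin.last 6) ?_ ?_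
  · exact (Fin.castSucc_lt_last j).ne
  · intro i
    simp only [Matrix.of_apply, E7_last, E7_castSucc d, h]

/-- A cubic vanishing at the seven points gives a relation between the alternants.  The coordinates
may be translated. -/
theorem alt7_rel (x y : Fin 7 → B) (c a0 a1 a2 a3 b0 b1 b2 c0 c1 d0 : B)
    (h : ∀ i, a0 * (x i - c) ^ 3 + a1 * (x i - c) ^ 2 * y i + a2 * (x i - c) * y i ^ 2 +
      a3 * y i ^ 3 + b0 * (x i - c) ^ 2 + b1 * (x i - c) * y i + b2 * y i ^ 2 + c0 * (x i - c) +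
      c1 * y i + d0 = 0) :
    a0 * alt7 (3, 0) x y + a1 * alt7 (2, 1) x y + a2 * alt7 (1, 2) x y + a3 * alt7 (0, 3) x y = 0 := by
  have l00 := alt7_low (0, 0) x y 0 (by simp [E7])
  have l10 := alt7_low (1, 0) x y 1 (by simp [E7])
  have l01 := alt7_low (0, 1) x y 2 (by simp [E7])
  have l20 := alt7_low (2, 0) x y 3 (by simp [E7])
  have l11 := alt7_low (1, 1) x y 4 (by simp [E7])
  have l02 := alt7_low (0, 2) x y 5 (by simp [E7])
  have key : ∑ i, kap7 x y i * (a0 * (x i - c) ^ 3 + a1 * (x i - c) ^ 2 * y i +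
      a2 * (x i - c) * y i ^ 2 +
      a3 * y i ^ 3 + b0 * (x i - c) ^ 2 + b1 * (x i - c) * y i + b2 * y i ^ 2 + c0 * (x i - c) +
      c1 * y i + d0) = 0 := by
    refine Finset.sum_eq_zero fun i _ => ?_
    rw [h, mul_zero]
  have key2 : ∑ i, kap7 x y i * (a0 * (x i - c) ^ 3 + a1 * (x i - c) ^ 2 * y i +
      a2 * (x i - c) * y i ^ 2 +
      a3 * y i ^ 3 + b0 * (x i - c) ^ 2 + b1 * (x i - c) * y i + b2 * y i ^ 2 + c0 * (x i - c) +
      c1 * y i + d0) = a0 * alt7 (3, 0) x y + a1 * alt7 (2, 1) x y + a2 * alt7 (1, 2) x y +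
      a3 * alt7 (0, 3) x y + (c ^ 2 * b0 - a0 * c ^ 3 - c0 * c + d0) * alt7 (0, 0) x y +
      (3 * a0 * c ^ 2 - 2 * b0 * c + c0) * alt7 (1, 0) x y +
      (a1 * c ^ 2 - b1 * c + c1) * alt7 (0, 1) x y +
      (-3 * a0 * c + b0) * alt7 (2, 0) x y + (-2 * a1 * c + b1) * alt7 (1, 1) x y +
      (-a2 * c + b2) * alt7 (0, 2) x y := by
    simp only [alt7_eq_sum, Finset.mul_sum, ← Finset.sum_add_distrib]
    refine Finset.sum_congr rfl fun i _ => ?_
    ring
  rw [l00, l10, l01, l20, l11, l02] at key2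
  linear_combination key - key2

end

section
variable {k L : Type} [Field k] [Field L] [Algebra k L] (cf : Config k L)

theorem conic_point {B : Type} [CommRing B] (al b c ga p q r S T : B) (hr : r * (p - q) = 1)
    (hphi : al + b * p + c * q + ga * p * q = 0) :
    ga * (p * (r * (T - q * S))) ^ 2 + (b + c) * (r * (T - q * S)) * (p * (r * (T - q * S))) +
      al * (r * (T - q * S)) ^ 2 - (al * S + c * T) * (r * (T - q * S)) -
      (b * S + ga * T) * (p * (r * (T - q * S))) = 0 := by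
  linear_combination ((r * (T - q * S)) * (r * (T - q * S) - S)) * hphi +
    ((r * (T - q * S)) * (ga * p + c) * (T - q * S)) * hr

/-- the translated first coordinates -/
theorem Config.PX_sub (i : Fin 7) : cf.PX i - C (cf.τ 7) =
    ![C (cf.r 0) * (X 1 - C (cf.q 0) * X 0), 0, X 0, C (cf.r 1) * (X 1 - C (cf.q 1) * X 0),
      C (cf.r 2) * (X 1 - C (cf.q 2) * X 0), C (cf.r 3) * (X 1 - C (cf.q 3) * X 0),
      C cf.m00 * X 0 + C cf.m01 * X 1] i := by
  fin_cases i <;> simp [Config.PX, ptX] <;> ring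

theorem Config.PY_eq (i : Fin 7) : cf.PY i =
    ![C (cf.p 0) * (C (cf.r 0) * (X 1 - C (cf.q 0) * X 0)), 0, X 1,
      C (cf.p 1) * (C (cf.r 1) * (X 1 - C (cf.q 1) * X 0)),
      C (cf.p 2) * (C (cf.r 2) * (X 1 - C (cf.q 2) * X 0)),
      C (cf.p 3) * (C (cf.r 3) * (X 1 - C (cf.q 3) * X 0)),
      C cf.m10 * X 0 + C cf.m11 * X 1] i := by
  fin_cases i <;> simp [Config.PY, ptY]

/-- `C` of a relation in `L` -/
theorem C_eq {a b : L} (h : a = b) : (C a : MvPolynomial (Fin 2) L) = C b := by rw [h]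

/-- the product of a conic through `0` and a line vanishes at the seven points -/
theorem alt7_conic_line {B : Type} [CommRing B] (x y : Fin 7 → B) (t al bc ga U V e f κ : B)
    (h : ∀ i, (ga * y i ^ 2 + bc * (x i - t) * y i + al * (x i - t) ^ 2 - U * (x i - t) - V * y i) = 0
      ∨ e * y i - f * (x i - t) - κ = 0) :
    -(al * f) * alt7 (3, 0) x y + (al * e - bc * f) * alt7 (2, 1) x y +
      (bc * e - ga * f) * alt7 (1, 2) x y + (ga * e) * alt7 (0, 3) x y = 0 := by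
  refine alt7_rel x y t (-(al * f)) (al * e - bc * f) (bc * e - ga * f) (ga * e)
    (-(κ * al) + f * U) (-(κ * bc) - e * U + f * V) (-(κ * ga) - e * V) (κ * U) (κ * V) 0 ?_
  intro i
  have key : (ga * y i ^ 2 + bc * (x i - t) * y i + al * (x i - t) ^ 2 - U * (x i - t) - V * y i) *
      (e * y i - f * (x i - t) - κ) = 0 := by
    rcases h i with h | h <;> rw [h] <;> ring
  linear_combination key

/-- the relation (i) -/
theorem Config.rel_i :
    (alt7 (0, 3) cf.PX cf.PY - C (cf.s 2) * alt7 (1, 2) cf.PX cf.PY) +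
      C (cf.b + cf.c) * (alt7 (1, 2) cf.PX cf.PY - C (cf.s 2) * alt7 (2, 1) cf.PX cf.PY) +
      C cf.al * (alt7 (2, 1) cf.PX cf.PY - C (cf.s 2) * alt7 (3, 0) cf.PX cf.PY) = 0 := by
  have hr : ∀ i, (C (cf.r i) : MvPolynomial (Fin 2) L) * (C (cf.p i) - C (cf.q i)) = 1 := by
    intro i
    have := C_eq (cf.hr i)
    simpa using this
  have hphi : ∀ i : Fin 3, (C cf.al : MvPolynomial (Fin 2) L) + C cf.b * C (cf.p i.castSucc) +
      C cf.c * C (cf.q i.castSucc) + 1 * C (cf.p i.castSucc) * C (cf.q i.castSucc) = 0 := by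
    intro i
    have := C_eq (cf.hphi i)
    simpa using this
  have h0 := hphi 0
  have h1 := hphi 1
  have h2 := hphi 2
  have e0 : (0 : Fin 3).castSucc = (0 : Fin 4) := rfl
  have e1 : (1 : Fin 3).castSucc = (1 : Fin 4) := rfl
  have e2 : (2 : Fin 3).castSucc = (2 : Fin 4) := rfl
  rw [e0] at h0
  rw [e1] at h1
  rw [e2] at h2
  have f2 : (2 : Fin 3).succ = (3 : Fin 4) := rfl
  have g0 := cf.hM0 2
  have g1 := cf.hM1 2
  have g2 := cf.hs 2
  rw [f2] at g0 g1 g2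
  have gT : cf.m11 - cf.s 2 * cf.m01 = cf.r 3 * (cf.p 3 - cf.s 2) := by
    have h3 := cf.hr 3
    linear_combination (cf.r 3) * g1 - (cf.r 3) * (cf.s 2) * g0 - (cf.r 3) * (cf.n 2 + 1) * g2 -
      (cf.m11 - cf.s 2 * cf.m01) * h3
  have gS : cf.m10 - cf.s 2 * cf.m00 = - (cf.q 3 * (cf.r 3 * (cf.p 3 - cf.s 2))) := by
    linear_combination g2 - cf.q 3 * gT
  have gT' := C_eq gT
  have gS' := C_eq gS
  simp only [C_sub, C_mul, C_neg] at gT' gS'
  have key := alt7_conic_line cf.PX cf.PY (C (cf.τ 7)) (C cf.al) (C cf.b + C cf.c) 1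
    (C cf.al * X 0 + C cf.c * X 1) (C cf.b * X 0 + 1 * X 1) 1 (C (cf.s 2))
    ((C (cf.p 3) - C (cf.s 2)) * (C (cf.r 3) * (X 1 - C (cf.q 3) * X 0)))
    (by
      intro i
      rw [cf.PX_sub, cf.PY_eq]
      fin_cases i
      · left
        exact conic_point (C cf.al) (C cf.b) (C cf.c) 1 (C (cf.p 0)) (C (cf.q 0)) (C (cf.r 0))
          (X 0 : MvPolynomial (Fin 2) L) (X 1) (hr 0) h0
      · left
        simp
      · left
        show _ * (X 1) ^ 2 + _ * X 0 * X 1 + _ * (X 0) ^ 2 - _ * X 0 - _ * X 1 = 0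
        ring
      · left
        exact conic_point (C cf.al) (C cf.b) (C cf.c) 1 (C (cf.p 1)) (C (cf.q 1)) (C (cf.r 1))
          (X 0 : MvPolynomial (Fin 2) L) (X 1) (hr 1) h1
      · left
        exact conic_point (C cf.al) (C cf.b) (C cf.c) 1 (C (cf.p 2)) (C (cf.q 2)) (C (cf.r 2))
          (X 0 : MvPolynomial (Fin 2) L) (X 1) (hr 2) h2
      · right
        show _ * (C (cf.p 3) * (C (cf.r 3) * (X 1 - C (cf.q 3) * X 0))) -
          _ * (C (cf.r 3) * (X 1 - C (cf.q 3) * X 0)) - _ = 0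
        ring
      · right
        show _ * (C cf.m10 * X 0 + C cf.m11 * X 1) - _ * (C cf.m00 * X 0 + C cf.m01 * X 1) - _ = 0
        linear_combination X 0 * gS' + X 1 * gT')
  simp only [C_add]
  linear_combination key

/-- the relation (ii) -/
theorem Config.rel_ii :
    (C (cf.m00 + cf.r 0 * cf.q 0) * X 0 + C (cf.m01 - cf.r 0) * X 1) *
      (C cf.ga' * alt7 (0, 3) cf.PX cf.PY + C (cf.b' + cf.c') * alt7 (1, 2) cf.PX cf.PY +
        C cf.al' * alt7 (2, 1) cf.PX cf.PY) =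
    (C (cf.m10 + cf.p 0 * cf.r 0 * cf.q 0) * X 0 + C (cf.m11 - cf.p 0 * cf.r 0) * X 1) *
      (C cf.ga' * alt7 (1, 2) cf.PX cf.PY + C (cf.b' + cf.c') * alt7 (2, 1) cf.PX cf.PY +
        C cf.al' * alt7 (3, 0) cf.PX cf.PY) := by
  have hr : ∀ i, (C (cf.r i) : MvPolynomial (Fin 2) L) * (C (cf.p i) - C (cf.q i)) = 1 := by
    intro i
    have := C_eq (cf.hr i)
    simpa using this
  have hpsi : ∀ i : Fin 3, (C cf.al' : MvPolynomial (Fin 2) L) + C cf.b' * C (cf.p i.succ) +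
      C cf.c' * C (cf.q i.succ) + C cf.ga' * C (cf.p i.succ) * C (cf.q i.succ) = 0 := by
    intro i
    have := C_eq (cf.hpsi i)
    simpa using this
  have h1 := hpsi 0
  have h2 := hpsi 1
  have h3 := hpsi 2
  have e1 : (0 : Fin 3).succ = (1 : Fin 4) := rfl
  have e2 : (1 : Fin 3).succ = (2 : Fin 4) := rfl
  have e3 : (2 : Fin 3).succ = (3 : Fin 4) := rfl
  rw [e1] at h1
  rw [e2] at h2
  rw [e3] at h3
  set α : MvPolynomial (Fin 2) L :=
    C (cf.m00 + cf.r 0 * cf.q 0) * X 0 + C (cf.m01 - cf.r 0) * X 1 with hα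
  set β : MvPolynomial (Fin 2) L :=
    C (cf.m10 + cf.p 0 * cf.r 0 * cf.q 0) * X 0 + C (cf.m11 - cf.p 0 * cf.r 0) * X 1 with hβ
  simp only [C_add, C_sub, C_mul] at hα hβ
  have key := alt7_conic_line cf.PX cf.PY (C (cf.τ 7)) (C cf.al') (C cf.b' + C cf.c') (C cf.ga')
    (C cf.al' * X 0 + C cf.c' * X 1) (C cf.b' * X 0 + C cf.ga' * X 1) α β
    (α * (C (cf.p 0) * (C (cf.r 0) * (X 1 - C (cf.q 0) * X 0))) -
      β * (C (cf.r 0) * (X 1 - C (cf.q 0) * X 0)))
    (by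
      intro i
      rw [cf.PX_sub, cf.PY_eq]
      fin_cases i
      · right
        show _ * (C (cf.p 0) * (C (cf.r 0) * (X 1 - C (cf.q 0) * X 0))) -
          _ * (C (cf.r 0) * (X 1 - C (cf.q 0) * X 0)) - _ = 0
        ring
      · left
        simp
      · left
        show _ * (X 1) ^ 2 + _ * X 0 * X 1 + _ * (X 0) ^ 2 - _ * X 0 - _ * X 1 = 0
        ring
      · left
        exact conic_point (C cf.al') (C cf.b') (C cf.c') (C cf.ga') (C (cf.p 1)) (C (cf.q 1))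
          (C (cf.r 1)) (X 0 : MvPolynomial (Fin 2) L) (X 1) (hr 1) h1
      · left
        exact conic_point (C cf.al') (C cf.b') (C cf.c') (C cf.ga') (C (cf.p 2)) (C (cf.q 2))
          (C (cf.r 2)) (X 0 : MvPolynomial (Fin 2) L) (X 1) (hr 2) h2
      · left
        exact conic_point (C cf.al') (C cf.b') (C cf.c') (C cf.ga') (C (cf.p 3)) (C (cf.q 3))
          (C (cf.r 3)) (X 0 : MvPolynomial (Fin 2) L) (X 1) (hr 3) h3
      · right
        show _ * (C cf.m10 * X 0 + C cf.m11 * X 1) - _ * (C cf.m00 * X 0 + C cf.m01 * X 1) - _ = 0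
        rw [hα, hβ]
        ring)
  simp only [C_add]
  linear_combination key

/-- PROOF.  Write `Δ_0, …, Δ_3` for the alternants of `(3,0), (2,1), (1,2), (0,3)`.
(i) (conic `al, b, c, 1` through `P_0, …, P_4`) times (line `P_5 P_6`, slope `s 2` by `hs`, `edge 10`):
`(Δ_3 - s Δ_2) + (b + c) (Δ_2 - s Δ_1) + al (Δ_1 - s Δ_0) = 0`, `s = s 2`.
(ii) (conic `al', b', c', ga'` through `P_1, P_2, P_3, P_4, P_5`) times (line through `P_0` and `P_6`:
`(P_6 - P_0)_x (y - y_0) - (P_6 - P_0)_y (x - x_0)`, leading form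
`(P_6 - P_0)_x y - (P_6 - P_0)_y x`):
`(P_6 - P_0)_x (ga' Δ_3 + (b' + c') Δ_2 + al' Δ_1) =
 (P_6 - P_0)_y (ga' Δ_2 + (b' + c') Δ_1 + al' Δ_0)` in `L[s,t]`.
By `alt_const` all `Δ_j = C d_j * Π` with one `Π ≠ 0` (product of linear forms) and constants `d_j`;
as the linear forms `(P_6 - P_0)_x`, `(P_6 - P_0)_y` are linearly independent (`hG`),
`ga' d_3 + (b' + c') d_2 + al' d_1 = 0` and `ga' d_2 + (b' + c') d_1 + al' d_0 = 0`.
(iii) `hs4, hpsi1, hpsi2` say that `(1, τ_4, τ_5, τ_6)` satisfies the same three equations, and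
`hdet ≠ 0` is the determinant of the system in `d_1, d_2, d_3`; so `d_j = τ_{3+j} d_0`. -/
theorem Config.ratio7 :
    alt7 (2, 1) cf.PX cf.PY = C (cf.τ 4) * alt7 (3, 0) cf.PX cf.PY ∧
    alt7 (1, 2) cf.PX cf.PY = C (cf.τ 5) * alt7 (3, 0) cf.PX cf.PY ∧
    alt7 (0, 3) cf.PX cf.PY = C (cf.τ 6) * alt7 (3, 0) cf.PX cf.PY := by
  classical
  set P : MvPolynomial (Fin 2) L :=
    ∏ e ∈ Finset.univ.filter (fun e : Fin 11 => (e : ℕ) < nEdge 7), cf.eps e with hP
  have hP0 : P ≠ 0 := by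
    rw [hP]
    refine Finset.prod_ne_zero_iff.2 fun e _ h => ?_
    have := cf.eps_deg e
    rw [h] at this
    simp at this
  have hc : ∀ d : ℕ × ℕ, d.1 + d.2 ≤ 3 → ∃ c : L, alt7 d cf.PX cf.PY = C c * P := by
    intro d hd
    refine cf.alt_const le_rfl (by norm_num) (E7 d) ?_
    simp [Fin.sum_univ_seven, E7, nEdge]
    omega
  obtain ⟨d0, h0⟩ := hc (3, 0) (by norm_num)
  obtain ⟨d1, h1⟩ := hc (2, 1) (by norm_num)
  obtain ⟨d2, h2⟩ := hc (1, 2) (by norm_num)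
  obtain ⟨d3, h3⟩ := hc (0, 3) (by norm_num)
  have ri := cf.rel_i
  have rii := cf.rel_ii
  rw [h0, h1, h2, h3] at ri rii
  -- relation (i)
  have r1 : (d3 - cf.s 2 * d2) + (cf.b + cf.c) * (d2 - cf.s 2 * d1) +
      cf.al * (d1 - cf.s 2 * d0) = 0 := by
    have : C ((d3 - cf.s 2 * d2) + (cf.b + cf.c) * (d2 - cf.s 2 * d1) +
      cf.al * (d1 - cf.s 2 * d0)) * P = 0 := by
      simp only [C_add, C_mul, C_sub] at ri ⊢
      linear_combination ri
    rcases mul_eq_zero.1 this with h | h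
    · exact (C_injective (Fin 2) L) (by rw [h, C_0])
    · exact absurd h hP0
  have r2 : C (cf.m00 + cf.r 0 * cf.q 0) * X 0 * C (cf.ga' * d3 + (cf.b' + cf.c') * d2 + cf.al' * d1)
      + C (cf.m01 - cf.r 0) * X 1 * C (cf.ga' * d3 + (cf.b' + cf.c') * d2 + cf.al' * d1)
      - C (cf.m10 + cf.p 0 * cf.r 0 * cf.q 0) * X 0 *
        C (cf.ga' * d2 + (cf.b' + cf.c') * d1 + cf.al' * d0)
      - C (cf.m11 - cf.p 0 * cf.r 0) * X 1 * C (cf.ga' * d2 + (cf.b' + cf.c') * d1 + cf.al' * d0)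
      = (0 : MvPolynomial (Fin 2) L) := by
    have : (C (cf.m00 + cf.r 0 * cf.q 0) * X 0 *
        C (cf.ga' * d3 + (cf.b' + cf.c') * d2 + cf.al' * d1)
      + C (cf.m01 - cf.r 0) * X 1 * C (cf.ga' * d3 + (cf.b' + cf.c') * d2 + cf.al' * d1)
      - C (cf.m10 + cf.p 0 * cf.r 0 * cf.q 0) * X 0 *
        C (cf.ga' * d2 + (cf.b' + cf.c') * d1 + cf.al' * d0)
      - C (cf.m11 - cf.p 0 * cf.r 0) * X 1 *
        C (cf.ga' * d2 + (cf.b' + cf.c') * d1 + cf.al' * d0)) * P = 0 := by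
      simp only [C_add, C_mul, C_sub] at rii ⊢
      linear_combination rii
    exact (mul_eq_zero.1 this).resolve_right hP0
  set A := cf.ga' * d3 + (cf.b' + cf.c') * d2 + cf.al' * d1 with hA
  set A' := cf.ga' * d2 + (cf.b' + cf.c') * d1 + cf.al' * d0 with hA'
  have q0 := congrArg (eval ![1, 0]) r2
  have q1 := congrArg (eval ![0, 1]) r2
  simp only [map_add, map_sub, map_mul, eval_C, eval_X, Matrix.cons_val_zero, Matrix.cons_val_one,
    map_zero, mul_one, mul_zero, zero_mul, add_zero, sub_zero, zero_add, zero_sub] at q0 q1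
  have hA'0 : A' = 0 := by
    have : ((cf.m00 + cf.r 0 * cf.q 0) * (cf.m11 - cf.p 0 * cf.r 0) -
      (cf.m01 - cf.r 0) * (cf.m10 + cf.p 0 * cf.r 0 * cf.q 0)) * A' = 0 := by
      linear_combination (cf.m01 - cf.r 0) * q0 - (cf.m00 + cf.r 0 * cf.q 0) * q1
    exact (mul_eq_zero.1 this).resolve_left cf.hG
  have hA0 : A = 0 := by
    have : ((cf.m00 + cf.r 0 * cf.q 0) * (cf.m11 - cf.p 0 * cf.r 0) -
      (cf.m01 - cf.r 0) * (cf.m10 + cf.p 0 * cf.r 0 * cf.q 0)) * A = 0 := by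
      linear_combination (cf.m11 - cf.p 0 * cf.r 0) * q0 - (cf.m10 + cf.p 0 * cf.r 0 * cf.q 0) * q1
    exact (mul_eq_zero.1 this).resolve_left cf.hG
  have t4 := cf.hs4
  have t1 := cf.hpsi1
  have t2 := cf.hpsi2
  rw [hA] at hA0
  rw [hA'] at hA'0
  have EA : cf.ga' * (d3 - cf.τ 6 * d0) + (cf.b' + cf.c') * (d2 - cf.τ 5 * d0) +
      cf.al' * (d1 - cf.τ 4 * d0) = 0 := by
    linear_combination hA0 - d0 * t2
  have EA' : cf.ga' * (d2 - cf.τ 5 * d0) + (cf.b' + cf.c') * (d1 - cf.τ 4 * d0) = 0 := by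
    linear_combination hA'0 - d0 * t1
  have E1 : (d3 - cf.τ 6 * d0) + ((cf.b + cf.c) - cf.s 2) * (d2 - cf.τ 5 * d0) +
      (cf.al - (cf.b + cf.c) * cf.s 2) * (d1 - cf.τ 4 * d0) = 0 := by
    linear_combination r1 - d0 * t4
  have e1 : d1 - cf.τ 4 * d0 = 0 := by
    have : ((cf.b' + cf.c') * ((cf.b' + cf.c') - cf.ga' * ((cf.b + cf.c) - cf.s 2)) -
      cf.ga' * (cf.al' - cf.ga' * (cf.al - (cf.b + cf.c) * cf.s 2))) * (d1 - cf.τ 4 * d0) = 0 := by
      linear_combination ((cf.b' + cf.c') - cf.ga' * ((cf.b + cf.c) - cf.s 2)) * EA' -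
        cf.ga' * (EA - cf.ga' * E1)
    exact (mul_eq_zero.1 this).resolve_left cf.hdet
  have e2 : d2 - cf.τ 5 * d0 = 0 := by
    have : ((cf.b' + cf.c') * ((cf.b' + cf.c') - cf.ga' * ((cf.b + cf.c) - cf.s 2)) -
      cf.ga' * (cf.al' - cf.ga' * (cf.al - (cf.b + cf.c) * cf.s 2))) * (d2 - cf.τ 5 * d0) = 0 := by
      linear_combination (cf.b' + cf.c') * (EA - cf.ga' * E1) -
        (cf.al' - cf.ga' * (cf.al - (cf.b + cf.c) * cf.s 2)) * EA'
    exact (mul_eq_zero.1 this).resolve_left cf.hdet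
  have e3 : d3 - cf.τ 6 * d0 = 0 := by
    linear_combination E1 - ((cf.b + cf.c) - cf.s 2) * e2 -
      (cf.al - (cf.b + cf.c) * cf.s 2) * e1
  rw [h0, h1, h2, h3]
  refine ⟨?_, ?_, ?_⟩
  · rw [sub_eq_zero.1 e1, C_mul, mul_assoc]
  · rw [sub_eq_zero.1 e2, C_mul, mul_assoc]
  · rw [sub_eq_zero.1 e3, C_mul, mul_assoc]

end

end Pool.Agent.H.MP_c30e5d_gt
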