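import Pool.Agent.H.MP_c30e5d_gt.AlgFam
import Pool.Agent.H.MP_c30e5d_gt.AlgConfig
import Pool.Agent.H.MP_c30e5d_gt.AlgConst
import Pool.Agent.H.MP_c30e5d_gt.AlgRatioA
import Pool.Agent.H.MP_c30e5d_gt.AlgRatioB

/-!
# The family at the configuration
-/

namespace Pool.Agent.H.MP_c30e5d_gt

open MvPolynomial

section
variable {k L : Type} [Field k] [Field L] [Algebra k L] (cf : Config k L)

/-- the monomial `∏ τ_j ^ e_j` -/
noncomputable def Config.mon (e : Fin 8 → ℕ) : L := ∏ j, cf.τ j ^ e j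

theorem algmaina_PX_one : cf.PX 1 = C (cf.τ 7) := rfl

/-- the family at `e = 0` -/
theorem algmaina_zero {B : Type} [CommRing B] (x y : Fin 7 → B) (N : ℕ) :
    gfam x y N 0 = alt2 (1, 0) x y ^ N * alt4 (2, 0) x y ^ (2 * N) * alt5 (1, 1) x y ^ N *
      alt7 (3, 0) x y ^ (3 * N) := by
  simp [gfam]

/-- PROOF.  By `ratio2, ratio4, ratio5, ratio7` and `PX 1 = C (τ 7)`. -/
theorem Config.gfam_eq (N : ℕ) (e : Fin 8 → ℕ) (he : ∀ i, e i ≤ N) :
    gfam cf.PX cf.PY N e = C (cf.mon e) * gfam cf.PX cf.PY N 0 := by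
  rw [algmaina_zero]
  unfold gfam
  rw [cf.ratio2, cf.ratio4.1, cf.ratio4.2, cf.ratio5, cf.ratio7.1, cf.ratio7.2.1, cf.ratio7.2.2,
    algmaina_PX_one]
  generalize alt2 (1, 0) cf.PX cf.PY = a2
  generalize alt4 (2, 0) cf.PX cf.PY = a4
  generalize alt5 (1, 1) cf.PX cf.PY = a5
  generalize alt7 (3, 0) cf.PX cf.PY = a7
  have h2 : a2 ^ N = a2 ^ (N - e 0) * a2 ^ e 0 := by
    rw [← pow_add]; congr 1; have := he 0; omega
  have h4 : a4 ^ (2 * N) = a4 ^ (2 * N - e 1 - e 2) * a4 ^ e 1 * a4 ^ e 2 := by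
    rw [← pow_add, ← pow_add]; congr 1; have := he 1; have := he 2; omega
  have h5 : a5 ^ N = a5 ^ (N - e 3) * a5 ^ e 3 := by
    rw [← pow_add]; congr 1; have := he 3; omega
  have h7 : a7 ^ (3 * N) = a7 ^ (3 * N - e 4 - e 5 - e 6) * a7 ^ e 4 * a7 ^ e 5 * a7 ^ e 6 := by
    rw [← pow_add, ← pow_add, ← pow_add]; congr 1
    have := he 4; have := he 5; have := he 6; omega
  have hm : (C (cf.mon e) : MvPolynomial (Fin 2) L) = C (cf.τ 0) ^ e 0 * C (cf.τ 1) ^ e 1 *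
      C (cf.τ 2) ^ e 2 * C (cf.τ 3) ^ e 3 * C (cf.τ 4) ^ e 4 * C (cf.τ 5) ^ e 5 *
      C (cf.τ 6) ^ e 6 * C (cf.τ 7) ^ e 7 := by
    unfold Config.mon
    rw [Fin.prod_univ_eight]
    simp only [map_mul, map_pow]
  rw [h2, h4, h5, h7, hm]
  simp only [mul_pow]
  ring

/-- alternants commute with ring homomorphisms -/
theorem algmaina_map {B B' : Type} [CommRing B] [CommRing B'] (φ : B →+* B') {n : ℕ} (hn : n ≤ 7)
    (E : Fin n → ℕ × ℕ) (x y : Fin 7 → B) :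
    φ (alt hn E x y) = alt hn E (fun i => φ (x i)) (fun i => φ (y i)) := by
  unfold alt
  rw [RingHom.map_det]
  congr 1
  ext i j
  simp

/-- the point `(s, t) = (-6, 30)` -/
noncomputable def algmaina_ev : MvPolynomial (Fin 2) L →+* L := eval ![-6, 30]

theorem algmaina_PX (i : Fin 7) :
    algmaina_ev (cf.PX i) = ptX (cf.τ 7) cf.q cf.r cf.m00 cf.m01 (-6) 30 i := by
  unfold algmaina_ev Config.PX
  fin_cases i <;> simp [ptX]

theorem algmaina_PY (i : Fin 7) :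
    algmaina_ev (cf.PY i) = ptY cf.p cf.q cf.r cf.m10 cf.m11 (-6) 30 i := by
  unfold algmaina_ev Config.PY
  fin_cases i <;> simp [ptY]

theorem algmaina_ne {n : ℕ} (hn : n ≤ 7) (E : Fin n → ℕ × ℕ)
    (h : alt hn E (ptX (cf.τ 7) cf.q cf.r cf.m00 cf.m01 (-6) 30)
      (ptY cf.p cf.q cf.r cf.m10 cf.m11 (-6) 30) ≠ 0) : alt hn E cf.PX cf.PY ≠ 0 := by
  intro h0
  apply h
  have h1 := algmaina_map (algmaina_ev (L := L)) hn E cf.PX cf.PY
  rw [h0, map_zero] at h1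
  rw [h1]
  congr 1
  · funext i; exact (algmaina_PX cf i).symm
  · funext i; exact (algmaina_PY cf i).symm

theorem algmaina_two : alt2 (1, 0) cf.PX cf.PY ≠ 0 := by
  obtain ⟨u, v, hu, h1, -⟩ := cf.edge 0
  have h2 : alt2 (1, 0) cf.PX cf.PY = -(cf.PX 0 - cf.PX 1) := by
    unfold alt2 alt
    rw [Matrix.det_fin_two]
    simp [E2]
  have h3 : cf.eps 0 ≠ 0 := by
    intro h0
    have := cf.eps_deg 0
    rw [h0, totalDegree_zero] at this
    omega
  rw [h2]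
  have h4 : cf.PX 0 - cf.PX 1 = C u * cf.eps 0 := h1
  rw [h4, neg_ne_zero]
  exact mul_ne_zero (fun h => hu (C_injective _ _ (h.trans C_0.symm))) h3

/-- the constant in `alt_const` is nonzero -/
theorem algmaina_const {n : ℕ} (hn : n ≤ 7) (hn' : n = 2 ∨ n = 4 ∨ n = 5 ∨ n = 7)
    (E : Fin n → ℕ × ℕ) (hE : ∑ j, ((E j).1 + (E j).2) ≤ nEdge n)
    (h0 : alt hn E cf.PX cf.PY ≠ 0) :
    ∃ c : L, c ≠ 0 ∧ alt hn E cf.PX cf.PY =
      C c * ∏ e : Fin 11, (if (e : ℕ) < nEdge n then cf.eps e else 1) := by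
  obtain ⟨c, hc⟩ := cf.alt_const hn hn' E hE
  refine ⟨c, ?_, ?_⟩
  · rintro rfl
    apply h0
    rw [hc, C_0, zero_mul]
  · rw [hc, Finset.prod_filter]

/-- PROOF.  `gfam N 0 = alt2^N alt4^{2N} alt5^N alt7^{3N}` and each of these alternants is a nonzero
constant (evaluate at `(s, t) = (-6, 30)`: `hg4, hg5, hg7`; `alt2 = -h_0`) times the product of the
`eps e` over its edges (`alt_const`); the exponent of `eps e` is `mexp N (edst e)`. -/
theorem Config.gfam_zero (N : ℕ) : ∃ c : L, c ≠ 0 ∧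
    gfam cf.PX cf.PY N 0 = C c * ∏ e : Fin 11, cf.eps e ^ mexp N (edst e : ℕ) := by
  obtain ⟨c2, h2, e2⟩ := algmaina_const cf (by norm_num) (Or.inl rfl) (E2 (1, 0))
    (by rw [Fin.sum_univ_two]; decide) (algmaina_two cf)
  obtain ⟨c4, h4, e4⟩ := algmaina_const cf (by norm_num) (Or.inr (Or.inl rfl)) (E4 (2, 0))
    (by rw [Fin.sum_univ_four]; decide) (algmaina_ne cf _ _ cf.hg4)
  obtain ⟨c5, h5, e5⟩ := algmaina_const cf (by norm_num) (Or.inr (Or.inr (Or.inl rfl))) (E5 (1, 1))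
    (by rw [Fin.sum_univ_five]; decide) (algmaina_ne cf _ _ cf.hg5)
  obtain ⟨c7, h7, e7⟩ := algmaina_const cf le_rfl (Or.inr (Or.inr (Or.inr rfl))) (E7 (3, 0))
    (by rw [Fin.sum_univ_seven]; decide) (algmaina_ne cf _ _ cf.hg7)
  refine ⟨c2 ^ N * c4 ^ (2 * N) * c5 ^ N * c7 ^ (3 * N), ?_, ?_⟩
  · exact mul_ne_zero (mul_ne_zero (mul_ne_zero (pow_ne_zero _ h2) (pow_ne_zero _ h4))
      (pow_ne_zero _ h5)) (pow_ne_zero _ h7)
  · rw [algmaina_zero]
    change alt _ (E2 (1, 0)) cf.PX cf.PY ^ N * alt _ (E4 (2, 0)) cf.PX cf.PY ^ (2 * N) *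
      alt _ (E5 (1, 1)) cf.PX cf.PY ^ N * alt _ (E7 (3, 0)) cf.PX cf.PY ^ (3 * N) = _
    rw [e2, e4, e5, e7]
    simp only [mul_pow, ← Finset.prod_pow, map_mul, map_pow]
    have key : (∏ e : Fin 11, (if (e : ℕ) < nEdge 2 then cf.eps e else 1) ^ N) *
        (∏ e : Fin 11, (if (e : ℕ) < nEdge 4 then cf.eps e else 1) ^ (2 * N)) *
        (∏ e : Fin 11, (if (e : ℕ) < nEdge 5 then cf.eps e else 1) ^ N) *
        (∏ e : Fin 11, (if (e : ℕ) < nEdge 7 then cf.eps e else 1) ^ (3 * N)) =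
        ∏ e : Fin 11, cf.eps e ^ mexp N (edst e : ℕ) := by
      rw [← Finset.prod_mul_distrib, ← Finset.prod_mul_distrib, ← Finset.prod_mul_distrib]
      apply Finset.prod_congr rfl
      intro e _
      fin_cases e <;> simp [nEdge, mexp, edst, ← pow_add] <;> congr 1 <;> ring
    rw [← key]
    ring

end

end Pool.Agent.H.MP_c30e5d_gt
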