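import Mathlib

/-!
# Relatively prime linear forms
-/

namespace Pool.Agent.H.MP_c30e5d_gt

open MvPolynomial

/-- Two polynomials of total degree `1` over a field, not proportional, are relatively prime.
PROOF.  If `d ∣ f, g`, `f = d a`, `g = d b`, then `deg d + deg a = 1` (`totalDegree_mul_of_isDomain`).
If `deg d = 0`, `d` is a nonzero constant.  Otherwise `a`, `b` are nonzero constants and
`f = C (a / b) * g`. -/
theorem relPrime_of_deg_one {F σ : Type} [Field F] (f g : MvPolynomial σ F)
    (hf : f.totalDegree = 1) (hg : g.totalDegree = 1) (h : ∀ c : F, f ≠ C c * g) :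
    IsRelPrime f g := by
  have hf0 : f ≠ 0 := by
    rintro rfl
    simp at hf
  have hg0 : g ≠ 0 := by
    rintro rfl
    simp at hg
  rintro d ⟨a, ha⟩ ⟨b, hb⟩
  have hd0 : d ≠ 0 := by
    rintro rfl
    exact hf0 (by rw [ha, zero_mul])
  have ha0 : a ≠ 0 := by
    rintro rfl
    exact hf0 (by rw [ha, mul_zero])
  have hb0 : b ≠ 0 := by
    rintro rfl
    exact hg0 (by rw [hb, mul_zero])
  have h1 : d.totalDegree + a.totalDegree = 1 := by
    rw [← totalDegree_mul_of_isDomain hd0 ha0, ← ha, hf]
  have h2 : d.totalDegree + b.totalDegree = 1 := by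
    rw [← totalDegree_mul_of_isDomain hd0 hb0, ← hb, hg]
  rcases Nat.eq_zero_or_pos d.totalDegree with h0 | h0
  · rw [totalDegree_eq_zero_iff_eq_C] at h0
    have hc : coeff 0 d ≠ 0 := by
      intro hc
      rw [hc, C_0] at h0
      exact hd0 h0
    rw [h0]
    exact (isUnit_iff_ne_zero.mpr hc).map C
  · have ha1 : a.totalDegree = 0 := by omega
    have hb1 : b.totalDegree = 0 := by omega
    rw [totalDegree_eq_zero_iff_eq_C] at ha1 hb1
    have hbc : coeff 0 b ≠ 0 := by
      intro hc
      rw [hc, C_0] at hb1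
      exact hb0 hb1
    exfalso
    obtain ⟨α, hα⟩ : ∃ α, a = C α := ⟨_, ha1⟩
    obtain ⟨β, hβ, hβ0⟩ : ∃ β, b = C β ∧ β ≠ 0 := ⟨_, hb1, hbc⟩
    apply h (α / β)
    rw [ha, hb, hα, hβ]
    have : C (α / β) * C β = (C α : MvPolynomial σ F) := by
      rw [← C_mul, div_mul_cancel₀ _ hβ0]
    rw [← this]
    ring

theorem algPrime_deg {F : Type} [Field F] {n : ℕ} (i j : Fin n) (h : i ≠ j) :
    (X i - X j : MvPolynomial (Fin n) F).totalDegree = 1 := by
  apply le_antisymm
  · refine (totalDegree_sub _ _).trans ?_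
    rw [totalDegree_X, totalDegree_X, max_self]
  · rw [Nat.one_le_iff_ne_zero]
    intro h0
    rw [totalDegree_eq_zero_iff_eq_C] at h0
    have h1 := congrArg (eval (Pi.single i (1 : F))) h0
    have h2 := congrArg (eval (0 : Fin n → F)) h0
    rw [eval_C] at h1 h2
    rw [← h2] at h1
    simp only [map_sub, eval_X, Pi.single_eq_same, Pi.zero_apply,
      Pi.single_eq_of_ne (Ne.symm h)] at h1
    simp at h1

/-- The forms `X i - X j`, `i < j`, over a field are pairwise relatively prime. -/
theorem relPrime_diff {F : Type} [Field F] {n : ℕ} (i j i' j' : Fin n) (h : i < j) (h' : i' < j')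
    (hne : (i, j) ≠ (i', j')) :
    IsRelPrime (X i - X j : MvPolynomial (Fin n) F) (X i' - X j') := by
  apply relPrime_of_deg_one _ _ (algPrime_deg i j h.ne) (algPrime_deg i' j' h'.ne)
  intro c hc
  have key : ∀ v : Fin n → F, v i - v j = c * (v i' - v j') := by
    intro v
    have := congrArg (eval v) hc
    simpa using this
  have hi : i = i' ∨ i = j' := by
    by_contra hcon
    push Not at hcon
    have := key (Pi.single i 1)
    rw [Pi.single_eq_same, Pi.single_eq_of_ne h.ne', Pi.single_eq_of_ne (Ne.symm hcon.1),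
      Pi.single_eq_of_ne (Ne.symm hcon.2)] at this
    simp at this
  have hj : j = i' ∨ j = j' := by
    by_contra hcon
    push Not at hcon
    have := key (Pi.single j 1)
    rw [Pi.single_eq_same, Pi.single_eq_of_ne h.ne, Pi.single_eq_of_ne (Ne.symm hcon.1),
      Pi.single_eq_of_ne (Ne.symm hcon.2)] at this
    simp at this
  rcases hi with hi | hi <;> rcases hj with hj | hj
  · exact absurd (hi.trans hj.symm) h.ne
  · exact hne (by rw [hi, hj])
  · rw [hi, hj] at h
    exact absurd h (not_lt.mpr h'.le)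
  · exact absurd (hi.trans hj.symm) h.ne

end Pool.Agent.H.MP_c30e5d_gt
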