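import Pool.Agent.H.MP_c30e5d_gt.AlgDefs
import Pool.Agent.H.MP_c30e5d_gt.AlgPrime

/-!
# The points of the configuration and the edges
-/

namespace Pool.Agent.H.MP_c30e5d_gt

open MvPolynomial

section
variable {L : Type} [Field L]

theorem algPoints_cs (c a b : L) :
    coeff (Finsupp.single 0 1) (C c + (C a * X 0 + C b * X 1) : MvPolynomial (Fin 2) L) = a := by
  classical
  have h : (0 : Fin 2 →₀ ℕ) ≠ Finsupp.single 0 1 := by
    intro h
    have := DFunLike.congr_fun h 0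
    simp at this
  simp [coeff_X, coeff_C, Finsupp.single_eq_single_iff, h]

theorem algPoints_ct (c a b : L) :
    coeff (Finsupp.single 1 1) (C c + (C a * X 0 + C b * X 1) : MvPolynomial (Fin 2) L) = b := by
  classical
  have h : (0 : Fin 2 →₀ ℕ) ≠ Finsupp.single 1 1 := by
    intro h
    have := DFunLike.congr_fun h 1
    simp at this
  simp [coeff_X, coeff_C, Finsupp.single_eq_single_iff, h]

theorem algPoints_deg (a b : L) (h : ¬ (a = 0 ∧ b = 0)) :
    (C a * X 0 + C b * X 1 : MvPolynomial (Fin 2) L).totalDegree = 1 := by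
  apply le_antisymm
  · refine (totalDegree_add _ _).trans (max_le ?_ ?_)
    · refine (totalDegree_mul _ _).trans ?_
      rw [totalDegree_C, totalDegree_X]
    · refine (totalDegree_mul _ _).trans ?_
      rw [totalDegree_C, totalDegree_X]
  · by_contra hc
    have h0 : (C a * X 0 + C b * X 1 : MvPolynomial (Fin 2) L).totalDegree = 0 := by omega
    rw [totalDegree_eq_zero_iff_eq_C] at h0
    have h1 := algPoints_cs 0 a b
    have h2 := algPoints_ct 0 a b
    have h3 := algPoints_cs (coeff 0 (C a * X 0 + C b * X 1 : MvPolynomial (Fin 2) L)) 0 0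
    have h4 := algPoints_ct (coeff 0 (C a * X 0 + C b * X 1 : MvPolynomial (Fin 2) L)) 0 0
    rw [C_0, zero_add] at h1 h2
    rw [C_0, zero_mul, zero_mul, add_zero, add_zero, ← h0] at h3 h4
    exact h ⟨h1.symm.trans h3, h2.symm.trans h4⟩

theorem algPoints_A1 (p q r : L) (h : r * (p - q) = 1) :
    (C r * (X 1 - C q * X 0) - X 0 : MvPolynomial (Fin 2) L) =
      C r * (C (-p) * X 0 + C 1 * X 1) := by
  have h' : (C r * (C p - C q) : MvPolynomial (Fin 2) L) = 1 := by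
    rw [← C_sub, ← C_mul, h, C_1]
  rw [C_neg, C_1]
  linear_combination X 0 * h'

theorem algPoints_A2 (p q r : L) (h : r * (p - q) = 1) :
    (C p * (C r * (X 1 - C q * X 0)) - X 1 : MvPolynomial (Fin 2) L) =
      C (r * q) * (C (-p) * X 0 + C 1 * X 1) := by
  have h' : (C r * (C p - C q) : MvPolynomial (Fin 2) L) = 1 := by
    rw [← C_sub, ← C_mul, h, C_1]
  rw [C_neg, C_1, C_mul]
  linear_combination X 1 * h'

theorem algPoints_B1 (p q r n m0 m1 : L) (h : r * (p - q) = 1)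
    (hM : m0 + m1 * p + n * (m0 + m1 * q) = 1) :
    (C r * (X 1 - C q * X 0) - (C m0 * X 0 + C m1 * X 1) : MvPolynomial (Fin 2) L) =
      C (-(r * (m0 + m1 * q))) * (C (p + n * q) * X 0 + C (-(1 + n)) * X 1) := by
  have e1 : -(r * q) - m0 = -(r * (m0 + m1 * q)) * (p + n * q) := by
    linear_combination m0 * h + r * q * hM
  have e2 : r - m1 = -(r * (m0 + m1 * q)) * (-(1 + n)) := by
    linear_combination m1 * h - r * hM
  have h1 : (C r * (X 1 - C q * X 0) - (C m0 * X 0 + C m1 * X 1) : MvPolynomial (Fin 2) L) =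
      C (-(r * q) - m0) * X 0 + C (r - m1) * X 1 := by
    simp only [C_sub, C_mul, C_neg]
    ring
  rw [h1, e1, e2, C_mul, C_mul]
  ring

theorem algPoints_B2 (p q r n m0 m1 : L) (h : r * (p - q) = 1)
    (hM : m0 + m1 * p + n * (m0 + m1 * q) = p) :
    (C p * (C r * (X 1 - C q * X 0)) - (C m0 * X 0 + C m1 * X 1) : MvPolynomial (Fin 2) L) =
      C (-(r * (m0 + m1 * q))) * (C (p + n * q) * X 0 + C (-(1 + n)) * X 1) := by
  have e1 : -(p * r * q) - m0 = -(r * (m0 + m1 * q)) * (p + n * q) := by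
    linear_combination m0 * h + r * q * hM
  have e2 : p * r - m1 = -(r * (m0 + m1 * q)) * (-(1 + n)) := by
    linear_combination m1 * h - r * hM
  have h1 : (C p * (C r * (X 1 - C q * X 0)) - (C m0 * X 0 + C m1 * X 1) :
      MvPolynomial (Fin 2) L) = C (-(p * r * q) - m0) * X 0 + C (p * r - m1) * X 1 := by
    simp only [C_sub, C_mul, C_neg]
    ring
  rw [h1, e1, e2, C_mul, C_mul]
  ring

end

section
variable {k L : Type} [Field k] [Field L] [Algebra k L] (cf : Config k L)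

/-- first coordinates of the points, in `L[s, t]` -/
noncomputable def Config.PX : Fin 7 → MvPolynomial (Fin 2) L :=
  ptX (C (cf.τ 7)) (fun i => C (cf.q i)) (fun i => C (cf.r i)) (C cf.m00) (C cf.m01) (X 0) (X 1)

/-- second coordinates of the points, in `L[s, t]` -/
noncomputable def Config.PY : Fin 7 → MvPolynomial (Fin 2) L :=
  ptY (fun i => C (cf.p i)) (fun i => C (cf.q i)) (fun i => C (cf.r i)) (C cf.m10) (C cf.m11)
    (X 0) (X 1)

/-- the linear form of an edge -/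
noncomputable def Config.eps (e : Fin 11) : MvPolynomial (Fin 2) L :=
  C (ecoef cf.p cf.q cf.n e).1 * X 0 + C (ecoef cf.p cf.q cf.n e).2 * X 1

theorem Config.eps_deg (e : Fin 11) : (cf.eps e).totalDegree = 1 := by
  apply algPoints_deg
  rintro ⟨h1, h2⟩
  obtain ⟨f, hf⟩ : ∃ f : Fin 11, e ≠ f := by
    by_cases h : e = 0
    · exact ⟨1, by rw [h]; decide⟩
    · exact ⟨0, h⟩
  apply cf.hker e f hf
  rw [h1, h2, zero_mul, mul_zero, sub_zero]

/-- the linear forms of different edges are relatively prime (`hker`, `relPrime_of_deg_one`) -/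
theorem Config.eps_relPrime (e f : Fin 11) (h : e ≠ f) : IsRelPrime (cf.eps e) (cf.eps f) := by
  refine relPrime_of_deg_one _ _ (cf.eps_deg e) (cf.eps_deg f) fun c hc => ?_
  apply cf.hker e f h
  have h1 := congrArg (coeff (Finsupp.single 0 1)) hc
  have h2 := congrArg (coeff (Finsupp.single 1 1)) hc
  rw [coeff_C_mul] at h1 h2
  unfold Config.eps at h1 h2
  have c1 := algPoints_cs 0 (ecoef cf.p cf.q cf.n e).1 (ecoef cf.p cf.q cf.n e).2
  have c2 := algPoints_ct 0 (ecoef cf.p cf.q cf.n e).1 (ecoef cf.p cf.q cf.n e).2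
  have c3 := algPoints_cs 0 (ecoef cf.p cf.q cf.n f).1 (ecoef cf.p cf.q cf.n f).2
  have c4 := algPoints_ct 0 (ecoef cf.p cf.q cf.n f).1 (ecoef cf.p cf.q cf.n f).2
  rw [C_0, zero_add] at c1 c2 c3 c4
  rw [c1, c3] at h1
  rw [c2, c4] at h2
  rw [h1, h2]
  ring

theorem algPoints_r (i : Fin 4) : cf.r i ≠ 0 := by
  intro h
  have := cf.hr i
  rw [h, zero_mul] at this
  exact zero_ne_one this

/-- Along the edge `e` the two points differ by a constant vector times `eps e`.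
PROOF (11 cases).  `R_i - 0 = r_i (t - q_i s) (1, p_i)`; `R_i - v = r_i (t - p_i s) (1, q_i)` (use
`r_i (p_i - q_i) = 1`); for `e = 8, 9, 10`, `l = 0, 1, 2`, `i = l + 1`:
`M v - R_i = r_i ((p_i + n_l q_i) s - (1 + n_l) t) (m00 + m01 q_i, m10 + m11 q_i)`
from `hM0`, `hM1` and `hr` (`v = h_i (1, p_i) + g_i (1, q_i)`, `h_i = r_i (t - q_i s)`,
`g_i = r_i (p_i s - t)`, `M (1, p_i) = (1, p_i) - n_l M (1, q_i)`). -/
theorem Config.edge (e : Fin 11) : ∃ u v : L, u ≠ 0 ∧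
    cf.PX (esrc e) - cf.PX (edst e) = C u * cf.eps e ∧
    cf.PY (esrc e) - cf.PY (edst e) = C v * cf.eps e := by
  have key0 : ∀ i : Fin 4, (C (cf.r i) * (X 1 - C (cf.q i) * X 0) : MvPolynomial (Fin 2) L) =
      C (cf.r i) * (C (-cf.q i) * X 0 + C 1 * X 1) := by
    intro i
    rw [C_neg, C_1]; ring
  have key1 : ∀ i : Fin 4, (C (cf.p i) * (C (cf.r i) * (X 1 - C (cf.q i) * X 0)) :
      MvPolynomial (Fin 2) L) = C (cf.p i * cf.r i) * (C (-cf.q i) * X 0 + C 1 * X 1) := by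
    intro i
    rw [C_neg, C_1, C_mul]; ring
  -- the edges starting at the point 1
  have k2 : ∀ i : Fin 4, ∀ c : MvPolynomial (Fin 2) L,
      (c - (c + C (cf.r i) * (X 1 - C (cf.q i) * X 0)) =
        C (-cf.r i) * (C (-cf.q i) * X 0 + C 1 * X 1)) ∧
      ((0 - C (cf.p i) * (C (cf.r i) * (X 1 - C (cf.q i) * X 0)) : MvPolynomial (Fin 2) L) =
        C (-(cf.p i * cf.r i)) * (C (-cf.q i) * X 0 + C 1 * X 1)) := by
    intro i c
    constructor
    · simp only [C_neg, C_1]; ring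
    · simp only [C_neg, C_1, C_mul]; ring
  -- the edges starting at the point 2
  have k3 : ∀ i : Fin 4, ∀ c : MvPolynomial (Fin 2) L,
      ((c + X 0) - (c + C (cf.r i) * (X 1 - C (cf.q i) * X 0)) =
        C (-cf.r i) * (C (-cf.p i) * X 0 + C 1 * X 1)) ∧
      ((X 1 - C (cf.p i) * (C (cf.r i) * (X 1 - C (cf.q i) * X 0)) : MvPolynomial (Fin 2) L) =
        C (-(cf.r i * cf.q i)) * (C (-cf.p i) * X 0 + C 1 * X 1)) := by
    intro i c
    have h1 := algPoints_A1 (cf.p i) (cf.q i) (cf.r i) (cf.hr i)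
    have h2 := algPoints_A2 (cf.p i) (cf.q i) (cf.r i) (cf.hr i)
    constructor
    · have h3 : (C (-cf.r i) : MvPolynomial (Fin 2) L) = -C (cf.r i) := C_neg ..
      rw [h3]
      linear_combination -h1
    · have h3 : (C (-(cf.r i * cf.q i)) : MvPolynomial (Fin 2) L) = -C (cf.r i * cf.q i) :=
        C_neg ..
      rw [h3]
      linear_combination -h2
  -- the edges ending at the point 6
  have k8 : ∀ l : Fin 3, ∀ c : MvPolynomial (Fin 2) L,
      ((c + C (cf.r l.succ) * (X 1 - C (cf.q l.succ) * X 0)) -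
        (c + C cf.m00 * X 0 + C cf.m01 * X 1) =
        C (-(cf.r l.succ * (cf.m00 + cf.m01 * cf.q l.succ))) *
          (C (cf.p l.succ + cf.n l * cf.q l.succ) * X 0 + C (-(1 + cf.n l)) * X 1)) ∧
      ((C (cf.p l.succ) * (C (cf.r l.succ) * (X 1 - C (cf.q l.succ) * X 0)) -
        (C cf.m10 * X 0 + C cf.m11 * X 1) : MvPolynomial (Fin 2) L) =
        C (-(cf.r l.succ * (cf.m10 + cf.m11 * cf.q l.succ))) *
          (C (cf.p l.succ + cf.n l * cf.q l.succ) * X 0 + C (-(1 + cf.n l)) * X 1)) := by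
    intro l c
    have h1 := algPoints_B1 (cf.p l.succ) (cf.q l.succ) (cf.r l.succ) (cf.n l) cf.m00 cf.m01
      (cf.hr _) (cf.hM0 l)
    have h2 := algPoints_B2 (cf.p l.succ) (cf.q l.succ) (cf.r l.succ) (cf.n l) cf.m10 cf.m11
      (cf.hr _) (cf.hM1 l)
    constructor
    · linear_combination h1
    · exact h2
  have hd : ∀ l : Fin 3, -(cf.r l.succ * (cf.m00 + cf.m01 * cf.q l.succ)) ≠ 0 := fun l =>
    neg_ne_zero.2 (mul_ne_zero (algPoints_r cf _) (cf.hd l))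
  have hr' : ∀ i, -cf.r i ≠ 0 := fun i => neg_ne_zero.2 (algPoints_r cf i)
  fin_cases e
  · refine ⟨cf.r 0, cf.p 0 * cf.r 0, algPoints_r cf 0, ?_, ?_⟩
    · show (C (cf.τ 7) + C (cf.r 0) * (X 1 - C (cf.q 0) * X 0)) - C (cf.τ 7) =
        C (cf.r 0) * (C (-cf.q 0) * X 0 + C 1 * X 1)
      rw [key0]; ring
    · show C (cf.p 0) * (C (cf.r 0) * (X 1 - C (cf.q 0) * X 0)) - 0 =
        C (cf.p 0 * cf.r 0) * (C (-cf.q 0) * X 0 + C 1 * X 1)
      rw [key1]; ring
  · refine ⟨cf.r 0, cf.r 0 * cf.q 0, algPoints_r cf 0, ?_, ?_⟩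
    · show (C (cf.τ 7) + C (cf.r 0) * (X 1 - C (cf.q 0) * X 0)) - (C (cf.τ 7) + X 0) =
        C (cf.r 0) * (C (-cf.p 0) * X 0 + C 1 * X 1)
      have h1 := algPoints_A1 (cf.p 0) (cf.q 0) (cf.r 0) (cf.hr 0)
      linear_combination h1
    · exact algPoints_A2 (cf.p 0) (cf.q 0) (cf.r 0) (cf.hr 0)
  · exact ⟨-cf.r 1, -(cf.p 1 * cf.r 1), hr' 1, (k2 1 (C (cf.τ 7))).1, (k2 1 0).2⟩
  · exact ⟨-cf.r 1, -(cf.r 1 * cf.q 1), hr' 1, (k3 1 (C (cf.τ 7))).1, (k3 1 0).2⟩
  · exact ⟨-cf.r 2, -(cf.p 2 * cf.r 2), hr' 2, (k2 2 (C (cf.τ 7))).1, (k2 2 0).2⟩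
  · exact ⟨-cf.r 2, -(cf.r 2 * cf.q 2), hr' 2, (k3 2 (C (cf.τ 7))).1, (k3 2 0).2⟩
  · exact ⟨-cf.r 3, -(cf.p 3 * cf.r 3), hr' 3, (k2 3 (C (cf.τ 7))).1, (k2 3 0).2⟩
  · exact ⟨-cf.r 3, -(cf.r 3 * cf.q 3), hr' 3, (k3 3 (C (cf.τ 7))).1, (k3 3 0).2⟩
  · exact ⟨-(cf.r 1 * (cf.m00 + cf.m01 * cf.q 1)), -(cf.r 1 * (cf.m10 + cf.m11 * cf.q 1)), hd 0,
      (k8 0 (C (cf.τ 7))).1, (k8 0 0).2⟩
  · exact ⟨-(cf.r 2 * (cf.m00 + cf.m01 * cf.q 2)), -(cf.r 2 * (cf.m10 + cf.m11 * cf.q 2)), hd 1,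
      (k8 1 (C (cf.τ 7))).1, (k8 1 0).2⟩
  · exact ⟨-(cf.r 3 * (cf.m00 + cf.m01 * cf.q 3)), -(cf.r 3 * (cf.m10 + cf.m11 * cf.q 3)), hd 2,
      (k8 2 (C (cf.τ 7))).1, (k8 2 0).2⟩

theorem algPoints_ctPX (l : Fin 7) : coeff (Finsupp.single 1 1) (cf.PX l) =
    (![cf.r 0, 0, 0, cf.r 1, cf.r 2, cf.r 3, cf.m01] : Fin 7 → L) l := by
  have key : ∀ i : Fin 4, coeff (Finsupp.single 1 1)
      (C (cf.τ 7) + C (cf.r i) * (X 1 - C (cf.q i) * X 0) : MvPolynomial (Fin 2) L) = cf.r i := by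
    intro i
    have h := algPoints_ct (cf.τ 7) (-(cf.r i * cf.q i)) (cf.r i)
    have h2 : (C (cf.τ 7) + C (cf.r i) * (X 1 - C (cf.q i) * X 0) : MvPolynomial (Fin 2) L) =
        C (cf.τ 7) + (C (-(cf.r i * cf.q i)) * X 0 + C (cf.r i) * X 1) := by
      rw [C_neg, C_mul]; ring
    rw [h2]
    exact h
  fin_cases l
  · exact key 0
  · have h := algPoints_ct (cf.τ 7) 0 0
    rw [C_0, zero_mul, zero_mul, add_zero, add_zero] at h
    exact h
  · have h := algPoints_ct (cf.τ 7) 1 0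
    rw [C_0, zero_mul, C_1, one_mul, add_zero] at h
    exact h
  · exact key 1
  · exact key 2
  · exact key 3
  · have h := algPoints_ct (cf.τ 7) cf.m00 cf.m01
    rw [← add_assoc] at h
    exact h

/-- `x_l ≠ x_j` for the points `l` between the two ends `i < j` of an edge.  (Compare the
coefficients of `t` — and of `s` for `P_1`, `P_2` — using `hx12, hx13, hx23, hx1, hx2` and
`r_i ≠ 0`.) -/
theorem Config.between (e : Fin 11) (l : Fin 7) (h1 : esrc e < l) (h2 : l < edst e) :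
    cf.PX l ≠ cf.PX (edst e) := by
  have key : ∀ i j : Fin 7, (![cf.r 0, 0, 0, cf.r 1, cf.r 2, cf.r 3, cf.m01] : Fin 7 → L) i ≠
      (![cf.r 0, 0, 0, cf.r 1, cf.r 2, cf.r 3, cf.m01] : Fin 7 → L) j → cf.PX i ≠ cf.PX j := by
    intro i j hij h
    apply hij
    rw [← algPoints_ctPX, ← algPoints_ctPX, h]
  have k12 : cf.PX 1 ≠ cf.PX 2 := by
    intro h
    have h3 := congrArg (coeff (Finsupp.single 0 1)) h
    have h4 := algPoints_cs (cf.τ 7) 0 0
    have h5 := algPoints_cs (cf.τ 7) 1 0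
    rw [C_0, zero_mul, zero_mul, add_zero, add_zero] at h4
    rw [C_0, zero_mul, C_1, one_mul, add_zero] at h5
    exact zero_ne_one (h4.symm.trans (h3.trans h5))
  have k23 : cf.PX 2 ≠ cf.PX 3 := key 2 3 (algPoints_r cf 1).symm
  have k24 : cf.PX 2 ≠ cf.PX 4 := key 2 4 (algPoints_r cf 2).symm
  have k34 : cf.PX 3 ≠ cf.PX 4 := key 3 4 cf.hx12
  have k25 : cf.PX 2 ≠ cf.PX 5 := key 2 5 (algPoints_r cf 3).symm
  have k35 : cf.PX 3 ≠ cf.PX 5 := key 3 5 cf.hx13
  have k45 : cf.PX 4 ≠ cf.PX 5 := key 4 5 cf.hx23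
  have k46 : cf.PX 4 ≠ cf.PX 6 := key 4 6 cf.hx1.symm
  have k56 : cf.PX 5 ≠ cf.PX 6 := key 5 6 cf.hx2.symm
  have hlist : ∀ e : Fin 11, ∀ l : Fin 7, esrc e < l → l < edst e → (l, edst e) ∈
      ([(1, 2), (2, 3), (2, 4), (3, 4), (2, 5), (3, 5), (4, 5), (4, 6), (5, 6)] :
        List (Fin 7 × Fin 7)) := by decide
  have hall : ∀ y ∈ ([(1, 2), (2, 3), (2, 4), (3, 4), (2, 5), (3, 5), (4, 5), (4, 6), (5, 6)] :
      List (Fin 7 × Fin 7)), cf.PX y.1 ≠ cf.PX y.2 := by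
    intro y hy
    simp only [List.mem_cons, List.not_mem_nil, or_false] at hy
    rcases hy with rfl | rfl | rfl | rfl | rfl | rfl | rfl | rfl | rfl
    · exact k12
    · exact k23
    · exact k24
    · exact k34
    · exact k25
    · exact k35
    · exact k45
    · exact k46
    · exact k56
  exact hall _ (hlist e l h1 h2)

end

end Pool.Agent.H.MP_c30e5d_gt
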