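import Pool.Agent.H.MP_c30e5d_gt.Defs

/-!
# `R` is free over `R^{s_i}` with basis `1, x_i`

PROOF.  Every `f` is uniquely `f = a + x_i b` with `a, b ∈ R^{s_i}`, namely
`b = (f - s_i f) / (x_i - x_{i+1})` (the difference is divisible: induction on `f`
(`MvPolynomial.induction_on`; `f g - s(f g) = (f - s f) g + s f (g - s g)`)), `a = f - x_i b`;
`b` is `s_i`-invariant because `(x_i - x_{i+1}) b` is antisymmetric and `R` is a domain, and
`s_i a = s_i f - x_{i+1} b = f - (x_i - x_{i+1}) b - x_{i+1} b = a`.
Uniqueness: `a + x_i b = 0` and `s_i` give `a + x_{i+1} b = 0`, so `(x_i - x_{i+1}) b = 0`.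
-/

namespace Pool.Agent.H.MP_c30e5d_gt

open MvPolynomial TensorProduct

variable (k : Type) [Field k] {m : ℕ}

/-- the involution `s_i` -/
noncomputable def basiss_s (i : Fin m) : RR k m →ₐ[k] RR k m :=
  rename (Equiv.swap i.castSucc i.succ)

theorem basiss_ne (i : Fin m) : i.castSucc ≠ i.succ := (Fin.castSucc_lt_succ (i := i)).ne

theorem basiss_mem (i : Fin m) (f : RR k m) : f ∈ Sinv k m i ↔ basiss_s k i f = f := by
  unfold Sinv basiss_s
  rw [AlgHom.mem_equalizer]
  rfl

theorem basiss_X0 (i : Fin m) : basiss_s k i (X i.castSucc) = X i.succ := by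
  unfold basiss_s
  rw [rename_X, Equiv.swap_apply_left]

theorem basiss_X1 (i : Fin m) : basiss_s k i (X i.succ) = X i.castSucc := by
  unfold basiss_s
  rw [rename_X, Equiv.swap_apply_right]

theorem basiss_X (i : Fin m) (j : Fin (m + 1)) (h0 : j ≠ i.castSucc) (h1 : j ≠ i.succ) :
    basiss_s k i (X j) = X j := by
  unfold basiss_s
  rw [rename_X, Equiv.swap_apply_of_ne_of_ne h0 h1]

theorem basiss_dvd (i : Fin m) (f : RR k m) :
    ∃ b, f - basiss_s k i f = (X i.castSucc - X i.succ) * b := by
  induction f using MvPolynomial.induction_on with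
  | C a => exact ⟨0, by unfold basiss_s; rw [rename_C]; ring⟩
  | add p q hp hq =>
    obtain ⟨b, hb⟩ := hp
    obtain ⟨c, hc⟩ := hq
    refine ⟨b + c, ?_⟩
    rw [map_add, mul_add, ← hb, ← hc]; ring
  | mul_X p j hp =>
    obtain ⟨b, hb⟩ := hp
    have hX : ∃ c : RR k m, (X j : RR k m) - basiss_s k i (X j) = (X i.castSucc - X i.succ) * c := by
      by_cases h0 : j = i.castSucc
      · refine ⟨1, ?_⟩
        rw [h0, basiss_X0]; ring
      · by_cases h1 : j = i.succ
        · refine ⟨-1, ?_⟩
          rw [h1, basiss_X1]; ring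
        · refine ⟨0, ?_⟩
          rw [basiss_X k i j h0 h1]; ring
    obtain ⟨c, hc⟩ := hX
    refine ⟨b * X j + basiss_s k i p * c, ?_⟩
    rw [map_mul]
    linear_combination (X j : RR k m) * hb + basiss_s k i p * hc

theorem basiss_sub_ne (i : Fin m) : (X i.castSucc - X i.succ : RR k m) ≠ 0 := by
  intro h
  exact basiss_ne i (X_injective (sub_eq_zero.1 h))

theorem basiss_ss (i : Fin m) (f : RR k m) : basiss_s k i (basiss_s k i f) = f := by
  unfold basiss_s
  rw [rename_rename]
  have : (Equiv.swap i.castSucc i.succ : Fin (m + 1) → Fin (m + 1)) ∘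
      (Equiv.swap i.castSucc i.succ) = id := by
    funext x
    simp
  rw [this, rename_id]
  rfl

/-- `1, x_i` is a basis of `R` over `R^{s_i}`. -/
theorem exists_basisS (i : Fin m) :
    ∃ B : Module.Basis (Fin 2) (Sinv k m i) (RR k m), B 0 = 1 ∧ B 1 = X i.castSucc := by
  have hli : LinearIndependent (Sinv k m i) ![(1 : RR k m), X i.castSucc] := by
    rw [LinearIndependent.pair_iff]
    intro a b h
    have h1 : (a : RR k m) + (b : RR k m) * X i.castSucc = 0 := by
      have h2 : a • (1 : RR k m) + b • (X i.castSucc : RR k m)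
          = (a : RR k m) + (b : RR k m) * X i.castSucc := by
        rw [Subalgebra.smul_def, Subalgebra.smul_def, smul_eq_mul, smul_eq_mul, mul_one]
      rw [← h2]; exact h
    have ha := (basiss_mem k i a).1 a.2
    have hb := (basiss_mem k i b).1 b.2
    have h3 : (a : RR k m) + (b : RR k m) * X i.succ = 0 := by
      have h4 := congrArg (basiss_s k i) h1
      rw [map_add, map_mul, ha, hb, basiss_X0, map_zero] at h4
      exact h4
    have h5 : (X i.castSucc - X i.succ : RR k m) * b = 0 := by
      linear_combination h1 - h3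
    have h6 : (b : RR k m) = 0 := (mul_eq_zero.1 h5).resolve_left (basiss_sub_ne k i)
    have h7 : (a : RR k m) = 0 := by
      rw [h6, zero_mul, add_zero] at h1; exact h1
    exact ⟨Subtype.ext h7, Subtype.ext h6⟩
  have hsp : ⊤ ≤ Submodule.span (Sinv k m i) (Set.range ![(1 : RR k m), X i.castSucc]) := by
    intro f _
    have hr : Set.range ![(1 : RR k m), X i.castSucc] = {1, X i.castSucc} := by
      simp [Matrix.range_cons, Matrix.range_empty, Set.pair_comm]
    rw [hr, Submodule.mem_span_pair]
    obtain ⟨b, hb⟩ := basiss_dvd k i f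
    have hsb : basiss_s k i b = b := by
      have h1 := congrArg (basiss_s k i) hb
      rw [map_sub, map_mul, map_sub, basiss_X0, basiss_X1, basiss_ss] at h1
      apply mul_left_cancel₀ (basiss_sub_ne k i)
      linear_combination h1 + hb
    have hsf : basiss_s k i f = f - (X i.castSucc - X i.succ) * b := by
      linear_combination - hb
    have hsa : basiss_s k i (f - X i.castSucc * b) = f - X i.castSucc * b := by
      rw [map_sub, map_mul, basiss_X0, hsb, hsf]; ring
    refine ⟨⟨f - X i.castSucc * b, (basiss_mem k i _).2 hsa⟩, ⟨b, (basiss_mem k i _).2 hsb⟩, ?_⟩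
    rw [Subalgebra.smul_def, Subalgebra.smul_def, smul_eq_mul, smul_eq_mul]
    ring
  refine ⟨Module.Basis.mk hli hsp, ?_, ?_⟩
  · rw [Module.Basis.mk_apply]; rfl
  · rw [Module.Basis.mk_apply]; rfl

end Pool.Agent.H.MP_c30e5d_gt
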