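import Mathlib

/-!
# The words: Jucys-Murphy words and their products
-/

namespace Pool.Agent.H.MP_c30e5d_gt

/-- the descending word `j-1, j-2, …, l` (letters of `Fin m` with `l ≤ i < j`) -/
def down (m j l : ℕ) : List (Fin m) :=
  ((List.finRange m).filter fun i : Fin m => l ≤ (i : ℕ) ∧ (i : ℕ) < j).reverse

/-- the ascending word `l, l+1, …, j-1` -/
def up (m l j : ℕ) : List (Fin m) :=
  (List.finRange m).filter fun i : Fin m => l ≤ (i : ℕ) ∧ (i : ℕ) < j

/-- the Jucys-Murphy word `s_{j-1} ⋯ s_0 s_0 ⋯ s_{j-1}`: strand `j` once around the strands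
`0, …, j-1` -/
def JMw (m j : ℕ) : List (Fin m) := down m j 0 ++ up m 0 j

/-- the word `∏_{j = 1}^{m} (JMw j)^{b j}` -/
def jmWord (m : ℕ) (b : ℕ → ℕ) : List (Fin m) :=
  ((List.range m).map fun j => (List.replicate (b (j + 1)) (JMw m (j + 1))).flatten).flatten

end Pool.Agent.H.MP_c30e5d_gt
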