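import Pool.Agent.H.MP_c30e5d_gt.Defs
import Pool.Agent.H.MP_c30e5d_gt.WordDefs

/-!
# `J_j` commutes with the braids on the first `j` strands (step (4) of the header of BraidA.lean)

`J_j` commutes with `s_i` for `i + 1 < j`:
`s_i s_{j-1} ⋯ s_{i+1} s_i X s_i s_{i+1} ⋯ s_{j-1}`, where `X = s_{i-1} ⋯ s_0 s_0 ⋯ s_{i-1}`
commutes with `s_{i+1}`:  `s_i` moves to the right up to `s_{i+1}`, braid relation
`s_i s_{i+1} s_i = s_{i+1} s_i s_{i+1}`, `s_{i+1}` moves through `X`,
`s_{i+1} s_i s_{i+1} = s_i s_{i+1} s_i`, and the last `s_i` moves to the right end.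
(A convenient way: `J_{j+1} = s_j * J_j * s_j`; induction on `j`.  For `i + 1 < j + 1`: if
`i + 1 < j`, `s_i` commutes with `s_j` and with `J_j`; if `i + 1 = j`:
`s_i s_{i+1} s_i J_i s_i s_{i+1} = s_{i+1} s_i s_{i+1} J_i s_i s_{i+1}
 = s_{i+1} s_i J_i s_{i+1} s_i s_{i+1} = s_{i+1} s_i J_i s_i s_{i+1} s_i`.)

The hypothesis `j ≤ m` is needed: `JMw m (m + 1) = JMw m m` does not commute with the last
generator.
-/

namespace Pool.Agent.H.MP_c30e5d_gt

theorem braidb_append {m : ℕ} (v w : List (Fin m)) :
    braidOf (v ++ w) = braidOf v * braidOf w := by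
  unfold braidOf
  rw [List.map_append, List.prod_append]

theorem braidb_cons {m : ℕ} (i : Fin m) (w : List (Fin m)) :
    braidOf (i :: w) = braidOf [i] * braidOf w := braidb_append [i] w

theorem braidb_single {m : ℕ} (i : Fin m) :
    braidOf [i] = PresentedGroup.of (rels := artinRels m) i := by
  simp [braidOf]

theorem braidb_far {m : ℕ} (i j : Fin m) (h : (i : ℕ) + 2 ≤ (j : ℕ)) :
    braidOf [i] * braidOf [j] = braidOf [j] * braidOf [i] := by
  rw [braidb_single, braidb_single]
  have h1 : (PresentedGroup.mk (artinRels m)) (FreeGroup.of i * FreeGroup.of j *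
      (FreeGroup.of j * FreeGroup.of i)⁻¹) = 1 :=
    PresentedGroup.one_of_mem (Or.inl ⟨i, j, h, rfl⟩)
  rw [map_mul, map_inv, mul_inv_eq_one, map_mul, map_mul] at h1
  exact h1

theorem braidb_braid {m : ℕ} (i j : Fin m) (h : (i : ℕ) + 1 = (j : ℕ)) :
    braidOf [i] * braidOf [j] * braidOf [i] = braidOf [j] * braidOf [i] * braidOf [j] := by
  rw [braidb_single, braidb_single]
  have h1 : (PresentedGroup.mk (artinRels m)) (FreeGroup.of i * FreeGroup.of j *
      FreeGroup.of i * (FreeGroup.of j * FreeGroup.of i * FreeGroup.of j)⁻¹) = 1 :=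
    PresentedGroup.one_of_mem (Or.inr ⟨i, j, h, rfl⟩)
  rw [map_mul, map_inv, mul_inv_eq_one, map_mul, map_mul, map_mul, map_mul] at h1
  exact h1

theorem braidb_word {m : ℕ} (j : Fin m) (w : List (Fin m))
    (h : ∀ x ∈ w, (x : ℕ) + 2 ≤ (j : ℕ)) : Commute (braidOf [j]) (braidOf w) := by
  induction w with
  | nil =>
    have : braidOf ([] : List (Fin m)) = 1 := by simp [braidOf]
    rw [this]
    exact Commute.one_right _
  | cons x w ih =>
    rw [braidb_cons]
    refine Commute.mul_right ?_ (ih fun y hy => h y (List.mem_cons_of_mem _ hy))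
    exact (braidb_far x j (h x (List.mem_cons_self ..))).symm

theorem braidb_up (m l j : ℕ) (hl : l ≤ j) (hj : j < m) :
    up m l (j + 1) = up m l j ++ [⟨j, hj⟩] := by
  have hs : (List.finRange m).Pairwise (· < ·) := List.pairwise_lt_finRange m
  have h1 : (up m l (j + 1)).Pairwise (· < ·) := List.Pairwise.filter _ hs
  have h2 : (up m l j ++ [(⟨j, hj⟩ : Fin m)]).Pairwise (· < ·) := by
    rw [List.pairwise_append]
    refine ⟨List.Pairwise.filter _ hs, List.pairwise_singleton _ _, ?_⟩
    intro a ha b hb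
    rw [List.mem_singleton] at hb
    subst hb
    have := List.mem_filter.1 ha
    have h3 : l ≤ (a : ℕ) ∧ (a : ℕ) < j := by simpa using this.2
    exact h3.2
  refine List.Perm.eq_of_pairwise (le := (· < ·)) ?_ h1 h2 ?_
  · intro a b _ _ hab hba
    exact absurd (lt_trans hab hba) (lt_irrefl _)
  · rw [List.perm_ext_iff_of_nodup (h1.imp fun h => ne_of_lt h) (h2.imp fun h => ne_of_lt h)]
    intro a
    rw [List.mem_append, List.mem_singleton]
    unfold up
    simp only [List.mem_filter, List.mem_finRange, true_and, decide_eq_true_eq]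
    constructor
    · intro h
      by_cases h4 : (a : ℕ) < j
      · exact Or.inl ⟨h.1, h4⟩
      · right
        apply Fin.ext
        simp only
        omega
    · rintro (h | h)
      · exact ⟨h.1, by omega⟩
      · subst h
        exact ⟨hl, by simp⟩

theorem braidb_down (m l j : ℕ) (hl : l ≤ j) (hj : j < m) :
    down m (j + 1) l = ⟨j, hj⟩ :: down m j l := by
  have h := braidb_up m l j hl hj
  unfold up at h
  unfold down
  rw [h, List.reverse_append]
  rfl

theorem braidb_J_succ (m j : ℕ) (hj : j < m) :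
    braidOf (JMw m (j + 1)) =
      braidOf [⟨j, hj⟩] * braidOf (JMw m j) * braidOf [⟨j, hj⟩] := by
  unfold JMw
  rw [braidb_up m 0 j (Nat.zero_le _) hj, braidb_down m 0 j (Nat.zero_le _) hj,
    List.cons_append, braidb_cons, ← List.append_assoc, braidb_append, mul_assoc]

theorem braidb_J_letters (m j : ℕ) : ∀ x ∈ JMw m j, (x : ℕ) < j := by
  intro x hx
  unfold JMw down up at hx
  rw [List.mem_append, List.mem_reverse, List.mem_filter] at hx
  rcases hx with h | h
  · have h1 : 0 ≤ (x : ℕ) ∧ (x : ℕ) < j := by simpa using h.2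
    exact h1.2
  · have h1 : 0 ≤ (x : ℕ) ∧ (x : ℕ) < j := by simpa using h.2
    exact h1.2

/-- `J_j` commutes with `s_i` for `i + 1 < j ≤ m`. -/
theorem JMw_comm (m j : ℕ) (i : Fin m) (hi : (i : ℕ) + 1 < j) (hj : j ≤ m) :
    Commute (braidOf [i]) (braidOf (JMw m j)) := by
  induction j with
  | zero => omega
  | succ j ih =>
    have hj' : j < m := hj
    rw [braidb_J_succ m j hj']
    by_cases h : (i : ℕ) + 1 < j
    · have h1 := ih h hj'.le
      have h2 : Commute (braidOf [i]) (braidOf [(⟨j, hj'⟩ : Fin m)]) :=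
        braidb_far i ⟨j, hj'⟩ (by simp only; omega)
      exact (h2.mul_right h1).mul_right h2
    · have h3 : (i : ℕ) + 1 = j := by omega
      subst h3
      have h4 : (i : ℕ) < m := i.2
      have h5 : (⟨(i : ℕ), h4⟩ : Fin m) = i := rfl
      rw [braidb_J_succ m i h4, h5]
      set s := braidOf [i] with hs
      set t := braidOf [(⟨(i : ℕ) + 1, hj'⟩ : Fin m)] with ht
      set x := braidOf (JMw m i) with hx
      have hb : s * t * s = t * s * t := braidb_braid i ⟨(i : ℕ) + 1, hj'⟩ rfl
      have hc : t * x = x * t := braidb_word ⟨(i : ℕ) + 1, hj'⟩ (JMw m i) (by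
        intro y hy
        have := braidb_J_letters m i y hy
        simp only
        omega)
      show s * (t * (s * x * s) * t) = t * (s * x * s) * t * s
      calc s * (t * (s * x * s) * t) = s * t * s * x * s * t := by group
        _ = t * s * (t * x) * s * t := by rw [hb]; group
        _ = t * s * x * (t * s * t) := by rw [hc]; group
        _ = t * (s * x * s) * t * s := by rw [← hb]; group

end Pool.Agent.H.MP_c30e5d_gt
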