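import Pool.Agent.H.MP_c30e5d_gt.BraidA
import Pool.Agent.H.MP_c30e5d_gt.BraidB

/-!
# The word `jmWord m b` represents `FT_2^{a_2} ⋯ FT_{m+1}^{a_{m+1}}`

PROOF.  By `FT_succ` (and `FT m 1 = 1`), `FT m (j+1) = J_1 J_2 ⋯ J_j` (`J_i = braidOf (JMw m i)`).
`J_j` commutes with `J_i` and `FT m i`, `i ≤ j` (these are products of letters of index `< j - 1`,
or use `JMw_comm` letter by letter; for `i = j` trivial).  Hence all `J_j` (`1 ≤ j ≤ m`) commute
pairwise, `FT m (j+1)^a = J_1^a ⋯ J_j^a` and
`∏_{k=2}^{m+1} FT_k^{a_k} = ∏_{j=1}^m J_j^{∑_{k=j+1}^{m+1} a_k}`, which is the braid of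
`jmWord m b`.
-/

namespace Pool.Agent.H.MP_c30e5d_gt

theorem braid_flatten {m : ℕ} (L : List (List (Fin m))) :
    braidOf L.flatten = (L.map braidOf).prod := by
  induction L with
  | nil => simp [braidOf]
  | cons w L ih => rw [List.flatten_cons, braidb_append, ih, List.map_cons, List.prod_cons]

theorem braid_word_comm (m j : ℕ) (hj : j ≤ m) (w : List (Fin m))
    (h : ∀ x ∈ w, (x : ℕ) + 1 < j) : Commute (braidOf w) (braidOf (JMw m j)) := by
  induction w with
  | nil =>
    have : braidOf ([] : List (Fin m)) = 1 := by simp [braidOf]
    rw [this]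
    exact Commute.one_left _
  | cons x w ih =>
    rw [braidb_cons]
    refine Commute.mul_left ?_ (ih fun y hy => h y (List.mem_cons_of_mem _ hy))
    exact JMw_comm m j x (h x (List.mem_cons_self ..)) hj

theorem braid_J_comm (m i j : ℕ) (hi : i ≤ m) (hj : j ≤ m) :
    Commute (braidOf (JMw m i)) (braidOf (JMw m j)) := by
  rcases lt_trichotomy i j with h | h | h
  · refine braid_word_comm m j hj _ fun x hx => ?_
    have := braidb_J_letters m i x hx
    omega
  · subst h
    exact Commute.refl _
  · refine (braid_word_comm m i hi _ fun x hx => ?_).symm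
    have := braidb_J_letters m j x hx
    omega

theorem braid_range_mul {M : Type*} [Monoid M] (n : ℕ) (f g : ℕ → M)
    (h : ∀ i j, i < n → j < n → Commute (f i) (g j)) :
    ((List.range n).map f).prod * ((List.range n).map g).prod =
      ((List.range n).map fun j => f j * g j).prod := by
  induction n with
  | zero => simp
  | succ n ih =>
    have h1 := ih fun i j hi hj => h i j (by omega) (by omega)
    have h2 : Commute (f n) ((List.range n).map g).prod := by
      apply Commute.list_prod_right
      intro x hx
      obtain ⟨j, hj, rfl⟩ := List.mem_map.1 hx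
      exact h n j (by omega) (by have := List.mem_range.1 hj; omega)
    simp only [List.range_succ, List.map_append, List.map_cons, List.map_nil,
      List.prod_append, List.prod_cons, List.prod_nil, mul_one]
    rw [← h1]
    calc ((List.range n).map f).prod * f n * (((List.range n).map g).prod * g n) =
        ((List.range n).map f).prod * (f n * ((List.range n).map g).prod) * g n := by
          simp only [mul_assoc]
      _ = ((List.range n).map f).prod * ((List.range n).map g).prod * (f n * g n) := by
          rw [h2.eq]
          simp only [mul_assoc]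

theorem braid_range_pow {M : Type*} [Monoid M] (n a : ℕ) (f : ℕ → M)
    (h : ∀ i j, i < n → j < n → Commute (f i) (f j)) :
    ((List.range n).map f).prod ^ a = ((List.range n).map fun j => f j ^ a).prod := by
  induction n with
  | zero => simp
  | succ n ih =>
    have h1 := ih fun i j hi hj => h i j (by omega) (by omega)
    have h2 : Commute ((List.range n).map f).prod (f n) := by
      apply Commute.list_prod_left
      intro x hx
      obtain ⟨j, hj, rfl⟩ := List.mem_map.1 hx
      exact h j n (by have := List.mem_range.1 hj; omega) (by omega)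
    simp only [List.range_succ, List.map_append, List.map_cons, List.map_nil,
      List.prod_append, List.prod_cons, List.prod_nil, mul_one]
    rw [h2.mul_pow, h1]

theorem braid_FT (m n : ℕ) (hn : n ≤ m) :
    FT m (n + 1) = ((List.range n).map fun j => braidOf (JMw m (j + 1))).prod := by
  induction n with
  | zero =>
    have h0 : cyc m 1 = [] := by
      unfold cyc
      rw [List.filter_eq_nil_iff]
      intro x _
      simp
    simp [FT, h0, braidOf]
  | succ n ih =>
    rw [FT_succ m (n + 1) (by omega) hn, ih (by omega)]
    simp only [List.range_succ, List.map_append, List.map_cons, List.map_nil,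
      List.prod_append, List.prod_cons, List.prod_nil, mul_one]

theorem braid_main (m : ℕ) (a : ℕ → ℕ) (n : ℕ) (hn : n ≤ m) :
    ((List.range n).map fun j => FT m (j + 2) ^ a (j + 2)).prod =
      ((List.range n).map fun j =>
        braidOf (JMw m (j + 1)) ^ (∑ k ∈ Finset.Ioc (j + 1) (n + 1), a k)).prod := by
  induction n with
  | zero => simp
  | succ n ih =>
    have h1 := ih (by omega)
    have hc : ∀ i j, i < n + 1 → j < n + 1 →
        Commute (braidOf (JMw m (i + 1))) (braidOf (JMw m (j + 1))) := fun i j hi hj =>
      braid_J_comm m (i + 1) (j + 1) (by omega) (by omega)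
    have h2 : FT m (n + 2) ^ a (n + 2) = ((List.range n).map fun j =>
        braidOf (JMw m (j + 1)) ^ a (n + 2)).prod * braidOf (JMw m (n + 1)) ^ a (n + 2) := by
      rw [braid_FT m (n + 1) hn, braid_range_pow (n + 1) _ _ hc]
      simp only [List.range_succ, List.map_append, List.map_cons, List.map_nil,
        List.prod_append, List.prod_cons, List.prod_nil, mul_one]
    rw [List.range_succ, List.map_append, List.prod_append, h1, List.map_cons, List.map_nil,
      List.prod_cons, List.prod_nil, mul_one, h2, ← mul_assoc, braid_range_mul n _ _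
        (fun i j hi hj => (hc i j (by omega) (by omega)).pow_pow _ _)]
    rw [List.map_append, List.prod_append, List.map_cons, List.map_nil, List.prod_cons,
      List.prod_nil, mul_one]
    congr 1
    · congr 1
      apply List.map_congr_left
      intro j hj
      have hj' := List.mem_range.1 hj
      rw [← pow_add, ← Finset.sum_Ioc_succ_top (by omega : j + 1 ≤ n + 1)]
    · rw [Finset.sum_Ioc_succ_top (by omega : n + 1 ≤ n + 1)]
      simp

/-- the braid of the word `jmWord m b`, `b j = ∑_{k = j+1}^{m+1} a_k`, is
`FT_2^{a_2} ⋯ FT_{m+1}^{a_{m+1}}`. -/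
theorem braidOf_jmWord (m : ℕ) (a b : ℕ → ℕ)
    (hb : ∀ j, 1 ≤ j → j ≤ m → b j = ∑ k ∈ Finset.Ioc j (m + 1), a k) :
    braidOf (jmWord m b) = twistProduct m a := by
  have h1 : braidOf (jmWord m b) =
      ((List.range m).map fun j => braidOf (JMw m (j + 1)) ^ b (j + 1)).prod := by
    unfold jmWord
    rw [braid_flatten, List.map_map]
    congr 1
    apply List.map_congr_left
    intro j _
    simp only [Function.comp_apply]
    rw [braid_flatten, List.map_replicate, List.prod_replicate]
  rw [h1]
  unfold twistProduct
  rw [braid_main m a m le_rfl]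
  congr 1
  apply List.map_congr_left
  intro j hj
  have hj' := List.mem_range.1 hj
  rw [hb (j + 1) (by omega) (by omega)]

end Pool.Agent.H.MP_c30e5d_gt
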