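import Pool.Agent.H.MP_c30e5d_gt.Defs
import Pool.Agent.H.MP_c30e5d_gt.WordDefs

/-!
# The word of Jucys-Murphy braids represents the product of full twists

PROOF (Artin relations only).  Write `s_i` (`i : Fin m`) for the generators,
`cyc k = s_0 s_1 ⋯ s_{k-2}`, `FT k = (cyc k)^k`, and for `j : ℕ`
`J j = s_{j-1} s_{j-2} ⋯ s_0 s_0 ⋯ s_{j-1}` (`J 0 = 1`).

(1) `cyc k * s_i = s_{i+1} * cyc k` for `i + 2 < k` (`i + 1 ≤ k - 2`):
    `s_0 ⋯ s_{k-2} s_i = s_0 ⋯ s_i s_{i+1} s_i s_{i+2} ⋯ = s_0 ⋯ s_{i-1} s_{i+1} s_i s_{i+1} s_{i+2} ⋯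
     = s_{i+1} s_0 ⋯`.
(2) for `j ≤ k - 1`: `(cyc k)^j = (cyc (k-1))^j * (s_{k-2} s_{k-3} ⋯ s_{k-1-j})`, by induction:
    `(cyc k)^{j+1} = (cyc (k-1))^j (s_{k-2} ⋯ s_{k-1-j}) cyc k
      = (cyc (k-1))^j cyc k (s_{k-3} ⋯ s_{k-2-j})` by (1)
      `= (cyc (k-1))^{j+1} s_{k-2} (s_{k-3} ⋯ s_{k-2-j})`.
(3) so `FT k = (cyc k)^{k-1} cyc k = (cyc (k-1))^{k-1} (s_{k-2} ⋯ s_0) (s_0 ⋯ s_{k-2})
     = FT (k-1) * J (k-1)`.
(4) `J j` commutes with `s_i` for `i + 1 < j`:
    `s_i s_{j-1} ⋯ s_{i+1} s_i X s_i s_{i+1} ⋯ s_{j-1}`, where `X = s_{i-1} ⋯ s_0 s_0 ⋯ s_{i-1}`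
    commutes with `s_{i+1}`:  `s_i` moves to the right up to `s_{i+1}`, braid relation
    `s_i s_{i+1} s_i = s_{i+1} s_i s_{i+1}`, `s_{i+1}` moves through `X`,
    `s_{i+1} s_i s_{i+1} = s_i s_{i+1} s_i`, and the last `s_i` moves to the right end.
(5) so `J j` commutes with `J l` and `FT l` for all `l ≤ j`, and the `J`'s commute pairwise; by (3)
    `FT k = J 1 * J 2 * ⋯ * J (k-1)`, and
    `∏_k FT_k^{a_k} = ∏_{j ≥ 1} (J j)^{∑_{k > j} a_k}`.
-/

namespace Pool.Agent.H.MP_c30e5d_gt

section aux

variable {G : Type*} [Group G] (s : ℕ → G)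

/-- `s_0 ⋯ s_{k-1}` -/
def braida_U : ℕ → G
  | 0 => 1
  | k + 1 => braida_U k * s k

/-- `s_{k-1} ⋯ s_{k-j}` -/
def braida_D : ℕ → ℕ → G
  | _, 0 => 1
  | 0, _ + 1 => 1
  | k + 1, j + 1 => s k * braida_D k j

variable {s} {m : ℕ} (hc : ∀ i j, i + 2 ≤ j → j < m → s i * s j = s j * s i)
  (hb : ∀ i, i + 1 < m → s i * s (i + 1) * s i = s (i + 1) * s i * s (i + 1))

include hc in
theorem braida_U_comm : ∀ i j, i + 1 ≤ j → j < m → braida_U s i * s j = s j * braida_U s i := by
  intro i
  induction i with
  | zero => intro j _ _; simp [braida_U]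
  | succ i ih =>
    intro j h1 h2
    show braida_U s i * s i * s j = s j * (braida_U s i * s i)
    rw [mul_assoc, hc i j (by omega) h2, ← mul_assoc, ih j (by omega) h2, mul_assoc]

include hc hb in
/-- step (1) -/
theorem braida_one : ∀ k i, i + 1 < k → k ≤ m →
    braida_U s k * s i = s (i + 1) * braida_U s k := by
  intro k
  induction k with
  | zero => intro i h; omega
  | succ k ih =>
    intro i h1 h2
    rcases Nat.lt_or_ge (i + 1) k with h | h
    · show braida_U s k * s k * s i = s (i + 1) * (braida_U s k * s k)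
      rw [mul_assoc, ← hc i k (by omega) (by omega), ← mul_assoc, ih i h (by omega), mul_assoc]
    · have hk : k = i + 1 := by omega
      subst hk
      show braida_U s i * s i * s (i + 1) * s i =
        s (i + 1) * (braida_U s i * s i * s (i + 1))
      have e1 : braida_U s i * s i * s (i + 1) * s i =
          braida_U s i * (s i * s (i + 1) * s i) := by group
      have e2 : braida_U s i * (s (i + 1) * s i * s (i + 1)) =
          (braida_U s i * s (i + 1)) * s i * s (i + 1) := by group
      rw [e1, hb i (by omega), e2, braida_U_comm hc i (i + 1) le_rfl (by omega)]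
      group

include hc hb in
theorem braida_DU (k : ℕ) (hk : k + 1 ≤ m) : ∀ j q, j ≤ q → q ≤ k →
    braida_D s (q + 1) j * braida_U s (k + 1) = braida_U s (k + 1) * braida_D s q j := by
  intro j
  induction j with
  | zero => intro q _ _; simp [braida_D]
  | succ j ih =>
    intro q h1 h2
    obtain ⟨q', rfl⟩ : ∃ q', q = q' + 1 := ⟨q - 1, by omega⟩
    show s (q' + 1) * braida_D s (q' + 1) j * braida_U s (k + 1) =
      braida_U s (k + 1) * (s q' * braida_D s q' j)
    rw [mul_assoc, ih q' (by omega) (by omega), ← mul_assoc,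
      ← braida_one hc hb (k + 1) q' (by omega) hk, mul_assoc]

include hc hb in
/-- step (2) -/
theorem braida_two (k : ℕ) (hk : k + 1 ≤ m) : ∀ j, j ≤ k + 1 →
    braida_U s (k + 1) ^ j = braida_U s k ^ j * braida_D s (k + 1) j := by
  intro j
  induction j with
  | zero => intro _; simp [braida_D]
  | succ j ih =>
    intro h
    rw [pow_succ, ih (by omega), mul_assoc, braida_DU hc hb k hk j k (by omega) le_rfl,
      pow_succ (braida_U s k) j]
    show braida_U s k ^ j * (braida_U s k * s k * braida_D s k j) =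
      braida_U s k ^ j * braida_U s k * (s k * braida_D s k j)
    group

theorem braida_U_list (s : ℕ → G) : ∀ k, ((List.range k).map s).prod = braida_U s k := by
  intro k
  induction k with
  | zero => simp [braida_U]
  | succ k ih => rw [List.range_succ, List.map_append, List.prod_append, ih]; simp [braida_U]

theorem braida_D_list (s : ℕ → G) :
    ∀ k, ((List.range k).reverse.map s).prod = braida_D s k k := by
  intro k
  induction k with
  | zero => simp [braida_D]
  | succ k ih =>
    rw [List.range_succ, List.reverse_append, List.map_append, List.prod_append, ih]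
    simp [braida_D]

end aux

/-- the generators, indexed by the natural numbers -/
def braida_s (m n : ℕ) : Braid m :=
  if h : n < m then PresentedGroup.of (rels := artinRels m) ⟨n, h⟩ else 1

theorem braida_of {m : ℕ} (w : List (Fin m)) :
    braidOf w = ((w.map Fin.val).map (braida_s m)).prod := by
  unfold braidOf
  rw [List.map_map]
  congr 1
  refine List.map_congr_left fun i _ => ?_
  simp [braida_s]

theorem braida_filter (m : ℕ) : ∀ j, j ≤ m →
    (List.range m).filter (fun i => decide (i < j)) = List.range j := by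
  induction m with
  | zero => intro j hj; obtain rfl : j = 0 := by omega
            rfl
  | succ m ih =>
    intro j hj
    rw [List.range_succ, List.filter_append]
    rcases Nat.lt_or_ge m j with h | h
    · obtain rfl : j = m + 1 := by omega
      have h1 : (List.range m).filter (fun i => decide (i < m + 1)) = List.range m := by
        rw [List.filter_eq_self]
        intro a ha
        rw [List.mem_range] at ha
        simp; omega
      rw [h1, List.range_succ]
      simp
    · rw [ih j h]
      simp [h]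

theorem braida_val (m j : ℕ) (hj : j ≤ m) (p : Fin m → Bool)
    (hp : ∀ i : Fin m, p i = decide ((i : ℕ) < j)) :
    ((List.finRange m).filter p).map Fin.val = List.range j := by
  have h1 : p = (fun i : ℕ => decide (i < j)) ∘ Fin.val := by
    funext i
    exact hp i
  have h2 : (List.finRange m).map Fin.val = List.range m := by
    apply List.ext_getElem
    · simp
    · intro n h1 h2
      simp
  rw [h1, ← List.filter_map, h2, braida_filter m j hj]

theorem braida_rel {m : ℕ} {r : FreeGroup (Fin m)} (h : r ∈ artinRels m) :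
    PresentedGroup.mk (artinRels m) r = 1 :=
  PresentedGroup.one_of_mem h

theorem braida_hc (m : ℕ) (i j : ℕ) (h1 : i + 2 ≤ j) (h2 : j < m) :
    braida_s m i * braida_s m j = braida_s m j * braida_s m i := by
  have hi : i < m := by omega
  have h := braida_rel (m := m) (Or.inl ⟨⟨i, hi⟩, ⟨j, h2⟩, h1, rfl⟩)
  rw [map_mul, map_mul, map_inv, map_mul, mul_inv_eq_one] at h
  simp only [braida_s, dif_pos hi, dif_pos h2]
  exact h

theorem braida_hb (m : ℕ) (i : ℕ) (h1 : i + 1 < m) :
    braida_s m i * braida_s m (i + 1) * braida_s m i =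
      braida_s m (i + 1) * braida_s m i * braida_s m (i + 1) := by
  have hi : i < m := by omega
  have h := braida_rel (m := m) (Or.inr ⟨⟨i, hi⟩, ⟨i + 1, h1⟩, rfl, rfl⟩)
  rw [map_mul, map_mul, map_mul, map_inv, map_mul, map_mul, mul_inv_eq_one] at h
  simp only [braida_s, dif_pos hi, dif_pos h1]
  exact h

/-- (3) `FT_{j+1} = FT_j * J_j` for `1 ≤ j ≤ m` (here `J_j` is the braid of `JMw m j`). -/
theorem FT_succ (m j : ℕ) (h1 : 1 ≤ j) (h2 : j ≤ m) :
    FT m (j + 1) = FT m j * braidOf (JMw m j) := by
  obtain ⟨k, rfl⟩ : ∃ k, j = k + 1 := ⟨j - 1, by omega⟩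
  have e1 : braidOf (cyc m (k + 1 + 1)) = braida_U (braida_s m) (k + 1) := by
    rw [braida_of, cyc, braida_val m (k + 1) h2 _ (fun i => by simp), braida_U_list]
  have e2 : braidOf (cyc m (k + 1)) = braida_U (braida_s m) k := by
    rw [braida_of, cyc, braida_val m k (by omega) _ (fun i => by simp), braida_U_list]
  have e3 : braidOf (JMw m (k + 1)) =
      braida_D (braida_s m) (k + 1) (k + 1) * braida_U (braida_s m) (k + 1) := by
    rw [braida_of, JMw, List.map_append, List.map_append, List.prod_append, down, up,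
      List.map_reverse, braida_val m (k + 1) h2 _ (fun i => by simp),
      braida_U_list, braida_D_list]
  unfold FT
  rw [e1, e2, e3, pow_succ,
    braida_two (braida_hc m) (braida_hb m) k h2 (k + 1) le_rfl, mul_assoc]

end Pool.Agent.H.MP_c30e5d_gt
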