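import Mathlib

/-!
# Explicit model of the y-ified Rouquier complexes

`Obj A m`: an `A`-module `M` with commuting operators `X j` (left multiplication by `x_j`,
`j : Fin (m+1)`), a family of curved differentials `D y` (`y : Fin (m+1) → A` the `y`-parameters,
indexed by strands) and projections `pr e` to the homological degree `e` part.

`cross i p q O`: the functor `F_i` (positive crossing between positions `i`, `i+1`, at which the
strands `p`, `q` meet).  The module `B_i M = R ⊗_{R^{s_i}} M` is written `M × M`,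
`(m₀, m₁) = 1 ⊗ m₀ + x_i ⊗ m₁`.
-/

namespace Pool.Agent.H.MP_c30e5d_gt

structure Obj (A : Type) [CommRing A] (m : ℕ) where
  M : Type
  [ag : AddCommGroup M]
  [mo : Module A M]
  X : Fin (m + 1) → M →ₗ[A] M
  D : (Fin (m + 1) → A) → M →ₗ[A] M
  pr : ℕ → M →ₗ[A] M
  XX : ∀ i j z, X i (X j z) = X j (X i z)
  XD : ∀ y i z, X i (D y z) = D y (X i z)

attribute [instance] Obj.ag Obj.mo

variable {A : Type} [CommRing A] {m : ℕ}

/-- The base object: `A` with `X j` acting by `ρ j`, in degree `0`, zero differential. -/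
def Obj.base (ρ : Fin (m + 1) → A) : Obj A m where
  M := A
  X j := ρ j • LinearMap.id
  D _ := 0
  pr e := if e = 0 then LinearMap.id else 0
  XX i j z := by simp; ring
  XD y i z := by simp

/-- `X_i` on `B_i M`. -/
def PX (O : Obj A m) (i : Fin m) : (O.M × O.M) →ₗ[A] (O.M × O.M) where
  toFun z := (-(O.X i.castSucc (O.X i.succ z.2)), z.1 + O.X i.castSucc z.2 + O.X i.succ z.2)
  map_add' z w := by ext <;> simp <;> abel
  map_smul' c z := by ext <;> simp

/-- `X_{i+1}` on `B_i M`. -/
def QX (O : Obj A m) (i : Fin m) : (O.M × O.M) →ₗ[A] (O.M × O.M) where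
  toFun z := (O.X i.castSucc z.1 + O.X i.succ z.1 + O.X i.castSucc (O.X i.succ z.2), -z.1)
  map_add' z w := by ext <;> simp <;> abel
  map_smul' c z := by ext <;> simp

/-- `X_j` on `B_i M`. -/
def BX (O : Obj A m) (i : Fin m) (j : Fin (m + 1)) : (O.M × O.M) →ₗ[A] (O.M × O.M) :=
  if j = i.castSucc then PX O i else if j = i.succ then QX O i else (O.X j).prodMap (O.X j)

theorem castSucc_ne_succ' (i : Fin m) : i.castSucc ≠ i.succ := by
  intro h; have := congrArg Fin.val h; simp at this

@[simp] theorem BX_castSucc (O : Obj A m) (i : Fin m) (z : O.M × O.M) :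
    BX O i i.castSucc z =
      (-(O.X i.castSucc (O.X i.succ z.2)), z.1 + O.X i.castSucc z.2 + O.X i.succ z.2) := by
  simp [BX, PX]

@[simp] theorem BX_succ (O : Obj A m) (i : Fin m) (z : O.M × O.M) :
    BX O i i.succ z =
      (O.X i.castSucc z.1 + O.X i.succ z.1 + O.X i.castSucc (O.X i.succ z.2), -z.1) := by
  simp [BX, QX, (castSucc_ne_succ' i).symm]

theorem BX_other (O : Obj A m) (i : Fin m) (j : Fin (m + 1)) (h1 : j ≠ i.castSucc)
    (h2 : j ≠ i.succ) (z : O.M × O.M) : BX O i j z = (O.X j z.1, O.X j z.2) := by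
  simp [BX, h1, h2]

/-- curved differential on the crossing -/
def DX (O : Obj A m) (i : Fin m) (p q : Fin (m + 1)) (y : Fin (m + 1) → A) :
    ((O.M × O.M) × O.M) →ₗ[A] ((O.M × O.M) × O.M) where
  toFun z := ((O.D y z.1.1 - (y p - y q) • O.X i.succ z.2, O.D y z.1.2 + (y p - y q) • z.2),
    z.1.1 + O.X i.castSucc z.1.2 - O.D y z.2)
  map_add' z w := by
    ext <;> simp only [Prod.fst_add, Prod.snd_add, map_add, smul_add, Prod.mk_add_mk] <;> abel
  map_smul' c z := by
    ext <;> simp [smul_sub, smul_add, smul_comm c]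

theorem BX_DX (O : Obj A m) (i : Fin m) (j : Fin (m + 1)) (y : Fin (m + 1) → A)
    (z : O.M × O.M) : BX O i j (O.D y z.1, O.D y z.2) =
      (O.D y (BX O i j z).1, O.D y (BX O i j z).2) := by
  by_cases h1 : j = i.castSucc
  · subst h1; simp [O.XD]
  · by_cases h2 : j = i.succ
    · subst h2; simp [O.XD]
    · simp [BX_other O i j h1 h2, O.XD]

theorem BX_BX (O : Obj A m) (i : Fin m) (j l : Fin (m + 1)) (z : O.M × O.M) :
    BX O i j (BX O i l z) = BX O i l (BX O i j z) := by
  have hc : ∀ a b c z, O.X a (O.X b (O.X c z)) = O.X a (O.X c (O.X b z)) := by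
    intro a b c z; rw [O.XX b c]
  have key : ∀ z, BX O i i.castSucc (BX O i i.succ z) = BX O i i.succ (BX O i i.castSucc z) := by
    intro z
    ext <;> simp [O.XX i.succ i.castSucc] <;> abel
  have key1 : ∀ j, j ≠ i.castSucc → j ≠ i.succ → ∀ z,
      BX O i i.castSucc (BX O i j z) = BX O i j (BX O i i.castSucc z) := by
    intro j h1 h2 z
    rw [BX_other O i j h1 h2, BX_other O i j h1 h2]
    ext <;> simp [O.XX _ j]
  have key2 : ∀ j, j ≠ i.castSucc → j ≠ i.succ → ∀ z,
      BX O i i.succ (BX O i j z) = BX O i j (BX O i i.succ z) := by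
    intro j h1 h2 z
    rw [BX_other O i j h1 h2, BX_other O i j h1 h2]
    ext <;> simp [O.XX _ j]
  by_cases h1 : j = i.castSucc
  · subst h1
    by_cases h2 : l = i.castSucc
    · subst h2; rfl
    · by_cases h3 : l = i.succ
      · subst h3; exact key z
      · exact key1 l h2 h3 z
  · by_cases h2 : j = i.succ
    · subst h2
      by_cases h3 : l = i.castSucc
      · subst h3; exact (key z).symm
      · by_cases h4 : l = i.succ
        · subst h4; rfl
        · exact key2 l h3 h4 z
    · by_cases h3 : l = i.castSucc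
      · subst h3; exact (key1 j h1 h2 z).symm
      · by_cases h4 : l = i.succ
        · subst h4; exact (key2 j h1 h2 z).symm
        · rw [BX_other O i j h1 h2, BX_other O i l h3 h4, BX_other O i l h3 h4,
            BX_other O i j h1 h2]
          ext
          · exact O.XX _ _ _
          · exact O.XX _ _ _

/-- `c : M → B_i M`, `c m = x_i ⊗ m - 1 ⊗ x_{i+1} m` commutes with the `X j`. -/
theorem BX_c (O : Obj A m) (i : Fin m) (j : Fin (m + 1)) (z : O.M) :
    BX O i j (-(O.X i.succ z), z) = (-(O.X i.succ (O.X j z)), O.X j z) := by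
  by_cases h1 : j = i.castSucc
  · subst h1
    ext
    · simp; rw [O.XX]
    · simp
  · by_cases h2 : j = i.succ
    · subst h2; ext <;> simp
    · rw [BX_other O i j h1 h2]; ext
      · simp; rw [O.XX]
      · simp

/-- `b : B_i M → M`, `b (m₀, m₁) = m₀ + x_i m₁` commutes with the `X j`. -/
theorem b_BX (O : Obj A m) (i : Fin m) (j : Fin (m + 1)) (z : O.M × O.M) :
    (BX O i j z).1 + O.X i.castSucc (BX O i j z).2 = O.X j (z.1 + O.X i.castSucc z.2) := by
  by_cases h1 : j = i.castSucc
  · subst h1; simp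
  · by_cases h2 : j = i.succ
    · subst h2; simp; rw [O.XX i.succ i.castSucc]; abel
    · rw [BX_other O i j h1 h2]; simp; rw [O.XX]

/-- The positive crossing functor. -/
def cross (i : Fin m) (p q : Fin (m + 1)) (O : Obj A m) : Obj A m where
  M := (O.M × O.M) × O.M
  X j := (BX O i j).prodMap (O.X j)
  D y := DX O i p q y
  pr e := match e with
    | 0 => ((O.pr 0).prodMap (O.pr 0)).prodMap 0
    | e + 1 => ((O.pr (e + 1)).prodMap (O.pr (e + 1))).prodMap (O.pr e)
  XX j l z := by
    refine Prod.ext ?_ ?_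
    · exact BX_BX O i j l z.1
    · exact O.XX _ _ _
  XD y j z := by
    have h1 := BX_DX O i j y z.1
    have h2 := BX_c O i j z.2
    have h3 := b_BX O i j z.1
    refine Prod.ext ?_ ?_
    · have e1 : (DX O i p q y z).1 = (O.D y z.1.1, O.D y z.1.2)
          + (y p - y q) • (-(O.X i.succ z.2), z.2) := by
        ext <;> simp [DX]; abel
      have e2 : (DX O i p q y ((BX O i j z.1), O.X j z.2)).1 =
          (O.D y (BX O i j z.1).1, O.D y (BX O i j z.1).2)
          + (y p - y q) • (-(O.X i.succ (O.X j z.2)), O.X j z.2) := by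
        ext <;> simp [DX]; abel
      show BX O i j (DX O i p q y z).1 = (DX O i p q y ((BX O i j z.1), O.X j z.2)).1
      rw [e1, e2, map_add, map_smul, h1, h2]
    · show O.X j (DX O i p q y z).2 = (DX O i p q y ((BX O i j z.1), O.X j z.2)).2
      simp only [DX, LinearMap.coe_mk, AddHom.coe_mk, map_sub]
      rw [← h3, O.XD]

@[simp] theorem cross_X (i : Fin m) (p q : Fin (m + 1)) (O : Obj A m) (j : Fin (m + 1))
    (z : (O.M × O.M) × O.M) :
    (cross i p q O).X j z = (BX O i j z.1, O.X j z.2) := rfl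

@[simp] theorem cross_D (i : Fin m) (p q : Fin (m + 1)) (O : Obj A m) (y : Fin (m + 1) → A)
    (z : (O.M × O.M) × O.M) :
    (cross i p q O).D y z = ((O.D y z.1.1 - (y p - y q) • O.X i.succ z.2,
      O.D y z.1.2 + (y p - y q) • z.2), z.1.1 + O.X i.castSucc z.1.2 - O.D y z.2) := rfl

@[simp] theorem cross_pr_zero (i : Fin m) (p q : Fin (m + 1)) (O : Obj A m)
    (z : (O.M × O.M) × O.M) :
    (cross i p q O).pr 0 z = ((O.pr 0 z.1.1, O.pr 0 z.1.2), 0) := rfl

@[simp] theorem cross_pr_succ (i : Fin m) (p q : Fin (m + 1)) (O : Obj A m) (e : ℕ)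
    (z : (O.M × O.M) × O.M) :
    (cross i p q O).pr (e + 1) z = ((O.pr (e + 1) z.1.1, O.pr (e + 1) z.1.2), O.pr e z.2) := rfl

/-- transposition of the positions `i`, `i+1` -/
def sw (i : Fin m) : Equiv.Perm (Fin (m + 1)) := Equiv.swap i.castSucc i.succ

/-- labels after a word: `act L w j` is the strand at position `j` after the word `w`,
when `L j` is the strand at position `j` before it. -/
def act (L : Equiv.Perm (Fin (m + 1))) : List (Fin m) → Equiv.Perm (Fin (m + 1))
  | [] => L
  | i :: w => act (L * sw i) w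

/-- the complex of a word applied to an object, starting with the labels `L` on the left -/
def Fw : Equiv.Perm (Fin (m + 1)) → List (Fin m) → Obj A m → Obj A m
  | _, [], O => O
  | L, i :: w, O => cross i (L i.castSucc) (L i.succ) (Fw (L * sw i) w O)

@[simp] theorem Fw_nil (L : Equiv.Perm (Fin (m + 1))) (O : Obj A m) : Fw L [] O = O := rfl
@[simp] theorem Fw_cons (L : Equiv.Perm (Fin (m + 1))) (i : Fin m) (w : List (Fin m))
    (O : Obj A m) :
    Fw L (i :: w) O = cross i (L i.castSucc) (L i.succ) (Fw (L * sw i) w O) := rfl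
@[simp] theorem act_nil (L : Equiv.Perm (Fin (m + 1))) : act L [] = L := rfl
@[simp] theorem act_cons (L : Equiv.Perm (Fin (m + 1))) (i : Fin m) (w : List (Fin m)) :
    act L (i :: w) = act (L * sw i) w := rfl

theorem act_append (L : Equiv.Perm (Fin (m + 1))) (w₁ w₂ : List (Fin m)) :
    act L (w₁ ++ w₂) = act (act L w₁) w₂ := by
  induction w₁ generalizing L with
  | nil => rfl
  | cons i w ih => simp [ih]

theorem Fw_append (L : Equiv.Perm (Fin (m + 1))) (w₁ w₂ : List (Fin m)) (O : Obj A m) :
    Fw L (w₁ ++ w₂) O = Fw L w₁ (Fw (act L w₁) w₂ O) := by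
  induction w₁ generalizing L with
  | nil => rfl
  | cons i w ih => simp [ih]

theorem act_eq (L : Equiv.Perm (Fin (m + 1))) (w : List (Fin m)) :
    act L w = L * act 1 w := by
  induction w generalizing L with
  | nil => simp
  | cons i w ih => rw [act_cons, ih, act_cons, ih (1 * sw i)]; simp [mul_assoc]

/-- the full object of a word, with `x`-values `x` (indexed by strands) -/
def FO (x : Fin (m + 1) → A) (L : Equiv.Perm (Fin (m + 1))) (w : List (Fin m)) : Obj A m :=
  Fw L w (Obj.base (fun j => x (act L w j)))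

/-- central cycles: left and right actions agree and `D y z = 0` -/
def CC (x y : Fin (m + 1) → A) (L : Equiv.Perm (Fin (m + 1))) (O : Obj A m) : Submodule A O.M where
  carrier := {z | (∀ j, O.X j z = x (L j) • z) ∧ O.D y z = 0}
  add_mem' {a b} ha hb := ⟨fun j => by rw [map_add, ha.1, hb.1, smul_add],
    by rw [map_add, ha.2, hb.2, add_zero]⟩
  zero_mem' := ⟨fun j => by simp, by simp⟩
  smul_mem' c a ha := ⟨fun j => by rw [map_smul, ha.1, smul_comm],
    by rw [map_smul, ha.2, smul_zero]⟩

/-- central elements -/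
def CE (x : Fin (m + 1) → A) (L : Equiv.Perm (Fin (m + 1))) (O : Obj A m) : Submodule A O.M where
  carrier := {z | ∀ j, O.X j z = x (L j) • z}
  add_mem' {a b} ha hb := fun j => by rw [map_add, ha, hb, smul_add]
  zero_mem' := fun j => by simp
  smul_mem' c a ha := fun j => by rw [map_smul, ha, smul_comm]

/-- an evaluation functional -/
structure IsEv (x y : Fin (m + 1) → A) (L : Equiv.Perm (Fin (m + 1))) (O : Obj A m)
    (e : O.M →ₗ[A] A) : Prop where
  evX : ∀ j z, e (O.X j z) = x (L j) * e z
  evD : ∀ z, e (O.D y z) = 0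

/-- evaluation functional on a crossing -/
def evc (i : Fin m) (p q : Fin (m + 1)) (O : Obj A m) (c : A) (e : O.M →ₗ[A] A) :
    (cross i p q O).M →ₗ[A] A :=
  (e ∘ₗ LinearMap.fst A O.M O.M + c • (e ∘ₗ LinearMap.snd A O.M O.M)) ∘ₗ
    LinearMap.fst A (O.M × O.M) O.M

@[simp] theorem evc_apply (i : Fin m) (p q : Fin (m + 1)) (O : Obj A m) (c : A)
    (e : O.M →ₗ[A] A) (z : (O.M × O.M) × O.M) :
    evc i p q O c e z = e z.1.1 + c * e z.1.2 := rfl

/-- evaluation functional of a word -/
def evw (x : Fin (m + 1) → A) : (L : Equiv.Perm (Fin (m + 1))) → (w : List (Fin m)) →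
    (O : Obj A m) → (O.M →ₗ[A] A) → ((Fw L w O).M →ₗ[A] A)
  | _, [], _, e => e
  | L, i :: w, O, e => evc i _ _ _ (x (L i.castSucc)) (evw x (L * sw i) w O e)

/-- evaluation functional of the full object -/
def evF (x : Fin (m + 1) → A) (L : Equiv.Perm (Fin (m + 1))) (w : List (Fin m)) :
    (FO x L w).M →ₗ[A] A := evw x L w _ (LinearMap.id : A →ₗ[A] A)

theorem mul_sw_castSucc (L : Equiv.Perm (Fin (m + 1))) (i : Fin m) :
    (L * sw i) i.castSucc = L i.succ := by simp [sw]
theorem mul_sw_succ (L : Equiv.Perm (Fin (m + 1))) (i : Fin m) :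
    (L * sw i) i.succ = L i.castSucc := by simp [sw]
theorem mul_sw_other (L : Equiv.Perm (Fin (m + 1))) (i : Fin m) (j : Fin (m + 1))
    (h1 : j ≠ i.castSucc) (h2 : j ≠ i.succ) :
    (L * sw i) j = L j := by simp [sw, Equiv.swap_apply_of_ne_of_ne h1 h2]

theorem IsEv.cross {x y : Fin (m + 1) → A} {L : Equiv.Perm (Fin (m + 1))} {O : Obj A m}
    {e : O.M →ₗ[A] A} (i : Fin m) (p q : Fin (m + 1)) (h : IsEv x y (L * sw i) O e) :
    IsEv x y L (cross i p q O) (evc i p q O (x (L i.castSucc)) e) := by
  have hc := mul_sw_castSucc L i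
  have hs := mul_sw_succ L i
  constructor
  · intro j z
    change (O.M × O.M) × O.M at z
    rw [evc_apply, cross_X, evc_apply]
    by_cases h1 : j = i.castSucc
    · subst h1
      simp only [BX_castSucc, map_neg, map_add, h.evX, hc, hs]; ring
    · by_cases h2 : j = i.succ
      · subst h2
        simp only [BX_succ, map_neg, map_add, h.evX, hc, hs]; ring
      · simp only [BX_other O i j h1 h2, h.evX, mul_sw_other L i j h1 h2]; ring
  · intro z
    change (O.M × O.M) × O.M at z
    rw [cross_D, evc_apply]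
    simp only [map_sub, map_add, map_smul, h.evX, h.evD, hs, smul_eq_mul]; ring

theorem IsEv.evw {x y : Fin (m + 1) → A} {L : Equiv.Perm (Fin (m + 1))} {O : Obj A m}
    {e : O.M →ₗ[A] A} (w : List (Fin m)) (h : IsEv x y (act L w) O e) :
    IsEv x y L (Fw L w O) (evw x L w O e) := by
  induction w generalizing L with
  | nil => exact h
  | cons i w ih => exact (ih h).cross i _ _

theorem isEv_base (x y : Fin (m + 1) → A) (L : Equiv.Perm (Fin (m + 1))) :
    IsEv x y L (Obj.base (fun j => x (L j)) : Obj A m) (LinearMap.id : A →ₗ[A] A) :=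
  ⟨fun j z => rfl, fun z => rfl⟩

theorem isEv_evF (x y : Fin (m + 1) → A) (L : Equiv.Perm (Fin (m + 1))) (w : List (Fin m)) :
    IsEv x y L (FO x L w) (evF x L w) :=
  (isEv_base x y (act L w)).evw w

end Pool.Agent.H.MP_c30e5d_gt
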