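import Pool.Agent.H.MP_c30e5d_gt.BasisS
import Pool.Agent.H.MP_c30e5d_gt.Obj

/-!
# Comparison of the Rouquier complex with the explicit model

PROOF.
(1) (this is `exists_basisS` in BasisS.lean) `R = R^{s_i} ⊕ x_i R^{s_i}`: every `f` is uniquely `f = a + x_i b` with `a, b ∈ R^{s_i}`, namely
`b = (f - s_i f) / (x_i - x_{i+1})` (the difference is divisible: check on monomials, or
`x_i - x_{i+1} ∣ f - s_i f` by induction on `f`), `a = f - x_i b`.
Uniqueness: `a + x_i b = 0` and `s_i` give `a + x_{i+1} b = 0`, so `(x_i - x_{i+1}) b = 0`.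
So `basisS i : Basis (Fin 2) (Sinv k m i) (RR k m)` with values `1, X i.castSucc`.
(2) hence (`TensorProduct.equivFinsuppOfBasisLeft` or `Basis.tensorProduct`-like lemmas) every element
of `R ⊗_{R^{s_i}} M` is uniquely `1 ⊗ m₀ + x_i ⊗ m₁`, with
`x_i (1 ⊗ m₀ + x_i ⊗ m₁) = -(1 ⊗ x_i x_{i+1} m₁) + x_i ⊗ (m₀ + x_i m₁ + x_{i+1} m₁)`,
`x_{i+1} (⋯) = 1 ⊗ (x_i m₀ + x_{i+1} m₀ + x_i x_{i+1} m₁) - x_i ⊗ m₀`, `x_j (⋯)` componentwise for
the other `j` (use that `x_i + x_{i+1}`, `x_i x_{i+1}`, `x_j` lie in `R^{s_i}`),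
`Bmap i f` componentwise and `bmul (1 ⊗ m₀ + x_i ⊗ m₁) = m₀ + x_i m₁`.
(3) induction on the word.  At `y = 0` the differential of `Obj.cross` is
`((m₀, m₁), ξ) ↦ ((d m₀, d m₁), m₀ + x_i m₁ - d ξ)`.
-/

namespace Pool.Agent.H.MP_c30e5d_gt

open MvPolynomial TensorProduct

variable (k : Type) [Field k] {m : ℕ}

theorem compare_move (i : Fin m) {N : Type} [AddCommGroup N] [Module (RR k m) N] {s : RR k m}
    (hs : s ∈ Sinv k m i) (r : RR k m) (x : N) :
    ((s * r : RR k m) ⊗ₜ[Sinv k m i] x) = r ⊗ₜ[Sinv k m i] (s • x) :=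
  TensorProduct.smul_tmul (⟨s, hs⟩ : Sinv k m i) r x

theorem compare_move_one (i : Fin m) {N : Type} [AddCommGroup N] [Module (RR k m) N] {s : RR k m}
    (hs : s ∈ Sinv k m i) (x : N) :
    (s ⊗ₜ[Sinv k m i] x) = (1 : RR k m) ⊗ₜ[Sinv k m i] (s • x) := by
  have h := compare_move k i hs 1 x
  rwa [mul_one] at h

theorem compare_mem_add (i : Fin m) : (X i.castSucc + X i.succ : RR k m) ∈ Sinv k m i := by
  unfold Sinv
  rw [AlgHom.mem_equalizer, AlgHom.id_apply, map_add, rename_X, rename_X, Equiv.swap_apply_left,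
    Equiv.swap_apply_right]
  exact add_comm _ _

theorem compare_mem_mul (i : Fin m) : (X i.castSucc * X i.succ : RR k m) ∈ Sinv k m i := by
  unfold Sinv
  rw [AlgHom.mem_equalizer, AlgHom.id_apply, map_mul, rename_X, rename_X, Equiv.swap_apply_left,
    Equiv.swap_apply_right]
  exact mul_comm _ _

theorem compare_mem_X (i : Fin m) {j : Fin (m + 1)} (h1 : j ≠ i.castSucc) (h2 : j ≠ i.succ) :
    (X j : RR k m) ∈ Sinv k m i := by
  unfold Sinv
  rw [AlgHom.mem_equalizer, AlgHom.id_apply, rename_X, Equiv.swap_apply_of_ne_of_ne h1 h2]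

theorem compare_mem_C (i : Fin m) (c : k) : (C c : RR k m) ∈ Sinv k m i := by
  unfold Sinv
  rw [AlgHom.mem_equalizer, AlgHom.id_apply, rename_C]

/-- the element `1 ⊗ a + x_i ⊗ b` -/
noncomputable def compare_el (i : Fin m) {N : Type} [AddCommGroup N] [Module (RR k m) N]
    (a b : N) : RR k m ⊗[Sinv k m i] N :=
  (1 : RR k m) ⊗ₜ[Sinv k m i] a + (X i.castSucc : RR k m) ⊗ₜ[Sinv k m i] b

theorem compare_smul_inv (i : Fin m) {N : Type} [AddCommGroup N] [Module (RR k m) N] {s : RR k m}
    (hs : s ∈ Sinv k m i) (a b : N) :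
    s • compare_el k i a b = compare_el k i (s • a) (s • b) := by
  unfold compare_el
  rw [smul_add, TensorProduct.smul_tmul', TensorProduct.smul_tmul', smul_eq_mul, smul_eq_mul,
    compare_move k i hs, compare_move k i hs]

theorem compare_smul_left (i : Fin m) {N : Type} [AddCommGroup N] [Module (RR k m) N]
    (a b : N) :
    (X i.castSucc : RR k m) • compare_el k i a b =
      compare_el k i (-((X i.castSucc : RR k m) • (X i.succ : RR k m) • b))
        (a + (X i.castSucc : RR k m) • b + (X i.succ : RR k m) • b) := by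
  unfold compare_el
  rw [smul_add, TensorProduct.smul_tmul', TensorProduct.smul_tmul', smul_eq_mul, smul_eq_mul,
    mul_one]
  have h1 : (X i.castSucc * X i.castSucc : RR k m) =
      (X i.castSucc + X i.succ) * X i.castSucc - X i.castSucc * X i.succ := by ring
  rw [h1, TensorProduct.sub_tmul, compare_move k i (compare_mem_add k i),
    compare_move_one k i (compare_mem_mul k i), mul_smul, add_smul, TensorProduct.tmul_neg,
    TensorProduct.tmul_add, TensorProduct.tmul_add, TensorProduct.tmul_add]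
  abel

theorem compare_smul_right (i : Fin m) {N : Type} [AddCommGroup N] [Module (RR k m) N]
    (a b : N) :
    (X i.succ : RR k m) • compare_el k i a b =
      compare_el k i ((X i.castSucc : RR k m) • a + (X i.succ : RR k m) • a +
        (X i.castSucc : RR k m) • (X i.succ : RR k m) • b) (-a) := by
  unfold compare_el
  rw [smul_add, TensorProduct.smul_tmul', TensorProduct.smul_tmul', smul_eq_mul, smul_eq_mul,
    mul_one]
  have h1 : (X i.succ : RR k m) = (X i.castSucc + X i.succ) - X i.castSucc := by ring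
  have h2 : (X i.succ * X i.castSucc : RR k m) = X i.castSucc * X i.succ := by ring
  rw [h2, compare_move_one k i (compare_mem_mul k i)]
  have h3 : ((X i.succ : RR k m) ⊗ₜ[Sinv k m i] a) =
      (1 : RR k m) ⊗ₜ[Sinv k m i] ((X i.castSucc + X i.succ : RR k m) • a) -
        (X i.castSucc : RR k m) ⊗ₜ[Sinv k m i] a := by
    rw [← compare_move_one k i (compare_mem_add k i), ← TensorProduct.sub_tmul, ← h1]
  rw [h3, mul_smul, add_smul, TensorProduct.tmul_neg, TensorProduct.tmul_add,
    TensorProduct.tmul_add, TensorProduct.tmul_add]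
  abel

theorem compare_Bmap (i : Fin m) {N : Type} [AddCommGroup N] [Module (RR k m) N]
    (f : N →ₗ[RR k m] N) (a b : N) :
    Bmap i f (compare_el k i a b) = compare_el k i (f a) (f b) := by
  show (LinearMap.baseChange (RR k m) (f.restrictScalars (Sinv k m i)))
      ((1 : RR k m) ⊗ₜ[Sinv k m i] a + (X i.castSucc : RR k m) ⊗ₜ[Sinv k m i] b) =
    (1 : RR k m) ⊗ₜ[Sinv k m i] f a + (X i.castSucc : RR k m) ⊗ₜ[Sinv k m i] f b
  rw [map_add, LinearMap.baseChange_tmul, LinearMap.baseChange_tmul]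
  rfl

theorem compare_bmul (i : Fin m) {N : Type} [AddCommGroup N] [Module (RR k m) N]
    (a b : N) :
    bmul i N (compare_el k i a b) = a + (X i.castSucc : RR k m) • b := by
  show (LinearMap.liftBaseChange (RR k m)
      ((LinearMap.id : N →ₗ[RR k m] N).restrictScalars (Sinv k m i)))
      ((1 : RR k m) ⊗ₜ[Sinv k m i] a + (X i.castSucc : RR k m) ⊗ₜ[Sinv k m i] b) =
    a + (X i.castSucc : RR k m) • b
  rw [map_add, LinearMap.liftBaseChange_tmul, LinearMap.liftBaseChange_tmul, one_smul]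
  rfl

/-- every element is uniquely `1 ⊗ a + x_i ⊗ b` -/
theorem compare_tensor (i : Fin m) (N : Type) [AddCommGroup N] [Module (RR k m) N] :
    ∃ e : (RR k m ⊗[Sinv k m i] N) ≃+ N × N, ∀ a b, e (compare_el k i a b) = (a, b) := by
  obtain ⟨B, hB0, hB1⟩ := exists_basisS k i
  let f : (RR k m ⊗[Sinv k m i] N) ≃ₗ[Sinv k m i] (Fin 2 →₀ N) :=
    TensorProduct.equivFinsuppOfBasisLeft B
  let g : (Fin 2 →₀ N) ≃ₗ[Sinv k m i] N × N :=
    (Finsupp.linearEquivFunOnFinite (Sinv k m i) N (Fin 2)).trans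
      (LinearEquiv.finTwoArrow (Sinv k m i) N)
  refine ⟨(f.trans g).toAddEquiv, fun a b => ?_⟩
  change g (f (compare_el k i a b)) = (a, b)
  have h1 : f.symm (g.symm (a, b)) = compare_el k i a b := by
    change (TensorProduct.equivFinsuppOfBasisLeft B).symm (g.symm (a, b)) = _
    rw [TensorProduct.equivFinsuppOfBasisLeft_symm_apply, Finsupp.sum_fintype _ _
      (fun j => TensorProduct.tmul_zero _ _), Fin.sum_univ_two, hB0, hB1]
    rfl
  rw [← h1, LinearEquiv.apply_symm_apply, LinearEquiv.apply_symm_apply]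

/-- the induction step -/
theorem compare_step (i : Fin m) (p q : Fin (m + 1)) (K : BimComplex k m) (O : Obj (RR k m) m)
    (T' : K.M ≃+ O.M) (h1 : ∀ j z, T' ((X j : RR k m) • z) = O.X j (T' z))
    (h2 : ∀ j z, T' (K.rmul j z) = (X j : RR k m) • T' z)
    (h3 : ∀ (c : k) z, T' ((C c : RR k m) • z) = (C c : RR k m) • T' z)
    (h4 : ∀ z, T' (K.d z) = O.D 0 (T' z)) (h5 : ∀ e z, T' (K.pr e z) = O.pr e (T' z)) :
    ∃ T : (BimComplex.crossing i K).M ≃+ (cross i p q O).M,
      (∀ j z, T ((X j : RR k m) • z) = (cross i p q O).X j (T z)) ∧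
      (∀ j z, T ((BimComplex.crossing i K).rmul j z) = (X j : RR k m) • T z) ∧
      (∀ (c : k) z, T ((C c : RR k m) • z) = (C c : RR k m) • T z) ∧
      (∀ z, T ((BimComplex.crossing i K).d z) = (cross i p q O).D 0 (T z)) ∧
      (∀ e z, T ((BimComplex.crossing i K).pr e z) = (cross i p q O).pr e (T z)) := by
  obtain ⟨e, he⟩ := compare_tensor k i K.M
  have hel : ∀ t, ∃ a b, t = compare_el k i a b := fun t =>
    ⟨(e t).1, (e t).2, e.injective (by rw [he])⟩
  let T : (RR k m ⊗[Sinv k m i] K.M) × K.M ≃+ (O.M × O.M) × O.M :=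
    (e.trans (AddEquiv.prodCongr T' T')).prodCongr T'
  have hT : ∀ a b ξ, T (compare_el k i a b, ξ) = ((T' a, T' b), T' ξ) := by
    intro a b ξ
    change ((T' (e (compare_el k i a b)).1, T' (e (compare_el k i a b)).2), T' ξ) = _
    rw [he]
  refine ⟨T, ?_, ?_, ?_, ?_, ?_⟩
  · rintro j ⟨t, ξ⟩
    obtain ⟨a, b, rfl⟩ := hel t
    change T ((X j : RR k m) • compare_el k i a b, (X j : RR k m) • ξ) =
      (cross i p q O).X j (T (compare_el k i a b, ξ))
    rw [hT, cross_X]
    by_cases hj : j = i.castSucc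
    · subst hj
      rw [compare_smul_left, hT, BX_castSucc]
      simp only [map_neg, map_add, h1]
    · by_cases hj' : j = i.succ
      · subst hj'
        rw [compare_smul_right, hT, BX_succ]
        simp only [map_neg, map_add, h1]
      · rw [compare_smul_inv k i (compare_mem_X k i hj hj'), hT, BX_other O i j hj hj']
        simp only [h1]
  · rintro j ⟨t, ξ⟩
    obtain ⟨a, b, rfl⟩ := hel t
    change T (Bmap i (K.rmul j) (compare_el k i a b), K.rmul j ξ) =
      (X j : RR k m) • T (compare_el k i a b, ξ)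
    rw [compare_Bmap, hT, hT, h2, h2, h2]
    rfl
  · rintro c ⟨t, ξ⟩
    obtain ⟨a, b, rfl⟩ := hel t
    change T ((C c : RR k m) • compare_el k i a b, (C c : RR k m) • ξ) =
      (C c : RR k m) • T (compare_el k i a b, ξ)
    rw [compare_smul_inv k i (compare_mem_C k i c), hT, hT, h3, h3, h3]
    rfl
  · rintro ⟨t, ξ⟩
    obtain ⟨a, b, rfl⟩ := hel t
    change T (Bmap i K.d (compare_el k i a b), bmul i K.M (compare_el k i a b) - K.d ξ) =
      (cross i p q O).D 0 (T (compare_el k i a b, ξ))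
    rw [compare_Bmap, compare_bmul, hT, hT, cross_D]
    simp only [map_add, map_sub, h1, h4, Pi.zero_apply, sub_self, zero_smul, sub_zero, add_zero]
  · rintro e' ⟨t, ξ⟩
    obtain ⟨a, b, rfl⟩ := hel t
    rcases e' with _ | e'
    · change T (Bmap i (K.pr 0) (compare_el k i a b), 0) =
        (cross i p q O).pr 0 (T (compare_el k i a b, ξ))
      rw [compare_Bmap, hT, hT, cross_pr_zero, h5, h5, map_zero]
    · change T (Bmap i (K.pr (e' + 1)) (compare_el k i a b), K.pr e' ξ) =
        (cross i p q O).pr (e' + 1) (T (compare_el k i a b, ξ))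
      rw [compare_Bmap, hT, hT, cross_pr_succ, h5, h5, h5]

/-- The comparison isomorphism. -/
theorem compare (w : List (Fin m)) (L : Equiv.Perm (Fin (m + 1))) :
    ∃ T : (rouquier k w).M ≃+ (Fw L w (Obj.base fun j => (X j : RR k m))).M,
      (∀ j z, T ((X j : RR k m) • z) =
        (Fw L w (Obj.base fun j => (X j : RR k m))).X j (T z)) ∧
      (∀ j z, T ((rouquier k w).rmul j z) = (X j : RR k m) • T z) ∧
      (∀ (c : k) z, T ((C c : RR k m) • z) = (C c : RR k m) • T z) ∧
      (∀ z, T ((rouquier k w).d z) = (Fw L w (Obj.base fun j => (X j : RR k m))).D 0 (T z)) ∧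
      (∀ e z, T ((rouquier k w).pr e z) =
        (Fw L w (Obj.base fun j => (X j : RR k m))).pr e (T z)) := by
  induction w generalizing L with
  | nil =>
    refine ⟨AddEquiv.refl (RR k m), fun j z => rfl, fun j z => rfl, fun c z => rfl, fun z => rfl,
      fun e z => rfl⟩
  | cons i w ih =>
    obtain ⟨T', h1, h2, h3, h4, h5⟩ := ih (L * sw i)
    exact compare_step k i (L i.castSucc) (L i.succ) (rouquier k w) _ T' h1 h2 h3 h4 h5

end Pool.Agent.H.MP_c30e5d_gt
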