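import Pool.Agent.H.MP_c30e5d_gt.Obj

/-!
# The curvature of the explicit model
-/

namespace Pool.Agent.H.MP_c30e5d_gt

/-- Affine dependence on `y`. -/
def CurvAff {A : Type} [CommRing A] {m : ℕ} {M : Type} [AddCommGroup M] [Module A M]
    (f : (Fin (m + 1) → A) → M) : Prop :=
  ∀ y, f y = f 0 + ∑ j, y j • (f (Pi.single j 1) - f 0)

theorem curv_aff_add {A : Type} [CommRing A] {m : ℕ} {M : Type} [AddCommGroup M] [Module A M]
    {f g : (Fin (m + 1) → A) → M} (hf : CurvAff f) (hg : CurvAff g) :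
    CurvAff (fun y => f y + g y) := by
  intro y
  show f y + g y = f 0 + g 0 + ∑ j, y j • (f (Pi.single j 1) + g (Pi.single j 1) - (f 0 + g 0))
  rw [hf y, hg y, add_add_add_comm, ← Finset.sum_add_distrib]
  congr 1
  refine Finset.sum_congr rfl fun j _ => ?_
  rw [← smul_add]
  congr 1
  abel

theorem curv_aff_neg {A : Type} [CommRing A] {m : ℕ} {M : Type} [AddCommGroup M] [Module A M]
    {f : (Fin (m + 1) → A) → M} (hf : CurvAff f) : CurvAff (fun y => -f y) := by
  intro y
  show -f y = -f 0 + ∑ j, y j • (-f (Pi.single j 1) - -f 0)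
  rw [hf y, neg_add, ← Finset.sum_neg_distrib]
  congr 1
  refine Finset.sum_congr rfl fun j _ => ?_
  rw [← smul_neg]
  congr 1
  abel

theorem curv_aff_const {A : Type} [CommRing A] {m : ℕ} {M : Type} [AddCommGroup M] [Module A M]
    (v : M) : CurvAff (fun _ : Fin (m + 1) → A => v) := by
  intro y
  simp

theorem curv_aff_coord {A : Type} [CommRing A] {m : ℕ} {M : Type} [AddCommGroup M] [Module A M]
    (p : Fin (m + 1)) (v : M) : CurvAff (fun y : Fin (m + 1) → A => y p • v) := by
  intro y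
  show y p • v = (0 : Fin (m + 1) → A) p • v +
    ∑ j, y j • ((Pi.single j (1 : A) : Fin (m + 1) → A) p • v - (0 : Fin (m + 1) → A) p • v)
  rw [Finset.sum_eq_single p]
  · simp
  · intro j _ hj
    simp [hj.symm]
  · intro h
    exact absurd (Finset.mem_univ _) h

theorem curv_aff_prod {A : Type} [CommRing A] {m : ℕ} {M N : Type} [AddCommGroup M] [Module A M]
    [AddCommGroup N] [Module A N] {f : (Fin (m + 1) → A) → M} {g : (Fin (m + 1) → A) → N}
    (hf : CurvAff f) (hg : CurvAff g) : CurvAff (fun y => (f y, g y)) := by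
  intro y
  refine Prod.ext ?_ ?_
  · show f y = (_ + _ : M × N).1
    rw [Prod.fst_add, Prod.fst_sum, hf y]
    rfl
  · show g y = (_ + _ : M × N).2
    rw [Prod.snd_add, Prod.snd_sum, hg y]
    rfl

theorem curv_aff_cross {A : Type} [CommRing A] {m : ℕ} (i : Fin m) (p q : Fin (m + 1))
    (O : Obj A m) (h : ∀ z : O.M, CurvAff (fun y => O.D y z)) (z : (cross i p q O).M) :
    CurvAff (fun y => (cross i p q O).D y z) := by
  change (O.M × O.M) × O.M at z
  have h1 : CurvAff (fun y => O.D y z.1.1 + -(y p • O.X i.succ z.2 + -(y q • O.X i.succ z.2))) :=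
    curv_aff_add (h _) (curv_aff_neg (curv_aff_add (curv_aff_coord _ _)
      (curv_aff_neg (curv_aff_coord _ _))))
  have h2 : CurvAff (fun y => O.D y z.1.2 + (y p • z.2 + -(y q • z.2))) :=
    curv_aff_add (h _) (curv_aff_add (curv_aff_coord _ _) (curv_aff_neg (curv_aff_coord _ _)))
  have h3 : CurvAff (fun y => (z.1.1 + O.X i.castSucc z.1.2) + -(O.D y z.2)) :=
    curv_aff_add (curv_aff_const _) (curv_aff_neg (h _))
  have h4 := curv_aff_prod (curv_aff_prod h1 h2) h3
  have h5 : (fun y => (cross i p q O).D y z) = fun y =>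
      ((O.D y z.1.1 + -(y p • O.X i.succ z.2 + -(y q • O.X i.succ z.2)),
        O.D y z.1.2 + (y p • z.2 + -(y q • z.2))),
        (z.1.1 + O.X i.castSucc z.1.2) + -(O.D y z.2)) := by
    funext y
    rw [cross_D]
    simp only [sub_eq_add_neg, add_smul, neg_smul]
  rw [h5]
  exact h4

/-- `D` depends affinely on `y`. -/
theorem D_affine {A : Type} [CommRing A] {m : ℕ} (L : Equiv.Perm (Fin (m + 1)))
    (w : List (Fin m)) (ρ : Fin (m + 1) → A) (y : Fin (m + 1) → A)
    (z : (Fw L w (Obj.base ρ)).M) :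
    (Fw L w (Obj.base ρ)).D y z = (Fw L w (Obj.base ρ)).D 0 z +
      ∑ j, y j • ((Fw L w (Obj.base ρ)).D (Pi.single j 1) z - (Fw L w (Obj.base ρ)).D 0 z) := by
  have key : ∀ (w : List (Fin m)) (L : Equiv.Perm (Fin (m + 1)))
      (z : (Fw L w (Obj.base ρ)).M), CurvAff (fun y => (Fw L w (Obj.base ρ)).D y z) := by
    intro w
    induction w with
    | nil =>
      intro L z
      exact curv_aff_const (0 : A)
    | cons i w ih =>
      intro L z
      exact curv_aff_cross i _ _ _ (ih _) z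
  exact key w L z y

theorem curv_split {m : ℕ} {N : Type} [AddCommGroup N] (i : Fin m) (f : Fin (m + 1) → N) :
    ∑ j, f j = f i.castSucc + (f i.succ +
      ∑ j ∈ (Finset.univ.erase i.castSucc).erase i.succ, f j) := by
  rw [Finset.add_sum_erase _ _ (Finset.mem_erase.2 ⟨(castSucc_ne_succ' i).symm,
    Finset.mem_univ _⟩), Finset.add_sum_erase _ _ (Finset.mem_univ _)]

theorem curv_cross {A : Type} [CommRing A] {m : ℕ} (L : Equiv.Perm (Fin (m + 1))) (i : Fin m)
    (O : Obj A m) (y : Fin (m + 1) → A) (c : A)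
    (h : ∀ z : O.M, O.D y (O.D y z) = ∑ j, y ((L * sw i) j) • O.X j z - c • z)
    (z : (cross i (L i.castSucc) (L i.succ) O).M) :
    (cross i (L i.castSucc) (L i.succ) O).D y ((cross i (L i.castSucc) (L i.succ) O).D y z) =
      ∑ j, y (L j) • (cross i (L i.castSucc) (L i.succ) O).X j z - c • z := by
  change (O.M × O.M) × O.M at z
  obtain ⟨⟨a, b⟩, ξ⟩ := z
  set p := L i.castSucc with hp
  set q := L i.succ with hq
  set T := (Finset.univ.erase i.castSucc).erase i.succ with hT
  have hmem : ∀ j ∈ T, j ≠ i.castSucc ∧ j ≠ i.succ := by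
    intro j hj
    rw [hT, Finset.mem_erase, Finset.mem_erase] at hj
    exact ⟨hj.2.1, hj.1⟩
  have h1 : ∀ z : O.M, O.D y (O.D y z) = y q • O.X i.castSucc z + (y p • O.X i.succ z +
      ∑ j ∈ T, y (L j) • O.X j z) - c • z := by
    intro z
    rw [h z, curv_split i, mul_sw_castSucc, mul_sw_succ]
    congr 3
    refine Finset.sum_congr rfl fun j hj => ?_
    rw [mul_sw_other L i j (hmem j hj).1 (hmem j hj).2]
  have h2 : ∑ j, y (L j) • (cross i p q O).X j ((a, b), ξ) =
      y p • ((-(O.X i.castSucc (O.X i.succ b)), a + O.X i.castSucc b + O.X i.succ b),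
        O.X i.castSucc ξ) +
      (y q • ((O.X i.castSucc a + O.X i.succ a + O.X i.castSucc (O.X i.succ b), -a),
        O.X i.succ ξ) +
      ((∑ j ∈ T, y (L j) • O.X j a, ∑ j ∈ T, y (L j) • O.X j b),
        ∑ j ∈ T, y (L j) • O.X j ξ)) := by
    have h3 : ∑ j, y (L j) • (cross i p q O).X j ((a, b), ξ) =
        ∑ j, y (L j) • ((BX O i j (a, b), O.X j ξ) : (O.M × O.M) × O.M) := rfl
    rw [h3, curv_split i, BX_castSucc, BX_succ]
    congr 2
    rw [← hT]
    have h4 : ∑ j ∈ T, y (L j) • ((BX O i j (a, b), O.X j ξ) : (O.M × O.M) × O.M) =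
        ∑ j ∈ T, ((y (L j) • O.X j a, y (L j) • O.X j b), y (L j) • O.X j ξ) := by
      refine Finset.sum_congr rfl fun j hj => ?_
      rw [BX_other O i j (hmem j hj).1 (hmem j hj).2]
      rfl
    rw [h4]
    refine Prod.ext (Prod.ext ?_ ?_) ?_
    · simp only [Prod.fst_sum]
    · simp only [Prod.fst_sum, Prod.snd_sum]
    · simp only [Prod.snd_sum]
  rw [h2, cross_D, cross_D]
  refine Prod.ext (Prod.ext ?_ ?_) ?_
  · show O.D y (O.D y a - (y p - y q) • O.X i.succ ξ) -
        (y p - y q) • O.X i.succ (a + O.X i.castSucc b - O.D y ξ) =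
      y p • -(O.X i.castSucc (O.X i.succ b)) +
        (y q • (O.X i.castSucc a + O.X i.succ a + O.X i.castSucc (O.X i.succ b)) +
          ∑ j ∈ T, y (L j) • O.X j a) - c • a
    simp only [map_sub, map_add, map_smul, h1, O.XD, O.XX i.succ i.castSucc, smul_sub, smul_add,
      sub_smul, smul_neg]
    abel
  · show O.D y (O.D y b + (y p - y q) • ξ) +
        (y p - y q) • (a + O.X i.castSucc b - O.D y ξ) =
      y p • (a + O.X i.castSucc b + O.X i.succ b) +
        (y q • -a + ∑ j ∈ T, y (L j) • O.X j b) - c • b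
    simp only [map_sub, map_add, map_smul, h1, smul_sub, smul_add, sub_smul, smul_neg]
    abel
  · show O.D y a - (y p - y q) • O.X i.succ ξ +
        O.X i.castSucc (O.D y b + (y p - y q) • ξ) -
          O.D y (a + O.X i.castSucc b - O.D y ξ) =
      y p • O.X i.castSucc ξ + (y q • O.X i.succ ξ + ∑ j ∈ T, y (L j) • O.X j ξ) - c • ξ
    simp only [map_sub, map_add, map_smul, h1, O.XD, sub_smul]
    abel

/-- The curvature: with `O = FO x L w`, for all `y`,
`D y (D y z) = ∑_j y (L j) • X j z - (∑_j y (act L w j) * x (act L w j)) • z`.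
(Induction on `w` for `Fw L w (base ρ)` with `ρ j = x (act L w j)`; on `cross`:
`D² ((m₀, m₁), ξ)` has the extra terms `u (x_i - x_{i+1}^{mid})` on the first component and
`u (x_i - x_{i+1})` on the second, `u = y (L i) - y (L (i+1))`.) -/
theorem curvature {A : Type} [CommRing A] {m : ℕ} (L : Equiv.Perm (Fin (m + 1)))
    (w : List (Fin m)) (ρ : Fin (m + 1) → A) (y : Fin (m + 1) → A)
    (z : (Fw L w (Obj.base ρ)).M) :
    (Fw L w (Obj.base ρ)).D y ((Fw L w (Obj.base ρ)).D y z) =
      ∑ j, y (L j) • (Fw L w (Obj.base ρ)).X j z - (∑ j, y (act L w j) * ρ j) • z := by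
  induction w generalizing L with
  | nil =>
    change A at z
    show (0 : A) = ∑ j, y (L j) • (ρ j • z) - (∑ j, y (L j) * ρ j) • z
    rw [Finset.sum_smul, sub_eq_zero.2]
    refine Finset.sum_congr rfl fun j _ => ?_
    rw [smul_smul]
  | cons i w ih =>
    exact curv_cross L i (Fw (L * sw i) w (Obj.base ρ)) y _ (fun z => ih (L * sw i) z) z

/-- On central elements `D y` squares to zero. -/
theorem DD_central {A : Type} [CommRing A] {m : ℕ} (x y : Fin (m + 1) → A)
    (L : Equiv.Perm (Fin (m + 1))) (w : List (Fin m)) (z : (FO x L w).M)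
    (hz : z ∈ CE x L (FO x L w)) : (FO x L w).D y ((FO x L w).D y z) = 0 := by
  have h := curvature L w (fun j => x (act L w j)) y z
  have h2 : ∑ j, y (L j) • (FO x L w).X j z = (∑ j, y (L j) * x (L j)) • z := by
    rw [Finset.sum_smul]
    refine Finset.sum_congr rfl fun j _ => ?_
    rw [hz j, smul_smul]
  have h3 : ∀ (P : Equiv.Perm (Fin (m + 1))), ∑ j, y (P j) * x (P j) = ∑ j, y j * x j :=
    fun P => Equiv.sum_comp P (fun j => y j * x j)
  unfold FO at *
  rw [h, h2, h3, h3 (act L w), sub_self]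

end Pool.Agent.H.MP_c30e5d_gt
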