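import Mathlib

/-!
# Braids, Rouquier complexes and triply graded homology: the definitions of the statement

Everything is on `n = m + 1` strands; the letters of braid words are `i : Fin m`, the letter `i`
being the positive crossing `σ_{i+1}` (1-based) of the positions `i` and `i + 1` (0-based).
-/

namespace Pool.Agent.H.MP_c30e5d_gt

open MvPolynomial TensorProduct

/-! ## The braid group and the braids `FT_2^{a_2} ⋯ FT_n^{a_n}` -/

/-- Artin's relations, as words in the free group on the letters `Fin m`. -/
def artinRels (m : ℕ) : Set (FreeGroup (Fin m)) :=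
  {r | (∃ i j : Fin m, (i : ℕ) + 2 ≤ (j : ℕ) ∧
      r = FreeGroup.of i * FreeGroup.of j * (FreeGroup.of j * FreeGroup.of i)⁻¹) ∨
    (∃ i j : Fin m, (i : ℕ) + 1 = (j : ℕ) ∧
      r = FreeGroup.of i * FreeGroup.of j * FreeGroup.of i *
        (FreeGroup.of j * FreeGroup.of i * FreeGroup.of j)⁻¹)}

/-- The braid group on `m + 1` strands. -/
abbrev Braid (m : ℕ) : Type := PresentedGroup (artinRels m)

/-- The braid of a positive word. -/
def braidOf {m : ℕ} (w : List (Fin m)) : Braid m :=
  (w.map fun i => PresentedGroup.of (rels := artinRels m) i).prod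

/-- The word `σ_1 σ_2 ⋯ σ_{k-1}` (the letters of index `< k - 1`, in increasing order). -/
def cyc (m k : ℕ) : List (Fin m) := (List.finRange m).filter fun i => (i : ℕ) + 1 < k

/-- The positive full twist `FT_k = (σ_1 ⋯ σ_{k-1})^k` on the first `k` strands. -/
def FT (m k : ℕ) : Braid m := braidOf (cyc m k) ^ k

/-- The braid `FT_2^{a_2} FT_3^{a_3} ⋯ FT_n^{a_n}`, `n = m + 1`. -/
def twistProduct (m : ℕ) (a : ℕ → ℕ) : Braid m :=
  ((List.range m).map fun j => FT m (j + 2) ^ a (j + 2)).prod

/-! ## Soergel bimodules and Rouquier complexes -/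

section
variable (k : Type) [Field k] (m : ℕ)

/-- The polynomial ring `R = k[x_0, …, x_m]`. -/
abbrev RR : Type := MvPolynomial (Fin (m + 1)) k

/-- The subring `R^{s_i}` of polynomials symmetric in `x_i`, `x_{i+1}`. -/
noncomputable def Sinv (i : Fin m) : Subalgebra k (RR k m) :=
  AlgHom.equalizer (rename (Equiv.swap i.castSucc i.succ)) (AlgHom.id k (RR k m))

/-- A complex of `R`-bimodules, given by its total bimodule `M`: `M` is an `R`-module through the
left multiplications, `rmul j` is the right multiplication by `x_j`, `d` the differential and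
`pr e` the projection to the part of homological degree `e`. -/
structure BimComplex where
  M : Type
  [ag : AddCommGroup M]
  [mo : Module (RR k m) M]
  rmul : Fin (m + 1) → M →ₗ[RR k m] M
  d : M →ₗ[RR k m] M
  pr : ℕ → M →ₗ[RR k m] M

attribute [instance] BimComplex.ag BimComplex.mo

variable {k m}

/-- The monoidal unit: the bimodule `R` in homological degree `0`. -/
noncomputable def BimComplex.unit : BimComplex k m where
  M := RR k m
  rmul j := (X j : RR k m) • LinearMap.id
  d := 0
  pr e := if e = 0 then LinearMap.id else 0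

variable (k) in
/-- `B_i ⊗_R M = R ⊗_{R^{s_i}} R ⊗_R M = R ⊗_{R^{s_i}} M`. -/
def BTen (i : Fin m) (M : Type) [AddCommGroup M] [Module (RR k m) M] : Type :=
  RR k m ⊗[Sinv k m i] M

noncomputable instance instAddCommGroupBTen (i : Fin m) (M : Type) [AddCommGroup M]
    [Module (RR k m) M] : AddCommGroup (BTen k i M) :=
  (TensorProduct.addCommGroup : AddCommGroup (RR k m ⊗[Sinv k m i] M))

noncomputable instance instModuleBTen (i : Fin m) (M : Type) [AddCommGroup M]
    [Module (RR k m) M] : Module (RR k m) (BTen k i M) :=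
  (TensorProduct.leftModule : Module (RR k m) (RR k m ⊗[Sinv k m i] M))

/-- `B_i ⊗_R f` for a left `R`-linear map `f : M → M`. -/
noncomputable def Bmap (i : Fin m) {M : Type} [AddCommGroup M] [Module (RR k m) M]
    (f : M →ₗ[RR k m] M) : BTen k i M →ₗ[RR k m] BTen k i M :=
  (f.restrictScalars (Sinv k m i)).baseChange (RR k m)

/-- The multiplication map `b : B_i ⊗_R M → M`, `r ⊗ x ↦ r x`. -/
noncomputable def bmul (i : Fin m) (M : Type) [AddCommGroup M] [Module (RR k m) M] :
    BTen k i M →ₗ[RR k m] M :=
  LinearMap.liftBaseChange (RR k m) ((LinearMap.id : M →ₗ[RR k m] M).restrictScalars (Sinv k m i))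

namespace BimComplex

/-- The `R`-module `(B_i ⊗_R C) × C`. -/
def CrM (i : Fin m) (C : BimComplex k m) : Type := BTen k i C.M × C.M

noncomputable instance instAddCommGroupCrM (i : Fin m) (C : BimComplex k m) :
    AddCommGroup (CrM i C) :=
  (Prod.instAddCommGroup : AddCommGroup (BTen k i C.M × C.M))

noncomputable instance instModuleCrM (i : Fin m) (C : BimComplex k m) :
    Module (RR k m) (CrM i C) :=
  (Prod.instModule : Module (RR k m) (BTen k i C.M × C.M))

/-- `(β, ξ) ↦ (f β, g ξ)` -/
noncomputable def crMapFun (i : Fin m) (C : BimComplex k m) (f : BTen k i C.M →ₗ[RR k m] BTen k i C.M)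
    (g : C.M →ₗ[RR k m] C.M) (z : CrM i C) : CrM i C :=
  (f z.1, g z.2)

/-- The linear map `(β, ξ) ↦ (f β, g ξ)` of `(B_i ⊗_R C) × C`. -/
noncomputable def crMap (i : Fin m) (C : BimComplex k m) (f : BTen k i C.M →ₗ[RR k m] BTen k i C.M)
    (g : C.M →ₗ[RR k m] C.M) : CrM i C →ₗ[RR k m] CrM i C where
  toFun := crMapFun i C f g
  map_add' z w := Prod.ext (map_add f z.1 w.1) (map_add g z.2 w.2)
  map_smul' c z := Prod.ext (map_smul f c z.1) (map_smul g c z.2)

/-- `(β, ξ) ↦ ((B_i ⊗ d) β, b β - d ξ)` -/
noncomputable def crDFun (i : Fin m) (C : BimComplex k m) (z : CrM i C) : CrM i C :=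
  (Bmap i C.d z.1, bmul i C.M z.1 - C.d z.2)

/-- The linear map `(β, ξ) ↦ ((B_i ⊗ d) β, b β - d ξ)` of `(B_i ⊗_R C) × C`. -/
noncomputable def crD (i : Fin m) (C : BimComplex k m) : CrM i C →ₗ[RR k m] CrM i C where
  toFun := crDFun i C
  map_add' z w := Prod.ext (map_add (Bmap i C.d) z.1 w.1) (by
    show bmul i C.M (z.1 + w.1) - C.d (z.2 + w.2) =
      (bmul i C.M z.1 - C.d z.2) + (bmul i C.M w.1 - C.d w.2)
    rw [map_add, map_add, add_sub_add_comm])
  map_smul' c z := Prod.ext (map_smul (Bmap i C.d) c z.1) (by
    show bmul i C.M (c • z.1) - C.d (c • z.2) = c • (bmul i C.M z.1 - C.d z.2)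
    rw [map_smul, map_smul, smul_sub])

/-- The projection to homological degree `e` of `(B_i ⊗_R C) × C`, the second summand being
shifted by one. -/
noncomputable def crPr (i : Fin m) (C : BimComplex k m) : ℕ → CrM i C →ₗ[RR k m] CrM i C
  | 0 => crMap i C (Bmap i (C.pr 0)) 0
  | e + 1 => crMap i C (Bmap i (C.pr (e + 1))) (C.pr e)

/-- `F_i ⊗_R C`, where `F_i = (B_i → R)` is the Rouquier complex of a positive crossing, with
`B_i` in homological degree `0` and `R` in homological degree `1`.  The differential is
`(β, ξ) ↦ ((B_i ⊗ d) β, b β - d ξ)`. -/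
noncomputable def crossing (i : Fin m) (C : BimComplex k m) : BimComplex k m where
  M := CrM i C
  rmul j := crMap i C (Bmap i (C.rmul j)) (C.rmul j)
  d := crD i C
  pr := crPr i C

end BimComplex

variable (k) in
/-- The Rouquier complex of a positive braid word. -/
noncomputable def rouquier : List (Fin m) → BimComplex k m
  | [] => BimComplex.unit
  | i :: w => BimComplex.crossing i (rouquier w)

/-! ## Hochschild homology (through the Koszul complex) and `HHH` -/

namespace BimComplex
variable (C : BimComplex k m)

/-- `Λ(k^n) ⊗ M`: an element is a family of elements of `M` indexed by the subsets of the set of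
variables. -/
abbrev Kos : Type := Finset (Fin (m + 1)) → C.M

/-- The Koszul differential of the commuting operators `x_j - (right multiplication by x_j)`:
`(δ c)(S) = ∑_{j ∉ S} (-1)^{#{i ∈ S : i < j}} (x_j c(S ∪ {j}) - c(S ∪ {j}) x_j)`.
It lowers the size of `S` by one; its homology is the Hochschild homology of the bimodule. -/
noncomputable def kosFun (c : C.Kos) : C.Kos := fun S =>
  ∑ j ∈ Sᶜ, (-1 : ℤ) ^ (S.filter (· < j)).card •
    ((X j : RR k m) • c (insert j S) - C.rmul j (c (insert j S)))

/-- The Koszul differential as a linear map. -/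
noncomputable def kosD : C.Kos →ₗ[RR k m] C.Kos where
  toFun := C.kosFun
  map_add' c c' := by
    ext S
    show ∑ j ∈ Sᶜ, (-1 : ℤ) ^ (S.filter (· < j)).card • ((X j : RR k m) • (c + c') (insert j S) -
      C.rmul j ((c + c') (insert j S))) = C.kosFun c S + C.kosFun c' S
    unfold kosFun
    rw [← Finset.sum_add_distrib]
    refine Finset.sum_congr rfl fun j _ => ?_
    rw [Pi.add_apply, smul_add (X j : RR k m), map_add, add_sub_add_comm, smul_add]
  map_smul' a c := by
    ext S
    show ∑ j ∈ Sᶜ, (-1 : ℤ) ^ (S.filter (· < j)).card • ((X j : RR k m) • (a • c) (insert j S) -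
      C.rmul j ((a • c) (insert j S))) = a • C.kosFun c S
    unfold kosFun
    rw [Finset.smul_sum]
    refine Finset.sum_congr rfl fun j _ => ?_
    rw [Pi.smul_apply, map_smul, smul_comm (X j : RR k m) a, ← smul_sub, smul_comm]

/-- The differential of the complex, applied to the coefficients. -/
noncomputable def kosdFun (c : C.Kos) : C.Kos := fun S => C.d (c S)

/-- The differential of the complex, applied to the coefficients, as a linear map. -/
noncomputable def kosd : C.Kos →ₗ[RR k m] C.Kos where
  toFun := C.kosdFun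
  map_add' c c' := funext fun S => map_add C.d (c S) (c' S)
  map_smul' a c := funext fun S => map_smul C.d a (c S)

/-- Elements of Koszul degree `p`: families concentrated on the subsets with `p` elements. -/
noncomputable def kosDeg (p : ℕ) : Submodule (RR k m) C.Kos where
  carrier := {c | ∀ S : Finset (Fin (m + 1)), S.card ≠ p → c S = 0}
  add_mem' ha hb S hS := by simp [ha S hS, hb S hS]
  zero_mem' S _ := rfl
  smul_mem' a c hc S hS := by simp [hc S hS]

/-- Elements of homological degree `e`. -/
noncomputable def homDeg (e : ℕ) : Submodule (RR k m) C.Kos where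
  carrier := {c | ∀ S, C.pr e (c S) = c S}
  add_mem' ha hb S := by simp [ha S, hb S]
  zero_mem' S := by simp
  smul_mem' a c hc S := by simp [hc S]

/-- Elements of homological degree `e - 1` (only `0` when `e = 0`). -/
noncomputable def homDegPred : ℕ → Submodule (RR k m) C.Kos
  | 0 => ⊥
  | e + 1 => C.homDeg e

/-- Hochschild cycles in Hochschild degree `p`. -/
noncomputable def hochZ (p : ℕ) : Submodule (RR k m) C.Kos :=
  LinearMap.ker C.kosD ⊓ C.kosDeg p

/-- Hochschild boundaries in Hochschild degree `p`, so that `HH_p` is `hochZ p / hochB p`. -/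
noncomputable def hochB (p : ℕ) : Submodule (RR k m) C.Kos :=
  (C.kosDeg (p + 1)).map C.kosD

/-- Cycles of the complex `HH_p(C)` in homological degree `e`: the `c` in `hochZ p` of homological
degree `e` with `d c ∈ hochB p`. -/
noncomputable def hhhZ (p e : ℕ) : Submodule (RR k m) C.Kos :=
  C.hochZ p ⊓ C.homDeg e ⊓ (C.hochB p).comap C.kosd

/-- Boundaries of the complex `HH_p(C)` in homological degree `e`: the `c` of the form
`d c' + b`, with `c' ∈ hochZ p` of homological degree `e - 1` and `b ∈ hochB p`. -/
noncomputable def hhhB (p e : ℕ) : Submodule (RR k m) C.Kos :=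
  (C.hochZ p ⊓ C.homDegPred e).map C.kosd ⊔ C.hochB p

/-- The homology in homological degree `e` of the complex obtained by applying `HH_p` to the
complex of bimodules `C`. -/
abbrev HHHof (p e : ℕ) : Type := (C.hhhZ p e) ⧸ (C.hhhB p e).submoduleOf (C.hhhZ p e)

end BimComplex

variable (k m) in
/-- `HHH` of (the closure of) a positive braid word, in Hochschild degree `p` and homological
degree `e` (the sum over all internal degrees). -/
abbrev HHH (w : List (Fin m)) (p e : ℕ) : Type := (rouquier k w : BimComplex k m).HHHof p e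

end

end Pool.Agent.H.MP_c30e5d_gt
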