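import Pool.Agent.H.MP_c30e5d_gt.Red

/-!
# Deletion of pairs of equal adjacent letters in a word, and its consequences for central cycles
-/

namespace Pool.Agent.H.MP_c30e5d_gt

variable {A : Type} [CommRing A] {m : ℕ}

/-- an object with an evaluation functional -/
structure PObj (A : Type) [CommRing A] (m : ℕ) where
  O : Obj A m
  e : O.M →ₗ[A] A

/-- crossing of strands `p`, `q` -/
def crossP (x : Fin (m + 1) → A) (i : Fin m) (p q : Fin (m + 1)) (P : PObj A m) : PObj A m :=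
  ⟨cross i p q P.O, evc i p q P.O (x p) P.e⟩

/-- the functor of a word -/
def FwP (x : Fin (m + 1) → A) : Equiv.Perm (Fin (m + 1)) → List (Fin m) → PObj A m → PObj A m
  | _, [], P => P
  | L, i :: w, P => crossP x i (L i.castSucc) (L i.succ) (FwP x (L * sw i) w P)

theorem FwP_append (x : Fin (m + 1) → A) (L : Equiv.Perm (Fin (m + 1))) (w₁ w₂ : List (Fin m))
    (P : PObj A m) : FwP x L (w₁ ++ w₂) P = FwP x L w₁ (FwP x (act L w₁) w₂ P) := by
  induction w₁ generalizing L with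
  | nil => rfl
  | cons i w ih => simp [FwP, ih]

theorem FwP_eq (x : Fin (m + 1) → A) (L : Equiv.Perm (Fin (m + 1))) (w : List (Fin m))
    (P : PObj A m) : FwP x L w P = ⟨Fw L w P.O, evw x L w P.O P.e⟩ := by
  induction w generalizing L with
  | nil => rfl
  | cons i w ih => rw [FwP, ih]; rfl

/-- the full object of a word -/
def FP (x : Fin (m + 1) → A) (L : Equiv.Perm (Fin (m + 1))) (w : List (Fin m)) : PObj A m :=
  FwP x L w ⟨Obj.base fun j => x (act L w j), (LinearMap.id : A →ₗ[A] A)⟩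

theorem FP_eq (x : Fin (m + 1) → A) (L : Equiv.Perm (Fin (m + 1))) (w : List (Fin m)) :
    FP x L w = ⟨FO x L w, evF x L w⟩ := by
  rw [FP, FwP_eq]; rfl

theorem isEv_FP (x y : Fin (m + 1) → A) (L : Equiv.Perm (Fin (m + 1))) (w : List (Fin m)) :
    IsEv x y L (FP x L w).O (FP x L w).e := by
  rw [FP_eq]; exact isEv_evF x y L w

theorem sw_sw (i : Fin m) : sw i * sw i = 1 := by simp [sw]

/-- Reduction data for the deletion of two adjacent equal letters. -/
theorem single (x y : Fin (m + 1) → A) (L : Equiv.Perm (Fin (m + 1))) (w₁ w₂ : List (Fin m))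
    (i : Fin m) :
    Nonempty (Red y (x (act L w₁ i.castSucc) - x (act L w₁ i.succ))
      (y (act L w₁ i.castSucc) - y (act L w₁ i.succ))
      (FP x L (w₁ ++ i :: i :: w₂)).O (FP x L (w₁ ++ w₂)).O
      (FP x L (w₁ ++ i :: i :: w₂)).e (FP x L (w₁ ++ w₂)).e) := by
  have hact : act L (w₁ ++ i :: i :: w₂) = act L (w₁ ++ w₂) := by
    rw [act_append, act_append, act_cons, act_cons, mul_assoc, sw_sw, mul_one]
  have h1 : FP x L (w₁ ++ i :: i :: w₂) = FwP x L w₁ (crossP x i (act L w₁ i.castSucc)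
      (act L w₁ i.succ) (crossP x i (act L w₁ i.succ) (act L w₁ i.castSucc)
      (FP x (act L w₁) w₂))) := by
    rw [FP, FwP_append, FwP, FwP, mul_sw_castSucc, mul_sw_succ, mul_assoc, sw_sw, mul_one, hact,
      act_append]
    rfl
  have h2 : FP x L (w₁ ++ w₂) = FwP x L w₁ (FP x (act L w₁) w₂) := by
    rw [FP, FwP_append, act_append]; rfl
  rw [h1, h2, FwP_eq, FwP_eq]
  exact ⟨(red2 x y (act L w₁) i _ _ (isEv_FP x y (act L w₁) w₂)).Fw L w₁⟩

theorem Red.mapCC {x y : Fin (m + 1) → A} {L : Equiv.Perm (Fin (m + 1))} {O O' : Obj A m}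
    (φ : SHom (RingHom.id A) O O') (hφ : ∀ z, φ.f (O.D y z) = O'.D y (φ.f z)) {z : O.M}
    (hz : z ∈ CC x y L O) : φ.f z ∈ CC x y L O' := by
  refine ⟨fun j => ?_, ?_⟩
  · rw [← φ.comm, hz.1, φ.smul]; rfl
  · rw [← hφ, hz.2, map_zero]

theorem Red.mapCE {x : Fin (m + 1) → A} {L : Equiv.Perm (Fin (m + 1))} {O O' : Obj A m}
    (φ : SHom (RingHom.id A) O O') {z : O.M} (hz : z ∈ CE x L O) : φ.f z ∈ CE x L O' := by
  intro j
  rw [← φ.comm, hz j, φ.smul]; rfl

/-- cycles of `P₁` evaluate to `c` times evaluations of cycles of `P₂` -/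
def Dn1 (x y : Fin (m + 1) → A) (L : Equiv.Perm (Fin (m + 1))) (P₁ P₂ : PObj A m) (c : A) : Prop :=
  ∀ z ∈ CC x y L P₁.O, ∃ z' ∈ CC x y L P₂.O, P₁.e z = c * P₂.e z'

/-- cycles with zero evaluation are boundaries up to the factor `U` -/
def Dn2 (x y : Fin (m + 1) → A) (L : Equiv.Perm (Fin (m + 1))) (P : PObj A m) (U : A) : Prop :=
  ∀ z ∈ CC x y L P.O, P.e z = 0 → ∃ t ∈ CE x L P.O, U • z = P.O.D y t

/-- insertion of crossings into cycles -/
def Dn3 (x y : Fin (m + 1) → A) (L : Equiv.Perm (Fin (m + 1))) (P₁ P₂ : PObj A m) (c : A)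
    (I : Ideal A) : Prop :=
  ∀ z' ∈ CC x y L P₂.O, ∀ g ∈ I, ∃ z ∈ CC x y L P₁.O, P₁.e z = c * g * P₂.e z'

section
variable {x y : Fin (m + 1) → A} {L : Equiv.Perm (Fin (m + 1))} {P₁ P₂ : PObj A m} {α u : A}

theorem Red.dn1 [IsDomain A] (r : Red y α u P₁.O P₂.O P₁.e P₂.e) (h₁ : IsEv x y L P₁.O P₁.e)
    (hu : u ≠ 0) : Dn1 x y L P₁ P₂ α := by
  intro z hz
  refine ⟨-(r.Ψ.f z), neg_mem (Red.mapCC r.Ψ r.cΨ hz), ?_⟩
  have h := congrArg P₁.e (r.hom z)
  rw [hz.2, map_zero, add_zero, h₁.evD, map_sub, map_smul, r.eΨ', smul_eq_mul] at h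
  have h2 : u * (P₁.e z + α * P₂.e (r.Ψ.f z)) = 0 := by linear_combination h
  rcases mul_eq_zero.1 h2 with h3 | h3
  · exact absurd h3 hu
  · rw [map_neg]; linear_combination h3

theorem Red.dn2 [IsDomain A] (r : Red y α u P₁.O P₂.O P₁.e P₂.e) (h₁ : IsEv x y L P₁.O P₁.e)
    (hu : u ≠ 0) (hα : α ≠ 0) (U : A) (h : Dn2 x y L P₂ U) : Dn2 x y L P₁ (u * U) := by
  intro z hz he
  have hm := Red.mapCC r.Ψ r.cΨ hz
  have h0 : P₂.e (r.Ψ.f z) = 0 := by
    have h := congrArg P₁.e (r.hom z)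
    rw [hz.2, map_zero, add_zero, h₁.evD, map_sub, map_smul, r.eΨ', he, smul_zero] at h
    have h2 : (u * α) * P₂.e (r.Ψ.f z) = 0 := by linear_combination h
    rcases mul_eq_zero.1 h2 with h3 | h3
    · exact absurd h3 (mul_ne_zero hu hα)
    · exact h3
  obtain ⟨t, ht, hU⟩ := h _ hm h0
  refine ⟨r.Ψ'.f t + U • r.s.f z, add_mem (Red.mapCE r.Ψ' ht)
    (Submodule.smul_mem _ _ (Red.mapCE r.s hz.1)), ?_⟩
  have h3 := r.hom z
  rw [hz.2, map_zero, add_zero] at h3
  rw [map_add, map_smul, ← r.cΨ', ← hU, r.Ψ'.smul, RingHom.id_apply, ← h3, smul_sub, smul_smul,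
    mul_comm u U]
  abel

theorem Red.dn3 (r : Red y α u P₁.O P₂.O P₁.e P₂.e) :
    Dn3 x y L P₁ P₂ α (Ideal.span {α, u}) := by
  intro z' hz' g hg
  obtain ⟨a, b, rfl⟩ := Ideal.mem_span_pair.1 hg
  refine ⟨-(a • r.E.f z' + b • r.Ψ'.f z'), neg_mem (add_mem
    (Submodule.smul_mem _ _ (Red.mapCC r.E r.cE hz'))
    (Submodule.smul_mem _ _ (Red.mapCC r.Ψ' r.cΨ' hz'))), ?_⟩
  rw [map_neg, map_add, map_smul, map_smul, r.eE, r.eΨ', smul_eq_mul, smul_eq_mul]; ring

end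

/-- difference of the values at the two elements of an unordered pair (smaller minus larger) -/
def dif (x : Fin (m + 1) → A) (s : Sym2 (Fin (m + 1))) : A := x s.inf - x s.sup

theorem dif_mk (x : Fin (m + 1) → A) (a b : Fin (m + 1)) :
    ∃ ε : A, (ε = 1 ∨ ε = -1) ∧ ∀ (z : Fin (m + 1) → A), dif z s(a, b) = ε * (z a - z b) := by
  rcases le_total a b with h | h
  · exact ⟨1, Or.inl rfl, fun z => by simp [dif, h]⟩
  · exact ⟨-1, Or.inr rfl, fun z => by simp [dif, h]⟩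

/-- `Del L w w' S`: the word `w'` is obtained from `w` (with labels `L` on the left) by deleting
pairs of equal adjacent letters; `S` is the multiset of the pairs of strands crossing there. -/
inductive Del : Equiv.Perm (Fin (m + 1)) → List (Fin m) → List (Fin m) →
    Multiset (Sym2 (Fin (m + 1))) → Prop
  | refl (L : Equiv.Perm (Fin (m + 1))) (w : List (Fin m)) : Del L w w 0
  | step (L : Equiv.Perm (Fin (m + 1))) (w₁ : List (Fin m)) (i : Fin m) (w₂ w' : List (Fin m))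
      (S : Multiset (Sym2 (Fin (m + 1)))) (h : Del L (w₁ ++ w₂) w' S) :
      Del L (w₁ ++ i :: i :: w₂) w' (s(act L w₁ i.castSucc, act L w₁ i.succ) ::ₘ S)

end Pool.Agent.H.MP_c30e5d_gt
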