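import Pool.Agent.H.MP_c30e5d_gt.Del

/-!
# Consequences of deletions; formal properties of deletions
-/

namespace Pool.Agent.H.MP_c30e5d_gt

variable {A : Type} [CommRing A] {m : ℕ}

theorem Dn1.neg {x y : Fin (m + 1) → A} {L : Equiv.Perm (Fin (m + 1))} {P₁ P₂ : PObj A m} {c ε : A}
    (hε : ε = 1 ∨ ε = -1) (h : Dn1 x y L P₁ P₂ c) : Dn1 x y L P₁ P₂ (ε * c) := by
  intro z hz
  obtain ⟨z', hz', h'⟩ := h z hz
  rcases hε with rfl | rfl
  · exact ⟨z', hz', by rw [h', one_mul]⟩
  · exact ⟨-z', neg_mem hz', by rw [h', map_neg]; ring⟩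

theorem dif_ne_zero [IsDomain A] {x : Fin (m + 1) → A} (hx : Function.Injective x)
    {a b : Fin (m + 1)} (h : a ≠ b) : dif x s(a, b) ≠ 0 := by
  obtain ⟨ε, hε, hd⟩ := dif_mk x a b
  rw [hd]
  refine mul_ne_zero ?_ (sub_ne_zero.2 fun h' => h (hx h'))
  rcases hε with rfl | rfl <;> simp

theorem act_ne (L : Equiv.Perm (Fin (m + 1))) (w : List (Fin m)) (i : Fin m) :
    act L w i.castSucc ≠ act L w i.succ := fun h =>
  castSucc_ne_succ' i ((act L w).injective h)

theorem act_del {L : Equiv.Perm (Fin (m + 1))} {w w' : List (Fin m)}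
    {S : Multiset (Sym2 (Fin (m + 1)))} (h : Del L w w' S) : act L w = act L w' := by
  induction h with
  | refl => rfl
  | step w₁ i w₂ w' S h ih =>
    rw [← ih, act_append, act_append, act_cons, act_cons, mul_assoc, sw_sw, mul_one]

theorem del1 [IsDomain A] {x y : Fin (m + 1) → A} (hx : Function.Injective x)
    (hy : Function.Injective y) {L : Equiv.Perm (Fin (m + 1))} {w w' : List (Fin m)}
    {S : Multiset (Sym2 (Fin (m + 1)))} (h : Del L w w' S) :
    Dn1 x y L (FP x L w) (FP x L w') (S.map (dif x)).prod := by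
  induction h with
  | refl w => intro z hz; exact ⟨z, hz, by simp⟩
  | step w₁ i w₂ w' S h ih =>
    obtain ⟨r⟩ := single x y L w₁ w₂ i
    have h1 := r.dn1 (isEv_FP x y L _)
      (sub_ne_zero.2 fun h' => act_ne L w₁ i (hy h'))
    obtain ⟨ε, hε, hd⟩ := dif_mk x (act L w₁ i.castSucc) (act L w₁ i.succ)
    have h2 := Dn1.neg hε h1
    rw [← hd] at h2
    intro z hz
    obtain ⟨z', hz', e1⟩ := h2 z hz
    obtain ⟨z'', hz'', e2⟩ := ih z' hz'
    exact ⟨z'', hz'', by rw [e1, e2, Multiset.map_cons, Multiset.prod_cons, mul_assoc]⟩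

theorem del2 [IsDomain A] {x y : Fin (m + 1) → A} (hx : Function.Injective x)
    (hy : Function.Injective y) {L : Equiv.Perm (Fin (m + 1))} {w w' : List (Fin m)}
    {S : Multiset (Sym2 (Fin (m + 1)))} (h : Del L w w' S) (hw' : w' = []) :
    Dn2 x y L (FP x L w) (S.map (dif y)).prod := by
  induction h with
  | refl w =>
    subst hw'
    intro z hz he
    have hz0 : z = 0 := he
    exact ⟨0, zero_mem _, by rw [hz0]; simp⟩
  | step w₁ i w₂ w' S h ih =>
    obtain ⟨r⟩ := single x y L w₁ w₂ i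
    have h1 := r.dn2 (isEv_FP x y L _)
      (sub_ne_zero.2 fun h' => act_ne L w₁ i (hy h'))
      (sub_ne_zero.2 fun h' => act_ne L w₁ i (hx h')) _ (ih hw')
    obtain ⟨ε, hε, hd⟩ := dif_mk x (act L w₁ i.castSucc) (act L w₁ i.succ)
    intro z hz he
    obtain ⟨t, ht, e1⟩ := h1 z hz he
    refine ⟨ε • t, Submodule.smul_mem _ _ ht, ?_⟩
    rw [Multiset.map_cons, Multiset.prod_cons, hd, map_smul, ← e1, smul_smul, mul_assoc]

theorem del3 {x y : Fin (m + 1) → A} {L : Equiv.Perm (Fin (m + 1))} {w w' : List (Fin m)}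
    {S : Multiset (Sym2 (Fin (m + 1)))} (h : Del L w w' S) :
    Dn3 x y L (FP x L w) (FP x L w') (S.map (dif x)).prod
      (S.map fun s => Ideal.span {dif x s, dif y s}).prod := by
  induction h with
  | refl w => 
    intro z hz g _
    exact ⟨g • z, Submodule.smul_mem _ _ hz, by rw [map_smul, smul_eq_mul]; simp⟩
  | step w₁ i w₂ w' S h ih =>
    obtain ⟨r⟩ := single x y L w₁ w₂ i
    obtain ⟨ε, hε, hd⟩ := dif_mk x (act L w₁ i.castSucc) (act L w₁ i.succ)
    have hε2 : ε * ε = 1 := by rcases hε with rfl | rfl <;> ring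
    intro z' hz' 
    -- the good elements form an ideal
    let K : Ideal A :=
      { carrier := {g | ∃ z ∈ CC x y L (FP x L (w₁ ++ i :: i :: w₂)).O,
          (FP x L (w₁ ++ i :: i :: w₂)).e z =
            ((s(act L w₁ i.castSucc, act L w₁ i.succ) ::ₘ S).map (dif x)).prod * g *
              (FP x L w').e z'}
        add_mem' := by
          rintro a b ⟨z, hz, h1⟩ ⟨z₂, hz₂, h2⟩
          exact ⟨z + z₂, add_mem hz hz₂, by rw [map_add, h1, h2]; ring⟩
        zero_mem' := ⟨0, zero_mem _, by simp⟩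
        smul_mem' := by
          rintro c a ⟨z, hz, h1⟩
          exact ⟨c • z, Submodule.smul_mem _ _ hz, by
            rw [map_smul, h1, smul_eq_mul, smul_eq_mul]; ring⟩ }
    have hK : ((s(act L w₁ i.castSucc, act L w₁ i.succ) ::ₘ S).map
        fun s => Ideal.span {dif x s, dif y s}).prod ≤ K := by
      rw [Multiset.map_cons, Multiset.prod_cons]
      refine Ideal.mul_le.2 fun a ha b hb => ?_
      obtain ⟨z₂, hz₂, e2⟩ := ih z' hz' b hb
      have ha' : ε * a ∈ Ideal.span {x (act L w₁ i.castSucc) - x (act L w₁ i.succ),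
          y (act L w₁ i.castSucc) - y (act L w₁ i.succ)} := by
        obtain ⟨s, t, rfl⟩ := Ideal.mem_span_pair.1 ha
        refine Ideal.mem_span_pair.2 ⟨s, t, ?_⟩
        rw [hd x, hd y]
        linear_combination (-(s * (x (act L w₁ i.castSucc) - x (act L w₁ i.succ))) -
          t * (y (act L w₁ i.castSucc) - y (act L w₁ i.succ))) * hε2
      obtain ⟨z₁, hz₁, e1⟩ := r.dn3 (x := x) z₂ hz₂ _ ha'
      refine ⟨z₁, hz₁, ?_⟩
      rw [e1, e2, Multiset.map_cons, Multiset.prod_cons, hd x]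
      ring
    intro g hg
    exact hK hg

theorem Del.trans {L : Equiv.Perm (Fin (m + 1))} {w w' w'' : List (Fin m)}
    {S T : Multiset (Sym2 (Fin (m + 1)))} (h : Del L w w' S) (h' : Del L w' w'' T) :
    Del L w w'' (S + T) := by
  induction h with
  | refl w => simpa using h'
  | step w₁ i w₂ w' S h ih =>
    rw [Multiset.cons_add]
    exact Del.step L w₁ i w₂ w'' (S + T) (ih h')

theorem Del.append_left {L : Equiv.Perm (Fin (m + 1))} (w₀ : List (Fin m)) {w w' : List (Fin m)}
    {S : Multiset (Sym2 (Fin (m + 1)))} (h : Del (act L w₀) w w' S) :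
    Del L (w₀ ++ w) (w₀ ++ w') S := by
  induction h with
  | refl w => exact Del.refl _ _
  | step w₁ i w₂ w' S h ih =>
    have h1 := Del.step L (w₀ ++ w₁) i w₂ (w₀ ++ w') S (by simpa [List.append_assoc] using ih)
    rw [act_append] at h1
    simpa [List.append_assoc] using h1

theorem Del.append_right {L : Equiv.Perm (Fin (m + 1))} (w₀ : List (Fin m)) {w w' : List (Fin m)}
    {S : Multiset (Sym2 (Fin (m + 1)))} (h : Del L w w' S) :
    Del L (w ++ w₀) (w' ++ w₀) S := by
  induction h with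
  | refl w => exact Del.refl _ _
  | step w₁ i w₂ w' S h ih =>
    have h1 := Del.step L w₁ i (w₂ ++ w₀) (w' ++ w₀) S (by simpa [List.append_assoc] using ih)
    simpa [List.append_assoc] using h1

end Pool.Agent.H.MP_c30e5d_gt
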