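import Pool.Agent.H.MP_c30e5d_gt.Local

/-!
# The divisibility lemma: the main statement
-/

namespace Pool.Agent.H.MP_c30e5d_gt

variable {A : Type} [CommRing A] {m : ℕ}

theorem act_fix (L : Equiv.Perm (Fin (m + 1))) (w : List (Fin m)) (c : Fin (m + 1))
    (h : ∀ g ∈ w, c ≠ g.castSucc ∧ c ≠ g.succ) : act L w c = L c := by
  induction w generalizing L with
  | nil => rfl
  | cons i w ih =>
    rw [act_cons, ih _ fun g hg => h g (by simp [hg]),
      mul_sw_other L i c (h i (by simp)).1 (h i (by simp)).2]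

theorem act_reverse (w : List (Fin m)) : act 1 w.reverse = (act 1 w)⁻¹ := by
  induction w with
  | nil => simp
  | cons i w ih =>
    rw [List.reverse_cons, act_append, ih, act_eq _ [i], act_cons, act_cons, act_nil,
      act_eq (1 * sw i) w, mul_inv_rev, one_mul]
    congr 1

theorem down_eq (j l : ℕ) : down m j l = (up m l j).reverse := rfl

/-- labels after `down m j l` -/
theorem down_labels {j : ℕ} (hj : j ≤ m) (d l : ℕ) (hl : l + d = j) :
    (act 1 (down m j l) ⟨l, by omega⟩ = (⟨j, by omega⟩ : Fin (m + 1))) ∧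
    (∀ p : Fin (m + 1), (p : ℕ) < l → act 1 (down m j l) p = p) ∧
    (∀ p : Fin (m + 1), l < (p : ℕ) → (p : ℕ) ≤ j →
      ((act 1 (down m j l) p : Fin (m + 1)) : ℕ) = p - 1) := by
  induction d generalizing l with
  | zero =>
    have : l = j := by omega
    subst this
    rw [down_eq, up_self]
    refine ⟨rfl, fun p _ => rfl, fun p h1 h2 => by omega⟩
  | succ d ih =>
    obtain ⟨h1, h2, h3⟩ := ih (l + 1) (by omega)
    have hlm : l < m := by omega
    have key : act 1 (down m j l) = act 1 (down m j (l + 1)) * sw ⟨l, hlm⟩ := by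
      rw [down_eq, down_eq, act_reverse, act_reverse, up_cons (by omega) hlm, act_cons,
        act_eq (1 * sw _), mul_inv_rev, one_mul]
      congr 1
    have e1 : (⟨l, by omega⟩ : Fin (m + 1)) = (⟨l, hlm⟩ : Fin m).castSucc := rfl
    have e2 : (⟨l + 1, by omega⟩ : Fin (m + 1)) = (⟨l, hlm⟩ : Fin m).succ := rfl
    refine ⟨?_, fun p hp => ?_, fun p hp hp' => ?_⟩
    · rw [key, e1, mul_sw_castSucc, ← e2, h1]
    · rw [key, mul_sw_other, h2 p (by omega)]
      · intro h; rw [h] at hp; simp at hp
      · intro h; rw [h] at hp; simp at hp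
    · by_cases hpl : (p : ℕ) = l + 1
      · have : p = (⟨l, hlm⟩ : Fin m).succ := Fin.ext hpl
        rw [key, this, mul_sw_succ, ← e1, h2 ⟨l, by omega⟩ (by simp)]
        simp
      · rw [key, mul_sw_other, h3 p (by omega) hp']
        · intro h; rw [h] at hp; simp at hp
        · intro h; rw [h] at hpl; simp at hpl

theorem cross_D_eq_zero {O : Obj A m} {i : Fin m} {p q : Fin (m + 1)} {y : Fin (m + 1) → A}
    {z : (O.M × O.M) × O.M} (h1 : O.D y z.1.1 = 0) (h2 : O.D y z.1.2 = 0) (h3 : z.2 = 0)
    (h4 : z.1.1 + O.X i.castSucc z.1.2 = 0) : (cross i p q O).D y z = 0 := by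
  rw [cross_D, h1, h2, h3, h4, map_zero, map_zero, smul_zero, sub_zero, add_zero]
  rfl

/-- central elements of the word `up m l j` for the right labels -/
theorem base_right [IsDomain A] (a y : Fin (m + 1) → A) (jf : Fin (m + 1)) (d l : ℕ)
    (hl : l + d = jf) (L : Equiv.Perm (Fin (m + 1))) (hL : L ⟨l, by omega⟩ = jf)
    (hL' : ∀ p : Fin (m + 1), l < (p : ℕ) → p ≤ jf → ((L p : Fin (m + 1)) : ℕ) = p - 1)
    (ha : ∀ p : Fin (m + 1), l ≤ (p : ℕ) → p < jf → a p ≠ a jf)
    (z : (FO a L (up m l jf)).M) (hz : z ∈ CE a L (FO a L (up m l jf))) :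
    (FO a L (up m l jf)).D y z = 0 ∧
    ∏ p ∈ Finset.univ.filter (fun p : Fin (m + 1) => l ≤ (p : ℕ) ∧ p < jf), (a p - a jf) ∣
      evF a L (up m l jf) z := by
  induction d generalizing l L with
  | zero =>
    have hlj : l = jf := by omega
    subst hlj
    have hempty : (Finset.univ.filter (fun p : Fin (m + 1) => (jf : ℕ) ≤ (p : ℕ) ∧ p < jf)) = ∅ := by
      exact Finset.filter_eq_empty_iff.2 fun p _ h => by
        have h' := Fin.lt_def.1 h.2
        omega
    rw [hempty, Finset.prod_empty]
    refine ⟨?_, one_dvd _⟩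
    revert z
    rw [up_self]
    intro z _
    rfl
  | succ d ih =>
    have hjm := jf.2
    have hlm : l < m := by omega
    set g : Fin m := ⟨l, hlm⟩ with hg
    have hLg : L g.castSucc = jf := hL
    have hLg' : ((L g.succ : Fin (m + 1)) : ℕ) = l := by
      have := hL' g.succ (by simp [hg]) (by rw [Fin.le_def]; simp [hg]; omega)
      simpa [hg] using this
    have hLg'' : L g.succ = g.castSucc := Fin.ext (by simpa [hg] using hLg')
    have hup : up m l jf = g :: up m (l + 1) jf := up_cons (by omega) hlm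
    have ih' := ih (l + 1) (by omega) (L * sw g) (by
        have : (⟨l + 1, by omega⟩ : Fin (m + 1)) = g.succ := rfl
        rw [this, mul_sw_succ, hLg]) (by
        intro p hp hp'
        rw [mul_sw_other]
        · exact hL' p (by omega) hp'
        · intro h; rw [h] at hp; simp [hg] at hp
        · intro h; rw [h] at hp; simp [hg] at hp) (fun p hp => ha p (by omega))
    -- letters of the rest do not touch position `l`
    have hlet : ∀ g' ∈ up m (l + 1) jf, g.castSucc ≠ g'.castSucc ∧ g.castSucc ≠ g'.succ := by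
      intro g' hg'
      rw [mem_up] at hg'
      constructor
      · intro h; have := congrArg Fin.val h; simp [hg] at this; omega
      · intro h; have := congrArg Fin.val h; simp [hg] at this; omega
    have hsc : ∀ t, (FO a (L * sw g) (up m (l + 1) jf)).X g.castSucc t = a g.castSucc • t := by
      intro t
      have h := X_scalar (L * sw g) (up m (l + 1) jf)
        (fun c => a (act (L * sw g) (up m (l + 1) jf) c)) g.castSucc hlet t
      rw [act_fix _ _ _ hlet, mul_sw_castSucc, hLg''] at h
      exact h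
    have hag : a g.castSucc ≠ a jf := ha g.castSucc (by simp [hg]) (by rw [Fin.lt_def]; simp [hg]; omega)
    revert z
    rw [hup]
    intro z hz
    change ((FO a (L * sw g) (up m (l + 1) jf)).M × (FO a (L * sw g) (up m (l + 1) jf)).M) ×
      (FO a (L * sw g) (up m (l + 1) jf)).M at z
    obtain ⟨f1, f2, f3, f4, f5⟩ := central_cross (O := FO a (L * sw g) (up m (l + 1) jf)) hz
    have hz2 : z.2 = 0 := by
      refine TF_FO a (L * sw g) (up m (l + 1) jf) (a g.castSucc - a jf) z.2 (sub_ne_zero.2 hag) ?_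
      rw [sub_smul, ← hsc, f5, hLg, sub_self]
    have hcen : z.1.2 ∈ CE a (L * sw g) (FO a (L * sw g) (up m (l + 1) jf)) := by
      intro c
      by_cases h1 : c = g.castSucc
      · subst h1; rw [hsc, mul_sw_castSucc, hLg'']
      · by_cases h2 : c = g.succ
        · subst h2
          rw [mul_sw_succ, hLg]
          rw [hsc, hLg, hLg''] at f2
          have : (FO a (L * sw g) (up m (l + 1) jf)).X g.succ z.1.2 =
              (a jf + a g.castSucc) • z.1.2 - a g.castSucc • z.1.2 := by rw [← f2]; abel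
          rw [this]; module
        · rw [mul_sw_other L g c h1 h2]; exact f4 c h1 h2
    obtain ⟨h1, h2⟩ := ih' z.1.2 hcen
    rw [hLg''] at f1
    constructor
    · refine cross_D_eq_zero (O := FO a (L * sw g) (up m (l + 1) jf)) ?_ h1 hz2 ?_
      · rw [f1, map_neg, map_smul, h1, smul_zero, neg_zero]
      · rw [f1, hsc, neg_add_cancel]
    · have hev : evF a L (g :: up m (l + 1) jf) z = -((a g.castSucc - a jf) *
          evF a (L * sw g) (up m (l + 1) jf) z.1.2) := by
        show evF a (L * sw g) (up m (l + 1) jf) z.1.1 + a (L g.castSucc) *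
          evF a (L * sw g) (up m (l + 1) jf) z.1.2 = _
        rw [f1, map_neg, map_smul, hLg, smul_eq_mul]; ring
      rw [hev, dvd_neg]
      have hins : (Finset.univ.filter (fun p : Fin (m + 1) => l ≤ (p : ℕ) ∧ p < jf)) =
          insert g.castSucc (Finset.univ.filter (fun p : Fin (m + 1) => l + 1 ≤ (p : ℕ) ∧ p < jf)) := by
        ext p
        simp only [Finset.mem_filter, Finset.mem_univ, true_and, Finset.mem_insert, Fin.ext_iff,
          Fin.lt_def]
        simp [hg]; omega
      rw [hins, Finset.prod_insert (by simp [hg])]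
      exact mul_dvd_mul_left _ h2

/-- the powers of the mixing letter -/
theorem mixed_word [IsDomain A] (a y : Fin (m + 1) → A) (i : Fin m) (ε : A) (hε : ε ≠ 0)
    (G : List (Fin m)) (Λ : Equiv.Perm (Fin (m + 1)))
    (ha : ε ∣ a (Λ i.castSucc) - a (Λ i.succ)) (hy : ε ∣ y (Λ i.castSucc) - y (Λ i.succ))
    (hright : ∀ z ∈ CE a Λ (FO a Λ G), (FO a Λ G).D y z = 0)
    (hwrong : ∀ z ∈ CE a (Λ * sw i) (FO a Λ G), z = 0) (r : ℕ)
    (L : Equiv.Perm (Fin (m + 1))) (hL : act L (List.replicate r i) = Λ)
    (z : (FO a L (List.replicate r i ++ G)).M)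
    (hz : z ∈ CC a y L (FO a L (List.replicate r i ++ G))) :
    ∃ t ∈ CC a y Λ (FO a Λ G), evF a L (List.replicate r i ++ G) z = ε ^ r * evF a Λ G t := by
  -- labels that occur
  have hgood : ∀ (r : ℕ) (L : Equiv.Perm (Fin (m + 1))), act L (List.replicate r i) = Λ →
      L = Λ ∨ L = Λ * sw i := by
    intro r
    induction r with
    | zero => intro L h; exact Or.inl h
    | succ r ih =>
      intro L h
      rw [List.replicate_succ, act_cons] at h
      rcases ih _ h with h1 | h1
      · right; rw [← h1, mul_assoc, sw_sw, mul_one]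
      · left; rw [← mul_one L, ← sw_sw i, ← mul_assoc, h1, mul_assoc, sw_sw, mul_one]
  have hdiv : ∀ (u : Fin (m + 1) → A), ε ∣ u (Λ i.castSucc) - u (Λ i.succ) →
      ∀ L, (L = Λ ∨ L = Λ * sw i) → ε ∣ u (L i.castSucc) - u (L i.succ) := by
    intro u hu L hL
    rcases hL with rfl | rfl
    · exact hu
    · rw [mul_sw_castSucc, mul_sw_succ, ← neg_sub]; exact (dvd_neg).2 hu
  -- lifting
  have hlift : ∀ (r : ℕ) (L M : Equiv.Perm (Fin (m + 1))), act L (List.replicate r i) = Λ →
      (M = Λ ∨ M = Λ * sw i) → Lift ε a y M (M * sw i) (FO a L (List.replicate r i ++ G)) := by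
    intro r
    induction r with
    | zero =>
      intro L M h hM
      have h' : L = Λ := h
      subst h'
      rcases hM with rfl | rfl
      · intro ξ hξ
        refine ⟨0, zero_mem _, 0, ?_⟩
        have := hright ξ hξ
        show (FO a M G).D y 0 - (FO a M G).D y ξ = ε • 0
        rw [this, map_zero, sub_zero, smul_zero]
      · intro ξ hξ
        have h0 : ξ = 0 := hwrong ξ hξ
        exact ⟨0, zero_mem _, 0, by rw [h0]; simp⟩
    | succ r ih =>
      intro L M h hM
      have h2 := ih (L * sw i) M h hM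
      exact h2.cross (hdiv y hy L (hgood (r + 1) L h)) (hdiv a ha M hM)
  induction r generalizing L with
  | zero =>
    have h' : L = Λ := hL
    subst h'
    exact ⟨z, hz, by simp⟩
  | succ r ih =>
    have hL' : act (L * sw i) (List.replicate r i) = Λ := hL
    have hL2 := hgood (r + 1) L hL
    obtain ⟨t, ht, h1⟩ := mixed (O := FO a (L * sw i) (List.replicate r i ++ G)) hε
      (TF_FO a _ _) (fun t ht => DD_central a y _ _ t ht)
      (hlift r (L * sw i) L hL' hL2) (hdiv a ha L hL2) hz (isEv_evF a y _ _)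
    obtain ⟨t', ht', h2⟩ := ih (L * sw i) hL' t ht
    refine ⟨t', ht', ?_⟩
    have h3 : evF a L (List.replicate (r + 1) i ++ G) z = ε * evF a (L * sw i)
      (List.replicate r i ++ G) t := h1
    rw [h3, h2, pow_succ]; ring

/-- DIVISIBILITY LEMMA. -/
theorem local_main [IsDomain A] (a y : Fin (m + 1) → A) (i : Fin m) (j : Fin (m + 1))
    (hij : (i : ℕ) < j) (r : ℕ) (ε : A) (h0 : a i.castSucc ≠ a j)
    (h1 : ε ∣ a i.castSucc - a j) (h2 : ε ∣ y i.castSucc - y j)
    (h3 : ∀ l : Fin (m + 1), (i : ℕ) < l → l < j → a l ≠ a j)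
    (z : (FO a 1 (down m j (i + 1) ++ List.replicate (2 * r) i ++ up m (i + 1) j)).M)
    (hz : z ∈ CC a y 1 (FO a 1 (down m j (i + 1) ++ List.replicate (2 * r) i ++ up m (i + 1) j))) :
    ε ^ (2 * r) * ∏ l ∈ Finset.univ.filter (fun l : Fin (m + 1) => (i : ℕ) < l ∧ l < j),
      (a l - a j) ∣ evF a 1 (down m j (i + 1) ++ List.replicate (2 * r) i ++ up m (i + 1) j) z := by
  have hε : ε ≠ 0 := by
    rintro rfl
    exact h0 (sub_eq_zero.1 (zero_dvd_iff.1 h1))
  have hjm := j.2
  have hlet : ∀ g' ∈ up m (i + 1) j, i.castSucc ≠ g'.castSucc ∧ i.castSucc ≠ g'.succ := by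
    intro g' hg'
    rw [mem_up] at hg'
    constructor
    · intro h; have := congrArg Fin.val h; simp at this; omega
    · intro h; have := congrArg Fin.val h; simp at this; omega
  have key : ∀ Λ : Equiv.Perm (Fin (m + 1)), Λ i.succ = j → Λ i.castSucc = i.castSucc →
      (∀ p : Fin (m + 1), (i : ℕ) + 1 < (p : ℕ) → p ≤ j → ((Λ p : Fin (m + 1)) : ℕ) = p - 1) →
      ∀ z1 ∈ CC a y Λ (FO a Λ (List.replicate (2 * r) i ++ up m (i + 1) j)),
      ε ^ (2 * r) * ∏ l ∈ Finset.univ.filter (fun l : Fin (m + 1) => (i : ℕ) < l ∧ l < j),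
        (a l - a j) ∣ evF a Λ (List.replicate (2 * r) i ++ up m (i + 1) j) z1 := by
    intro Λ hΛs hΛc g3 z1 hz1
    have hrep : act Λ (List.replicate (2 * r) i) = Λ := by
      have : ∀ r, act Λ (List.replicate (2 * r) i) = Λ := by
        intro r
        induction r with
        | zero => rfl
        | succ r ih =>
          rw [show 2 * (r + 1) = (2 * r + 1) + 1 by ring, List.replicate_succ, List.replicate_succ,
            act_cons, act_cons, mul_assoc, sw_sw, mul_one, ih]
      exact this r
    have hbr := base_right a y j (j - (i + 1)) (i + 1) (by omega) Λ hΛs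
      g3 (fun p hp hp' => h3 p (by omega) hp')
    obtain ⟨t, ht, e2⟩ := mixed_word a y i ε hε (up m (i + 1) j) Λ
      (by rw [hΛs, hΛc]; exact h1) (by rw [hΛs, hΛc]; exact h2)
      (fun z hz => (hbr z hz).1) (by
        intro z hz
        have hs := X_scalar Λ (up m (i + 1) j) (fun c => a (act Λ (up m (i + 1) j) c)) i.castSucc
          hlet z
        have hs' : a (act Λ (up m (i + 1) j) i.castSucc) = a i.castSucc := by
          rw [act_fix _ _ _ hlet, hΛc]
        have hs2 := hz i.castSucc
        rw [mul_sw_castSucc, hΛs] at hs2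
        refine TF_FO a Λ (up m (i + 1) j) (a i.castSucc - a j) z (sub_ne_zero.2 h0) ?_
        rw [sub_smul, ← hs2, sub_eq_zero, ← hs']
        exact hs.symm) (2 * r) Λ hrep z1 hz1
    rw [e2]
    refine mul_dvd_mul_left _ ?_
    have h5 := (hbr t ht.1).2
    exact h5
  revert z
  rw [List.append_assoc]
  intro z hz
  obtain ⟨z1, hz1, e1⟩ := peel_word a y 1 (down m j (i + 1)) _ z hz
  obtain ⟨g1, g2, g3⟩ := down_labels (m := m) (j := j) (by omega) (j - (i + 1)) (i + 1) (by omega)
  rw [e1]
  exact key _ g1 (g2 _ (by simp)) g3 z1 hz1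

end Pool.Agent.H.MP_c30e5d_gt
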