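import Pool.Agent.H.MP_c30e5d_gt.Words
import Pool.Agent.H.MP_c30e5d_gt.LocalB

/-!
# The ideal of evaluations and its localisations
-/

namespace Pool.Agent.H.MP_c30e5d_gt

variable {A : Type} [CommRing A] {m : ℕ}

/-- the elements `g` such that `c * g` is the evaluation of a central cycle -/
def evId (x y : Fin (m + 1) → A) (w : List (Fin m)) (c : A) : Ideal A where
  carrier := {g | ∃ z ∈ CC x y 1 (FO x 1 w), evF x 1 w z = c * g}
  add_mem' := by
    rintro a b ⟨z, hz, h1⟩ ⟨z', hz', h2⟩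
    exact ⟨z + z', add_mem hz hz', by rw [map_add, h1, h2]; ring⟩
  zero_mem' := ⟨0, zero_mem _, by simp⟩
  smul_mem' := by
    rintro c' a ⟨z, hz, h1⟩
    exact ⟨c' • z, Submodule.smul_mem _ _ hz, by
      rw [map_smul, h1, smul_eq_mul, smul_eq_mul]; ring⟩

theorem mem_evId {x y : Fin (m + 1) → A} {w : List (Fin m)} {c g : A} :
    g ∈ evId x y w c ↔ ∃ z ∈ CC x y 1 (FO x 1 w), evF x 1 w z = c * g := Iff.rfl

theorem fin_del1 [IsDomain A] {x y : Fin (m + 1) → A} (hx : Function.Injective x)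
    (hy : Function.Injective y) {w w' : List (Fin m)} {S : Multiset (Sym2 (Fin (m + 1)))}
    (h : Del 1 w w' S) (z : (FO x 1 w).M) (hz : z ∈ CC x y 1 (FO x 1 w)) :
    ∃ z' ∈ CC x y 1 (FO x 1 w'), evF x 1 w z = (S.map (dif x)).prod * evF x 1 w' z' := by
  have h1 := del1 hx hy h
  rw [FP_eq, FP_eq] at h1
  exact h1 z hz

theorem fin_del2 [IsDomain A] {x y : Fin (m + 1) → A} (hx : Function.Injective x)
    (hy : Function.Injective y) {w : List (Fin m)} {S : Multiset (Sym2 (Fin (m + 1)))}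
    (h : Del 1 w [] S) (z : (FO x 1 w).M) (hz : z ∈ CC x y 1 (FO x 1 w))
    (he : evF x 1 w z = 0) :
    ∃ t ∈ CE x 1 (FO x 1 w), (S.map (dif y)).prod • z = (FO x 1 w).D y t := by
  have h1 := del2 hx hy h rfl
  rw [FP_eq] at h1
  exact h1 z hz he

theorem fin_del3 {x y : Fin (m + 1) → A} {w : List (Fin m)}
    {S : Multiset (Sym2 (Fin (m + 1)))} (h : Del 1 w [] S) (g : A)
    (hg : g ∈ (S.map fun s => Ideal.span {dif x s, dif y s}).prod) :
    ∃ z ∈ CC x y 1 (FO x 1 w), evF x 1 w z = (S.map (dif x)).prod * g := by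
  have h1 := del3 (x := x) (y := y) h
  rw [FP_eq, FP_eq] at h1
  have h2 : (1 : A) ∈ CC x y 1 (FO x 1 ([] : List (Fin m))) := by
    refine ⟨fun j => ?_, rfl⟩
    show x (act 1 [] j) * 1 = x ((1 : Equiv.Perm (Fin (m + 1))) j) * 1
    rfl
  obtain ⟨z, hz, h3⟩ := h1 (1 : A) h2 g hg
  refine ⟨z, hz, ?_⟩
  have h4 : evF x 1 ([] : List (Fin m)) (1 : A) = 1 := rfl
  change evF x 1 w z = _ * evF x 1 ([] : List (Fin m)) (1 : A) at h3
  rw [h3, h4, mul_one]

theorem dif_of_lt (x : Fin (m + 1) → A) {a b : Fin (m + 1)} (h : a < b) :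
    dif x s(a, b) = x a - x b := by
  simp [dif, h.le]

theorem SB_mem {b : ℕ → ℕ} {s : Sym2 (Fin (m + 1))} (h : s ∈ SB m b) :
    ∃ l j : Fin (m + 1), l < j ∧ s = s(l, j) := by
  rw [SB, Multiset.mem_sum] at h
  obtain ⟨j, -, hj⟩ := h
  have h2 := Multiset.mem_of_mem_nsmul hj
  rw [Multiset.mem_map] at h2
  obtain ⟨l, hl, rfl⟩ := h2
  rw [Finset.mem_val, Finset.mem_filter] at hl
  exact ⟨l, j, hl.2, rfl⟩

theorem SB_ne_zero [IsDomain A] {x : Fin (m + 1) → A} (hx : Function.Injective x) (b : ℕ → ℕ) :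
    ((SB m b).map (dif x)).prod ≠ 0 := by
  refine Multiset.prod_ne_zero fun h => ?_
  obtain ⟨s, hs, h0⟩ := Multiset.mem_map.1 h
  obtain ⟨l, j, hlj, rfl⟩ := SB_mem hs
  exact dif_ne_zero hx hlj.ne h0

/-- Divisibility of the elements of the ideal after a specialisation. -/
theorem fin_T1 [IsDomain A] {x y : Fin (m + 1) → A} (hx : Function.Injective x)
    (hy : Function.Injective y) (b : ℕ → ℕ) {B : Type} [CommRing B] [IsDomain B] (θ : A →+* B)
    (i j : Fin (m + 1)) (ε u : B) (hij : i < j) (hu : IsUnit u)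
    (h1 : θ (x i) - θ (x j) = u * ε) (h2 : θ (x i) ≠ θ (x j)) (h3 : ε ∣ θ (y i) - θ (y j))
    (h4 : ∀ l, i < l → l < j → θ (x l) ≠ θ (x j)) (g : A)
    (hg : g ∈ evId x y (jmWord m b) ((SB m b).map (dif x)).prod) :
    ε ^ b j ∣ θ g := by
  rcases Nat.eq_zero_or_pos (b j) with hb | hb
  · rw [hb, pow_zero]; exact one_dvd _
  obtain ⟨i, rfl⟩ : ∃ i' : Fin m, i = i'.castSucc :=
    ⟨⟨i, by have := j.2; have : (i : ℕ) < j := hij; omega⟩, rfl⟩
  have hij' : (i : ℕ) < j := hij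
  obtain ⟨S', hD, hS⟩ := jmWord_del_edge m b i j hij' hb
  obtain ⟨z, hz, hzg⟩ := hg
  obtain ⟨z', hz', hzz⟩ := fin_del1 hx hy hD z hz
  have hS2 : ((SB m b).map (dif x)).prod = (S'.map (dif x)).prod *
      ((x i.castSucc - x j) ^ b j * ∏ l ∈ Finset.univ.filter
        (fun l : Fin (m + 1) => (i : ℕ) < l ∧ l < j), (x l - x j)) := by
    rw [← hS, Multiset.map_add, Multiset.map_add, Multiset.prod_add, Multiset.prod_add,
      Multiset.map_nsmul, Multiset.prod_nsmul, Multiset.map_singleton, Multiset.prod_singleton,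
      dif_of_lt x hij, Multiset.map_map, mul_assoc]
    congr 2
    show (Multiset.map _ _).prod = (Multiset.map _ _).prod
    congr 1
    refine Multiset.map_congr rfl fun l hl => ?_
    rw [Finset.mem_val, Finset.mem_filter] at hl
    exact dif_of_lt x hl.2.2
  have hS0 : (S'.map (dif x)).prod ≠ 0 := by
    intro h0
    exact SB_ne_zero hx b (by rw [hS2, h0, zero_mul])
  have hz3 : (x i.castSucc - x j) ^ b j * (∏ l ∈ Finset.univ.filter
        (fun l : Fin (m + 1) => (i : ℕ) < l ∧ l < j), (x l - x j)) * g =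
      evF x 1 (down m j (i + 1) ++ List.replicate (2 * b j) i ++ up m (i + 1) j) z' := by
    refine mul_left_cancel₀ hS0 ?_
    rw [← hzz, hzg, hS2]; ring
  -- specialise
  have hev := evF_map θ x 1 (down m j (i + 1) ++ List.replicate (2 * b j) i ++ up m (i + 1) j) z'
  have hcc := FOmap_CC θ x y 1 _ z' hz'
  have hl := local_main (fun l => θ (x l)) (fun l => θ (y l)) i j hij' (b j) ε h2
    (by rw [h1]; exact dvd_mul_left _ _) h3
    (fun l hl1 hl2 => h4 l hl1 hl2) _ hcc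
  rw [hev, ← hz3, map_mul, map_mul, map_pow, map_sub, map_prod] at hl
  have hP : (∏ l ∈ Finset.univ.filter (fun l : Fin (m + 1) => (i : ℕ) < l ∧ l < j),
      θ (x l - x j)) = ∏ l ∈ Finset.univ.filter (fun l : Fin (m + 1) => (i : ℕ) < l ∧ l < j),
      (θ (x l) - θ (x j)) := Finset.prod_congr rfl fun l _ => map_sub _ _ _
  rw [hP, h1] at hl
  have hP0 : (∏ l ∈ Finset.univ.filter (fun l : Fin (m + 1) => (i : ℕ) < l ∧ l < j),
      (θ (x l) - θ (x j))) ≠ 0 := by
    refine Finset.prod_ne_zero_iff.2 fun l hl => sub_ne_zero.2 ?_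
    exact h4 l (Finset.mem_filter.1 hl).2.1 (Finset.mem_filter.1 hl).2.2
  have hε : ε ≠ 0 := by
    rintro rfl
    rw [mul_zero] at h1
    exact h2 (sub_eq_zero.1 h1)
  generalize (∏ l ∈ Finset.univ.filter (fun l : Fin (m + 1) => (i : ℕ) < l ∧ l < j),
      (θ (x l) - θ (x j))) = Q at hl hP0
  obtain ⟨t, ht⟩ := hl
  have h5 : ε ^ b j * (u ^ b j * θ g) = ε ^ b j * (ε ^ b j * t) := by
    refine mul_right_cancel₀ hP0 ?_
    rw [two_mul, pow_add, mul_pow] at ht
    linear_combination ht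
  have h6 := mul_left_cancel₀ (pow_ne_zero _ hε) h5
  have h7 : ε ^ b j ∣ u ^ b j * θ g := ⟨t, h6⟩
  exact ((hu.pow (b j)).dvd_mul_left).1 h7

/-- product over the multiset of the deleted pairs -/
theorem SB_prod {M : Type} [CommMonoid M] (b : ℕ → ℕ) (F : Sym2 (Fin (m + 1)) → M) :
    ((SB m b).map F).prod =
      ∏ p : {p : Fin (m + 1) × Fin (m + 1) // p.1 < p.2}, F s(p.1.1, p.1.2) ^ b p.1.2 := by
  have h1 : ((SB m b).map F).prod = ∏ j : Fin (m + 1), ∏ l ∈ Finset.univ.filter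
      (fun l : Fin (m + 1) => l < j), F s(l, j) ^ b j := by
    have h0 : (SB m b).map F = ∑ j : Fin (m + 1), (b j • ((Finset.univ.filter
        fun l : Fin (m + 1) => l < j).val.map fun l => s(l, j))).map F :=
      map_sum (Multiset.mapAddMonoidHom F) _ _
    rw [h0, Multiset.prod_sum]
    refine Finset.prod_congr rfl fun j _ => ?_
    rw [Multiset.map_nsmul, Multiset.prod_nsmul, Multiset.map_map]
    exact (Finset.prod_pow (Finset.univ.filter fun l : Fin (m + 1) => l < j) (b j)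
      (fun l => F s(l, j))).symm
  rw [h1]
  have h2 : ∀ j : Fin (m + 1), (∏ l ∈ Finset.univ.filter
      (fun l : Fin (m + 1) => l < j), F s(l, j) ^ b j) =
      ∏ l : Fin (m + 1), (if l < j then F s(l, j) ^ b j else 1) := fun j =>
    Finset.prod_filter (fun l : Fin (m + 1) => l < j) (fun l => F s(l, j) ^ b j)
  rw [Finset.prod_congr rfl fun j _ => h2 j, Finset.prod_comm,
    ← Finset.prod_product' (f := fun l j : Fin (m + 1) => if l < j then F s(l, j) ^ b j else 1),
    Finset.univ_product_univ, ← Finset.prod_filter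
      (fun p : Fin (m + 1) × Fin (m + 1) => p.1 < p.2) (fun p => F s(p.1, p.2) ^ b p.2)]
  exact Finset.prod_subtype _ (fun p => by simp) _

end Pool.Agent.H.MP_c30e5d_gt
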