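import Pool.Agent.H.MP_c30e5d_gt.Obj

/-!
# The homological grading of the explicit model
-/

namespace Pool.Agent.H.MP_c30e5d_gt

/-- The grading properties of an object with degrees `0, …, n`. -/
structure GradedGr {A : Type} [CommRing A] {m : ℕ} (n : ℕ) (O : Obj A m) : Prop where
  pX : ∀ e j z, O.pr e (O.X j z) = O.X j (O.pr e z)
  pp : ∀ e z, O.pr e (O.pr e z) = O.pr e z
  pq : ∀ e e' z, e ≠ e' → O.pr e (O.pr e' z) = 0
  ps : ∀ z, ∑ e ∈ Finset.range (n + 1), O.pr e z = z
  pD : ∀ e z, O.pr (e + 1) (O.D 0 z) = O.D 0 (O.pr e z)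
  p0 : ∀ z, O.pr 0 (O.D 0 z) = 0
  pY : ∀ y e z, O.pr e (O.D y z - O.D 0 z) = O.D y (O.pr (e + 1) z) - O.D 0 (O.pr (e + 1) z)

theorem graded_top {A : Type} [CommRing A] {m : ℕ} {n : ℕ} {O : Obj A m}
    (h : GradedGr n O) (z : O.M) : O.pr (n + 1) z = 0 := by
  have h1 : O.pr (n + 1) z = O.pr (n + 1) (∑ e ∈ Finset.range (n + 1), O.pr e z) := by
    rw [h.ps z]
  rw [h1, map_sum]
  refine Finset.sum_eq_zero fun e he => h.pq _ _ _ ?_
  have := Finset.mem_range.mp he
  omega

theorem graded_zeroY {A : Type} [CommRing A] {m : ℕ} {n : ℕ} {O : Obj A m}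
    (h : GradedGr n O) (y : Fin (m + 1) → A) (z : O.M) :
    O.D y (O.pr 0 z) - O.D 0 (O.pr 0 z) = 0 := by
  have h1 := h.ps (O.D y (O.pr 0 z) - O.D 0 (O.pr 0 z))
  rw [← h1]
  refine Finset.sum_eq_zero fun e _ => ?_
  rw [h.pY, h.pq (e + 1) 0 z (by omega)]
  simp

theorem graded_BX {A : Type} [CommRing A] {m : ℕ} {n : ℕ} {O : Obj A m}
    (h : GradedGr n O) (i : Fin m) (e : ℕ) (j : Fin (m + 1)) (z : O.M × O.M) :
    (O.pr e (BX O i j z).1, O.pr e (BX O i j z).2) = BX O i j (O.pr e z.1, O.pr e z.2) := by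
  by_cases h1 : j = i.castSucc
  · subst h1
    simp [h.pX]
  · by_cases h2 : j = i.succ
    · subst h2
      simp [h.pX]
    · simp [BX_other O i j h1 h2, h.pX]

theorem graded_base {A : Type} [CommRing A] {m : ℕ} (ρ : Fin (m + 1) → A) :
    GradedGr 0 (Obj.base ρ : Obj A m) := by
  have h0 : ∀ z : A, (Obj.base ρ : Obj A m).pr 0 z = z := fun z => rfl
  have h1 : ∀ (e : ℕ) (z : A), e ≠ 0 → (Obj.base ρ : Obj A m).pr e z = 0 := by
    intro e z he
    show (if e = 0 then (LinearMap.id : A →ₗ[A] A) else 0) z = 0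
    rw [if_neg he]
    rfl
  have hD : ∀ (y : Fin (m + 1) → A) (z : A), (Obj.base ρ : Obj A m).D y z = 0 := fun _ _ => rfl
  refine ⟨?_, ?_, ?_, ?_, ?_, ?_, ?_⟩
  · intro e j z
    change A at z
    rcases Nat.eq_zero_or_pos e with he | he
    · subst he; rfl
    · have e1 := h1 e ((Obj.base ρ : Obj A m).X j z) he.ne'
      have e2 := h1 e z he.ne'
      rw [e1, e2, map_zero]
  · intro e z
    change A at z
    rcases Nat.eq_zero_or_pos e with he | he
    · subst he; rfl
    · have e2 := h1 e z he.ne'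
      rw [e2, map_zero]
  · intro e e' z hne
    change A at z
    rcases Nat.eq_zero_or_pos e with he | he
    · have he' : e' ≠ 0 := by omega
      have e2 := h1 e' z he'
      rw [e2, map_zero]
    · exact h1 e _ he.ne'
  · intro z
    change A at z
    rw [Finset.sum_range_one]
    rfl
  · intro e z
    change A at z
    rw [hD 0 z, map_zero]
    exact (hD 0 _).symm
  · intro z
    change A at z
    rw [hD 0 z, map_zero]
  · intro y e z
    change A at z
    have e1 := hD y z
    have e2 := hD 0 z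
    have e3 := hD y ((Obj.base ρ : Obj A m).pr (e + 1) z)
    have e4 := hD 0 ((Obj.base ρ : Obj A m).pr (e + 1) z)
    rw [e1, e2, e3, e4, sub_zero, map_zero]

theorem graded_cross {A : Type} [CommRing A] {m : ℕ} {n : ℕ} {O : Obj A m}
    (h : GradedGr n O) (i : Fin m) (p q : Fin (m + 1)) :
    GradedGr (n + 1) (cross i p q O) := by
  refine ⟨?_, ?_, ?_, ?_, ?_, ?_, ?_⟩
  · intro e j z
    change (O.M × O.M) × O.M at z
    cases e with
    | zero =>
      rw [cross_X, cross_pr_zero, cross_pr_zero, cross_X]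
      refine Prod.ext ?_ ?_
      · exact graded_BX h i 0 j z.1
      · exact (map_zero (O.X j)).symm
    | succ e =>
      rw [cross_X, cross_pr_succ, cross_pr_succ, cross_X]
      refine Prod.ext ?_ ?_
      · exact graded_BX h i (e + 1) j z.1
      · exact h.pX e j z.2
  · intro e z
    change (O.M × O.M) × O.M at z
    cases e with
    | zero => rw [cross_pr_zero, cross_pr_zero, h.pp, h.pp]
    | succ e => rw [cross_pr_succ, cross_pr_succ, h.pp, h.pp, h.pp]
  · intro e e' z hne
    change (O.M × O.M) × O.M at z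
    cases e with
    | zero =>
      cases e' with
      | zero => exact absurd rfl hne
      | succ e' =>
        rw [cross_pr_succ, cross_pr_zero, h.pq _ _ _ (by omega), h.pq _ _ _ (by omega)]
        rfl
    | succ e =>
      cases e' with
      | zero =>
        rw [cross_pr_zero, cross_pr_succ, h.pq _ _ _ (by omega), h.pq _ _ _ (by omega), map_zero]
        rfl
      | succ e' =>
        rw [cross_pr_succ, cross_pr_succ, h.pq _ _ _ (by omega), h.pq _ _ _ (by omega),
          h.pq _ _ _ (by omega)]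
        rfl
  · intro z
    change (O.M × O.M) × O.M at z
    rw [Finset.sum_range_succ']
    have hs : ∀ f : ℕ → O.M, ∀ x : O.M, (∀ e, f e = O.pr (e + 1) x) →
        ∑ e ∈ Finset.range (n + 1), f e = x - O.pr 0 x := by
      intro f x hf
      have h1 : ∑ e ∈ Finset.range (n + 1 + 1), O.pr e x = x := by
        rw [Finset.sum_range_succ, h.ps, graded_top h, add_zero]
      rw [Finset.sum_range_succ'] at h1
      rw [Finset.sum_congr rfl fun e _ => hf e]
      exact eq_sub_of_add_eq h1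
    have e0 : ∀ f : ℕ → (O.M × O.M) × O.M,
        ∑ e ∈ Finset.range (n + 1), f e =
          ((∑ e ∈ Finset.range (n + 1), (f e).1.1, ∑ e ∈ Finset.range (n + 1), (f e).1.2),
            ∑ e ∈ Finset.range (n + 1), (f e).2) := by
      intro f
      refine Prod.ext (Prod.ext ?_ ?_) ?_
      · rw [Prod.fst_sum, Prod.fst_sum]
      · rw [Prod.fst_sum, Prod.snd_sum]
      · rw [Prod.snd_sum]
    have e1 := e0 (fun e => (cross i p q O).pr (e + 1) z)
    have e2 : (∑ e ∈ Finset.range (n + 1), (cross i p q O).pr (e + 1) z) =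
        ((z.1.1 - O.pr 0 z.1.1, z.1.2 - O.pr 0 z.1.2), z.2) := by
      refine e1.trans ?_
      refine Prod.ext (Prod.ext ?_ ?_) ?_
      · exact hs _ z.1.1 fun e => rfl
      · exact hs _ z.1.2 fun e => rfl
      · exact h.ps z.2
    rw [e2, cross_pr_zero]
    refine Prod.ext (Prod.ext ?_ ?_) ?_
    · exact sub_add_cancel _ _
    · exact sub_add_cancel _ _
    · exact add_zero _
  · intro e z
    change (O.M × O.M) × O.M at z
    cases e with
    | zero =>
      rw [cross_D, cross_pr_succ, cross_pr_zero, cross_D]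
      refine Prod.ext (Prod.ext ?_ ?_) ?_
      · simp [h.pD]
      · simp [h.pD]
      · simp [h.p0, h.pX]
    | succ e =>
      rw [cross_D, cross_pr_succ, cross_pr_succ, cross_D]
      refine Prod.ext (Prod.ext ?_ ?_) ?_
      · simp [h.pD]
      · simp [h.pD]
      · simp [h.pD, h.pX]
  · intro z
    change (O.M × O.M) × O.M at z
    rw [cross_D, cross_pr_zero]
    refine Prod.ext (Prod.ext ?_ ?_) ?_
    · simp only [Pi.zero_apply, sub_self, zero_smul, sub_zero, h.p0]; rfl
    · simp only [Pi.zero_apply, sub_self, zero_smul, add_zero, h.p0]; rfl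
    · rfl
  · intro y e z
    change (O.M × O.M) × O.M at z
    have hY : ∀ (e : ℕ) (x : O.M), O.pr e (O.D y x) - O.pr e (O.D 0 x) =
        O.D y (O.pr (e + 1) x) - O.D 0 (O.pr (e + 1) x) := by
      intro e x
      rw [← map_sub, h.pY]
    have hz : O.D y (O.pr 0 z.2) = O.D 0 (O.pr 0 z.2) := sub_eq_zero.mp (graded_zeroY h y z.2)
    have hd : (cross i p q O).D y z - (cross i p q O).D 0 z =
        (((O.D y z.1.1 - O.D 0 z.1.1) - (y p - y q) • O.X i.succ z.2,
          (O.D y z.1.2 - O.D 0 z.1.2) + (y p - y q) • z.2),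
          -(O.D y z.2 - O.D 0 z.2)) := by
      rw [cross_D, cross_D]
      refine Prod.ext (Prod.ext ?_ ?_) ?_
      · show (O.D y z.1.1 - (y p - y q) • O.X i.succ z.2) -
          (O.D 0 z.1.1 - ((0 : Fin (m + 1) → A) p - (0 : Fin (m + 1) → A) q) • O.X i.succ z.2) = _
        simp only [Pi.zero_apply, sub_self, zero_smul, sub_zero]
        abel
      · show (O.D y z.1.2 + (y p - y q) • z.2) -
          (O.D 0 z.1.2 + ((0 : Fin (m + 1) → A) p - (0 : Fin (m + 1) → A) q) • z.2) = _
        simp only [Pi.zero_apply, sub_self, zero_smul, add_zero]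
        abel
      · show (z.1.1 + O.X i.castSucc z.1.2 - O.D y z.2) -
          (z.1.1 + O.X i.castSucc z.1.2 - O.D 0 z.2) = -(O.D y z.2 - O.D 0 z.2)
        rw [sub_sub_sub_cancel_left, neg_sub]
    have hr : (cross i p q O).D y ((cross i p q O).pr (e + 1) z) -
        (cross i p q O).D 0 ((cross i p q O).pr (e + 1) z) =
        (((O.D y (O.pr (e + 1) z.1.1) - O.D 0 (O.pr (e + 1) z.1.1)) -
            (y p - y q) • O.X i.succ (O.pr e z.2),
          (O.D y (O.pr (e + 1) z.1.2) - O.D 0 (O.pr (e + 1) z.1.2)) + (y p - y q) • O.pr e z.2),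
          -(O.D y (O.pr e z.2) - O.D 0 (O.pr e z.2))) := by
      rw [cross_pr_succ, cross_D, cross_D]
      refine Prod.ext (Prod.ext ?_ ?_) ?_
      · show (O.D y (O.pr (e + 1) z.1.1) - (y p - y q) • O.X i.succ (O.pr e z.2)) -
          (O.D 0 (O.pr (e + 1) z.1.1) -
            ((0 : Fin (m + 1) → A) p - (0 : Fin (m + 1) → A) q) • O.X i.succ (O.pr e z.2)) = _
        simp only [Pi.zero_apply, sub_self, zero_smul, sub_zero]
        abel
      · show (O.D y (O.pr (e + 1) z.1.2) + (y p - y q) • O.pr e z.2) -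
          (O.D 0 (O.pr (e + 1) z.1.2) +
            ((0 : Fin (m + 1) → A) p - (0 : Fin (m + 1) → A) q) • O.pr e z.2) = _
        simp only [Pi.zero_apply, sub_self, zero_smul, add_zero]
        abel
      · show (O.pr (e + 1) z.1.1 + O.X i.castSucc (O.pr (e + 1) z.1.2) - O.D y (O.pr e z.2)) -
          (O.pr (e + 1) z.1.1 + O.X i.castSucc (O.pr (e + 1) z.1.2) - O.D 0 (O.pr e z.2)) =
          -(O.D y (O.pr e z.2) - O.D 0 (O.pr e z.2))
        rw [sub_sub_sub_cancel_left, neg_sub]
    rw [hd, hr]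
    cases e with
    | zero =>
      rw [cross_pr_zero]
      refine Prod.ext (Prod.ext ?_ ?_) ?_
      · simp only [map_sub, map_smul, h.pX, hY]
      · simp only [map_sub, map_add, map_smul, hY]
      · show (0 : O.M) = -(O.D y (O.pr 0 z.2) - O.D 0 (O.pr 0 z.2))
        rw [hz, sub_self, neg_zero]
    | succ e =>
      rw [cross_pr_succ]
      refine Prod.ext (Prod.ext ?_ ?_) ?_
      · simp only [map_sub, map_smul, h.pX, hY]
      · simp only [map_sub, map_add, map_smul, hY]
      · simp only [map_neg, map_sub, hY]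

theorem graded_all {A : Type} [CommRing A] {m : ℕ} (L : Equiv.Perm (Fin (m + 1)))
    (w : List (Fin m)) (ρ : Fin (m + 1) → A) : GradedGr w.length (Fw L w (Obj.base ρ)) := by
  induction w generalizing L with
  | nil => exact graded_base ρ
  | cons i w ih => exact graded_cross (ih (L * sw i)) i _ _

/-- The gradings of the explicit model.  All are proved by induction on the word. -/
theorem graded {A : Type} [CommRing A] {m : ℕ} (L : Equiv.Perm (Fin (m + 1)))
    (w : List (Fin m)) (ρ : Fin (m + 1) → A) :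
    (∀ e j z, (Fw L w (Obj.base ρ)).pr e ((Fw L w (Obj.base ρ)).X j z) =
      (Fw L w (Obj.base ρ)).X j ((Fw L w (Obj.base ρ)).pr e z)) ∧
    (∀ e z, (Fw L w (Obj.base ρ)).pr e ((Fw L w (Obj.base ρ)).pr e z) =
      (Fw L w (Obj.base ρ)).pr e z) ∧
    (∀ e e' z, e ≠ e' →
      (Fw L w (Obj.base ρ)).pr e ((Fw L w (Obj.base ρ)).pr e' z) = 0) ∧
    (∀ z, ∑ e ∈ Finset.range (w.length + 1), (Fw L w (Obj.base ρ)).pr e z = z) ∧
    (∀ e z, (Fw L w (Obj.base ρ)).pr (e + 1) ((Fw L w (Obj.base ρ)).D 0 z) =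
      (Fw L w (Obj.base ρ)).D 0 ((Fw L w (Obj.base ρ)).pr e z)) ∧
    (∀ z, (Fw L w (Obj.base ρ)).pr 0 ((Fw L w (Obj.base ρ)).D 0 z) = 0) ∧
    (∀ y e z, (Fw L w (Obj.base ρ)).pr e
        ((Fw L w (Obj.base ρ)).D y z - (Fw L w (Obj.base ρ)).D 0 z) =
      (Fw L w (Obj.base ρ)).D y ((Fw L w (Obj.base ρ)).pr (e + 1) z) -
        (Fw L w (Obj.base ρ)).D 0 ((Fw L w (Obj.base ρ)).pr (e + 1) z)) := by
  have h := graded_all L w ρ
  exact ⟨h.pX, h.pp, h.pq, h.ps, h.pD, h.p0, h.pY⟩

end Pool.Agent.H.MP_c30e5d_gt
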