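import Pool.Agent.H.MP_c30e5d_gt.Defs

/-!
# The top Hochschild degree: `HH_n` of a bimodule is the space of its central elements
-/

namespace Pool.Agent.H.MP_c30e5d_gt

open MvPolynomial TensorProduct

variable {k : Type} [Field k] {m : ℕ}

theorem top_card {S : Finset (Fin (m + 1))} (h : S.card = m + 1) : S = Finset.univ := by
  rw [← Finset.card_eq_iff_eq_univ, h, Fintype.card_fin]

/-- In Koszul degree `m + 1` a chain is concentrated on `S = univ`, it is a Koszul cycle iff its
value `z` there is central (`x_j z = z x_j` for all `j`: look at `S = univ.erase j`), and there are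
no boundaries (no subsets with `m + 2` elements).  So a central `z` of homological degree `e`,
`d z = 0`, not of the form `d z'` with `z'` central of homological degree `e - 1`, gives a nonzero
class. -/
theorem nontrivial_top (C : BimComplex k m) (e : ℕ) (z : C.M)
    (hc : ∀ j, (X j : RR k m) • z = C.rmul j z) (he : C.pr e z = z) (hd : C.d z = 0)
    (hb : ∀ z', (∀ j, (X j : RR k m) • z' = C.rmul j z') →
      (∃ e', e = e' + 1 ∧ C.pr e' z' = z') → C.d z' ≠ z) (h0 : z ≠ 0) :
    Nontrivial (C.HHHof (m + 1) e) := by
  classical
  let c : C.Kos := fun S => if S = Finset.univ then z else 0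
  have c1 : c Finset.univ = z := if_pos rfl
  have c0 : ∀ S, S ≠ Finset.univ → c S = 0 := fun S hS => if_neg hS
  have hcZ : c ∈ C.hhhZ (m + 1) e := by
    refine ⟨⟨⟨?_, ?_⟩, ?_⟩, ?_⟩
    · rw [SetLike.mem_coe, LinearMap.mem_ker]
      funext S
      show ∑ j ∈ Sᶜ, (-1 : ℤ) ^ (S.filter (· < j)).card •
        ((X j : RR k m) • c (insert j S) - C.rmul j (c (insert j S))) = 0
      refine Finset.sum_eq_zero fun j _ => ?_
      by_cases h : insert j S = Finset.univ
      · rw [h, c1, hc j, sub_self, smul_zero]
      · rw [c0 _ h, smul_zero, map_zero, sub_self, smul_zero]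
    · intro S hS
      refine c0 S fun h => hS ?_
      rw [h, Finset.card_univ, Fintype.card_fin]
    · intro S
      by_cases h : S = Finset.univ
      · rw [h, c1, he]
      · rw [c0 S h, map_zero]
    · have h1 : C.kosd c = 0 := by
        funext S
        show C.d (c S) = 0
        by_cases h : S = Finset.univ
        · rw [h, c1, hd]
        · rw [c0 S h, map_zero]
      rw [SetLike.mem_coe, Submodule.mem_comap, h1]
      exact Submodule.zero_mem _
  have hcB : c ∉ C.hhhB (m + 1) e := by
    intro h
    obtain ⟨u, hu, v, hv, huv⟩ := Submodule.mem_sup.1 h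
    obtain ⟨c', hc', rfl⟩ := hu
    obtain ⟨b, hb', rfl⟩ := hv
    have hb0 : b = 0 := by
      funext S
      refine hb' S fun h => ?_
      have h2 := Finset.card_le_univ S
      rw [Fintype.card_fin] at h2
      omega
    rw [hb0, map_zero, add_zero] at huv
    have hz : C.d (c' Finset.univ) = z := by
      have h3 := congrFun huv Finset.univ
      rw [c1] at h3
      exact h3
    obtain ⟨⟨h4, -⟩, h5⟩ := hc'
    rw [SetLike.mem_coe, LinearMap.mem_ker] at h4
    refine hb (c' Finset.univ) (fun j => ?_) ?_ hz
    · have h6 := congrFun h4 (Finset.univ.erase j)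
      have h7 : (Finset.univ.erase j : Finset (Fin (m + 1)))ᶜ = {j} := by
        ext i
        simp
      have h8 : insert j (Finset.univ.erase j) = (Finset.univ : Finset (Fin (m + 1))) :=
        Finset.insert_erase (Finset.mem_univ j)
      have h9 : ∑ i ∈ (Finset.univ.erase j : Finset (Fin (m + 1)))ᶜ,
          (-1 : ℤ) ^ ((Finset.univ.erase j).filter (· < i)).card •
          ((X i : RR k m) • c' (insert i (Finset.univ.erase j)) -
            C.rmul i (c' (insert i (Finset.univ.erase j)))) = 0 := h6
      rw [h7, Finset.sum_singleton, h8] at h9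
      rcases neg_one_pow_eq_or ℤ
        ((Finset.univ.erase j : Finset (Fin (m + 1))).filter (· < j)).card with h | h
      · rw [h, one_smul] at h9
        exact sub_eq_zero.1 h9
      · rw [h, neg_smul, one_smul, neg_eq_zero] at h9
        exact sub_eq_zero.1 h9
    · cases e with
      | zero =>
        exfalso
        have h10 : c' = 0 := (Submodule.mem_bot _).1 h5
        apply h0
        rw [← hz, h10]
        exact map_zero _
      | succ e' => exact ⟨e', rfl, h5 Finset.univ⟩
  rw [Submodule.Quotient.nontrivial_iff]
  intro htop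
  have h1 : (⟨c, hcZ⟩ : C.hhhZ (m + 1) e) ∈ (C.hhhB (m + 1) e).submoduleOf (C.hhhZ (m + 1) e) := by
    rw [htop]
    exact Submodule.mem_top
  exact hcB h1

end Pool.Agent.H.MP_c30e5d_gt
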