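import Pool.Agent.H.MP_c30e5d_gt.Mixed
import Pool.Agent.H.MP_c30e5d_gt.Curv
import Pool.Agent.H.MP_c30e5d_gt.Graded

/-!
# Central elements over `k[y][x]` are `k[y] ⊗` central elements over `k[x]`

Notation: `R = k[x]`, `K = k[y]`, `A = K[x]`, all with `m + 1` variables.
-/

namespace Pool.Agent.H.MP_c30e5d_gt

open MvPolynomial TensorProduct

variable (k : Type) [Field k] (m : ℕ)

abbrev Rx : Type := MvPolynomial (Fin (m + 1)) k
abbrev Ky : Type := MvPolynomial (Fin (m + 1)) k
abbrev Axy : Type := MvPolynomial (Fin (m + 1)) (MvPolynomial (Fin (m + 1)) k)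

/-- the variables `x_j` of `A = k[y][x]` -/
noncomputable def xA (j : Fin (m + 1)) : Axy k m := X j
/-- the variables `y_j` of `A = k[y][x]` -/
noncomputable def yA (j : Fin (m + 1)) : Axy k m := C (X j)
/-- the variables `x_j` of `R = k[x]` -/
noncomputable def xR (j : Fin (m + 1)) : Rx k m := X j


/-- the ring map `g₀ : k[x] → k[y][x]` -/
noncomputable def yextg : Rx k m →+* Axy k m := MvPolynomial.map C

variable {k m}

theorem yextg_X (j : Fin (m + 1)) : yextg k m (xR k m j) = xA k m j := by
  unfold yextg xR xA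
  rw [map_X]

theorem yextg_C (c : k) : yextg k m (C c) = (C (C c) : Axy k m) := by
  unfold yextg
  rw [map_C]

variable (k m) in
/-- `Ψ (b) = ∑_s C (y^s) • G (b s)` -/
noncomputable def yextPsi {M N : Type} [AddCommGroup M] [AddCommGroup N] [Module (Axy k m) N]
    (G : M →+ N) : ((Fin (m + 1) →₀ ℕ) →₀ M) →+ N :=
  Finsupp.liftAddHom fun s => (smulAddHom (Axy k m) N (C (monomial s (1 : k)))).comp G

variable (k m) in
theorem yextPsi_single {M N : Type} [AddCommGroup M] [AddCommGroup N] [Module (Axy k m) N]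
    (G : M →+ N) (s : Fin (m + 1) →₀ ℕ) (z : M) :
    yextPsi k m G (Finsupp.single s z) = (C (monomial s (1 : k)) : Axy k m) • G z := by
  unfold yextPsi
  rw [Finsupp.liftAddHom_apply_single]
  rfl

variable (k m) in
theorem yextPsi_sum {M N : Type} [AddCommGroup M] [AddCommGroup N] [Module (Axy k m) N]
    (G : M →+ N) (b : (Fin (m + 1) →₀ ℕ) →₀ M) :
    yextPsi k m G b = ∑ s ∈ b.support, (C (monomial s (1 : k)) : Axy k m) • G (b s) := by
  conv_lhs => rw [← Finsupp.sum_single b]
  rw [Finsupp.sum, map_sum]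
  exact Finset.sum_congr rfl fun s _ => yextPsi_single k m G s _

variable (k m) in
theorem yextPsi_nat {M N M' N' : Type} [AddCommGroup M] [AddCommGroup N] [Module (Axy k m) N]
    [AddCommGroup M'] [AddCommGroup N'] [Module (Axy k m) N'] (G : M →+ N) (G' : M' →+ N')
    (h : M →+ M') (h' : N →ₗ[Axy k m] N') (hh : ∀ z, G' (h z) = h' (G z))
    (b : (Fin (m + 1) →₀ ℕ) →₀ M) :
    yextPsi k m G' (b.mapRange h (map_zero h)) = h' (yextPsi k m G b) := by
  induction b using Finsupp.induction_linear with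
  | zero => simp
  | add b c hb hc =>
    rw [Finsupp.mapRange_add (map_add h), map_add, map_add, hb, hc, map_add]
  | single s z =>
    rw [Finsupp.mapRange_single, yextPsi_single, yextPsi_single, map_smul, hh]

variable (k m) in
theorem yextPsi_prod {M N M' N' : Type} [AddCommGroup M] [AddCommGroup N] [Module (Axy k m) N]
    [AddCommGroup M'] [AddCommGroup N'] [Module (Axy k m) N'] (G : M →+ N) (G' : M' →+ N')
    (hG : Function.Bijective (yextPsi k m G)) (hG' : Function.Bijective (yextPsi k m G')) :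
    Function.Bijective (yextPsi k m (G.prodMap G')) := by
  constructor
  · rw [injective_iff_map_eq_zero]
    intro b hb
    have h1 := yextPsi_nat k m (G.prodMap G') G (AddMonoidHom.fst M M') (LinearMap.fst (Axy k m) N N')
      (fun z => rfl) b
    have h2 := yextPsi_nat k m (G.prodMap G') G' (AddMonoidHom.snd M M') (LinearMap.snd (Axy k m) N N')
      (fun z => rfl) b
    rw [hb, map_zero] at h1 h2
    have h3 := (injective_iff_map_eq_zero _).1 hG.1 _ h1
    have h4 := (injective_iff_map_eq_zero _).1 hG'.1 _ h2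
    ext s
    · exact DFunLike.congr_fun h3 s
    · exact DFunLike.congr_fun h4 s
  · rintro ⟨x, y⟩
    obtain ⟨b, hb⟩ := hG.2 x
    obtain ⟨c, hc⟩ := hG'.2 y
    have h1 := yextPsi_nat k m G (G.prodMap G') (AddMonoidHom.inl M M')
      (LinearMap.inl (Axy k m) N N') (fun z => by simp) b
    have h2 := yextPsi_nat k m G' (G.prodMap G') (AddMonoidHom.inr M M')
      (LinearMap.inr (Axy k m) N N') (fun z => by simp) c
    refine ⟨_ + _, (map_add _ _ _).trans ((congrArg₂ _ h1 h2).trans ?_)⟩
    rw [hb, hc]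
    simp

/-- the base case: `K ⊗ k[x] = K[x]` -/
theorem yextPsi_base : Function.Bijective
    (yextPsi k m (yextg k m : Rx k m →+* Axy k m).toAddMonoidHom) := by
  have hc : ∀ (b : (Fin (m + 1) →₀ ℕ) →₀ Rx k m) (s t : Fin (m + 1) →₀ ℕ),
      coeff s (coeff t (yextPsi k m (yextg k m).toAddMonoidHom b)) =
        coeff t (b s) := by
    intro b s t
    induction b using Finsupp.induction_linear with
    | zero => simp
    | add b c hb hc => rw [map_add, coeff_add, coeff_add, hb, hc, Finsupp.add_apply, coeff_add]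
    | single s' z =>
      rw [yextPsi_single, smul_eq_mul, coeff_C_mul]
      have h1 : coeff t ((yextg k m).toAddMonoidHom z) = C (coeff t z) := by
        show coeff t (MvPolynomial.map C z) = _
        rw [coeff_map]
      rw [h1, mul_comm, coeff_C_mul, coeff_monomial, Finsupp.single_apply]
      split_ifs with h
      · rw [mul_one]
      · rw [mul_zero, coeff_zero]
  constructor
  · rw [injective_iff_map_eq_zero]
    intro b hb
    ext s t
    have h := hc b s t
    rw [hb, coeff_zero, coeff_zero] at h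
    rw [← h]
    simp
  · intro z
    induction z using MvPolynomial.induction_on' with
    | monomial t p =>
      induction p using MvPolynomial.induction_on' with
      | monomial s c =>
        refine ⟨Finsupp.single s (monomial t c), ?_⟩
        rw [yextPsi_single]
        show C (monomial s 1) * (MvPolynomial.map C (monomial t c)) = _
        rw [map_monomial, C_mul_monomial, mul_comm, C_mul_monomial, mul_one]
      | add p q hp hq =>
        obtain ⟨b, hb⟩ := hp
        obtain ⟨c, hc⟩ := hq
        exact ⟨b + c, by rw [map_add, hb, hc, map_add]⟩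
    | add p q hp hq =>
      obtain ⟨b, hb⟩ := hp
      obtain ⟨c, hc⟩ := hq
      exact ⟨b + c, by rw [map_add, hb, hc]⟩

/-- base change of objects from `k[x]` to `k[y][x]` -/
structure YextBC (O : Obj (Rx k m) m) (O' : Obj (Axy k m) m) (G : O.M →+ O'.M) : Prop where
  sm : ∀ r z, G (r • z) = yextg k m r • G z
  gx : ∀ j z, G (O.X j z) = O'.X j (G z)
  gd : ∀ y z, G (O.D y z) = O'.D (fun j => yextg k m (y j)) (G z)
  bij : Function.Bijective (yextPsi k m G)

theorem YextBC.crs {O : Obj (Rx k m) m} {O' : Obj (Axy k m) m} {G : O.M →+ O'.M}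
    (h : YextBC O O' G) (i : Fin m) (p q : Fin (m + 1)) :
    ∃ G' : (cross i p q O).M →+ (cross i p q O').M, YextBC (cross i p q O) (cross i p q O') G' := by
  refine ⟨((G.prodMap G).prodMap G : ((O.M × O.M) × O.M) →+ ((O'.M × O'.M) × O'.M)),
    ?_, ?_, ?_, ?_⟩
  · intro r z
    change (O.M × O.M) × O.M at z
    exact Prod.ext (Prod.ext (h.sm r _) (h.sm r _)) (h.sm r _)
  · intro j z
    change (O.M × O.M) × O.M at z
    have hb : ∀ z : O.M × O.M, (G.prodMap G) (BX O i j z) = BX O' i j ((G.prodMap G) z) := by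
      intro z
      by_cases h1 : j = i.castSucc
      · subst h1
        rw [BX_castSucc, BX_castSucc]
        refine Prod.ext ?_ ?_
        · show G (-(O.X i.castSucc (O.X i.succ z.2))) = _
          rw [map_neg, h.gx, h.gx]
          rfl
        · show G (z.1 + O.X i.castSucc z.2 + O.X i.succ z.2) = _
          rw [map_add, map_add, h.gx, h.gx]
          rfl
      · by_cases h2 : j = i.succ
        · subst h2
          rw [BX_succ, BX_succ]
          refine Prod.ext ?_ ?_
          · show G (O.X i.castSucc z.1 + O.X i.succ z.1 + O.X i.castSucc (O.X i.succ z.2)) = _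
            rw [map_add, map_add, h.gx, h.gx, h.gx, h.gx]
            rfl
          · show G (-z.1) = _
            rw [map_neg]
            rfl
        · rw [BX_other O i j h1 h2, BX_other O' i j h1 h2]
          exact Prod.ext (h.gx j _) (h.gx j _)
    exact Prod.ext (hb z.1) (h.gx j z.2)
  · intro y z
    change (O.M × O.M) × O.M at z
    refine Prod.ext (Prod.ext ?_ ?_) ?_
    · show G (O.D y z.1.1 - (y p - y q) • O.X i.succ z.2) =
        O'.D (fun j => yextg k m (y j)) (G z.1.1) -
          (yextg k m (y p) - yextg k m (y q)) • O'.X i.succ (G z.2)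
      rw [map_sub, h.sm, h.gx, h.gd, map_sub]
    · show G (O.D y z.1.2 + (y p - y q) • z.2) =
        O'.D (fun j => yextg k m (y j)) (G z.1.2) +
          (yextg k m (y p) - yextg k m (y q)) • (G z.2)
      rw [map_add, h.sm, h.gd, map_sub]
    · show G (z.1.1 + O.X i.castSucc z.1.2 - O.D y z.2) =
        G z.1.1 + O'.X i.castSucc (G z.1.2) - O'.D (fun j => yextg k m (y j)) (G z.2)
      rw [map_sub, map_add, h.gx, h.gd]
  · exact yextPsi_prod k m _ _ (yextPsi_prod k m _ _ h.bij h.bij) h.bij

theorem YextBC.word (w : List (Fin m)) (L : Equiv.Perm (Fin (m + 1))) (ρ : Fin (m + 1) → Rx k m)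
    (ρ' : Fin (m + 1) → Axy k m) (hρ : ∀ j, yextg k m (ρ j) = ρ' j) :
    ∃ G : (Fw L w (Obj.base ρ)).M →+ (Fw L w (Obj.base ρ')).M,
      YextBC (Fw L w (Obj.base ρ)) (Fw L w (Obj.base ρ')) G := by
  induction w generalizing L with
  | nil =>
    refine ⟨((yextg k m).toAddMonoidHom : Rx k m →+ Axy k m), ?_, ?_, ?_, yextPsi_base⟩
    · intro r z
      change Rx k m at z
      show yextg k m (r * z) = yextg k m r * yextg k m z
      rw [map_mul]
    · intro j z
      change Rx k m at z
      show yextg k m (ρ j * z) = ρ' j * yextg k m z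
      rw [map_mul, hρ]
    · intro y z
      show yextg k m 0 = 0
      rw [map_zero]
  | cons i w ih =>
    obtain ⟨G, hG⟩ := ih (L * sw i)
    exact hG.crs i _ _


/-- The properties of `O = FO x 1 w` that are used. -/
structure YextP (x : Fin (m + 1) → Rx k m) (n : ℕ) (O : Obj (Rx k m) m) : Prop where
  gr : GradedGr n O
  aff : ∀ y z, O.D y z = O.D 0 z + ∑ j, y j • (O.D (Pi.single j 1) z - O.D 0 z)
  dd : ∀ y z, z ∈ CE x 1 O → O.D y (O.D y z) = 0

/-- `h j = D (single j 1) - D 0` -/
def yexth {A : Type} [CommRing A] (O : Obj A m) (j : Fin (m + 1)) : O.M →ₗ[A] O.M :=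
  O.D (Pi.single j 1) - O.D 0

theorem YextP.add {x : Fin (m + 1) → Rx k m} {n : ℕ} {O : Obj (Rx k m) m} (h : YextP x n O)
    (i j : Fin (m + 1)) (a b : Rx k m) (z : O.M) :
    O.D (Pi.single i a + Pi.single j b) z = O.D 0 z + a • yexth O i z + b • yexth O j z := by
  have hs : ∀ (i : Fin (m + 1)) (a : Rx k m),
      ∑ l, (Pi.single i a : Fin (m + 1) → Rx k m) l • yexth O l z = a • yexth O i z := by
    intro i a
    rw [Finset.sum_eq_single i]
    · rw [Pi.single_eq_same]
    · intro l _ hl
      rw [Pi.single_eq_of_ne hl, zero_smul]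
    · intro hi
      exact absurd (Finset.mem_univ _) hi
  rw [h.aff]
  have h1 : ∑ l, (Pi.single i a + Pi.single j b : Fin (m + 1) → Rx k m) l •
      (O.D (Pi.single l 1) z - O.D 0 z) = a • yexth O i z + b • yexth O j z := by
    rw [← hs i a, ← hs j b, ← Finset.sum_add_distrib]
    refine Finset.sum_congr rfl fun l _ => ?_
    rw [Pi.add_apply, add_smul]
    rfl
  rw [h1, add_assoc]

theorem YextP.memD {x : Fin (m + 1) → Rx k m} {O : Obj (Rx k m) m}
    (y : Fin (m + 1) → Rx k m) (z : O.M) (hz : z ∈ CE x 1 O) : O.D y z ∈ CE x 1 O := by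
  intro j
  rw [O.XD, hz j, map_smul]

theorem YextP.memh {x : Fin (m + 1) → Rx k m} {O : Obj (Rx k m) m}
    (j : Fin (m + 1)) (z : O.M) (hz : z ∈ CE x 1 O) : yexth O j z ∈ CE x 1 O :=
  Submodule.sub_mem _ (YextP.memD _ z hz) (YextP.memD _ z hz)

theorem YextP.mempr {x : Fin (m + 1) → Rx k m} {n : ℕ} {O : Obj (Rx k m) m} (h : YextP x n O)
    (e : ℕ) (z : O.M) (hz : z ∈ CE x 1 O) : O.pr e z ∈ CE x 1 O := by
  intro j
  rw [← h.gr.pX, hz j, map_smul]

/-- `D (single i a + single j b)² = 0` on central elements, expanded -/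
theorem YextP.expand {x : Fin (m + 1) → Rx k m} {n : ℕ} {O : Obj (Rx k m) m} (h : YextP x n O)
    (i j : Fin (m + 1)) (a b : Rx k m) (z : O.M) (hz : z ∈ CE x 1 O) :
    O.D 0 (O.D 0 z) + a • (O.D 0 (yexth O i z) + yexth O i (O.D 0 z)) +
      b • (O.D 0 (yexth O j z) + yexth O j (O.D 0 z)) +
      (a * a) • yexth O i (yexth O i z) + (b * b) • yexth O j (yexth O j z) +
      (a * b) • (yexth O i (yexth O j z) + yexth O j (yexth O i z)) = 0 := by
  have h1 := h.dd (Pi.single i a + Pi.single j b) z hz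
  rw [h.add i j a b z, h.add i j a b] at h1
  simp only [map_add, map_smul, smul_add, smul_smul] at h1 ⊢
  rw [← h1]
  rw [mul_comm b a]
  abel

theorem YextP.d0 {x : Fin (m + 1) → Rx k m} {n : ℕ} {O : Obj (Rx k m) m} (h : YextP x n O)
    (z : O.M) (hz : z ∈ CE x 1 O) : O.D 0 (O.D 0 z) = 0 := h.dd 0 z hz

theorem YextP.two [CharZero k] {O : Obj (Rx k m) m} (z : O.M) (h : z + z = 0) : z = 0 := by
  have h1 : (C (2 : k) : Rx k m) • z = 0 := by
    have h3 : (C (2 : k) : Rx k m) = 1 + 1 := by
      rw [← C_1, ← C_add]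
      norm_num
    rw [h3, add_smul, one_smul, h]
  have h2 : (C (2⁻¹ : k) : Rx k m) • ((C (2 : k) : Rx k m) • z) = z := by
    rw [smul_smul, ← C_mul, inv_mul_cancel₀ two_ne_zero, C_1, one_smul]
  rw [← h2, h1, smul_zero]

theorem YextP.h1 [CharZero k] {x : Fin (m + 1) → Rx k m} {n : ℕ} {O : Obj (Rx k m) m}
    (h : YextP x n O) (j : Fin (m + 1)) (z : O.M) (hz : z ∈ CE x 1 O) :
    yexth O j (yexth O j z) = 0 ∧ O.D 0 (yexth O j z) + yexth O j (O.D 0 z) = 0 := by
  have e1 := h.expand j j 1 0 z hz
  have e2 := h.expand j j (-1) 0 z hz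
  rw [h.d0 z hz] at e1 e2
  simp only [one_smul, zero_smul, mul_zero, mul_one, zero_add, add_zero, neg_smul,
    mul_neg, neg_neg] at e1 e2
  have e3 : yexth O j (yexth O j z) = 0 := by
    refine YextP.two _ ?_
    have := congrArg₂ (· + ·) e1 e2
    simp only [add_zero] at this
    rw [← this]
    abel
  refine ⟨e3, ?_⟩
  rw [e3, add_zero] at e1
  exact e1

theorem YextP.h2 [CharZero k] {x : Fin (m + 1) → Rx k m} {n : ℕ} {O : Obj (Rx k m) m}
    (h : YextP x n O) (i j : Fin (m + 1)) (z : O.M) (hz : z ∈ CE x 1 O) :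
    yexth O i (yexth O j z) + yexth O j (yexth O i z) = 0 := by
  have e1 := h.expand i j 1 1 z hz
  rw [h.d0 z hz, (h.h1 i z hz).1, (h.h1 i z hz).2, (h.h1 j z hz).1, (h.h1 j z hz).2] at e1
  simpa using e1

variable (k m)

/-- MAIN STATEMENT OF THIS FILE.  For a pure word `w` there are a `k`-vector space `V` with a mixed
complex structure `P` (`V` = central elements of `FO xR 1 w`, `d = D 0`,
`h j = D (Pi.single j 1) - D 0`, `pr`), identified by `f` with the central elements over
`R = k[x]`, and a `K`-linear identification `τ` of `K ⊗ V` with the central elements over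
`A = k[y][x]`, carrying `P.DK` to `D y`.

PROOF.  Let `g₀ : R → A` be `MvPolynomial.map C`, `G_w : (FO xR 1 w).M → (FO xA 1 w).M` the additive
map obtained from `g₀` componentwise (recursion on the word; it satisfies
`G (r • z) = g₀ r • G z`, `G (X j z) = X j (G z)`, and
`D y (G z) = G (D 0 z) + ∑_j y_j • G (D (single j 1) z - D 0 z)` by induction or by `D_affine`
and `D (g₀ ∘ y') (G z) = G (D y' z)` for `y' = 0, single j 1`).
`τ (p ⊗ v) = C p • G (v)`.  The map `K ⊗ (FO xR 1 w).M → (FO xA 1 w).M`, `p ⊗ z ↦ C p • G z` is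
bijective: for the empty word it is `MvPolynomial.algebraTensorAlgEquiv`, and for `cross` it is
componentwise (`TensorProduct.prodRight` or additivity of the tensor product).
It commutes with all `X j - x_j`, and since `K` is flat over `k` (free), the common kernel of the
operators `1 ⊗ (X j - x_j)` on `K ⊗ M` is `K ⊗` (the common kernel) (`Module.Flat.ker_lTensor_eq`
for the map `M → (Fin (m+1) → M)`, or a basis of `K`, e.g. expand in monomials of `K`).
`dd`, `dh`, `hh` follow from `DD_central` for `y = 0`, `single j 1`, `-single j 1`,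
`single i 1 ± single j 1` and `D_affine` (`h_j z = D (single j 1) z - D 0 z`): e.g.
`D (y)² = 0` for `y = ± single j 1` gives `d h_j + h_j d = 0` and `h_j h_j = 0` in characteristic
`0`; then `y = single i 1 + single j 1` gives `hh`.
`CE` is stable under `D y`, `pr e` because these commute with the `X j` and are `R`-linear. -/
theorem yext [CharZero k] (w : List (Fin m)) (hw : act 1 w = 1) :
    ∃ (V : Type) (_ : AddCommGroup V) (_ : Module k V) (P : Mixed k (Fin (m + 1)) V)
      (f : V →+ (FO (xR k m) 1 w).M)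
      (τ : (Ky k m ⊗[k] V) →+ (FO (xA k m) 1 w).M),
      Function.Injective f ∧ (∀ z, z ∈ CE (xR k m) 1 (FO (xR k m) 1 w) ↔ ∃ v, f v = z) ∧
      (∀ v, f (P.d v) = (FO (xR k m) 1 w).D 0 (f v)) ∧
      (∀ e v, f (P.pr e v) = (FO (xR k m) 1 w).pr e (f v)) ∧
      Function.Injective τ ∧ (∀ z, z ∈ CE (xA k m) 1 (FO (xA k m) 1 w) ↔ ∃ v, τ v = z) ∧
      (∀ (p : Ky k m) v, τ (p • v) = (C p : Axy k m) • τ v) ∧
      (∀ v, τ (P.DK v) = (FO (xA k m) 1 w).D (yA k m) (τ v)) := by
  obtain ⟨G, hG⟩ := YextBC.word w 1 (fun j => xR k m (act 1 w j)) (fun j => xA k m (act 1 w j))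
    (fun j => yextg_X _)
  change (FO (xR k m) 1 w).M →+ (FO (xA k m) 1 w).M at G
  change YextBC (FO (xR k m) 1 w) (FO (xA k m) 1 w) G at hG
  have hP : YextP (xR k m) w.length (FO (xR k m) 1 w) :=
    ⟨graded_all 1 w _, fun y z => D_affine 1 w _ y z, fun y z hz => DD_central _ y 1 w z hz⟩
  have hA : ∀ y z, (FO (xA k m) 1 w).D y z = (FO (xA k m) 1 w).D 0 z +
      ∑ j, y j • ((FO (xA k m) 1 w).D (Pi.single j 1) z - (FO (xA k m) 1 w).D 0 z) :=
    fun y z => D_affine 1 w _ y z
  generalize FO (xR k m) 1 w = O at *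
  generalize FO (xA k m) 1 w = O' at *
  let _ : Module k (CE (xR k m) 1 O) := Module.compHom _ (C : k →+* Rx k m)
  have hsm : ∀ (c : k) (v : CE (xR k m) 1 O), c • v = (C c : Rx k m) • v := fun c v => rfl
  let dL : CE (xR k m) 1 O →ₗ[k] CE (xR k m) 1 O :=
    { toFun := fun v => ⟨O.D 0 v.1, YextP.memD _ _ v.2⟩
      map_add' := fun a b => Subtype.ext (map_add _ _ _)
      map_smul' := fun c a => Subtype.ext (map_smul (O.D 0) (C c : Rx k m) a.1) }
  let hL : Fin (m + 1) → CE (xR k m) 1 O →ₗ[k] CE (xR k m) 1 O := fun j =>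
    { toFun := fun v => ⟨yexth O j v.1, YextP.memh _ _ v.2⟩
      map_add' := fun a b => Subtype.ext (map_add _ _ _)
      map_smul' := fun c a => Subtype.ext (map_smul (yexth O j) (C c : Rx k m) a.1) }
  let pL : ℕ → CE (xR k m) 1 O →ₗ[k] CE (xR k m) 1 O := fun e =>
    { toFun := fun v => ⟨O.pr e v.1, hP.mempr _ _ v.2⟩
      map_add' := fun a b => Subtype.ext (map_add _ _ _)
      map_smul' := fun c a => Subtype.ext (map_smul (O.pr e) (C c : Rx k m) a.1) }
  let P : Mixed k (Fin (m + 1)) (CE (xR k m) 1 O) :=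
    { d := dL
      h := hL
      pr := pL
      len := w.length
      pr_idem := fun e z => Subtype.ext (hP.gr.pp e z.1)
      pr_orth := fun e e' z he => Subtype.ext (hP.gr.pq e e' z.1 he)
      pr_sum := fun z => Subtype.ext (by
        rw [AddSubmonoidClass.coe_finsetSum]
        exact hP.gr.ps z.1)
      pr_d := fun e z => Subtype.ext (hP.gr.pD e z.1)
      pr_d0 := fun z => Subtype.ext (hP.gr.p0 z.1)
      pr_h := fun j e z => Subtype.ext (hP.gr.pY (Pi.single j 1) e z.1)
      dd := fun z => Subtype.ext (hP.d0 z.1 z.2)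
      dh := fun j z => Subtype.ext (hP.h1 j z.1 z.2).2
      hh := fun i j z => Subtype.ext (hP.h2 i j z.1 z.2) }
  have hτc : ∀ (c : k) (p : Ky k m) (v : CE (xR k m) 1 O),
      (C (c • p) : Axy k m) • G v.1 = (C p : Axy k m) • G (c • v).1 := by
    intro c p v
    have e1 : (c • v).1 = (C c : Rx k m) • v.1 := rfl
    rw [e1, hG.sm, yextg_C, smul_smul, ← C_mul, smul_eq_C_mul, mul_comm]
  let τ : (Ky k m ⊗[k] (CE (xR k m) 1 O)) →+ O'.M :=
    TensorProduct.liftAddHom
      (AddMonoidHom.mk' (fun p : Ky k m =>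
        AddMonoidHom.mk' (fun v : CE (xR k m) 1 O => (C p : Axy k m) • G v.1)
          (fun a b => by
            show (C p : Axy k m) • G (a.1 + b.1) = _
            rw [map_add, smul_add]))
        (fun a b => by
          ext v
          show (C (a + b) : Axy k m) • G v.1 = (C a : Axy k m) • G v.1 + (C b : Axy k m) • G v.1
          rw [C_add, add_smul]))
      (fun c p v => hτc c p v)
  have hτ : ∀ (p : Ky k m) (v : CE (xR k m) 1 O),
      τ (p ⊗ₜ[k] v) = (C p : Axy k m) • G v.1 := fun p v => rfl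
  have hτp : ∀ (p : Ky k m) (t : Ky k m ⊗[k] (CE (xR k m) 1 O)),
      τ (p • t) = (C p : Axy k m) • τ t := by
    intro p t
    induction t using TensorProduct.induction_on with
    | zero => rw [smul_zero, map_zero, smul_zero]
    | add a b ha hb => rw [smul_add, map_add, ha, hb, map_add, smul_add]
    | tmul q v => rw [TensorProduct.smul_tmul', smul_eq_mul, hτ, hτ, C_mul, mul_smul]
  have hc0 : ∀ z, G (O.D 0 z) = O'.D 0 (G z) := by
    intro z
    rw [hG.gd]
    congr 2
    funext j
    exact map_zero _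
  have hc1 : ∀ j z, G (yexth O j z) = O'.D (Pi.single j 1) (G z) - O'.D 0 (G z) := by
    intro j z
    have e1 : yexth O j z = O.D (Pi.single j 1) z - O.D 0 z := rfl
    rw [e1, map_sub, hc0, hG.gd]
    congr 3
    funext l
    by_cases hl : l = j
    · subst hl
      rw [Pi.single_eq_same, Pi.single_eq_same, map_one]
    · rw [Pi.single_eq_of_ne hl, Pi.single_eq_of_ne hl, map_zero]
  have hτs : ∀ b : (Fin (m + 1) →₀ ℕ) →₀ (CE (xR k m) 1 O),
      τ ((TensorProduct.equivFinsuppOfBasisLeft (basisMonomials (Fin (m + 1)) k)).symm b) =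
        yextPsi k m (G.comp (CE (xR k m) 1 O).subtype.toAddMonoidHom) b := by
    intro b
    rw [TensorProduct.equivFinsuppOfBasisLeft_symm_apply, Finsupp.sum, map_sum, yextPsi_sum]
    refine Finset.sum_congr rfl fun s _ => ?_
    rw [hτ, coe_basisMonomials]
    rfl
  have hinj : Function.Injective (yextPsi k m (G.comp (CE (xR k m) 1 O).subtype.toAddMonoidHom)) := by
    rw [injective_iff_map_eq_zero]
    intro b hb
    have e1 := yextPsi_nat k m (G.comp (CE (xR k m) 1 O).subtype.toAddMonoidHom) G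
      (CE (xR k m) 1 O).subtype.toAddMonoidHom LinearMap.id (fun z => rfl) b
    rw [hb, map_zero] at e1
    have e2 := (injective_iff_map_eq_zero _).1 hG.bij.1 _ e1
    ext s
    exact DFunLike.congr_fun e2 s
  refine ⟨CE (xR k m) 1 O, inferInstance, inferInstance, P,
    (CE (xR k m) 1 O).subtype.toAddMonoidHom, τ, Subtype.val_injective, ?_, fun v => rfl,
    fun e v => rfl, ?_, ?_, hτp, ?_⟩
  · intro z
    constructor
    · intro hz
      exact ⟨⟨z, hz⟩, rfl⟩
    · rintro ⟨v, rfl⟩
      exact v.2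
  · intro s t hst
    obtain ⟨b, rfl⟩ := (TensorProduct.equivFinsuppOfBasisLeft
      (basisMonomials (Fin (m + 1)) k)).symm.surjective s
    obtain ⟨c, rfl⟩ := (TensorProduct.equivFinsuppOfBasisLeft
      (basisMonomials (Fin (m + 1)) k)).symm.surjective t
    rw [hτs, hτs] at hst
    rw [hinj hst]
  · intro z
    constructor
    · intro hz
      obtain ⟨b, rfl⟩ := hG.bij.2 z
      have hb : ∀ s, b s ∈ CE (xR k m) 1 O := by
        intro s j
        have e1 := yextPsi_nat k m G G (O.X j).toAddMonoidHom (O'.X j) (fun z => hG.gx j z) b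
        have e2 := yextPsi_nat k m G G
          (((xR k m ((1 : Equiv.Perm (Fin (m + 1))) j)) • LinearMap.id :
            O.M →ₗ[Rx k m] O.M)).toAddMonoidHom
          ((xA k m ((1 : Equiv.Perm (Fin (m + 1))) j)) • LinearMap.id)
          (fun z => by
            show G (xR k m _ • z) = xA k m _ • G z
            rw [hG.sm, yextg_X]) b
        have e3 := hz j
        have e4 := hG.bij.1 ((e1.trans e3).trans e2.symm)
        exact DFunLike.congr_fun e4 s
      refine ⟨∑ s ∈ b.support, (monomial s (1 : k) : Ky k m) ⊗ₜ[k] ⟨b s, hb s⟩, ?_⟩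
      rw [map_sum, yextPsi_sum]
      rfl
    · rintro ⟨t, rfl⟩
      induction t using TensorProduct.induction_on with
      | zero => rw [map_zero]; exact Submodule.zero_mem _
      | add a b ha hb => rw [map_add]; exact Submodule.add_mem _ ha hb
      | tmul q v =>
        rw [hτ]
        refine Submodule.smul_mem _ _ ?_
        intro j
        rw [← hG.gx, v.2 j, hG.sm, yextg_X]
  · intro t
    induction t using TensorProduct.induction_on with
    | zero => rw [map_zero, map_zero, map_zero]
    | add a b ha hb => rw [map_add, map_add, ha, hb, map_add, map_add]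
    | tmul q v =>
      have e1 : P.DK (q ⊗ₜ[k] v) = q ⊗ₜ[k] (dL v) + ∑ j, (X j : Ky k m) • (q ⊗ₜ[k] (hL j v)) := by
        unfold Mixed.DK
        rw [LinearMap.add_apply, LinearMap.sum_apply]
        rfl
      rw [e1, map_add, map_sum, hτ, hτ, map_smul, hA (yA k m), smul_add, Finset.smul_sum]
      refine congrArg₂ _ ?_ (Finset.sum_congr rfl fun j _ => ?_)
      · show (C q : Axy k m) • G (O.D 0 v.1) = _
        rw [hc0]
      · rw [hτp, hτ]
        show (C (X j) : Axy k m) • (C q : Axy k m) • G (yexth O j v.1) = _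
        rw [hc1, smul_comm]
        rfl

end Pool.Agent.H.MP_c30e5d_gt
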