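import Pool.Agent.H.MP_c30e5d_gt.FinA
import Pool.Agent.H.MP_c30e5d_gt.YExt
import Pool.Agent.H.MP_c30e5d_gt.Compare
import Pool.Agent.H.MP_c30e5d_gt.Graded
import Pool.Agent.H.MP_c30e5d_gt.Top

/-!
# The top Hochschild degree in the explicit model
-/

namespace Pool.Agent.H.MP_c30e5d_gt

open MvPolynomial

variable (k : Type) [Field k] (m : ℕ)

/-- In the explicit model a central cycle which is not a boundary gives a class. -/
theorem fin_top (w : List (Fin m)) (hw : act 1 w = 1) (e : ℕ)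
    (z : (FO (xR k m) 1 w).M) (hc : z ∈ CE (xR k m) 1 (FO (xR k m) 1 w))
    (he : (FO (xR k m) 1 w).pr e z = z) (hd : (FO (xR k m) 1 w).D 0 z = 0)
    (hb : ∀ z', z' ∈ CE (xR k m) 1 (FO (xR k m) 1 w) →
      (∃ e', e = e' + 1) → (FO (xR k m) 1 w).D 0 z' ≠ z) (h0 : z ≠ 0) :
    Nontrivial (HHH k m w (m + 1) e) := by
  obtain ⟨T, h1, h2, h3, h4, h5⟩ := compare k w 1
  have hbase : (fun j => xR k m (act 1 w j)) = fun j => (X j : RR k m) := by
    rw [hw]; rfl
  have hFO : FO (xR k m) 1 w = Fw 1 w (Obj.base fun j => (X j : RR k m)) := by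
    rw [FO, hbase]
  revert z
  rw [hFO]
  intro z hc he hd hb h0
  refine nontrivial_top (rouquier k w) e (T.symm z) ?_ ?_ ?_ ?_ ?_
  · intro j
    refine T.injective ?_
    rw [h1, h2, T.apply_symm_apply]
    exact hc j
  · refine T.injective ?_
    rw [h5, T.apply_symm_apply, he]
  · refine T.injective ?_
    rw [h4, T.apply_symm_apply, hd, map_zero]
  · intro z' hz' he' h
    obtain ⟨e', he', -⟩ := he'
    refine hb (T z') (fun j => ?_) ⟨e', he'⟩ ?_
    · rw [← h1, hz' j, h2]; rfl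
    · rw [← h4, h, T.apply_symm_apply]
  · intro h
    refine h0 ?_
    rw [← T.apply_symm_apply z, h, map_zero]

/-- The evaluation sees only the part of degree `0`. -/
theorem evw_pr {A : Type} [CommRing A] {m : ℕ} (x : Fin (m + 1) → A)
    (L : Equiv.Perm (Fin (m + 1))) (w : List (Fin m)) (ρ : Fin (m + 1) → A)
    (z : (Fw L w (Obj.base ρ)).M) :
    evw x L w (Obj.base ρ) (LinearMap.id : A →ₗ[A] A) ((Fw L w (Obj.base ρ)).pr 0 z) =
      evw x L w (Obj.base ρ) (LinearMap.id : A →ₗ[A] A) z := by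
  induction w generalizing L with
  | nil => rfl
  | cons i w ih =>
    change ((Fw (L * sw i) w (Obj.base ρ)).M × (Fw (L * sw i) w (Obj.base ρ)).M) ×
      (Fw (L * sw i) w (Obj.base ρ)).M at z
    show evw x (L * sw i) w (Obj.base ρ) (LinearMap.id : A →ₗ[A] A)
        ((Fw (L * sw i) w (Obj.base ρ)).pr 0 z.1.1) +
      x (L i.castSucc) * evw x (L * sw i) w (Obj.base ρ) (LinearMap.id : A →ₗ[A] A)
        ((Fw (L * sw i) w (Obj.base ρ)).pr 0 z.1.2) =
      evw x (L * sw i) w (Obj.base ρ) (LinearMap.id : A →ₗ[A] A) z.1.1 +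
      x (L i.castSucc) * evw x (L * sw i) w (Obj.base ρ) (LinearMap.id : A →ₗ[A] A) z.1.2
    rw [ih, ih]

theorem xR_inj : Function.Injective (xR k m) := fun i j h => X_injective h

theorem xA_inj : Function.Injective (xA k m) := fun i j h => X_injective h

theorem yA_inj : Function.Injective (yA k m) := fun i j h =>
  X_injective (C_injective _ _ h)

/-- The homology is nonzero in degree `0`. -/
theorem fin_even (w : List (Fin m)) (b : ℕ → ℕ) (hD : Del 1 w [] (SB m b)) :
    Nontrivial (HHH k m w (m + 1) 0) := by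
  have hw : act 1 w = 1 := act_del hD
  have hx := xR_inj k m
  have hg : ((SB m b).map (dif (xR k m))).prod ∈
      ((SB m b).map fun s => Ideal.span {dif (xR k m) s, dif (0 : Fin (m + 1) → Rx k m) s}).prod := by
    have h1 : ∀ S : Multiset (Sym2 (Fin (m + 1))), (S.map (dif (xR k m))).prod ∈
      (S.map fun s => Ideal.span {dif (xR k m) s, dif (0 : Fin (m + 1) → Rx k m) s}).prod := by
      intro S
      induction S using Multiset.induction_on with
      | empty => simp
      | cons s S ih =>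
        rw [Multiset.map_cons, Multiset.map_cons, Multiset.prod_cons, Multiset.prod_cons]
        exact Ideal.mul_mem_mul (Ideal.subset_span (by simp)) ih
    exact h1 _
  obtain ⟨z, hz, hev⟩ := fin_del3 (y := (0 : Fin (m + 1) → Rx k m)) hD _ hg
  have h0 : evF (xR k m) 1 w z ≠ 0 := by
    rw [hev]
    exact mul_ne_zero (SB_ne_zero hx b) (SB_ne_zero hx b)
  have hgr := graded_all 1 w fun j => xR k m (act 1 w j)
  change GradedGr w.length (FO (xR k m) 1 w) at hgr
  have h0' : evF (xR k m) 1 w ((FO (xR k m) 1 w).pr 0 z) ≠ 0 := by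
    have h2 := evw_pr (xR k m) 1 w (fun j => xR k m (act 1 w j)) z
    change evF (xR k m) 1 w ((FO (xR k m) 1 w).pr 0 z) = evF (xR k m) 1 w z at h2
    rw [h2]
    exact h0
  refine fin_top k m w hw 0 ((FO (xR k m) 1 w).pr 0 z) (fun j => ?_) (hgr.pp 0 z) ?_ ?_ ?_
  · rw [← hgr.pX, hz.1 j, map_smul]
  · rw [← hgr.pD 0 z, hz.2, map_zero]
  · rintro z' - ⟨e', he'⟩
    omega
  · intro h
    rw [h, map_zero] at h0'
    exact h0' rfl

/-- If the homology in the top Hochschild degree vanishes in odd degrees, then odd central cycles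
are boundaries. -/
theorem fin_par (w : List (Fin m)) (hw : act 1 w = 1)
    (hodd : ∀ e, Odd e → ¬ Nontrivial (HHH k m w (m + 1) e)) (e : ℕ) (he : Odd e)
    (z : (FO (xR k m) 1 w).M) (hc : z ∈ CE (xR k m) 1 (FO (xR k m) 1 w))
    (hpr : (FO (xR k m) 1 w).pr e z = z) (hd : (FO (xR k m) 1 w).D 0 z = 0) :
    ∃ z' ∈ CE (xR k m) 1 (FO (xR k m) 1 w), (FO (xR k m) 1 w).D 0 z' = z := by
  by_contra hcon
  push Not at hcon
  refine hodd e he (fin_top k m w hw e z hc hpr hd (fun z' hz' _ => hcon z' hz') ?_)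
  rintro rfl
  exact hcon 0 (zero_mem _) (map_zero _)

end Pool.Agent.H.MP_c30e5d_gt
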