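import Pool.Agent.H.MP_c30e5d_gt.Mixed

/-!
# Consequences of a free model of the homology: independence
-/

namespace Pool.Agent.H.MP_c30e5d_gt

open TensorProduct MvPolynomial

variable {k : Type} [Field k] {σ : Type} [Fintype σ] {H : Type} [AddCommGroup H] [Module k H]
  {VK : Type} [AddCommGroup VK] [Module (MvPolynomial σ k) VK]
  {D : VK →ₗ[MvPolynomial σ k] VK}
  {B : Type} [AddCommGroup B] [Module (MvPolynomial σ k) B]

/-- evaluation of the second factor by a functional -/
noncomputable def freeindep_F (ψ : H →ₗ[k] k) :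
    (MvPolynomial σ k ⊗[k] H) →ₗ[MvPolynomial σ k] MvPolynomial σ k :=
  (TensorProduct.AlgebraTensorModule.rid k (MvPolynomial σ k) (MvPolynomial σ k)).toLinearMap ∘ₗ
    ψ.baseChange (MvPolynomial σ k)

theorem freeindep_F_tmul (ψ : H →ₗ[k] k) (p : MvPolynomial σ k) (v : H) :
    freeindep_F (σ := σ) ψ (p ⊗ₜ v) = ψ v • p := by
  simp [freeindep_F]

theorem freeindep_F_const (ψ : H →ₗ[k] k) (ct : (MvPolynomial σ k ⊗[k] H) →ₗ[k] H)
    (hct : ∀ (p : MvPolynomial σ k) (v : H), ct (p ⊗ₜ v) = constantCoeff p • v)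
    (x : MvPolynomial σ k ⊗[k] H) : constantCoeff (freeindep_F ψ x) = ψ (ct x) := by
  induction x using TensorProduct.induction_on with
  | zero => simp
  | tmul p v =>
    rw [freeindep_F_tmul, hct, MvPolynomial.smul_eq_C_mul, map_mul, constantCoeff_C,
      map_smul, smul_eq_mul, mul_comm]
  | add x y hx hy => rw [map_add, map_add, hx, hy, map_add, map_add]

/-- Elements of `K ⊗ H` with linearly independent constant terms are linearly independent
over `K`.  `ct` is the constant term map `K ⊗ H → H`.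
PROOF.  Choose (over the field `k`) a linear `φ : H → (ι → k)` with `φ (ct (b i)) = Pi.single i 1`.
The matrix `Φ i j = ((K ⊗ φ) (b i))_j ∈ K` has constant term the identity matrix, so its
determinant has constant coefficient `1`, so is nonzero; `∑ P_i b_i = 0` gives `P ᵥ* Φ = 0`,
hence `P = 0` (`Matrix.eq_zero_of_vecMul_eq_zero`). -/
theorem lin_indep_of_const {ι : Type} [Fintype ι] (b : ι → MvPolynomial σ k ⊗[k] H)
    (ct : (MvPolynomial σ k ⊗[k] H) →ₗ[k] H)
    (hct : ∀ (p : MvPolynomial σ k) (v : H), ct (p ⊗ₜ v) = constantCoeff p • v)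
    (hb : LinearIndependent k fun i => ct (b i))
    (P : ι → MvPolynomial σ k) (hP : ∑ i, P i • b i = 0) : P = 0 := by
  classical
  have hinj : LinearMap.ker (Fintype.linearCombination k (fun i => ct (b i))) = ⊥ := by
    rw [LinearMap.ker_eq_bot']
    intro g hg
    rw [Fintype.linearCombination_apply] at hg
    exact funext (Fintype.linearIndependent_iff.1 hb g hg)
  obtain ⟨φ, hφ⟩ := LinearMap.exists_leftInverse_of_injective _ hinj
  have hφ1 : ∀ i, φ (ct (b i)) = Pi.single i 1 := by
    intro i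
    have := LinearMap.congr_fun hφ (Pi.single i 1)
    simpa using this
  let Φ : Matrix ι ι (MvPolynomial σ k) :=
    Matrix.of fun i j => freeindep_F (σ := σ) (LinearMap.proj j ∘ₗ φ) (b i)
  have hdet : constantCoeff Φ.det = 1 := by
    rw [RingHom.map_det]
    have : (constantCoeff : MvPolynomial σ k →+* k).mapMatrix Φ = 1 := by
      ext i j
      simp only [RingHom.mapMatrix_apply, Matrix.map_apply, Φ, Matrix.of_apply]
      rw [freeindep_F_const _ ct hct]
      simp only [LinearMap.comp_apply, LinearMap.proj_apply, hφ1]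
      rw [Matrix.one_apply, Pi.single_apply]
      simp only [eq_comm]
    rw [this, Matrix.det_one]
  have hne : Φ.det ≠ 0 := by
    intro h
    rw [h, map_zero] at hdet
    exact zero_ne_one hdet
  apply Matrix.eq_zero_of_vecMul_eq_zero hne
  funext j
  have := congrArg (freeindep_F (σ := σ) (LinearMap.proj j ∘ₗ φ)) hP
  rw [map_sum, map_zero] at this
  simp only [map_smul, smul_eq_mul] at this
  simpa [Matrix.vecMul, dotProduct, Φ] using this

theorem freeindep_poly (p : MvPolynomial σ k) : ∃ q : σ → MvPolynomial σ k,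
    p = C (constantCoeff p) + ∑ j, X j * q j := by
  classical
  induction p using MvPolynomial.induction_on with
  | C a => exact ⟨0, by simp⟩
  | add p q hp hq =>
    obtain ⟨u, hu⟩ := hp
    obtain ⟨v, hv⟩ := hq
    refine ⟨u + v, ?_⟩
    simp only [Pi.add_apply, mul_add, Finset.sum_add_distrib, map_add]
    conv_lhs => rw [hu, hv]
    ring
  | mul_X p i hp =>
    refine ⟨Pi.single i p, ?_⟩
    simp only [map_mul, constantCoeff_X, mul_zero, map_zero, zero_add]
    rw [Finset.sum_eq_single i]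
    · simp [mul_comm]
    · intro j _ hj
      simp [hj]
    · simp

theorem freeindep_dec (ct : (MvPolynomial σ k ⊗[k] H) →ₗ[k] H)
    (hct : ∀ (p : MvPolynomial σ k) (v : H), ct (p ⊗ₜ v) = constantCoeff p • v)
    (x : MvPolynomial σ k ⊗[k] H) : ∃ b : σ → MvPolynomial σ k ⊗[k] H,
    x = 1 ⊗ₜ ct x + ∑ j, (X j : MvPolynomial σ k) • b j := by
  induction x using TensorProduct.induction_on with
  | zero => exact ⟨0, by simp⟩
  | tmul p v =>
    obtain ⟨q, hq⟩ := freeindep_poly p
    refine ⟨fun j => q j ⊗ₜ v, ?_⟩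
    rw [hct]
    conv_lhs => rw [hq]
    rw [TensorProduct.add_tmul, TensorProduct.sum_tmul]
    congr 1
    rw [← TensorProduct.smul_tmul, MvPolynomial.smul_eq_C_mul, mul_one]
  | add x y hx hy =>
    obtain ⟨u, hu⟩ := hx
    obtain ⟨v, hv⟩ := hy
    refine ⟨u + v, ?_⟩
    simp only [Pi.add_apply, smul_add, Finset.sum_add_distrib, map_add, TensorProduct.tmul_add]
    conv_lhs => rw [hu, hv]
    abel

/-- INDEPENDENCE.  PROOF.  `∑ P_i z_i` is a cycle with `ev = 0`, so `U • ∑ P_i z_i = D η` and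
`∑ P_i p(z_i) = 0` (apply `p`, `K ⊗ H` torsion free).  If the constant terms `ct (p z_i)` were
`k`-independent, `lin_indep_of_const` would give `P = 0`.  So there is `c ≠ 0` with
`∑ c_i ct (p z_i) = 0`, i.e. `ct (p (∑ c_i z_i)) = 0`, so `p (∑ c_i z_i) = ∑_j X_j b_j`
(the kernel of `constantCoeff ⊗ H` is the span of the variables).  Put `ζ_j = i (b_j)`; then
`∑ c_i z_i - ∑ X_j ζ_j` is a cycle killed by `p`, so a boundary, so `ev` of it is `0`. -/
theorem free_indep (Md : Model (MvPolynomial σ k) VK D (MvPolynomial σ k ⊗[k] H))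
    (ev : VK →ₗ[MvPolynomial σ k] B) (evD : ∀ z, ev (D z) = 0)
    (U : MvPolynomial σ k) (hU : U ≠ 0)
    (inj : ∀ z, D z = 0 → ev z = 0 → ∃ t, U • z = D t)
    {ι : Type} [Fintype ι] (z : ι → VK) (hz : ∀ i, D (z i) = 0)
    (P : ι → MvPolynomial σ k) (hP0 : P ≠ 0) (hP : ∑ i, P i • ev (z i) = 0) :
    ∃ c : ι → k, c ≠ 0 ∧ ∃ ζ : σ → VK, (∀ j, D (ζ j) = 0) ∧
      ∑ i, (C (c i) : MvPolynomial σ k) • ev (z i) = ∑ j, (X j : MvPolynomial σ k) • ev (ζ j) := by
  classical
  -- the constant term map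
  let cc : MvPolynomial σ k →ₗ[k] k :=
    { toFun := constantCoeff
      map_add' := fun a b => map_add _ a b
      map_smul' := fun a b => by
        rw [MvPolynomial.smul_eq_C_mul, map_mul, constantCoeff_C]; rfl }
  let ct : (MvPolynomial σ k ⊗[k] H) →ₗ[k] H :=
    (TensorProduct.lid k H).toLinearMap ∘ₗ LinearMap.rTensor H cc
  have hct : ∀ (p : MvPolynomial σ k) (v : H), ct (p ⊗ₜ v) = constantCoeff p • v := by
    intro p v
    simp [ct, cc]
  -- the relation between the `p (z i)`
  have hZ : ∑ i, P i • Md.p (z i) = 0 := by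
    have h1 : D (∑ i, P i • z i) = 0 := by
      rw [map_sum]
      exact Finset.sum_eq_zero fun i _ => by rw [map_smul, hz i, smul_zero]
    have h2 : ev (∑ i, P i • z i) = 0 := by
      rw [map_sum, ← hP]
      exact Finset.sum_congr rfl fun i _ => by rw [map_smul]
    obtain ⟨t, ht⟩ := inj _ h1 h2
    have h3 := congrArg Md.p ht
    rw [Md.pD, map_smul] at h3
    have h4 := (smul_eq_zero.1 h3).resolve_left hU
    rw [map_sum] at h4
    rw [← h4]
    exact Finset.sum_congr rfl fun i _ => by rw [map_smul]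
  have hnot : ¬ LinearIndependent k fun i => ct (Md.p (z i)) := fun h =>
    hP0 (lin_indep_of_const (fun i => Md.p (z i)) ct hct h P hZ)
  obtain ⟨c, hc, i₀, hi₀⟩ := Fintype.not_linearIndependent_iff.1 hnot
  have hcz : Md.p (∑ i, (C (c i) : MvPolynomial σ k) • z i) = ∑ i, c i • Md.p (z i) := by
    rw [map_sum]
    refine Finset.sum_congr rfl fun i _ => ?_
    rw [map_smul, ← MvPolynomial.algebraMap_eq, algebraMap_smul]
  obtain ⟨b, hb⟩ := freeindep_dec ct hct (Md.p (∑ i, (C (c i) : MvPolynomial σ k) • z i))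
  have hct0 : ct (Md.p (∑ i, (C (c i) : MvPolynomial σ k) • z i)) = 0 := by
    rw [hcz, map_sum, ← hc]
    exact Finset.sum_congr rfl fun i _ => by rw [map_smul]
  rw [hct0, TensorProduct.tmul_zero, zero_add] at hb
  refine ⟨c, fun h => hi₀ (by rw [h]; rfl), fun j => Md.i (b j), fun j => Md.Di _, ?_⟩
  have hW : D ((∑ i, (C (c i) : MvPolynomial σ k) • z i) -
      ∑ j, (X j : MvPolynomial σ k) • Md.i (b j)) = 0 := by
    rw [map_sub, map_sum, map_sum]
    rw [Finset.sum_eq_zero fun i _ => by rw [map_smul, hz i, smul_zero],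
      Finset.sum_eq_zero fun j _ => by rw [map_smul, Md.Di, smul_zero], sub_zero]
  obtain ⟨t, ht⟩ := Md.hom _ hW
  have hpW : Md.p ((∑ i, (C (c i) : MvPolynomial σ k) • z i) -
      ∑ j, (X j : MvPolynomial σ k) • Md.i (b j)) = 0 := by
    rw [map_sub, hb, map_sum, sub_eq_zero]
    exact Finset.sum_congr rfl fun j _ => by rw [map_smul, Md.pi]
  rw [hpW, map_zero, sub_zero] at ht
  have h5 := congrArg ev ht
  rw [evD, map_sub, sub_eq_zero, map_sum, map_sum] at h5
  simpa only [map_smul] using h5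

end Pool.Agent.H.MP_c30e5d_gt
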