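import Pool.Agent.H.MP_c30e5d_gt.Mixed

/-!
# Consequences of a free model of the homology: saturation
-/

namespace Pool.Agent.H.MP_c30e5d_gt

open TensorProduct MvPolynomial

variable {k : Type} [Field k] {σ : Type} [Fintype σ] {H : Type} [AddCommGroup H] [Module k H]
  {VK : Type} [AddCommGroup VK] [Module (MvPolynomial σ k) VK]
  {D : VK →ₗ[MvPolynomial σ k] VK}
  {B : Type} [AddCommGroup B] [Module (MvPolynomial σ k) B]

/-- SATURATION.  PROOF.  `K = k[y]`.  `q_i z_i - z₀` is a cycle with `ev = 0`, so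
`U (q_i z_i - z₀) = D η` and `U • (q_i p z_i - p z₀) = 0`; `K ⊗ H` is free over `K`
(basis `Algebra.TensorProduct.basis` / `Basis.baseChange` of a `k`-basis of `H`), so
`q_i • p z_i = p z₀`.  All coordinates of `p z₀` in this basis are divisible by each `q_i`,
hence by `∏ q_i` (`Finset.prod_dvd_of_isRelPrime`; `K` is a UFD): `p z₀ = (∏ q) • b`.
Put `z = i b`.  `(∏ q) • z - z₀` is a cycle killed by `p` (`p (i b) = b`), so it is a boundary
(`hom`), and `(∏ q) • ev z = ev z₀ = (∏ q) • g`; cancel (`∏ q ≠ 0`, `B` torsion free). -/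
theorem free_sat (Md : Model (MvPolynomial σ k) VK D (MvPolynomial σ k ⊗[k] H))
    (tf : ∀ (c : MvPolynomial σ k) (b : B), c • b = 0 → c = 0 ∨ b = 0)
    (ev : VK →ₗ[MvPolynomial σ k] B) (evD : ∀ z, ev (D z) = 0)
    (U : MvPolynomial σ k) (hU : U ≠ 0)
    (inj : ∀ z, D z = 0 → ev z = 0 → ∃ t, U • z = D t)
    {ι : Type} [Fintype ι] [DecidableEq ι] (q : ι → MvPolynomial σ k) (hq0 : ∀ i, q i ≠ 0)
    (hq : ∀ i j, i ≠ j → IsRelPrime (q i) (q j)) (g : B)
    (z₀ : VK) (hz₀ : D z₀ = 0) (ez₀ : ev z₀ = (∏ i, q i) • g)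
    (z : ι → VK) (hz : ∀ i, D (z i) = 0)
    (ez : ∀ i, ev (z i) = (∏ j ∈ Finset.univ.erase i, q j) • g) :
    ∃ z' : VK, D z' = 0 ∧ ev z' = g := by
  classical
  set Q : MvPolynomial σ k := ∏ i, q i with hQ
  have hQ0 : Q ≠ 0 := Finset.prod_ne_zero_iff.2 fun i _ => hq0 i
  let bK := (Module.Basis.ofVectorSpace k H).baseChange (MvPolynomial σ k)
  have hdiv : ∀ j, Q ∣ bK.repr (Md.p z₀) j := by
    intro j
    refine Finset.prod_dvd_of_isRelPrime (fun a _ b _ hab => hq a b hab) fun i _ => ?_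
    have h1 : D (q i • z i - z₀) = 0 := by rw [map_sub, map_smul, hz, hz₀]; simp
    have h2 : ev (q i • z i - z₀) = 0 := by
      rw [map_sub, map_smul, ez, ez₀, smul_smul, Finset.mul_prod_erase _ _ (Finset.mem_univ i),
        sub_self]
    obtain ⟨t, ht⟩ := inj _ h1 h2
    have h3 : U • (q i • Md.p (z i) - Md.p z₀) = 0 := by
      rw [← map_smul, ← map_sub, ← map_smul, ht, Md.pD]
    have h4 := congrArg (fun x => bK.repr x j) h3
    simp only [map_smul, map_sub, Finsupp.smul_apply, Finsupp.sub_apply, smul_eq_mul, map_zero,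
      Finsupp.zero_apply] at h4
    have h5 := (mul_eq_zero.1 h4).resolve_left hU
    exact ⟨bK.repr (Md.p (z i)) j, (sub_eq_zero.1 h5).symm⟩
  choose c hc using hdiv
  obtain ⟨b, hb⟩ : ∃ b, Md.p z₀ = Q • b := by
    refine ⟨∑ j ∈ (bK.repr (Md.p z₀)).support, c j • bK j, ?_⟩
    conv_lhs => rw [← bK.linearCombination_repr (Md.p z₀)]
    rw [Finsupp.linearCombination_apply, Finsupp.sum, Finset.smul_sum]
    refine Finset.sum_congr rfl fun j _ => ?_
    rw [hc j, mul_smul]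
  refine ⟨Md.i b, Md.Di b, ?_⟩
  have h1 : D (Q • Md.i b - z₀) = 0 := by rw [map_sub, map_smul, Md.Di, hz₀]; simp
  have h2 : Md.p (Q • Md.i b - z₀) = 0 := by rw [map_sub, map_smul, Md.pi, ← hb, sub_self]
  obtain ⟨t, ht⟩ := Md.hom _ h1
  rw [h2, map_zero, sub_zero] at ht
  have h3 : ev (Q • Md.i b - z₀) = 0 := by rw [ht, evD]
  rw [map_sub, map_smul, ez₀, ← smul_sub] at h3
  exact sub_eq_zero.1 ((tf _ _ h3).resolve_left hQ0)

end Pool.Agent.H.MP_c30e5d_gt
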