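import Pool.Agent.H.MP_c30e5d_gt.Split

/-!
# The perturbation lemma in the parity case

PROOF.  Write `K = k[y]`, all operators below are `K`-linear operators on `K ⊗ V`
(`LinearMap.baseChange` of the ones on `V`; `baseChange_comp` etc.), and
`h = ∑ X_j • (h_j).baseChange`, so `P.DK = d + h`.

Step 1 (splitting homotopy over the field, on `V`) is `exists_splitting` of Split.lean (with
`π = q`); its proof: choose a `k`-linear `s₀ : V → V` with
`d s₀ d = d` (exists over a field: a linear section of `V → range d` extended to `V`).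
Put `s₁ = ∑_{e ≤ len} pr e ∘ s₀ ∘ pr (e+1)`; since `d` has degree `+1`,
`d s₁ d = ∑_e pr(e+1) d s₀ d pr e  = ∑_e pr (e+1) d pr e = d`.  (Use `pr_d`, `pr_d0`, `pr_sum`;
note `pr e z = 0` for `e > len`, from `pr_sum` and `pr_orth`.)
Put `s₂ = s₁ d s₁` (then `d s₂ d = d`, `s₂ d s₂ = s₂`) and `s = s₂ - s₂ s₂ d`.
Then `d s d = d`, `s d s = s`, `s s = 0`:
`s s = s₂² - s₂³ d - s₂ (d s₂... )` : compute
`(s₂ - s₂²d)(s₂ - s₂²d) = s₂² - s₂³d - s₂²d s₂ + s₂²d s₂² d = s₂² - s₂³ d - s₂ s₂ + s₂ s₂ s₂ d = 0`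
using `s₂ d s₂ = s₂`.  Moreover `pr e ∘ s = s ∘ pr (e+1)` and `s ∘ pr 0 = 0`.
Put `π = 1 - d s - s d`.  Then `π π = π`, `d π = 0`, `π d = 0`, `s π = 0`, `π s = 0`
(use `d s d = d`, `s d s = s`, `d d = 0`, `s s = 0`), `π` commutes with every `pr e`.
Parity: if `e` is odd then `π (pr e z) = 0`: `c = π (pr e z)` satisfies `pr e c = c`, `d c = 0`,
so `c = d z'` by `par`, and `c = π c = π d z' = 0`.

Step 2 (on `K ⊗ V`).  `h h = 0` (from `hh`, `CharZero` or directly: `hh j j` gives `2 h_j h_j = 0`),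
`d h + h d = 0`.  `s h` and `h s` are nilpotent: `(s h)^n ∘ pr e = 0` as soon as `2 n > e`
(degrees drop by `2` each time; `s ∘ pr 0 = 0`, `h ∘ pr 0 = 0`).  Hence `1 + s h` and `1 + h s` are
invertible; let `T₁ = (1 + s h)⁻¹`, `T₂ = (1 + h s)⁻¹` (two-sided inverses).
Let `q_odd`, `q_even` be the projections to the odd / even part; `π` kills the odd part.

Let `H = range π ⊆ V`, `inc : H → V`, `π̂ : V → H` (codRestrict of `π`), `inc π̂ = π`, `π̂ inc = 1`.
Put `i = T₁ inc_K`, `p = π̂_K T₂`.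

(Di)  Let `z = T₁ π v`; `(1 + s h) z = π v`, i.e. `z = π v - s h z`.  `z` is in the even part (as `π v`
is and `s h` preserves parity), so `h z` is odd and `π h z = 0`.  Then
`D z = d z + h z = - d s h z + h z = -(1 - π - s d) h z + h z = s d h z = - s h d z
     = - s h (D z - h z) = - s h (D z)`, so `(1 + s h)(D z) = 0`, `D z = 0`.

(pD)  Let `c` be odd.  `π T₂ = π - π T₂ h s`.  So with `p' = π T₂`:
`p' d c = π d c - p' h s d c = - p' h (1 - π - d s) c = - p' h c + p' h d s c`
(`π c = 0`), `= - p' h c - p' d h s c`; so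
`p' D c = p' d c + p' h c = - p' d h s c = - p' (D - h) h s c = - p' D (h s c)`.
So `p' D (1 + h s) c = 0` for all odd `c`, and `1 + h s` is bijective on the odd part.
If `c` is even, `D c` is odd, `T₂ D c` is odd and `π` kills it.

(pi)  `π T₂ T₁ π = π`: expand `T₂ = 1 - T₂ h s`, `T₁ = 1 - s h T₁`, use `s π = 0`, `π s = 0`,
`s s = 0`:  `T₁ π = π - s h T₁ π`; `s T₁ π = s π - s s h T₁ π = 0`; so
`π T₂ T₁ π = π T₁ π - π T₂ h s T₁ π = π T₁ π = π π - π s h T₁ π = π`.

(hom)  Let `D z = 0`, `θ = s T₂ z`, so that `θ = s z - s h θ`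
(`T₂ z = z - h s T₂ z = z - h θ`).  Let `r = z - D θ = z - d θ - h θ = T₂ z - d θ`.
`d θ = d s T₂ z = (1 - π - s d) T₂ z`, so `r = π T₂ z + s d T₂ z`, and
`d T₂ z = d z - d h θ = - h z + h d θ = - h z + h (T₂ z - r) = - h z + h (z - h θ) - h r = - h r`.
So `(1 + s h) r = π T₂ z`, `r = T₁ π T₂ z = i (p z)`.
-/

namespace Pool.Agent.H.MP_c30e5d_gt

open TensorProduct MvPolynomial

section ring

variable {E : Type} [Ring E]

theorem hpl_Di (d h s q o T1 : E) (hh : h * h = 0) (dh : d * h = -(h * d))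
    (hq : d * s = 1 - q - s * d) (dq : d * q = 0)
    (qo : q * o = 0) (oq : o * q = 0) (oh : o * h = h - h * o) (os : o * s = s - s * o)
    (a1 : T1 * (1 + s * h) = 1) (a2 : (1 + s * h) * T1 = 1) :
    (d + h) * (T1 * q) = 0 := by
  obtain ⟨z, hz⟩ : ∃ z, z = T1 * q := ⟨_, rfl⟩
  rw [← hz]
  have z1 : z + s * (h * z) = q := by
    have : (1 + s * h) * T1 * q = q := by rw [a2, one_mul]
    rw [mul_assoc, ← hz] at this
    calc z + s * (h * z) = (1 + s * h) * z := by noncomm_ring
      _ = q := this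
  have osh : o * (s * h) = s * h * o := by
    calc o * (s * h) = o * s * h := by noncomm_ring
      _ = (s - s * o) * h := by rw [os]
      _ = s * h - s * (o * h) := by noncomm_ring
      _ = s * h - s * (h - h * o) := by rw [oh]
      _ = s * h * o := by noncomm_ring
  have oz : o * z = 0 := by
    have e1 : (1 + s * h) * (o * z) = 0 := by
      calc (1 + s * h) * (o * z) = o * z + s * h * o * z := by noncomm_ring
        _ = o * z + o * (s * h) * z := by rw [osh]
        _ = o * (z + s * (h * z)) := by noncomm_ring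
        _ = 0 := by rw [z1, oq]
    calc o * z = T1 * (1 + s * h) * (o * z) := by rw [a1, one_mul]
      _ = T1 * ((1 + s * h) * (o * z)) := by rw [mul_assoc]
      _ = 0 := by rw [e1, mul_zero]
  have qhz : q * (h * z) = 0 := by
    calc q * (h * z) = q * ((h - h * o) * z) + q * h * (o * z) := by noncomm_ring
      _ = q * (o * h * z) + 0 := by rw [oz, mul_zero, oh]
      _ = q * o * h * z := by noncomm_ring
      _ = 0 := by rw [qo, zero_mul, zero_mul]
  have dz : d * z = -(h * z) + s * (d * h) * z := by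
    have e1 : z = q - s * (h * z) := by rw [← z1]; noncomm_ring
    calc d * z = d * (q - s * (h * z)) := by rw [← e1]
      _ = d * q - d * s * (h * z) := by noncomm_ring
      _ = 0 - (1 - q - s * d) * (h * z) := by rw [dq, hq]
      _ = -(h * z) + q * (h * z) + s * (d * h) * z := by noncomm_ring
      _ = -(h * z) + s * (d * h) * z := by rw [qhz, add_zero]
  have Dz : (1 + s * h) * ((d + h) * z) = 0 := by
    calc (1 + s * h) * ((d + h) * z) = d * z + h * z + s * (h * d) * z + s * (h * h) * z := by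
          noncomm_ring
      _ = -(h * z) + s * (d * h) * z + h * z + s * (h * d) * z + s * 0 * z := by rw [dz, hh]
      _ = s * (d * h) * z + s * (h * d) * z := by noncomm_ring
      _ = 0 := by rw [dh]; noncomm_ring
  calc (d + h) * z = T1 * (1 + s * h) * ((d + h) * z) := by rw [a1, one_mul]
    _ = T1 * ((1 + s * h) * ((d + h) * z)) := by rw [mul_assoc]
    _ = 0 := by rw [Dz, mul_zero]

theorem hpl_pD (d h s q o T2 : E) (hh : h * h = 0) (dh : d * h = -(h * d))
    (hq : d * s = 1 - q - s * d) (qd : q * d = 0)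
    (qo : q * o = 0) (od : o * d = d - d * o) (oh : o * h = h - h * o)
    (os : o * s = s - s * o)
    (b1 : T2 * (1 + h * s) = 1) (b2 : (1 + h * s) * T2 = 1) :
    q * T2 * (d + h) = 0 := by
  have ohs : o * (h * s) = h * s * o := by
    calc o * (h * s) = o * h * s := by noncomm_ring
      _ = (h - h * o) * s := by rw [oh]
      _ = h * s - h * (o * s) := by noncomm_ring
      _ = h * s - h * (s - s * o) := by rw [os]
      _ = h * s * o := by noncomm_ring
  have oT : o * T2 = T2 * o := by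
    have e1 : o * (1 + h * s) = (1 + h * s) * o := by
      calc o * (1 + h * s) = o + o * (h * s) := by noncomm_ring
        _ = o + h * s * o := by rw [ohs]
        _ = (1 + h * s) * o := by noncomm_ring
    calc o * T2 = T2 * (1 + h * s) * (o * T2) := by rw [b1, one_mul]
      _ = T2 * ((1 + h * s) * o) * T2 := by noncomm_ring
      _ = T2 * (o * (1 + h * s)) * T2 := by rw [e1]
      _ = T2 * o * ((1 + h * s) * T2) := by noncomm_ring
      _ = T2 * o := by rw [b2, mul_one]
  obtain ⟨p, hp⟩ : ∃ p, p = q * T2 := ⟨_, rfl⟩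
  rw [← hp]
  have po : p * o = 0 := by
    rw [hp, mul_assoc, ← oT, ← mul_assoc, qo, zero_mul]
  have oD : o * (d + h) = (d + h) - (d + h) * o := by
    rw [mul_add, od, oh]; noncomm_ring
  have p1 : p = q - p * (h * s) := by
    have : q * (T2 * (1 + h * s)) = q := by rw [b1, mul_one]
    calc p = q * (T2 * (1 + h * s)) - q * T2 * (h * s) := by rw [hp]; noncomm_ring
      _ = q - p * (h * s) := by rw [this, hp]
  have ev : p * (d + h) = p * (d + h) * o := by
    have : p * (o * (d + h)) = 0 := by rw [← mul_assoc, po, zero_mul]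
    rw [oD] at this
    have e2 : p * (d + h - (d + h) * o) = p * (d + h) - p * (d + h) * o := by noncomm_ring
    rw [e2] at this
    exact sub_eq_zero.1 this
  have pdo : p * d * o = -(p * h * o) - p * d * (h * s) * o := by
    have qo' : q * d * o = 0 := by rw [qd, zero_mul]
    calc p * d * o = (q - p * (h * s)) * d * o := by rw [← p1]
      _ = q * d * o - p * h * (s * d) * o := by noncomm_ring
      _ = 0 - p * h * (1 - q - d * s) * o := by
          rw [qo']
          congr 3
          rw [hq]; noncomm_ring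
      _ = -(p * h * o) + p * h * (q * o) + p * (h * d) * s * o := by noncomm_ring
      _ = -(p * h * o) - p * (d * h) * s * o := by rw [qo, dh]; noncomm_ring
      _ = -(p * h * o) - p * d * (h * s) * o := by noncomm_ring
  have key : p * (d + h) * o * (1 + h * s) = 0 := by
    calc p * (d + h) * o * (1 + h * s) = p * (d + h) * (o + o * (h * s)) := by noncomm_ring
      _ = p * (d + h) * (o + h * s * o) := by rw [ohs]
      _ = p * d * o + p * h * o + p * d * (h * s) * o + p * (h * h) * s * o := by noncomm_ring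
      _ = 0 := by rw [pdo, hh]; noncomm_ring
  rw [ev]
  calc p * (d + h) * o = p * (d + h) * o * ((1 + h * s) * T2) := by rw [b2, mul_one]
    _ = p * (d + h) * o * (1 + h * s) * T2 := by noncomm_ring
    _ = 0 := by rw [key, zero_mul]

theorem hpl_pi (h s q T1 T2 : E) (ss : s * s = 0) (qq : q * q = q) (sq : s * q = 0)
    (qs : q * s = 0) (a2 : (1 + s * h) * T1 = 1) (b1 : T2 * (1 + h * s) = 1) :
    q * T2 * (T1 * q) = q := by
  have z1 : T1 * q = q - s * h * (T1 * q) := by
    have : (1 + s * h) * T1 * q = q := by rw [a2, one_mul]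
    calc T1 * q = (1 + s * h) * T1 * q - s * h * (T1 * q) := by noncomm_ring
      _ = q - s * h * (T1 * q) := by rw [this]
  have sT : s * (T1 * q) = 0 := by
    rw [z1]
    calc s * (q - s * h * (T1 * q)) = s * q - s * s * h * (T1 * q) := by noncomm_ring
      _ = 0 := by rw [sq, ss]; noncomm_ring
  have p1 : q * T2 = q - q * T2 * (h * s) := by
    have : q * (T2 * (1 + h * s)) = q := by rw [b1, mul_one]
    calc q * T2 = q * (T2 * (1 + h * s)) - q * T2 * (h * s) := by noncomm_ring
      _ = q - q * T2 * (h * s) := by rw [this]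
  calc q * T2 * (T1 * q) = (q - q * T2 * (h * s)) * (T1 * q) := by rw [← p1]
    _ = q * (T1 * q) - q * T2 * h * (s * (T1 * q)) := by noncomm_ring
    _ = q * (T1 * q) := by rw [sT, mul_zero, sub_zero]
    _ = q * (q - s * h * (T1 * q)) := by rw [← z1]
    _ = q * q - q * s * h * (T1 * q) := by noncomm_ring
    _ = q := by rw [qq, qs]; noncomm_ring

theorem hpl_hom (d h s q T1 T2 : E) (hh : h * h = 0) (dh : d * h = -(h * d))
    (hq : d * s = 1 - q - s * d)
    (a1 : T1 * (1 + s * h) = 1) (b2 : (1 + h * s) * T2 = 1) :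
    1 - (d + h) * (s * T2) = T1 * (q * T2) + T1 * (s * (d + h)) := by
  obtain ⟨r, hr⟩ : ∃ r, r = 1 - (d + h) * (s * T2) := ⟨_, rfl⟩
  rw [← hr]
  have t1 : T2 = 1 - h * (s * T2) := by
    rw [← b2]; noncomm_ring
  have r1 : r = T2 - d * s * T2 := by
    rw [hr]
    calc 1 - (d + h) * (s * T2) = (1 - h * (s * T2)) - d * s * T2 := by noncomm_ring
      _ = T2 - d * s * T2 := by rw [← t1]
  have r2 : r = q * T2 + s * (d * T2) := by
    rw [r1, hq]; noncomm_ring
  have r3 : d * T2 = (d + h) - h * r := by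
    calc d * T2 = d * (1 - h * (s * T2)) := by rw [← t1]
      _ = d - d * h * (s * T2) := by noncomm_ring
      _ = d + h * (d * s * T2) := by rw [dh]; noncomm_ring
      _ = d + h * (T2 - r) := by rw [r1]; noncomm_ring
      _ = d + h * T2 - h * r := by noncomm_ring
      _ = d + h * (1 - h * (s * T2)) - h * r := by rw [← t1]
      _ = d + h - h * h * (s * T2) - h * r := by noncomm_ring
      _ = (d + h) - h * r := by rw [hh]; noncomm_ring
  have r4 : (1 + s * h) * r = q * T2 + s * (d + h) := by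
    calc (1 + s * h) * r = r + s * h * r := by noncomm_ring
      _ = q * T2 + s * (d * T2) + s * h * r := by rw [← r2]
      _ = q * T2 + s * (d + h) := by rw [r3]; noncomm_ring
  calc r = T1 * (1 + s * h) * r := by rw [a1, one_mul]
    _ = T1 * ((1 + s * h) * r) := by rw [mul_assoc]
    _ = T1 * (q * T2) + T1 * (s * (d + h)) := by rw [r4]; noncomm_ring

end ring

variable {k : Type} [Field k] {σ : Type} [Fintype σ] {V : Type} [AddCommGroup V] [Module k V]

/-- the projection to the odd part -/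
noncomputable def hplOdd (P : Mixed k σ V) : V →ₗ[k] V :=
  ∑ e ∈ Finset.range (P.len + 1), if Odd e then P.pr e else 0

theorem hpl_pr_big (P : Mixed k σ V) (e : ℕ) (he : P.len < e) (z : V) : P.pr e z = 0 := by
  have h1 := P.pr_sum (P.pr e z)
  rw [← h1]
  refine Finset.sum_eq_zero fun e' he' => P.pr_orth e' e z ?_
  have := Finset.mem_range.1 he'
  omega

theorem hpl_ext (P : Mixed k σ V) {f g : V →ₗ[k] V} (h : ∀ e z, f (P.pr e z) = g (P.pr e z)) :
    f = g := by
  ext z
  rw [← P.pr_sum z, map_sum, map_sum]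
  exact Finset.sum_congr rfl fun e _ => h e z

theorem hplOdd_apply (P : Mixed k σ V) (z : V) :
    hplOdd P z = ∑ e ∈ Finset.range (P.len + 1), if Odd e then P.pr e z else 0 := by
  unfold hplOdd
  rw [LinearMap.sum_apply]
  refine Finset.sum_congr rfl fun e _ => ?_
  split_ifs <;> rfl

theorem hplOdd_pr (P : Mixed k σ V) (e : ℕ) (z : V) :
    hplOdd P (P.pr e z) = if Odd e then P.pr e z else 0 := by
  rw [hplOdd_apply]
  rw [Finset.sum_eq_single e]
  · rw [P.pr_idem]
  · intro e' _ hne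
    rw [P.pr_orth e' e z hne, ite_self]
  · intro hn
    have : P.len < e := by
      rw [Finset.mem_range] at hn; omega
    rw [hpl_pr_big P e this]
    simp

theorem hpl_h0 (P : Mixed k σ V) (j : σ) (z : V) : P.h j (P.pr 0 z) = 0 := by
  rw [← P.pr_sum (P.h j (P.pr 0 z))]
  refine Finset.sum_eq_zero fun e _ => ?_
  rw [P.pr_h, P.pr_orth _ _ _ (by omega), map_zero]

theorem hplOdd_d (P : Mixed k σ V) : hplOdd P ∘ₗ P.d = P.d - P.d ∘ₗ hplOdd P := by
  refine hpl_ext P fun e z => ?_
  simp only [LinearMap.comp_apply, LinearMap.sub_apply]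
  rw [← P.pr_d, hplOdd_pr, hplOdd_pr, P.pr_d]
  rcases Nat.even_or_odd e with h | h
  · rw [if_pos h.add_one, if_neg (Nat.not_odd_iff_even.2 h), map_zero, sub_zero]
  · rw [if_neg (Nat.not_odd_iff_even.2 h.add_one), if_pos h, sub_self]

theorem hplOdd_down (P : Mixed k σ V) (f : V →ₗ[k] V) (h0 : ∀ z, f (P.pr 0 z) = 0)
    (h1 : ∀ e z, P.pr e (f z) = f (P.pr (e + 1) z)) :
    hplOdd P ∘ₗ f = f - f ∘ₗ hplOdd P := by
  refine hpl_ext P fun e z => ?_
  simp only [LinearMap.comp_apply, LinearMap.sub_apply]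
  rcases e with _ | e
  · rw [h0, hplOdd_pr, if_neg (by decide), map_zero, map_zero, sub_zero]
  · rw [← h1, hplOdd_pr, hplOdd_pr, h1]
    rcases Nat.even_or_odd e with h | h
    · rw [if_pos h.add_one, if_neg (Nat.not_odd_iff_even.2 h), sub_self]
    · rw [if_neg (Nat.not_odd_iff_even.2 h.add_one), if_pos h, map_zero, sub_zero]

theorem hplOdd_q (P : Mixed k σ V) (q : V →ₗ[k] V) (h2 : ∀ e z, Odd e → q (P.pr e z) = 0) :
    q ∘ₗ hplOdd P = 0 := by
  refine hpl_ext P fun e z => ?_
  simp only [LinearMap.comp_apply, LinearMap.zero_apply]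
  rw [hplOdd_pr]
  split_ifs with h
  · exact h2 e z h
  · exact map_zero _

theorem hplOdd_q2 (P : Mixed k σ V) (q : V →ₗ[k] V) (h1 : ∀ e z, P.pr e (q z) = q (P.pr e z))
    (h2 : ∀ e z, Odd e → q (P.pr e z) = 0) :
    hplOdd P ∘ₗ q = 0 := by
  refine hpl_ext P fun e z => ?_
  simp only [LinearMap.comp_apply, LinearMap.zero_apply]
  rw [← h1, hplOdd_pr]
  split_ifs with h
  · rw [h1]; exact h2 e z h
  · rfl

theorem hpl_nil {E : Type} [Ring E] (s h : E) (p : ℕ → E) (len : ℕ)
    (sum : ∑ e ∈ Finset.range (len + 1), p e = 1)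
    (hp : ∀ e, p e * h = h * p (e + 1)) (hp0 : h * p 0 = 0)
    (sp : ∀ e, p e * s = s * p (e + 1)) (sp0 : s * p 0 = 0) : (s * h) ^ (len + 1) = 0 := by
  have key : ∀ n e, e < 2 * n → (s * h) ^ n * p e = 0 := by
    intro n
    induction n with
    | zero => intro e he; omega
    | succ n ih =>
      intro e he
      rw [pow_succ, mul_assoc]
      rcases e with _ | _ | e
      · rw [mul_assoc s h, hp0, mul_zero, mul_zero]
      · rw [mul_assoc s h, ← hp, ← mul_assoc s, sp0, zero_mul, mul_zero]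
      · rw [mul_assoc s h, ← hp, ← mul_assoc s, ← sp, mul_assoc (p e), ← mul_assoc,
          ih e (by omega), zero_mul]
  rw [← mul_one ((s * h) ^ (len + 1)), ← sum, Finset.mul_sum]
  refine Finset.sum_eq_zero fun e he => key _ _ ?_
  have := Finset.mem_range.1 he
  omega

theorem hpl_abs [CharZero k] (P : Mixed k σ V) (s q : V →ₗ[k] V)
    (q1 : ∀ z, q z = z - P.d (s z) - s (P.d z)) (ss : ∀ z, s (s z) = 0) (qq : ∀ z, q (q z) = q z)
    (dq : ∀ z, P.d (q z) = 0) (qd : ∀ z, q (P.d z) = 0) (sq : ∀ z, s (q z) = 0)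
    (qs : ∀ z, q (s z) = 0) (sp : ∀ e z, P.pr e (s z) = s (P.pr (e + 1) z))
    (sp0 : ∀ z, s (P.pr 0 z) = 0) (qp : ∀ e z, P.pr e (q z) = q (P.pr e z))
    (qo : ∀ e z, Odd e → q (P.pr e z) = 0)
    {E : Type} [Ring E] [Algebra (MvPolynomial σ k) E] (B : Module.End k V →+* E) (h' : E)
    (hh' : h' = ∑ j, (X j : MvPolynomial σ k) • B (P.h j)) :
    ∃ T1 T2 : E, (B P.d + h') * (T1 * B q) = 0 ∧ B q * T2 * (B P.d + h') = 0 ∧
      B q * T2 * (T1 * B q) = B q ∧
      1 - (B P.d + h') * (B s * T2) = T1 * (B q * T2) + T1 * (B s * (B P.d + h')) := by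
  obtain ⟨d', hd'⟩ : ∃ d', d' = B P.d := ⟨_, rfl⟩
  obtain ⟨s', hs'⟩ : ∃ s', s' = B s := ⟨_, rfl⟩
  obtain ⟨q', hq'⟩ : ∃ q', q' = B q := ⟨_, rfl⟩
  obtain ⟨o', ho'⟩ : ∃ o', o' = B (hplOdd P) := ⟨_, rfl⟩
  -- relations on `V`
  have e_dh : ∀ j, P.d * P.h j = -(P.h j * P.d) := fun j => by
    ext z
    exact eq_neg_of_add_eq_zero_left (P.dh j z)
  have e_hh : ∀ i j, P.h i * P.h j = -(P.h j * P.h i) := fun i j => by
    ext z
    exact eq_neg_of_add_eq_zero_left (P.hh i j z)
  have e_hq : P.d * s = 1 - q - s * P.d := by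
    ext z
    change P.d (s z) = z - q z - s (P.d z)
    rw [q1]; abel
  have e_ss : s * s = 0 := by ext z; exact ss z
  have e_qq : q * q = q := by ext z; exact qq z
  have e_dq : P.d * q = 0 := by ext z; exact dq z
  have e_qd : q * P.d = 0 := by ext z; exact qd z
  have e_sq : s * q = 0 := by ext z; exact sq z
  have e_qs : q * s = 0 := by ext z; exact qs z
  have e_qo : q * hplOdd P = 0 := hplOdd_q P q qo
  have e_oq : hplOdd P * q = 0 := hplOdd_q2 P q qp qo
  have e_od : hplOdd P * P.d = P.d - P.d * hplOdd P := hplOdd_d P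
  have e_os : hplOdd P * s = s - s * hplOdd P := hplOdd_down P s sp0 sp
  have e_oh : ∀ j, hplOdd P * P.h j = P.h j - P.h j * hplOdd P := fun j =>
    hplOdd_down P (P.h j) (hpl_h0 P j) (P.pr_h j)
  have e_hp : ∀ j e, P.pr e * P.h j = P.h j * P.pr (e + 1) := fun j e => by
    ext z; exact P.pr_h j e z
  have e_hp0 : ∀ j, P.h j * P.pr 0 = 0 := fun j => by
    ext z; exact hpl_h0 P j z
  have e_sp : ∀ e, P.pr e * s = s * P.pr (e + 1) := fun e => by
    ext z; exact sp e z
  have e_sp0 : s * P.pr 0 = 0 := by ext z; exact sp0 z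
  have e_sum : ∑ e ∈ Finset.range (P.len + 1), P.pr e = (1 : Module.End k V) := by
    ext z
    rw [LinearMap.sum_apply]
    exact P.pr_sum z
  -- relations on the base change
  have b_dh : d' * h' = -(h' * d') := by
    rw [hd', hh', Finset.mul_sum, Finset.sum_mul, ← Finset.sum_neg_distrib]
    refine Finset.sum_congr rfl fun j _ => ?_
    rw [mul_smul_comm, smul_mul_assoc, ← map_mul, ← map_mul, e_dh, map_neg, smul_neg]
  have b_hh : h' * h' = 0 := by
    have e1 : h' * h' = ∑ i, ∑ j, (X i * X j : MvPolynomial σ k) • B (P.h i * P.h j) := by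
      rw [hh', Finset.sum_mul_sum]
      refine Finset.sum_congr rfl fun i _ => Finset.sum_congr rfl fun j _ => ?_
      rw [smul_mul_smul_comm, map_mul]
    have e2 : h' * h' = -(h' * h') := by
      conv_lhs => rw [e1, Finset.sum_comm]
      rw [e1, ← Finset.sum_neg_distrib]
      refine Finset.sum_congr rfl fun i _ => ?_
      rw [← Finset.sum_neg_distrib]
      refine Finset.sum_congr rfl fun j _ => ?_
      rw [e_hh j i, map_neg, smul_neg, mul_comm]
    have e3 : (2 : MvPolynomial σ k) • (h' * h') = 0 := by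
      rw [two_smul]
      nth_rewrite 1 [e2]
      exact neg_add_cancel _
    have e4 : (C (1 / 2 : k) * 2 : MvPolynomial σ k) = 1 := by
      have : (2 : MvPolynomial σ k) = C (2 : k) := by
        rw [map_ofNat]
      rw [this, ← C_mul]
      norm_num
    calc h' * h' = (C (1 / 2 : k) * 2 : MvPolynomial σ k) • (h' * h') := by rw [e4, one_smul]
      _ = C (1 / 2 : k) • ((2 : MvPolynomial σ k) • (h' * h')) := by rw [mul_smul]
      _ = 0 := by rw [e3, smul_zero]
  have b_hq : d' * s' = 1 - q' - s' * d' := by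
    rw [hd', hs', hq', ← map_mul, e_hq, map_sub, map_sub, map_mul, map_one]
  have b_ss : s' * s' = 0 := by rw [hs', ← map_mul, e_ss, map_zero]
  have b_qq : q' * q' = q' := by rw [hq', ← map_mul, e_qq]
  have b_dq : d' * q' = 0 := by rw [hd', hq', ← map_mul, e_dq, map_zero]
  have b_qd : q' * d' = 0 := by rw [hd', hq', ← map_mul, e_qd, map_zero]
  have b_sq : s' * q' = 0 := by rw [hs', hq', ← map_mul, e_sq, map_zero]
  have b_qs : q' * s' = 0 := by rw [hs', hq', ← map_mul, e_qs, map_zero]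
  have b_qo : q' * o' = 0 := by rw [hq', ho', ← map_mul, e_qo, map_zero]
  have b_oq : o' * q' = 0 := by rw [hq', ho', ← map_mul, e_oq, map_zero]
  have b_od : o' * d' = d' - d' * o' := by
    rw [ho', hd', ← map_mul, e_od, map_sub, map_mul]
  have b_os : o' * s' = s' - s' * o' := by
    rw [ho', hs', ← map_mul, e_os, map_sub, map_mul]
  have b_oh : o' * h' = h' - h' * o' := by
    rw [ho', hh', Finset.mul_sum, Finset.sum_mul, ← Finset.sum_sub_distrib]
    refine Finset.sum_congr rfl fun j _ => ?_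
    rw [mul_smul_comm, smul_mul_assoc, ← map_mul, e_oh, map_sub, map_mul, smul_sub]
  have b_nil : (s' * h') ^ (P.len + 1) = 0 := by
    refine hpl_nil s' h' (fun e => B (P.pr e)) P.len ?_ ?_ ?_ ?_ ?_
    · rw [← map_sum, e_sum, map_one]
    · intro e
      rw [hh', Finset.mul_sum, Finset.sum_mul]
      refine Finset.sum_congr rfl fun j _ => ?_
      rw [mul_smul_comm, smul_mul_assoc, ← map_mul, e_hp, map_mul]
    · rw [hh', Finset.sum_mul]
      refine Finset.sum_eq_zero fun j _ => ?_
      rw [smul_mul_assoc, ← map_mul, e_hp0, map_zero, smul_zero]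
    · intro e
      rw [hs', ← map_mul, e_sp, map_mul]
    · rw [hs', ← map_mul, e_sp0, map_zero]
  have u1 : IsUnit (1 + s' * h') := IsNilpotent.isUnit_one_add ⟨_, b_nil⟩
  obtain ⟨T1, a2, a1⟩ := isUnit_iff_exists.1 u1
  obtain ⟨T2, hT2⟩ : ∃ T2, T2 = 1 - h' * T1 * s' := ⟨_, rfl⟩
  have b1 : T2 * (1 + h' * s') = 1 := by
    rw [hT2]
    calc (1 - h' * T1 * s') * (1 + h' * s')
        = 1 + h' * s' - h' * (T1 * (1 + s' * h')) * s' := by noncomm_ring
      _ = 1 := by rw [a1]; noncomm_ring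
  have b2 : (1 + h' * s') * T2 = 1 := by
    rw [hT2]
    calc (1 + h' * s') * (1 - h' * T1 * s')
        = 1 + h' * s' - h' * ((1 + s' * h') * T1) * s' := by noncomm_ring
      _ = 1 := by rw [a2]; noncomm_ring
  have r1 := hpl_Di d' h' s' q' o' T1 b_hh b_dh b_hq b_dq b_qo b_oq b_oh b_os a1 a2
  have r2 := hpl_pD d' h' s' q' o' T2 b_hh b_dh b_hq b_qd b_qo b_od b_oh b_os b1 b2
  have r3 := hpl_pi h' s' q' T1 T2 b_ss b_qq b_sq b_qs a2 b1
  have r4 := hpl_hom d' h' s' q' T1 T2 b_hh b_dh b_hq a1 b2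
  rw [← hd', ← hq', ← hs']
  exact ⟨T1, T2, r1, r2, r3, r4⟩

/-- The perturbation lemma in the parity case. -/
theorem hpl [CharZero k] (P : Mixed k σ V)
    (par : ∀ e z, Odd e → P.pr e z = z → P.d z = 0 → ∃ z', P.d z' = z) :
    ∃ H : Submodule k V, Nonempty (Model (MvPolynomial σ k) (MvPolynomial σ k ⊗[k] V) P.DK
      (MvPolynomial σ k ⊗[k] H)) := by
  obtain ⟨s, q, q1, ss, qq, dq, qd, sq, qs, sp, sp0, qp, qo⟩ := exists_splitting P par
  obtain ⟨T1, T2, r1, r2, r3, r4⟩ := hpl_abs P s q q1 ss qq dq qd sq qs sp sp0 qp qo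
    (E := Module.End (MvPolynomial σ k) (MvPolynomial σ k ⊗[k] V))
    (Module.End.baseChangeHom k (MvPolynomial σ k) V).toRingHom
    (∑ j, (X j : MvPolynomial σ k) • (P.h j).baseChange (MvPolynomial σ k)) rfl
  have DK : P.DK = P.d.baseChange (MvPolynomial σ k) +
    ∑ j, (X j : MvPolynomial σ k) • (P.h j).baseChange (MvPolynomial σ k) := rfl
  -- the model
  let H : Submodule k V := LinearMap.range q
  let inc : (MvPolynomial σ k ⊗[k] H) →ₗ[MvPolynomial σ k] (MvPolynomial σ k ⊗[k] V) :=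
    H.subtype.baseChange (MvPolynomial σ k)
  let hat : (MvPolynomial σ k ⊗[k] V) →ₗ[MvPolynomial σ k] (MvPolynomial σ k ⊗[k] H) :=
    q.rangeRestrict.baseChange (MvPolynomial σ k)
  have ih : ∀ z, inc (hat z) = q.baseChange (MvPolynomial σ k) z := by
    intro z
    have e1 : H.subtype ∘ₗ q.rangeRestrict = q := by ext z; rfl
    have e2 := LinearMap.baseChange_comp (A := MvPolynomial σ k) (f := q.rangeRestrict) H.subtype
    rw [e1] at e2
    exact (congrArg (fun f => f z) e2).symm
  have hi : ∀ b, hat (inc b) = b := by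
    intro b
    have e1 : q.rangeRestrict ∘ₗ H.subtype = LinearMap.id := by
      ext ⟨z, hz⟩
      obtain ⟨w, rfl⟩ := hz
      exact qq w
    have e2 := LinearMap.baseChange_comp (A := MvPolynomial σ k) (f := H.subtype) q.rangeRestrict
    rw [e1, LinearMap.baseChange_id] at e2
    exact (congrArg (fun f => f b) e2).symm
  have qi : ∀ b, q.baseChange (MvPolynomial σ k) (inc b) = inc b := fun b => by rw [← ih, hi]
  have hq2 : ∀ z, hat (q.baseChange (MvPolynomial σ k) z) = hat z := fun z => by rw [← ih, hi]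
  have R1 : ∀ z, P.DK (T1 (q.baseChange (MvPolynomial σ k) z)) = 0 := fun z => congrArg (fun f => f z) r1
  have R2 : ∀ z, q.baseChange (MvPolynomial σ k) (T2 (P.DK z)) = 0 := fun z => congrArg (fun f => f z) r2
  have R3 : ∀ z, q.baseChange (MvPolynomial σ k) (T2 (T1 (q.baseChange (MvPolynomial σ k) z))) = q.baseChange (MvPolynomial σ k) z := fun z => congrArg (fun f => f z) r3
  have R4 : ∀ z, z - P.DK (s.baseChange (MvPolynomial σ k) (T2 z)) = T1 (q.baseChange (MvPolynomial σ k) (T2 z)) + T1 (s.baseChange (MvPolynomial σ k) (P.DK z)) :=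
    fun z => congrArg (fun f => f z) r4
  refine ⟨H, ⟨{ p := hat ∘ₗ T2, i := T1 ∘ₗ inc, Di := ?_, pD := ?_, pi := ?_, hom := ?_ }⟩⟩
  · intro b
    rw [LinearMap.comp_apply, ← qi]
    exact R1 _
  · intro z
    rw [LinearMap.comp_apply, ← hq2, R2, map_zero]
  · intro b
    rw [LinearMap.comp_apply, LinearMap.comp_apply, ← hq2, ← qi, R3, qi, hi]
  · intro z hz
    refine ⟨s.baseChange (MvPolynomial σ k) (T2 z), ?_⟩
    have := R4 z
    rw [hz, map_zero, map_zero, add_zero] at this
    rw [LinearMap.comp_apply, LinearMap.comp_apply, ih, ← this]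
    abel

end Pool.Agent.H.MP_c30e5d_gt
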