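import Pool.Agent.H.MP_c30e5d_gt.FinB
import Pool.Agent.H.MP_c30e5d_gt.Hpl
import Pool.Agent.H.MP_c30e5d_gt.FreeSat
import Pool.Agent.H.MP_c30e5d_gt.FreeIndep
import Pool.Agent.H.MP_c30e5d_gt.AlgPrime

/-!
# The consequences of the vanishing of the odd homology
-/

namespace Pool.Agent.H.MP_c30e5d_gt

open MvPolynomial TensorProduct

section
variable (k : Type) [Field k] (m : ℕ)

theorem fin_smul (p : Ky k m) (b : Axy k m) : p • b = C p * b := smul_eq_C_mul _ _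

theorem fin_dif (s : Sym2 (Fin (m + 1))) :
    dif (yA k m) s = C (dif (fun j => (X j : Ky k m)) s) := by
  simp [dif, yA]

theorem fin_Cprod (S : Multiset (Sym2 (Fin (m + 1)))) :
    (S.map (dif (yA k m))).prod = C (S.map (dif fun j => (X j : Ky k m))).prod := by
  rw [map_multiset_prod, Multiset.map_map]
  congr 1
  exact Multiset.map_congr rfl fun s _ => fin_dif k m s

/-- The linear algebra package: a complex `VK` over `K = k[y]`, an evaluation `ev`, and a model of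
its homology. -/
structure Pack (b : ℕ → ℕ) where
  V : Type
  [ag : AddCommGroup V]
  [mo : Module k V]
  H : Type
  [agH : AddCommGroup H]
  [moH : Module k H]
  D : (Ky k m ⊗[k] V) →ₗ[Ky k m] (Ky k m ⊗[k] V)
  Md : Model (Ky k m) (Ky k m ⊗[k] V) D (Ky k m ⊗[k] H)
  ev : (Ky k m ⊗[k] V) →ₗ[Ky k m] Axy k m
  evD : ∀ z, ev (D z) = 0
  U : Ky k m
  hU : U ≠ 0
  inj : ∀ z, D z = 0 → ev z = 0 → ∃ t, U • z = D t
  im : ∀ g : Axy k m, (∃ z ∈ CC (xA k m) (yA k m) 1 (FO (xA k m) 1 (jmWord m b)),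
      evF (xA k m) 1 (jmWord m b) z = g) ↔ ∃ v, D v = 0 ∧ ev v = g

attribute [instance] Pack.ag Pack.mo Pack.agH Pack.moH

theorem exists_pack [CharZero k] (b : ℕ → ℕ)
    (hodd : ∀ e, Odd e → ¬ Nontrivial (HHH k m (jmWord m b) (m + 1) e)) :
    Nonempty (Pack k m b) := by
  have hw : act 1 (jmWord m b) = 1 := jmWord_act m b
  obtain ⟨V, iV, iM, P, f, τ, hf, hfr, hfd, hfp, hτ, hτr, hτs, hτD⟩ := yext k m (jmWord m b) hw
  have par : ∀ e z, Odd e → P.pr e z = z → P.d z = 0 → ∃ z', P.d z' = z := by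
    intro e z he hz hd
    obtain ⟨z', hz', h⟩ := fin_par k m (jmWord m b) hw hodd e he (f z) ((hfr _).2 ⟨z, rfl⟩)
      (by rw [← hfp, hz]) (by rw [← hfd, hd, map_zero])
    obtain ⟨v, rfl⟩ := (hfr z').1 hz'
    exact ⟨v, hf (by rw [hfd, h])⟩
  obtain ⟨H, ⟨Md⟩⟩ := hpl P par
  have hev := isEv_evF (xA k m) (yA k m) 1 (jmWord m b)
  let ev : (Ky k m ⊗[k] V) →ₗ[Ky k m] Axy k m :=
    { toFun := fun v => evF (xA k m) 1 (jmWord m b) (τ v)
      map_add' := fun a c => by rw [map_add, map_add]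
      map_smul' := fun p v => by
        rw [hτs, map_smul, RingHom.id_apply, fin_smul, smul_eq_mul] }
  have hcc : ∀ v, P.DK v = 0 → τ v ∈ CC (xA k m) (yA k m) 1 (FO (xA k m) 1 (jmWord m b)) := by
    intro v hv
    refine ⟨(hτr (τ v)).2 ⟨v, rfl⟩, ?_⟩
    rw [← hτD, hv, map_zero]
  refine ⟨{ V := V, H := H, D := P.DK, Md := Md, ev := ev, evD := ?_,
            U := ((SB m b).map (dif fun j => (X j : Ky k m))).prod, hU := ?_, inj := ?_, im := ?_ }⟩
  · intro v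
    show evF (xA k m) 1 (jmWord m b) (τ (P.DK v)) = 0
    rw [hτD]
    exact hev.evD _
  · exact SB_ne_zero (fun i j h => X_injective h) b
  · intro v hv he
    obtain ⟨t, ht, h⟩ := fin_del2 (xA_inj k m) (yA_inj k m) (jmWord_del m b) (τ v) (hcc v hv) he
    obtain ⟨t', rfl⟩ := (hτr t).1 ht
    refine ⟨t', hτ ?_⟩
    rw [hτs, hτD, ← h, fin_Cprod]
  · intro g
    constructor
    · rintro ⟨z, hz, rfl⟩
      obtain ⟨v, rfl⟩ := (hτr z).1 hz.1
      refine ⟨v, hτ ?_, rfl⟩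
      rw [hτD, hz.2, map_zero]
    · rintro ⟨v, hv, rfl⟩
      exact ⟨τ v, hcc v hv, rfl⟩

end

section
variable {k : Type} [Field k] {m : ℕ}

theorem Pack.mem {b : ℕ → ℕ} (Q : Pack k m b) (g : Axy k m) :
    g ∈ evId (xA k m) (yA k m) (jmWord m b) ((SB m b).map (dif (xA k m))).prod ↔
      ∃ v, Q.D v = 0 ∧ Q.ev v = ((SB m b).map (dif (xA k m))).prod * g := by
  rw [mem_evId]
  exact Q.im _

/-- every evaluation of a cycle is `c` times an element of the ideal -/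
theorem Pack.ev_mem {b : ℕ → ℕ} (Q : Pack k m b) (v : Ky k m ⊗[k] Q.V) (hv : Q.D v = 0) :
    ∃ f ∈ evId (xA k m) (yA k m) (jmWord m b) ((SB m b).map (dif (xA k m))).prod,
      Q.ev v = ((SB m b).map (dif (xA k m))).prod * f := by
  obtain ⟨z, hz, he⟩ := (Q.im (Q.ev v)).2 ⟨v, hv, rfl⟩
  obtain ⟨z', hz', h⟩ := fin_del1 (xA_inj k m) (yA_inj k m) (jmWord_del m b) z hz
  refine ⟨evF (xA k m) 1 ([] : List (Fin m)) z', ⟨z, hz, h⟩, ?_⟩
  rw [← he, h]

theorem Pack.T3 {b : ℕ → ℕ} (Q : Pack k m b) (ι : Type) [Fintype ι] (g : ι → Axy k m)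
    (P : ι → Ky k m)
    (hg : ∀ i, g i ∈ evId (xA k m) (yA k m) (jmWord m b) ((SB m b).map (dif (xA k m))).prod)
    (hP : P ≠ 0) (hs : ∑ i, C (P i) * g i = 0) :
    ∃ c : ι → k, c ≠ 0 ∧ ∃ f : Fin (m + 1) → Axy k m,
        (∀ j, f j ∈ evId (xA k m) (yA k m) (jmWord m b) ((SB m b).map (dif (xA k m))).prod) ∧
        ∑ i, C (C (c i)) * g i = ∑ j, C (X j) * f j := by
  have hc0 := SB_ne_zero (xA_inj k m) b
  have h1 : ∀ i, ∃ v, Q.D v = 0 ∧ Q.ev v = ((SB m b).map (dif (xA k m))).prod * g i :=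
    fun i => (Q.mem (g i)).1 (hg i)
  choose z hz hez using h1
  obtain ⟨c, hc, ζ, hζ, hrel⟩ := free_indep Q.Md Q.ev Q.evD Q.U Q.hU Q.inj z hz P hP (by
    rw [← mul_zero (((SB m b).map (dif (xA k m))).prod), ← hs, Finset.mul_sum]
    refine Finset.sum_congr rfl fun i _ => ?_
    rw [hez, fin_smul]; ring)
  have h2 : ∀ j, ∃ f ∈ evId (xA k m) (yA k m) (jmWord m b) ((SB m b).map (dif (xA k m))).prod,
      Q.ev (ζ j) = ((SB m b).map (dif (xA k m))).prod * f := fun j => Q.ev_mem (ζ j) (hζ j)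
  choose f hf hef using h2
  refine ⟨c, hc, f, hf, mul_left_cancel₀ hc0 ?_⟩
  rw [Finset.mul_sum, Finset.mul_sum]
  refine Eq.trans ?_ (hrel.trans ?_)
  · refine Finset.sum_congr rfl fun i _ => ?_
    rw [hez, fin_smul]; ring
  · refine Finset.sum_congr rfl fun j _ => ?_
    rw [hef, fin_smul]; ring

/-- classes from elements of products of ideals -/
theorem Pack.cls {b : ℕ → ℕ} (Q : Pack k m b) (g : Axy k m)
    (hg : g ∈ ∏ p : {p : Fin (m + 1) × Fin (m + 1) // p.1 < p.2},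
      (Ideal.span {(X p.1.1 - X p.1.2 : Axy k m), C (X p.1.1) - C (X p.1.2)}) ^ b p.1.2) :
    ∃ v, Q.D v = 0 ∧ Q.ev v = ((SB m b).map (dif (xA k m))).prod * g := by
  rw [← Q.mem]
  have h1 : g ∈ ((SB m b).map fun s => Ideal.span {dif (xA k m) s, dif (yA k m) s}).prod := by
    rw [SB_prod]
    have h2 : ∀ p : {p : Fin (m + 1) × Fin (m + 1) // p.1 < p.2},
        Ideal.span {dif (xA k m) s(p.1.1, p.1.2), dif (yA k m) s(p.1.1, p.1.2)} ^ b p.1.2 =
        (Ideal.span {(X p.1.1 - X p.1.2 : Axy k m), C (X p.1.1) - C (X p.1.2)}) ^ b p.1.2 := by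
      intro p
      rw [dif_of_lt _ p.2, dif_of_lt _ p.2]
      rfl
    rw [Finset.prod_congr rfl fun p _ => h2 p]
    exact hg
  exact fin_del3 (jmWord_del m b) g h1

theorem Pack.T2 {b : ℕ → ℕ} (Q : Pack k m b) (g : Axy k m)
    (hg : ∀ i j : Fin (m + 1), i < j →
      g ∈ (Ideal.span {(X i - X j : Axy k m), C (X i) - C (X j)}) ^ b j) :
    g ∈ evId (xA k m) (yA k m) (jmWord m b) ((SB m b).map (dif (xA k m))).prod := by
  classical
  rw [Q.mem]
  let q : {p : Fin (m + 1) × Fin (m + 1) // p.1 < p.2} → Ky k m :=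
    fun p => (X p.1.1 - X p.1.2) ^ b p.1.2
  have hqI : ∀ p, (C (q p) : Axy k m) ∈
      (Ideal.span {(X p.1.1 - X p.1.2 : Axy k m), C (X p.1.1) - C (X p.1.2)}) ^ b p.1.2 := by
    intro p
    have : (C (q p) : Axy k m) = (C (X p.1.1) - C (X p.1.2)) ^ b p.1.2 := by
      simp [q]
    rw [this]
    exact Ideal.pow_mem_pow (Ideal.subset_span (by simp)) _
  have hz : ∀ p, (∏ j ∈ Finset.univ.erase p, C (q j)) * g ∈
      ∏ p : {p : Fin (m + 1) × Fin (m + 1) // p.1 < p.2},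
      (Ideal.span {(X p.1.1 - X p.1.2 : Axy k m), C (X p.1.1) - C (X p.1.2)}) ^ b p.1.2 := by
    intro p
    rw [← Finset.prod_erase_mul Finset.univ _ (Finset.mem_univ p)]
    refine Ideal.mul_mem_mul ?_ (hg _ _ p.2)
    exact Ideal.prod_mem_prod fun j _ => hqI j
  by_cases hemp : Nonempty {p : Fin (m + 1) × Fin (m + 1) // p.1 < p.2}
  · obtain ⟨p₀⟩ := hemp
    have hz0 : (∏ j, C (q j)) * g ∈
        ∏ p : {p : Fin (m + 1) × Fin (m + 1) // p.1 < p.2},
        (Ideal.span {(X p.1.1 - X p.1.2 : Axy k m), C (X p.1.1) - C (X p.1.2)}) ^ b p.1.2 := by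
      have e : (∏ j, C (q j)) * g =
          (C (q p₀) : Axy k m) * ((∏ j ∈ Finset.univ.erase p₀, C (q j)) * g) := by
        rw [← Finset.mul_prod_erase Finset.univ (fun j => (C (q j) : Axy k m))
          (Finset.mem_univ p₀), mul_assoc]
      rw [e]
      exact Ideal.mul_mem_left _ _ (hz p₀)
    obtain ⟨z₀, hz₀, ez₀⟩ := Q.cls _ hz0
    have hz' := fun p => Q.cls _ (hz p)
    choose z hzD hze using hz'
    refine free_sat Q.Md ?_ Q.ev Q.evD Q.U Q.hU Q.inj q ?_ ?_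
      (((SB m b).map (dif (xA k m))).prod * g) z₀ hz₀ ?_ z hzD ?_
    · intro c b' h
      rw [fin_smul] at h
      rcases mul_eq_zero.1 h with h1 | h1
      · exact Or.inl (C_injective _ _ (by rw [h1, C_0]))
      · exact Or.inr h1
    · intro p
      refine pow_ne_zero _ (sub_ne_zero.2 fun h => p.2.ne (X_injective h))
    · intro p p' hne
      refine (relPrime_diff p.1.1 p.1.2 p'.1.1 p'.1.2 p.2 p'.2 fun h => hne ?_).pow
      exact Subtype.ext h
    · rw [ez₀, fin_smul, map_prod]; ring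
    · intro p
      rw [hze, fin_smul, map_prod]; ring
  · have h1 : g ∈ ∏ p : {p : Fin (m + 1) × Fin (m + 1) // p.1 < p.2},
        (Ideal.span {(X p.1.1 - X p.1.2 : Axy k m), C (X p.1.1) - C (X p.1.2)}) ^ b p.1.2 := by
      rw [Finset.prod_eq_one fun p _ => absurd ⟨p⟩ hemp]
      simp
    exact Q.cls g h1

end

end Pool.Agent.H.MP_c30e5d_gt
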