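import Pool.Agent.H.MP_c30e5d_gt.FinC
import Pool.Agent.H.MP_c30e5d_gt.AlgMain
import Pool.Agent.H.MP_c30e5d_gt.Braid

/-!
# The partial full twist product `FT_2^N FT_4^(2N) FT_5^N FT_7^(3N)` is not parity
-/

namespace Pool.Agent.H.MP_c30e5d_gt

open MvPolynomial

/-- Top Hochschild degree, both parities. -/
theorem final_jm (k : Type) [Field k] [CharZero k] (N : ℕ) (hN : 10 ^ 12 ≤ N) :
    Nontrivial (HHH k 6 (jmWord 6 (mexp N)) 7 0) ∧
      ∃ e, Odd e ∧ Nontrivial (HHH k 6 (jmWord 6 (mexp N)) 7 e) := by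
  refine ⟨fin_even k 6 _ (mexp N) (jmWord_del 6 (mexp N)), ?_⟩
  by_contra hcon
  push Not at hcon
  have hodd : ∀ e, Odd e → ¬ Nontrivial (HHH k 6 (jmWord 6 (mexp N)) (6 + 1) e) := by
    intro e he
    rw [not_nontrivial_iff_subsingleton]
    exact hcon e he
  obtain ⟨Q⟩ := exists_pack k 6 (mexp N) hodd
  refine alg_contradiction k N hN
    (evId (xA k 6) (yA k 6) (jmWord 6 (mexp N)) ((SB 6 (mexp N)).map (dif (xA k 6))).prod) ?_ ?_ ?_
  · intro B _ _ θ i j ε u hij hu h1 h2 h3 h4 g hg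
    exact fin_T1 (xA_inj k 6) (yA_inj k 6) (mexp N) θ i j ε u hij hu h1 h2 h3 h4 g hg
  · intro g hg
    exact Q.T2 g hg
  · intro ι _ g P hg hP hs
    exact Q.T3 ι g P hg hP hs

/-- the exponents `a_k` -/
def aexp (N : ℕ) : ℕ → ℕ
  | 2 => N
  | 4 => 2 * N
  | 5 => N
  | 7 => 3 * N
  | _ => 0

theorem mexp_eq (N : ℕ) : ∀ j, 1 ≤ j → j ≤ 6 → mexp N j = ∑ k ∈ Finset.Ioc j (6 + 1), aexp N k := by
  intro j h1 h2
  have h3 : ∀ j, Finset.Ioc j (6 + 1) = (Finset.range 8).filter fun x => j < x := by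
    intro j; ext x; simp; omega
  rw [h3, Finset.sum_filter]
  interval_cases j <;> simp [Finset.sum_range_succ, mexp, aexp] <;> ring

theorem braid_final (N : ℕ) : braidOf (jmWord 6 (mexp N)) = twistProduct 6 (aexp N) :=
  braidOf_jmWord 6 (aexp N) (mexp N) (mexp_eq N)

theorem braid_final' (N : ℕ) :
    twistProduct 6 (aexp N) = FT 6 2 ^ N * FT 6 4 ^ (2 * N) * FT 6 5 ^ N * FT 6 7 ^ (3 * N) := by
  simp [twistProduct, List.range_succ, aexp, mul_assoc]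

end Pool.Agent.H.MP_c30e5d_gt
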