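import Pool.Agent.H.MP_c30e5d_gt.DelThm
import Pool.Agent.H.MP_c30e5d_gt.Curv
import Pool.Agent.H.MP_c30e5d_gt.WordDefs

/-!
# The divisibility lemma for the words `down ++ i^(2r) ++ up`
-/

namespace Pool.Agent.H.MP_c30e5d_gt

variable {A : Type} [CommRing A] {m : ℕ}

/-- torsion-freeness -/
def TF (O : Obj A m) : Prop := ∀ (c : A) (z : O.M), c ≠ 0 → c • z = 0 → z = 0

theorem TF.cross {O : Obj A m} (h : TF O) (i : Fin m) (p q : Fin (m + 1)) :
    TF (cross i p q O) := by
  intro c z hc hz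
  change (O.M × O.M) × O.M at z
  have h1 : (c • z.1.1, c • z.1.2) = ((0, 0) : O.M × O.M) := congrArg Prod.fst hz
  have h2 : c • z.2 = 0 := congrArg Prod.snd hz
  exact Prod.ext (Prod.ext (h c _ hc (congrArg Prod.fst h1)) (h c _ hc (congrArg Prod.snd h1)))
    (h c _ hc h2)

theorem TF_FO [IsDomain A] (x : Fin (m + 1) → A) (L : Equiv.Perm (Fin (m + 1)))
    (w : List (Fin m)) : TF (FO x L w) := by
  induction w generalizing L with
  | nil =>
    intro c z hc hz
    have h : c * (show A from z) = 0 := hz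
    exact (mul_eq_zero.1 h).resolve_left hc
  | cons i w ih => exact (ih (L * sw i)).cross i _ _

section
variable {a y : Fin (m + 1) → A} {L : Equiv.Perm (Fin (m + 1))} {O : Obj A m} {i : Fin m}
  {p q : Fin (m + 1)}

/-- the shape of a central element of a crossing -/
theorem central_cross {z : (O.M × O.M) × O.M} (hz : (z : (cross i p q O).M) ∈ CE a L (cross i p q O)) :
    z.1.1 = -(a (L i.succ) • z.1.2) ∧
    O.X i.castSucc z.1.2 + O.X i.succ z.1.2 = (a (L i.castSucc) + a (L i.succ)) • z.1.2 ∧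
    O.X i.castSucc (O.X i.succ z.1.2) = (a (L i.castSucc) * a (L i.succ)) • z.1.2 ∧
    (∀ j, j ≠ i.castSucc → j ≠ i.succ → O.X j z.1.2 = a (L j) • z.1.2) ∧
    (∀ j, O.X j z.2 = a (L j) • z.2) := by
  have hc := hz i.castSucc
  have hs := hz i.succ
  have hc1 := congrArg (fun t : (O.M × O.M) × O.M => t.1.1) hc
  have hc2 := congrArg (fun t : (O.M × O.M) × O.M => t.1.2) hc
  have hs2 := congrArg (fun t : (O.M × O.M) × O.M => t.1.2) hs
  simp only [cross_X, BX_castSucc, BX_succ, cr_smul1, Prod.smul_fst, Prod.smul_snd] at hc1 hc2 hs2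
  have e1 : z.1.1 = -(a (L i.succ) • z.1.2) := by rw [← hs2]; simp
  refine ⟨e1, ?_, ?_, ?_, ?_⟩
  · rw [add_smul, ← hc2, e1]; abel
  · rw [e1, smul_neg, smul_smul] at hc1; exact neg_injective hc1
  · intro j h1 h2
    have hj := congrArg (fun t : (O.M × O.M) × O.M => t.1.2) (hz j)
    simp only [cross_X, BX_other O i j h1 h2] at hj
    exact hj
  · intro j
    exact congrArg (fun t : (O.M × O.M) × O.M => t.2) (hz j)

theorem cycle_cross {z : (O.M × O.M) × O.M} (hz : (cross i p q O).D y z = 0) :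
    O.D y z.1.2 + (y p - y q) • z.2 = 0 ∧ z.1.1 + O.X i.castSucc z.1.2 = O.D y z.2 := by
  have h2 := congrArg (fun t : (O.M × O.M) × O.M => t.1.2) hz
  have h3 := congrArg (fun t : (O.M × O.M) × O.M => t.2) hz
  exact ⟨h2, sub_eq_zero.1 h3⟩

/-- removal of the first crossing -/
theorem peel {z : (O.M × O.M) × O.M} (hz : (z : (cross i p q O).M) ∈ CC a y L (cross i p q O))
    {e : O.M →ₗ[A] A} (he : IsEv a y (L * sw i) O e) :
    O.X i.castSucc z.1.2 - a (L i.castSucc) • z.1.2 ∈ CC a y (L * sw i) O ∧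
    e (O.X i.castSucc z.1.2 - a (L i.castSucc) • z.1.2) =
      -(evc i p q O (a (L i.castSucc)) e z) ∧
    O.X i.castSucc z.1.2 - a (L i.castSucc) • z.1.2 =
      O.D y z.2 - (a (L i.castSucc) - a (L i.succ)) • z.1.2 := by
  obtain ⟨f1, f2, f3, f4, f5⟩ := central_cross hz.1
  obtain ⟨g1, g2⟩ := cycle_cross hz.2
  have hXs : O.X i.succ z.1.2 = (a (L i.castSucc) + a (L i.succ)) • z.1.2 -
      O.X i.castSucc z.1.2 := by rw [← f2]; abel
  have hXX : O.X i.castSucc (O.X i.castSucc z.1.2) =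
      (a (L i.castSucc) + a (L i.succ)) • O.X i.castSucc z.1.2 -
        (a (L i.castSucc) * a (L i.succ)) • z.1.2 := by
    have h := congrArg (O.X i.castSucc) f2
    rw [map_add, f3, map_smul] at h
    rw [← h]; abel
  refine ⟨⟨fun j => ?_, ?_⟩, ?_, ?_⟩
  · by_cases h1 : j = i.castSucc
    · subst h1
      rw [mul_sw_castSucc, map_sub, map_smul, hXX]; module
    · by_cases h2 : j = i.succ
      · subst h2
        rw [mul_sw_succ, map_sub, map_smul, O.XX, f3, hXs]; module
      · rw [mul_sw_other L i j h1 h2, map_sub, map_smul, O.XX, f4 j h1 h2, map_smul]; module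
  · have h3 : O.D y z.1.2 = -((y p - y q) • z.2) := eq_neg_of_add_eq_zero_left g1
    rw [map_sub, map_smul, ← O.XD, h3, map_neg, map_smul, f5]; module
  · rw [evc_apply, map_sub, map_smul, he.evX, mul_sw_castSucc, f1, map_neg, map_smul]
    simp only [smul_eq_mul]; ring
  · rw [← g2, f1]; module

/-- lifting of central elements modulo `ε` -/
def Lift (ε : A) (a y : Fin (m + 1) → A) (L L' : Equiv.Perm (Fin (m + 1))) (O : Obj A m) : Prop :=
  ∀ ξ ∈ CE a L O, ∃ ξ' ∈ CE a L' O, ∃ δ, O.D y ξ' - O.D y ξ = ε • δ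

theorem Lift.cross {ε : A} (h : Lift ε a y L (L * sw i) O) (hy : ε ∣ y p - y q)
    (ha : ε ∣ a (L i.castSucc) - a (L i.succ)) : Lift ε a y L (L * sw i) (cross i p q O) := by
  intro z hz
  change (O.M × O.M) × O.M at z
  obtain ⟨f1, f2, f3, f4, f5⟩ := central_cross hz
  obtain ⟨ξ', h1, δ, h2⟩ := h z.2 f5
  obtain ⟨u, hu⟩ := hy
  obtain ⟨v, hv⟩ := ha
  refine ⟨(((-(a (L i.castSucc) • z.1.2), z.1.2), ξ') : (O.M × O.M) × O.M), fun j => ?_,
    (((-(v • O.D y z.1.2) - u • O.X i.succ (ξ' - z.2), u • (ξ' - z.2)),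
      -(v • z.1.2) - δ) : (O.M × O.M) × O.M), ?_⟩
  · refine Prod.ext ?_ (h1 j)
    by_cases hj1 : j = i.castSucc
    · subst hj1
      rw [mul_sw_castSucc]
      simp only [cross_X, BX_castSucc]
      refine Prod.ext ?_ ?_
      · show -(O.X i.castSucc (O.X i.succ z.1.2)) = a (L i.succ) • (-(a (L i.castSucc) • z.1.2))
        rw [f3]; module
      · show -(a (L i.castSucc) • z.1.2) + O.X i.castSucc z.1.2 + O.X i.succ z.1.2 =
          a (L i.succ) • z.1.2
        rw [add_assoc, f2]; module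
    · by_cases hj2 : j = i.succ
      · subst hj2
        rw [mul_sw_succ]
        simp only [cross_X, BX_succ]
        refine Prod.ext ?_ ?_
        · show O.X i.castSucc (-(a (L i.castSucc) • z.1.2)) + O.X i.succ (-(a (L i.castSucc) • z.1.2))
            + O.X i.castSucc (O.X i.succ z.1.2) = a (L i.castSucc) • (-(a (L i.castSucc) • z.1.2))
          rw [map_neg, map_neg, map_smul, map_smul, f3, ← neg_add, ← smul_add, f2]; module
        · show -(-(a (L i.castSucc) • z.1.2)) = a (L i.castSucc) • z.1.2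
          rw [neg_neg]
      · rw [mul_sw_other L i j hj1 hj2]
        simp only [cross_X, BX_other O i j hj1 hj2]
        refine Prod.ext ?_ (f4 j hj1 hj2)
        show O.X j (-(a (L i.castSucc) • z.1.2)) = a (L j) • (-(a (L i.castSucc) • z.1.2))
        rw [map_neg, map_smul, f4 j hj1 hj2]; module
  · refine Prod.ext (Prod.ext ?_ ?_) ?_
    · show (O.D y (-(a (L i.castSucc) • z.1.2)) - (y p - y q) • O.X i.succ ξ') -
        (O.D y z.1.1 - (y p - y q) • O.X i.succ z.2) =
        ε • (-(v • O.D y z.1.2) - u • O.X i.succ (ξ' - z.2))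
      rw [hu, f1, map_neg, map_neg, map_smul, map_smul, map_sub]
      have e : a (L i.castSucc) = a (L i.succ) + ε * v := by rw [← hv]; ring
      rw [e]; module
    · show (O.D y z.1.2 + (y p - y q) • ξ') - (O.D y z.1.2 + (y p - y q) • z.2) =
        ε • (u • (ξ' - z.2))
      rw [hu]; module
    · show (-(a (L i.castSucc) • z.1.2) + O.X i.castSucc z.1.2 - O.D y ξ') -
        (z.1.1 + O.X i.castSucc z.1.2 - O.D y z.2) = ε • (-(v • z.1.2) - δ)
      have e : a (L i.castSucc) = a (L i.succ) + ε * v := by rw [← hv]; ring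
      have h2' : O.D y ξ' = O.D y z.2 + ε • δ := by rw [← h2]; abel
      rw [e, f1, h2']; module

/-- removal of a mixing crossing gains a factor `ε` -/
theorem mixed {ε : A} (hε : ε ≠ 0) (htf : TF O) (hDD : ∀ t ∈ CE a (L * sw i) O, O.D y (O.D y t) = 0)
    (hl : Lift ε a y L (L * sw i) O) (ha : ε ∣ a (L i.castSucc) - a (L i.succ))
    {z : (O.M × O.M) × O.M} (hz : (z : (cross i p q O).M) ∈ CC a y L (cross i p q O))
    {e : O.M →ₗ[A] A} (he : IsEv a y (L * sw i) O e) :
    ∃ t ∈ CC a y (L * sw i) O, evc i p q O (a (L i.castSucc)) e z = ε * e t := by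
  obtain ⟨h1, h2, h3⟩ := peel hz he
  obtain ⟨f1, f2, f3, f4, f5⟩ := central_cross hz.1
  obtain ⟨ξ', h4, δ, h5⟩ := hl z.2 f5
  obtain ⟨v, hv⟩ := ha
  set β := O.X i.castSucc z.1.2 - a (L i.castSucc) • z.1.2 with hβ
  have key : ε • (δ + v • z.1.2) = O.D y ξ' - β := by
    rw [smul_add, ← h5, h3, hv]; module
  have hXD : ∀ j, O.X j (O.D y ξ' - β) = a ((L * sw i) j) • (O.D y ξ' - β) := by
    intro j
    rw [map_sub, O.XD, h4 j, map_smul, h1.1 j]
    exact (smul_sub _ _ _).symm
  refine ⟨δ + v • z.1.2, ⟨fun j => ?_, ?_⟩, ?_⟩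
  · refine sub_eq_zero.1 (htf ε _ hε ?_)
    rw [smul_sub, ← map_smul, key, hXD j, smul_comm ε, key, sub_self]
  · refine htf ε _ hε ?_
    rw [← map_smul, key, map_sub, hDD ξ' h4, h1.2, sub_self]
  · have h6 := congrArg e key
    rw [map_smul, map_sub, he.evD, h2, smul_eq_mul] at h6
    linear_combination -h6

end

/-- `X c` acts as a scalar if no letter touches the position `c` -/
theorem X_scalar (L : Equiv.Perm (Fin (m + 1))) (w : List (Fin m)) (ρ : Fin (m + 1) → A)
    (c : Fin (m + 1)) (h : ∀ g ∈ w, c ≠ g.castSucc ∧ c ≠ g.succ)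
    (z : (Fw L w (Obj.base ρ)).M) : (Fw L w (Obj.base ρ)).X c z = ρ c • z := by
  induction w generalizing L with
  | nil => rfl
  | cons i w ih =>
    change (((Fw (L * sw i) w (Obj.base ρ)).M × _) × _) at z
    have h0 := h i (by simp)
    have ih' := ih (L * sw i) (fun g hg => h g (by simp [hg]))
    refine Prod.ext ?_ (ih' z.2)
    show BX _ i c z.1 = ρ c • z.1
    rw [BX_other _ i c h0.1 h0.2, ih', ih']; rfl

/-- peeling off a whole word -/
theorem peel_word (a y : Fin (m + 1) → A) (L : Equiv.Perm (Fin (m + 1))) (w w' : List (Fin m))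
    (z : (FO a L (w ++ w')).M) (hz : z ∈ CC a y L (FO a L (w ++ w'))) :
    ∃ z' ∈ CC a y (act L w) (FO a (act L w) w'), evF a L (w ++ w') z = evF a (act L w) w' z' := by
  induction w generalizing L with
  | nil => exact ⟨z, hz, rfl⟩
  | cons i w ih =>
    obtain ⟨h1, h2, -⟩ := peel (O := FO a (L * sw i) (w ++ w')) hz
      (isEv_evF a y (L * sw i) (w ++ w'))
    obtain ⟨z', hz', h3⟩ := ih (L * sw i) _ (neg_mem h1)
    refine ⟨z', hz', Eq.trans ?_ h3⟩
    rw [map_neg, h2, neg_neg]; rfl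

/-! ### the word `up` -/

/-- `up m l j` is the strictly increasing list of the letters `l ≤ g < j` -/
theorem mem_up {m l j : ℕ} (g : Fin m) : g ∈ up m l j ↔ l ≤ (g : ℕ) ∧ (g : ℕ) < j := by
  simp [up]

theorem up_self (m j : ℕ) : up m j j = [] := by
  apply List.eq_nil_iff_forall_not_mem.2
  intro g hg
  rw [mem_up] at hg; omega

theorem up_pairwise (m l j : ℕ) : (up m l j).Pairwise (· < ·) :=
  (List.pairwise_lt_finRange m).filter _

theorem up_cons {m l j : ℕ} (h : l < j) (hl : l < m) :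
    up m l j = ⟨l, hl⟩ :: up m (l + 1) j := by
  have h1 := up_pairwise m l j
  have h2 : (⟨l, hl⟩ :: up m (l + 1) j : List (Fin m)).Pairwise (· < ·) := by
    refine List.pairwise_cons.2 ⟨fun g hg => ?_, up_pairwise m (l + 1) j⟩
    rw [mem_up] at hg
    rw [Fin.lt_def]; simp only; omega
  refine List.Perm.eq_of_pairwise (le := (· < ·)) (fun a b _ _ h3 h4 => absurd (h3.trans h4) (lt_irrefl _)) h1 h2 ?_
  refine (List.perm_ext_iff_of_nodup (h1.imp fun h => h.ne) (h2.imp fun h => h.ne)).2 fun g => ?_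
  rw [List.mem_cons, mem_up, mem_up, Fin.ext_iff]
  simp only; omega

end Pool.Agent.H.MP_c30e5d_gt
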