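import Mathlib

/-!
# Graded mixed complexes over a field: the perturbation lemma and its consequences (statements)
-/

namespace Pool.Agent.H.MP_c30e5d_gt

open TensorProduct MvPolynomial

/-- A finitely graded complex `(V, d)` over a field with anticommuting degree `-1` operators
`h j` that anticommute with `d`. -/
structure Mixed (k : Type) [Field k] (σ : Type) (V : Type) [AddCommGroup V] [Module k V] where
  d : V →ₗ[k] V
  h : σ → V →ₗ[k] V
  pr : ℕ → V →ₗ[k] V
  len : ℕ
  pr_idem : ∀ e z, pr e (pr e z) = pr e z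
  pr_orth : ∀ e e' z, e ≠ e' → pr e (pr e' z) = 0
  pr_sum : ∀ z, ∑ e ∈ Finset.range (len + 1), pr e z = z
  pr_d : ∀ e z, pr (e + 1) (d z) = d (pr e z)
  pr_d0 : ∀ z, pr 0 (d z) = 0
  pr_h : ∀ j e z, pr e (h j z) = h j (pr (e + 1) z)
  dd : ∀ z, d (d z) = 0
  dh : ∀ j z, d (h j z) + h j (d z) = 0
  hh : ∀ i j z, h i (h j z) + h j (h i z) = 0

variable {k : Type} [Field k] {σ : Type} [Fintype σ] {V : Type} [AddCommGroup V] [Module k V]

/-- The perturbed differential `d + ∑ y_j h_j` on `k[y] ⊗ V`. -/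
noncomputable def Mixed.DK (P : Mixed k σ V) :
    (MvPolynomial σ k ⊗[k] V) →ₗ[MvPolynomial σ k] (MvPolynomial σ k ⊗[k] V) :=
  P.d.baseChange (MvPolynomial σ k) +
    ∑ j, (X j : MvPolynomial σ k) • (P.h j).baseChange (MvPolynomial σ k)

/-- a contraction datum: a `K`-linear model `K ⊗ H` of the homology of `(VK, D)` -/
structure Model (K : Type) [CommRing K] (VK : Type) [AddCommGroup VK] [Module K VK]
    (D : VK →ₗ[K] VK) (HK : Type) [AddCommGroup HK] [Module K HK] where
  p : VK →ₗ[K] HK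
  i : HK →ₗ[K] VK
  Di : ∀ b, D (i b) = 0
  pD : ∀ z, p (D z) = 0
  pi : ∀ b, p (i b) = b
  hom : ∀ z, D z = 0 → ∃ t, z - i (p z) = D t

end Pool.Agent.H.MP_c30e5d_gt
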