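import Pool.Agent.H.MP_c30e5d_gt.Obj

/-!
# Semilinear equivariant maps, and the removal of two opposite crossings
-/

namespace Pool.Agent.H.MP_c30e5d_gt

variable {A A' : Type} [CommRing A] [CommRing A'] {m : ℕ}

/-- semilinear maps commuting with the `X j` -/
structure SHom (g : A →+* A') (O : Obj A m) (O' : Obj A' m) where
  f : O.M →+ O'.M
  smul : ∀ a z, f (a • z) = g a • f z
  comm : ∀ j z, f (O.X j z) = O'.X j (f z)

theorem SHom.map_BX {g : A →+* A'} {O : Obj A m} {O' : Obj A' m} (φ : SHom g O O') (i : Fin m)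
    (j : Fin (m + 1)) (z : O.M × O.M) :
    (φ.f (BX O i j z).1, φ.f (BX O i j z).2) = BX O' i j (φ.f z.1, φ.f z.2) := by
  by_cases h1 : j = i.castSucc
  · subst h1; ext <;> simp [φ.comm]
  · by_cases h2 : j = i.succ
    · subst h2; ext <;> simp [φ.comm]
    · rw [BX_other O i j h1 h2, BX_other O' i j h1 h2]; ext <;> simp [φ.comm]

/-- functoriality of the crossing -/
def SHom.cross {g : A →+* A'} {O : Obj A m} {O' : Obj A' m} (φ : SHom g O O') (i : Fin m)
    (p q : Fin (m + 1)) : SHom g (cross i p q O) (cross i p q O') where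
  f := (φ.f.prodMap φ.f).prodMap φ.f
  smul a z := by
    change (O.M × O.M) × O.M at z
    show ((φ.f (a • z.1.1), φ.f (a • z.1.2)), φ.f (a • z.2)) = _
    rw [φ.smul, φ.smul, φ.smul]; rfl
  comm j z := by
    change (O.M × O.M) × O.M at z
    show ((φ.f (BX O i j z.1).1, φ.f (BX O i j z.1).2), φ.f (O.X j z.2)) =
      (BX O' i j (φ.f z.1.1, φ.f z.1.2), O'.X j (φ.f z.2))
    rw [φ.map_BX, φ.comm]

@[simp] theorem SHom.cross_f {g : A →+* A'} {O : Obj A m} {O' : Obj A' m} (φ : SHom g O O')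
    (i : Fin m) (p q : Fin (m + 1)) (z : (O.M × O.M) × O.M) :
    (φ.cross i p q).f z = ((φ.f z.1.1, φ.f z.1.2), φ.f z.2) := rfl

/-- compatibility with the differentials -/
def SHom.Chain {g : A →+* A'} {O : Obj A m} {O' : Obj A' m} (φ : SHom g O O')
    (y : Fin (m + 1) → A) : Prop :=
  ∀ z, φ.f (O.D y z) = O'.D (fun j => g (y j)) (φ.f z)

theorem SHom.Chain.cross {g : A →+* A'} {O : Obj A m} {O' : Obj A' m} {φ : SHom g O O'}
    {y : Fin (m + 1) → A} (h : φ.Chain y) (i : Fin m) (p q : Fin (m + 1)) :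
    (φ.cross i p q).Chain y := by
  intro z
  change (O.M × O.M) × O.M at z
  rw [cross_D, SHom.cross_f, SHom.cross_f, cross_D]
  simp only [map_sub, map_add, φ.smul, φ.comm, h _]

/-- the same with a sign on the last component (used for homotopies) -/
def SHom.crossNeg {g : A →+* A'} {O : Obj A m} {O' : Obj A' m} (φ : SHom g O O') (i : Fin m)
    (p q : Fin (m + 1)) : SHom g (Pool.Agent.H.MP_c30e5d_gt.cross i p q O)
      (Pool.Agent.H.MP_c30e5d_gt.cross i p q O') where
  f := (φ.f.prodMap φ.f).prodMap (-φ.f)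
  smul a z := by
    change (O.M × O.M) × O.M at z
    show ((φ.f (a • z.1.1), φ.f (a • z.1.2)), -φ.f (a • z.2)) = _
    rw [φ.smul, φ.smul, φ.smul, ← smul_neg]; rfl
  comm j z := by
    change (O.M × O.M) × O.M at z
    show ((φ.f (BX O i j z.1).1, φ.f (BX O i j z.1).2), -φ.f (O.X j z.2)) =
      (BX O' i j (φ.f z.1.1, φ.f z.1.2), O'.X j (-φ.f z.2))
    rw [φ.map_BX, φ.comm, map_neg]

@[simp] theorem SHom.crossNeg_f {g : A →+* A'} {O : Obj A m} {O' : Obj A' m} (φ : SHom g O O')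
    (i : Fin m) (p q : Fin (m + 1)) (z : (O.M × O.M) × O.M) :
    (φ.crossNeg i p q).f z = ((φ.f z.1.1, φ.f z.1.2), -φ.f z.2) := rfl

/-- the functor of a word on semilinear maps -/
def SHom.Fw {g : A →+* A'} {O : Obj A m} {O' : Obj A' m} (φ : SHom g O O') :
    (L : Equiv.Perm (Fin (m + 1))) → (w : List (Fin m)) →
    SHom g (Pool.Agent.H.MP_c30e5d_gt.Fw L w O) (Pool.Agent.H.MP_c30e5d_gt.Fw L w O')
  | _, [] => φ
  | L, i :: w => (φ.Fw (L * sw i) w).cross i _ _

theorem SHom.Chain.Fw {g : A →+* A'} {O : Obj A m} {O' : Obj A' m} {φ : SHom g O O'}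
    {y : Fin (m + 1) → A} (h : φ.Chain y) (L : Equiv.Perm (Fin (m + 1))) (w : List (Fin m)) :
    (φ.Fw L w).Chain y := by
  induction w generalizing L with
  | nil => exact h
  | cons i w ih => exact (ih (L * sw i)).cross i _ _

/-- base change on base objects -/
def SHom.base (g : A →+* A') (ρ : Fin (m + 1) → A) :
    SHom g (Obj.base ρ) (Obj.base fun j => g (ρ j)) where
  f := g.toAddMonoidHom
  smul a z := g.map_mul a z
  comm j z := g.map_mul (ρ j) z

theorem SHom.base_chain (g : A →+* A') (ρ : Fin (m + 1) → A) (y : Fin (m + 1) → A) :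
    (SHom.base g ρ).Chain y := fun z => g.map_zero

/-- base change on full objects -/
def FOmap (g : A →+* A') (x : Fin (m + 1) → A) (L : Equiv.Perm (Fin (m + 1)))
    (w : List (Fin m)) : SHom g (FO x L w) (FO (fun j => g (x j)) L w) :=
  (SHom.base g _).Fw L w

theorem FOmap_chain (g : A →+* A') (x y : Fin (m + 1) → A) (L : Equiv.Perm (Fin (m + 1)))
    (w : List (Fin m)) : (FOmap g x L w).Chain y :=
  (SHom.base_chain g _ y).Fw L w

theorem evw_map (g : A →+* A') {O : Obj A m} {O' : Obj A' m} (φ : SHom g O O')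
    (x : Fin (m + 1) → A) (e : O.M →ₗ[A] A) (e' : O'.M →ₗ[A'] A')
    (h : ∀ z, e' (φ.f z) = g (e z)) (L : Equiv.Perm (Fin (m + 1)))
    (w : List (Fin m)) (z : (Fw L w O).M) :
    evw (fun j => g (x j)) L w O' e' ((φ.Fw L w).f z) = g (evw x L w O e z) := by
  induction w generalizing L with
  | nil => exact h z
  | cons i w ih =>
    change ((Fw (L * sw i) w O).M × (Fw (L * sw i) w O).M) × (Fw (L * sw i) w O).M at z
    show evw _ (L * sw i) w O' e' ((φ.Fw (L * sw i) w).f z.1.1) + g (x (L i.castSucc)) *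
      evw _ (L * sw i) w O' e' ((φ.Fw (L * sw i) w).f z.1.2) = g (_ + _ * _)
    rw [ih, ih, map_add, map_mul]; rfl

theorem evF_map (g : A →+* A') (x : Fin (m + 1) → A) (L : Equiv.Perm (Fin (m + 1)))
    (w : List (Fin m)) (z : (FO x L w).M) :
    evF (fun j => g (x j)) L w ((FOmap g x L w).f z) = g (evF x L w z) :=
  evw_map g _ x _ _ (fun _ => rfl) L w z

theorem FOmap_CC (g : A →+* A') (x y : Fin (m + 1) → A) (L : Equiv.Perm (Fin (m + 1)))
    (w : List (Fin m)) (z : (FO x L w).M) (hz : z ∈ CC x y L (FO x L w)) :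
    (FOmap g x L w).f z ∈ CC (fun j => g (x j)) (fun j => g (y j)) L
      (FO (fun j => g (x j)) L w) := by
  refine ⟨fun j => ?_, ?_⟩
  · rw [← (FOmap g x L w).comm, hz.1, (FOmap g x L w).smul]
  · rw [← FOmap_chain g x y L w, hz.2, map_zero]

/-- Reduction data from `O₁` to `O₂`: maps `Ψ : O₁ → O₂`, `Ψ', E : O₂ → O₁`, and a homotopy. -/
structure Red (y : Fin (m + 1) → A) (α u : A) (O₁ O₂ : Obj A m) (e₁ : O₁.M →ₗ[A] A)
    (e₂ : O₂.M →ₗ[A] A) where
  Ψ : SHom (RingHom.id A) O₁ O₂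
  Ψ' : SHom (RingHom.id A) O₂ O₁
  E : SHom (RingHom.id A) O₂ O₁
  s : SHom (RingHom.id A) O₁ O₁
  cΨ : ∀ z, Ψ.f (O₁.D y z) = O₂.D y (Ψ.f z)
  cΨ' : ∀ z, Ψ'.f (O₂.D y z) = O₁.D y (Ψ'.f z)
  cE : ∀ z, E.f (O₂.D y z) = O₁.D y (E.f z)
  hom : ∀ z, u • z - Ψ'.f (Ψ.f z) = O₁.D y (s.f z) + s.f (O₁.D y z)
  eΨ' : ∀ z, e₁ (Ψ'.f z) = -(u * α) * e₂ z
  eE : ∀ z, e₁ (E.f z) = -(α * α) * e₂ z

/-- reduction data propagate through crossings -/
def Red.cross {y : Fin (m + 1) → A} {α u : A} {O₁ O₂ : Obj A m} {e₁ : O₁.M →ₗ[A] A}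
    {e₂ : O₂.M →ₗ[A] A} (r : Red y α u O₁ O₂ e₁ e₂) (i : Fin m) (p q : Fin (m + 1)) (c : A) :
    Red y α u (Pool.Agent.H.MP_c30e5d_gt.cross i p q O₁)
      (Pool.Agent.H.MP_c30e5d_gt.cross i p q O₂) (evc i p q O₁ c e₁) (evc i p q O₂ c e₂) where
  Ψ := r.Ψ.cross i p q
  Ψ' := r.Ψ'.cross i p q
  E := r.E.cross i p q
  s := r.s.crossNeg i p q
  cΨ := SHom.Chain.cross (y := y) r.cΨ i p q
  cΨ' := SHom.Chain.cross (y := y) r.cΨ' i p q
  cE := SHom.Chain.cross (y := y) r.cE i p q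
  hom z := by
    change (O₁.M × O₁.M) × O₁.M at z
    rw [cross_D, SHom.cross_f, SHom.cross_f, SHom.crossNeg_f, SHom.crossNeg_f, cross_D]
    have h1 := r.hom z.1.1
    have h2 := r.hom z.1.2
    have h3 := r.hom z.2
    have hs := r.s.smul (y p - y q)
    simp only [RingHom.id_apply] at hs
    refine Prod.ext (Prod.ext ?_ ?_) ?_
    · show u • z.1.1 - r.Ψ'.f (r.Ψ.f z.1.1) =
        O₁.D y (r.s.f z.1.1) - (y p - y q) • O₁.X i.succ (-r.s.f z.2) +
          r.s.f (O₁.D y z.1.1 - (y p - y q) • O₁.X i.succ z.2)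
      rw [h1, map_sub, hs, r.s.comm, map_neg, smul_neg]; abel
    · show u • z.1.2 - r.Ψ'.f (r.Ψ.f z.1.2) =
        O₁.D y (r.s.f z.1.2) + (y p - y q) • (-r.s.f z.2) +
          r.s.f (O₁.D y z.1.2 + (y p - y q) • z.2)
      rw [h2, map_add, hs, smul_neg]; abel
    · show u • z.2 - r.Ψ'.f (r.Ψ.f z.2) =
        (r.s.f z.1.1 + O₁.X i.castSucc (r.s.f z.1.2) - O₁.D y (-r.s.f z.2)) +
          -r.s.f (z.1.1 + O₁.X i.castSucc z.1.2 - O₁.D y z.2)
      rw [h3, map_sub, map_add, r.s.comm, map_neg]; abel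
  eΨ' z := by
    change (O₂.M × O₂.M) × O₂.M at z
    rw [SHom.cross_f, evc_apply, evc_apply, r.eΨ', r.eΨ']; ring
  eE z := by
    change (O₂.M × O₂.M) × O₂.M at z
    rw [SHom.cross_f, evc_apply, evc_apply, r.eE, r.eE]; ring

/-- reduction data in the context of a word -/
def Red.Fw {x y : Fin (m + 1) → A} {α u : A} {O₁ O₂ : Obj A m} {e₁ : O₁.M →ₗ[A] A}
    {e₂ : O₂.M →ₗ[A] A} (r : Red y α u O₁ O₂ e₁ e₂) :
    (L : Equiv.Perm (Fin (m + 1))) → (w : List (Fin m)) →
    Red y α u (Pool.Agent.H.MP_c30e5d_gt.Fw L w O₁) (Pool.Agent.H.MP_c30e5d_gt.Fw L w O₂)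
      (evw x L w O₁ e₁) (evw x L w O₂ e₂)
  | _, [] => r
  | L, i :: w => (Red.Fw r (L * sw i) w).cross i _ _ _

/-! ### two opposite crossings -/

section
variable (O : Obj A m) (i : Fin m) (p q : Fin (m + 1))

/-- the carrier of two crossings -/
abbrev M2 : Type := (((O.M × O.M) × O.M) × ((O.M × O.M) × O.M)) × ((O.M × O.M) × O.M)

/-- `Ψ` on the underlying modules -/
def psiL (u : A) : M2 O →ₗ[A] O.M where
  toFun z := z.1.1.1.2 + O.X i.castSucc z.1.2.1.2 + u • z.2.2
  map_add' a b := by simp only [Prod.fst_add, Prod.snd_add, map_add, smul_add]; abel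
  map_smul' c z := by
    simp only [Prod.smul_fst, Prod.smul_snd, map_smul, smul_add, RingHom.id_apply, smul_comm u c]

/-- `Ψ'` on the underlying modules -/
def psiL' (u : A) : O.M →ₗ[A] M2 O where
  toFun z := ((((u • O.X i.succ z, 0), 0), ((-(u • z), 0), 0)), ((0, 0), z))
  map_add' a b := by ext <;> simp [add_comm]
  map_smul' c z := by ext <;> simp [smul_comm u c]

/-- `E` on the underlying modules -/
def einsL : O.M →ₗ[A] M2 O where
  toFun z := ((((O.X i.castSucc (O.X i.succ z), -O.X i.succ z), 0),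
      ((-O.X i.castSucc z, z), 0)), ((0, 0), 0))
  map_add' a b := by ext <;> simp [add_comm]
  map_smul' c z := by ext <;> simp

/-- the homotopy on the underlying modules -/
def shomL (u : A) : M2 O →ₗ[A] M2 O where
  toFun z := ((((u • z.1.1.2, 0), 0), ((u • z.1.2.2, 0), 0)), ((z.1.1.1.2, z.1.2.1.2), 0))
  map_add' a b := by ext <;> simp
  map_smul' c z := by ext <;> simp [smul_comm u c]

end

section
variable (O : Obj A m) (i : Fin m) (p q : Fin (m + 1))

theorem cr_add1 (a b : (cross i p q O).M) : @Prod.fst (O.M × O.M) O.M (a + b) =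
    @Prod.fst (O.M × O.M) O.M a + @Prod.fst (O.M × O.M) O.M b := rfl
theorem cr_add2 (a b : (cross i p q O).M) : @Prod.snd (O.M × O.M) O.M (a + b) =
    @Prod.snd (O.M × O.M) O.M a + @Prod.snd (O.M × O.M) O.M b := rfl
theorem cr_sub1 (a b : (cross i p q O).M) : @Prod.fst (O.M × O.M) O.M (a - b) =
    @Prod.fst (O.M × O.M) O.M a - @Prod.fst (O.M × O.M) O.M b := rfl
theorem cr_sub2 (a b : (cross i p q O).M) : @Prod.snd (O.M × O.M) O.M (a - b) =
    @Prod.snd (O.M × O.M) O.M a - @Prod.snd (O.M × O.M) O.M b := rfl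
theorem cr_neg1 (a : (cross i p q O).M) : @Prod.fst (O.M × O.M) O.M (-a) =
    -@Prod.fst (O.M × O.M) O.M a := rfl
theorem cr_neg2 (a : (cross i p q O).M) : @Prod.snd (O.M × O.M) O.M (-a) =
    -@Prod.snd (O.M × O.M) O.M a := rfl
theorem cr_smul1 (c : A) (a : (cross i p q O).M) : @Prod.fst (O.M × O.M) O.M (c • a) =
    c • @Prod.fst (O.M × O.M) O.M a := rfl
theorem cr_smul2 (c : A) (a : (cross i p q O).M) : @Prod.snd (O.M × O.M) O.M (c • a) =
    c • @Prod.snd (O.M × O.M) O.M a := rfl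

/-- `X j` on two crossings, on the underlying modules -/
theorem cross2_X (j : Fin (m + 1)) (z : M2 O) :
    (cross i p q (cross i q p O)).X j z = (BX (cross i q p O) i j z.1, (BX O i j z.2.1, O.X j z.2.2)) := rfl

theorem m2_ext (a b : M2 O) (h1 : a.1.1.1.1 = b.1.1.1.1) (h2 : a.1.1.1.2 = b.1.1.1.2)
    (h3 : a.1.1.2 = b.1.1.2) (h4 : a.1.2.1.1 = b.1.2.1.1) (h5 : a.1.2.1.2 = b.1.2.1.2)
    (h6 : a.1.2.2 = b.1.2.2) (h7 : a.2.1.1 = b.2.1.1) (h8 : a.2.1.2 = b.2.1.2)
    (h9 : a.2.2 = b.2.2) : a = b :=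
  Prod.ext (Prod.ext (Prod.ext (Prod.ext h1 h2) h3) (Prod.ext (Prod.ext h4 h5) h6))
    (Prod.ext (Prod.ext h7 h8) h9)

/-- `Ψ` -/
def psi (u : A) : SHom (RingHom.id A) (cross i p q (cross i q p O)) O where
  f := (psiL O i u).toAddMonoidHom
  smul c z := (psiL O i u).map_smul c z
  comm j z := by
    change M2 O at z
    show psiL O i u ((cross i p q (cross i q p O)).X j z) = O.X j (psiL O i u z)
    rw [cross2_X]
    by_cases h1 : j = i.castSucc
    · subst h1
      simp [psiL, O.XX i.succ i.castSucc, cr_add1, cr_add2, cr_neg1, cr_neg2]; try abel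
    · by_cases h2 : j = i.succ
      · subst h2
        simp [psiL, O.XX i.succ i.castSucc, cr_add1, cr_add2, cr_neg1, cr_neg2]; try abel
      · simp [psiL, BX_other _ i j h1 h2, O.XX i.castSucc j]

/-- `Ψ'` -/
def psi' (u : A) : SHom (RingHom.id A) O (cross i p q (cross i q p O)) where
  f := (psiL' O i u).toAddMonoidHom
  smul c z := (psiL' O i u).map_smul c z
  comm j z := by
    show psiL' O i u (O.X j z) = (cross i p q (cross i q p O)).X j (psiL' O i u z : M2 O)
    rw [cross2_X]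
    by_cases h1 : j = i.castSucc
    · subst h1
      apply m2_ext <;>
      simp [psiL', O.XX i.succ i.castSucc, cr_add1, cr_add2, cr_neg1, cr_neg2] <;> try abel
    · by_cases h2 : j = i.succ
      · subst h2
        apply m2_ext <;>
        simp [psiL', O.XX i.succ i.castSucc, cr_add1, cr_add2, cr_neg1, cr_neg2] <;> try abel
      · apply m2_ext <;> simp [psiL', BX_other _ i j h1 h2, O.XX i.succ j]

/-- `E` -/
def eins : SHom (RingHom.id A) O (cross i p q (cross i q p O)) where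
  f := (einsL O i).toAddMonoidHom
  smul c z := (einsL O i).map_smul c z
  comm j z := by
    show einsL O i (O.X j z) = (cross i p q (cross i q p O)).X j (einsL O i z : M2 O)
    rw [cross2_X]
    by_cases h1 : j = i.castSucc
    · subst h1
      apply m2_ext <;>
      simp [einsL, O.XX i.succ i.castSucc, cr_add1, cr_add2, cr_neg1, cr_neg2] <;> try abel
    · by_cases h2 : j = i.succ
      · subst h2
        apply m2_ext <;>
        simp [einsL, O.XX i.succ i.castSucc, cr_add1, cr_add2, cr_neg1, cr_neg2] <;> try abel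
      · apply m2_ext <;> simp [einsL, BX_other _ i j h1 h2, O.XX i.succ j, O.XX i.castSucc j]

/-- the homotopy -/
def shom (u : A) : SHom (RingHom.id A) (cross i p q (cross i q p O))
    (cross i p q (cross i q p O)) where
  f := (shomL O u).toAddMonoidHom
  smul c z := (shomL O u).map_smul c z
  comm j z := by
    change M2 O at z
    show (shomL O u ((cross i p q (cross i q p O)).X j z) : M2 O) =
      (cross i p q (cross i q p O)).X j (shomL O u z : M2 O)
    rw [cross2_X, cross2_X]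
    by_cases h1 : j = i.castSucc
    · subst h1
      apply m2_ext <;>
      simp [shomL, O.XX i.succ i.castSucc, cr_add1, cr_add2, cr_neg1, cr_neg2] <;> try abel
    · by_cases h2 : j = i.succ
      · subst h2
        apply m2_ext <;>
        simp [shomL, O.XX i.succ i.castSucc, cr_add1, cr_add2, cr_neg1, cr_neg2] <;> try abel
      · apply m2_ext <;> simp [shomL, BX_other _ i j h1 h2]

end

end Pool.Agent.H.MP_c30e5d_gt
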