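import Pool.Agent.H.MP_c30e5d_gt.R2

/-!
# Reduction data for two opposite crossings, and its consequences in a context
-/

namespace Pool.Agent.H.MP_c30e5d_gt

variable {A : Type} [CommRing A] {m : ℕ}

section
variable (O : Obj A m) (i : Fin m) (p q : Fin (m + 1))

/-- the differential of two crossings on the underlying module -/
def D2 (y : Fin (m + 1) → A) : M2 O →ₗ[A] M2 O := (cross i p q (cross i q p O)).D y

theorem cross2_D (y : Fin (m + 1) → A) (z : M2 O) :
    D2 O i p q y z =
      (((((O.D y z.1.1.1.1 - (y q - y p) • O.X i.succ z.1.1.2) -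
            (y p - y q) • (O.X i.castSucc z.2.1.1 + O.X i.succ z.2.1.1 +
              O.X i.castSucc (O.X i.succ z.2.1.2)),
          (O.D y z.1.1.1.2 + (y q - y p) • z.1.1.2) + (y p - y q) • z.2.1.1),
          (z.1.1.1.1 + O.X i.castSucc z.1.1.1.2 - O.D y z.1.1.2) -
            (y p - y q) • O.X i.succ z.2.2),
        (((O.D y z.1.2.1.1 - (y q - y p) • O.X i.succ z.1.2.2) + (y p - y q) • z.2.1.1,
          (O.D y z.1.2.1.2 + (y q - y p) • z.1.2.2) + (y p - y q) • z.2.1.2),
          (z.1.2.1.1 + O.X i.castSucc z.1.2.1.2 - O.D y z.1.2.2) + (y p - y q) • z.2.2)),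
      ((z.1.1.1.1 - O.X i.castSucc (O.X i.succ z.1.2.1.2) - (O.D y z.2.1.1 -
          (y q - y p) • O.X i.succ z.2.2),
        z.1.1.1.2 + (z.1.2.1.1 + O.X i.castSucc z.1.2.1.2 + O.X i.succ z.1.2.1.2) -
          (O.D y z.2.1.2 + (y q - y p) • z.2.2)),
        z.1.1.2 + O.X i.castSucc z.1.2.2 - (z.2.1.1 + O.X i.castSucc z.2.1.2 - O.D y z.2.2))) := by
  refine (cross_D i p q (cross i q p O) y z).trans ?_
  apply m2_ext <;>
  simp [cr_add1, cr_add2, cr_neg1, cr_neg2, cr_sub1, cr_sub2, cr_smul1, cr_smul2] <;> try abel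

theorem psi_chain (y : Fin (m + 1) → A) (z : M2 O) :
    (psi O i p q (y p - y q)).f ((cross i p q (cross i q p O)).D y z) =
      O.D y ((psi O i p q (y p - y q)).f z) := by
  show psiL O i (y p - y q) (D2 O i p q y z) = O.D y (psiL O i (y p - y q) z)
  rw [cross2_D]
  simp only [psiL, LinearMap.coe_mk, AddHom.coe_mk, map_add, map_sub, map_smul, O.XX i.succ i.castSucc,
    O.XD]
  module

theorem psi'_chain (y : Fin (m + 1) → A) (z : O.M) :
    (psi' O i p q (y p - y q)).f (O.D y z) =
      (cross i p q (cross i q p O)).D y ((psi' O i p q (y p - y q)).f z) := by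
  show psiL' O i (y p - y q) (O.D y z) =
    D2 O i p q y (psiL' O i (y p - y q) z)
  rw [cross2_D]
  apply m2_ext <;> simp [psiL', O.XD] <;> module

theorem eins_chain (y : Fin (m + 1) → A) (z : O.M) :
    (eins O i p q).f (O.D y z) =
      (cross i p q (cross i q p O)).D y ((eins O i p q).f z) := by
  show einsL O i (O.D y z) =
    D2 O i p q y (einsL O i z)
  rw [cross2_D]
  apply m2_ext <;> simp [einsL, O.XD, O.XX i.succ i.castSucc] <;> try module

theorem red2_hom (y : Fin (m + 1) → A) (z : (cross i p q (cross i q p O)).M) :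
    (y p - y q) • z - (psi' O i p q (y p - y q)).f ((psi O i p q (y p - y q)).f z) =
      (cross i p q (cross i q p O)).D y ((shom O i p q (y p - y q)).f z) +
        (shom O i p q (y p - y q)).f ((cross i p q (cross i q p O)).D y z) := by
  change M2 O at z
  show (y p - y q) • z - psiL' O i (y p - y q) (psiL O i (y p - y q) z) =
    D2 O i p q y (shomL O (y p - y q) z) + shomL O (y p - y q) (D2 O i p q y z)
  rw [cross2_D, cross2_D]
  apply m2_ext <;> simp [psiL, psiL', shomL, O.XD, O.XX i.succ i.castSucc] <;> try module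

end

/-- Reduction data for two opposite crossings. -/
def red2 (x y : Fin (m + 1) → A) (L : Equiv.Perm (Fin (m + 1))) (i : Fin m) (O : Obj A m)
    (e : O.M →ₗ[A] A) (he : IsEv x y L O e) :
    Red y (x (L i.castSucc) - x (L i.succ)) (y (L i.castSucc) - y (L i.succ))
      (cross i (L i.castSucc) (L i.succ) (cross i (L i.succ) (L i.castSucc) O)) O
      (evc i _ _ _ (x (L i.castSucc)) (evc i _ _ _ (x (L i.succ)) e)) e where
  Ψ := psi O i _ _ (y (L i.castSucc) - y (L i.succ))
  Ψ' := psi' O i _ _ (y (L i.castSucc) - y (L i.succ))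
  E := eins O i _ _
  s := shom O i _ _ (y (L i.castSucc) - y (L i.succ))
  cΨ := psi_chain O i _ _ y
  cΨ' := psi'_chain O i _ _ y
  cE := eins_chain O i _ _ y
  hom := red2_hom O i _ _ y
  eΨ' z := by
    show e ((y (L i.castSucc) - y (L i.succ)) • O.X i.succ z) + x (L i.succ) * e 0 +
      x (L i.castSucc) * (e (-((y (L i.castSucc) - y (L i.succ)) • z)) + x (L i.succ) * e 0) = _
    simp only [map_smul, map_neg, map_zero, he.evX, smul_eq_mul]; ring
  eE z := by
    show e (O.X i.castSucc (O.X i.succ z)) + x (L i.succ) * e (-O.X i.succ z) +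
      x (L i.castSucc) * (e (-O.X i.castSucc z) + x (L i.succ) * e z) = _
    simp only [map_neg, he.evX]; ring

end Pool.Agent.H.MP_c30e5d_gt
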