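import Pool.Agent.H.MP_c30e5d_gt.Mixed

/-!
# A graded splitting homotopy over a field

PROOF.  Choose a `k`-linear `s₀ : V → V` with `d s₀ d = d` (exists over a field: a linear section of
`V → range d` extended to `V`).
Put `s₁ = ∑_{e ≤ len} pr e ∘ s₀ ∘ pr (e+1)`; since `d` has degree `+1`,
`d s₁ d = ∑_e pr(e+1) d s₀ d pr e  = ∑_e pr (e+1) d pr e = d`.  (Use `pr_d`, `pr_d0`, `pr_sum`;
note `pr e z = 0` for `e > len`, from `pr_sum` and `pr_orth`.)
Put `s₂ = s₁ d s₁` (then `d s₂ d = d`, `s₂ d s₂ = s₂`) and `s = s₂ - s₂ s₂ d`.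
Then `d s d = d`, `s d s = s`, `s s = 0`:
(s₂ - s₂²d)(s₂ - s₂²d) = s₂² - s₂³d - s₂²d s₂ + s₂²d s₂² d = s₂² - s₂³ d - s₂ s₂ + s₂ s₂ s₂ d = 0
using `s₂ d s₂ = s₂`.  Moreover `pr e ∘ s = s ∘ pr (e+1)` and `s ∘ pr 0 = 0`.
Put `q = 1 - d s - s d`.  Then `q q = q`, `d q = 0`, `q d = 0`, `s q = 0`, `q s = 0`
(use `d s d = d`, `s d s = s`, `d d = 0`, `s s = 0`), `q` commutes with every `pr e`.
Parity: if `e` is odd then `q (pr e z) = 0`: `c = q (pr e z)` satisfies `pr e c = c`, `d c = 0`,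
so `c = d z'` by `par`, and `c = q c = q d z' = 0`.
-/

namespace Pool.Agent.H.MP_c30e5d_gt

open TensorProduct MvPolynomial

variable {k : Type} [Field k] {σ : Type} [Fintype σ] {V : Type} [AddCommGroup V] [Module k V]

/-- A linear map over a field has a generalised inverse. -/
theorem split_gen {k : Type} [Field k] {V : Type} [AddCommGroup V] [Module k V] (d : V →ₗ[k] V) :
    ∃ s₀ : V →ₗ[k] V, ∀ z, d (s₀ (d z)) = d z := by
  obtain ⟨g, hg⟩ := d.rangeRestrict.exists_rightInverse_of_surjective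
    (LinearMap.range_rangeRestrict d)
  obtain ⟨s₀, hs₀⟩ := g.exists_extend
  refine ⟨s₀, fun z => ?_⟩
  have h1 : s₀ (d z) = g ⟨d z, LinearMap.mem_range_self d z⟩ := by
    rw [← hs₀]
    rfl
  have h2 : d.rangeRestrict (g ⟨d z, LinearMap.mem_range_self d z⟩) =
      ⟨d z, LinearMap.mem_range_self d z⟩ := by
    have := LinearMap.congr_fun hg ⟨d z, LinearMap.mem_range_self d z⟩
    exact this
  rw [h1]
  have h3 := congrArg Subtype.val h2
  exact h3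

/-- The components of large degree vanish. -/
theorem split_pr_zero (P : Mixed k σ V) {e : ℕ} (he : P.len < e) (z : V) : P.pr e z = 0 := by
  rw [← P.pr_sum z, map_sum]
  apply Finset.sum_eq_zero
  intro e' he'
  rw [Finset.mem_range] at he'
  exact P.pr_orth e e' z (by omega)

/-- A graded generalised inverse. -/
theorem split_one (P : Mixed k σ V) : ∃ s₁ : V →ₗ[k] V, (∀ z, P.d (s₁ (P.d z)) = P.d z) ∧
    (∀ e z, P.pr e (s₁ z) = s₁ (P.pr (e + 1) z)) ∧ (∀ z, s₁ (P.pr 0 z) = 0) := by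
  obtain ⟨s₀, hs₀⟩ := split_gen P.d
  have hs : ∀ z, (∑ e ∈ Finset.range (P.len + 1), (P.pr e) ∘ₗ s₀ ∘ₗ (P.pr (e + 1))) z =
      ∑ e ∈ Finset.range (P.len + 1), P.pr e (s₀ (P.pr (e + 1) z)) := by
    intro z
    rw [LinearMap.sum_apply]
    rfl
  refine ⟨∑ e ∈ Finset.range (P.len + 1), (P.pr e) ∘ₗ s₀ ∘ₗ (P.pr (e + 1)), ?_, ?_, ?_⟩
  · intro z
    rw [hs, map_sum]
    have h1 : ∀ e ∈ Finset.range (P.len + 1),
        P.d (P.pr e (s₀ (P.pr (e + 1) (P.d z)))) = P.d (P.pr e z) := by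
      intro e _
      have g1 : P.pr (e + 1) (P.d z) = P.d (P.pr e z) := P.pr_d e z
      have g2 := P.pr_d e (s₀ (P.pr (e + 1) (P.d z)))
      rw [← g2, g1, hs₀, P.pr_d, P.pr_idem]
    rw [Finset.sum_congr rfl h1, ← map_sum, P.pr_sum]
  · intro e z
    rw [hs, hs, map_sum]
    by_cases he : e ∈ Finset.range (P.len + 1)
    · rw [Finset.sum_eq_single_of_mem e he, Finset.sum_eq_single_of_mem e he]
      · rw [P.pr_idem, P.pr_idem]
      · intro e' _ hne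
        rw [P.pr_orth (e' + 1) (e + 1) z (by omega)]
        simp
      · intro e' _ hne
        exact P.pr_orth e e' _ (Ne.symm hne)
    · rw [Finset.mem_range] at he
      rw [Finset.sum_eq_zero, Finset.sum_eq_zero]
      · intro e' _
        rw [split_pr_zero P (e := e + 1) (by omega)]
        simp
      · intro e' _
        exact split_pr_zero P (by omega) _
  · intro z
    rw [hs]
    apply Finset.sum_eq_zero
    intro e _
    rw [P.pr_orth (e + 1) 0 z (by omega)]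
    simp

/-- Step 1: a graded splitting homotopy over a field. -/
theorem exists_splitting (P : Mixed k σ V)
    (par : ∀ e z, Odd e → P.pr e z = z → P.d z = 0 → ∃ z', P.d z' = z) :
    ∃ s q : V →ₗ[k] V,
      (∀ z, q z = z - P.d (s z) - s (P.d z)) ∧ (∀ z, s (s z) = 0) ∧ (∀ z, q (q z) = q z) ∧
      (∀ z, P.d (q z) = 0) ∧ (∀ z, q (P.d z) = 0) ∧ (∀ z, s (q z) = 0) ∧ (∀ z, q (s z) = 0) ∧
      (∀ e z, P.pr e (s z) = s (P.pr (e + 1) z)) ∧ (∀ z, s (P.pr 0 z) = 0) ∧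
      (∀ e z, P.pr e (q z) = q (P.pr e z)) ∧ (∀ e z, Odd e → q (P.pr e z) = 0) := by
  obtain ⟨s₁, h1, h1g, h10⟩ := split_one P
  -- second step
  obtain ⟨s₂, hs₂⟩ : ∃ s₂ : V →ₗ[k] V, ∀ z, s₂ z = s₁ (P.d (s₁ z)) :=
    ⟨s₁ ∘ₗ P.d ∘ₗ s₁, fun z => rfl⟩
  have h2 : ∀ z, P.d (s₂ (P.d z)) = P.d z := by
    intro z
    rw [hs₂, h1, h1]
  have h2' : ∀ z, s₂ (P.d (s₂ z)) = s₂ z := by
    intro z
    rw [hs₂, hs₂, h1, h1]
  have h2g : ∀ e z, P.pr e (s₂ z) = s₂ (P.pr (e + 1) z) := by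
    intro e z
    rw [hs₂, hs₂, h1g, P.pr_d, h1g]
  have h20 : ∀ z, s₂ (P.pr 0 z) = 0 := by
    intro z
    rw [hs₂, h10]
    simp
  -- third step
  obtain ⟨s, hs⟩ : ∃ s : V →ₗ[k] V, ∀ z, s z = s₂ z - s₂ (s₂ (P.d z)) :=
    ⟨s₂ - s₂ ∘ₗ s₂ ∘ₗ P.d, fun z => rfl⟩
  have a1 : ∀ z, P.d (s (P.d z)) = P.d z := by
    intro z
    rw [hs, P.dd]
    simp [h2]
  have a2 : ∀ z, s (P.d (s z)) = s z := by
    intro z
    have e1 : s (P.d (s z)) = s₂ (P.d (s z)) := by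
      rw [hs (P.d (s z)), P.dd]
      simp
    rw [e1, hs z, map_sub, map_sub, h2', h2']
  have a3 : ∀ z, s (s z) = 0 := by
    intro z
    rw [hs (s z), hs z, map_sub, map_sub, map_sub, map_sub, h2', h2']
    abel
  have ag : ∀ e z, P.pr e (s z) = s (P.pr (e + 1) z) := by
    intro e z
    rw [hs, hs, map_sub, h2g, h2g, h2g, P.pr_d]
  have a0 : ∀ z, s (P.pr 0 z) = 0 := by
    intro z
    rw [hs, h20, ← P.pr_d, ← h2g, h20]
    simp
  -- the projection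
  obtain ⟨q, hq⟩ : ∃ q : V →ₗ[k] V, ∀ z, q z = z - P.d (s z) - s (P.d z) :=
    ⟨LinearMap.id - P.d ∘ₗ s - s ∘ₗ P.d, fun z => rfl⟩
  have b1 : ∀ z, P.d (q z) = 0 := by
    intro z
    rw [hq, map_sub, map_sub, P.dd, a1]
    simp
  have b2 : ∀ z, q (P.d z) = 0 := by
    intro z
    rw [hq, a1, P.dd]
    simp
  have b3 : ∀ z, s (q z) = 0 := by
    intro z
    rw [hq, map_sub, map_sub, a2, a3]
    simp
  have b4 : ∀ z, q (s z) = 0 := by
    intro z
    rw [hq, a3, a2]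
    simp
  have b5 : ∀ z, q (q z) = q z := by
    intro z
    rw [hq (q z), b3, b1]
    simp
  have b6 : ∀ e z, P.pr e (q z) = q (P.pr e z) := by
    intro e z
    rw [hq, hq, map_sub, map_sub]
    cases e with
    | zero =>
      rw [P.pr_d0, a0, ag, P.pr_d]
      simp
    | succ e => rw [P.pr_d, ag, ag, P.pr_d]
  refine ⟨s, q, hq, a3, b5, b1, b2, b3, b4, ag, a0, b6, ?_⟩
  intro e z he
  have c1 : P.pr e (q (P.pr e z)) = q (P.pr e z) := by rw [b6, P.pr_idem]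
  obtain ⟨z', hz'⟩ := par e (q (P.pr e z)) he c1 (b1 _)
  rw [← b5, ← hz', b2]

end Pool.Agent.H.MP_c30e5d_gt
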