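import Pool.Agent.H.MP_c30e5d_gt.DelThm
import Pool.Agent.H.MP_c30e5d_gt.WordDefs

/-!
# Deletions in the word of Jucys-Murphy braids

Letters of `down m j l` are `j-1, …, l` (descending), of `up m l j` are `l, …, j-1`.

PROOF.
(0) `down m (t+1) l = ⟨t, _⟩ :: down m t l`, `up m l (t+1) = up m l t ++ [⟨t, _⟩]` for `l ≤ t < m`,
`down m t l = down m t (l+1) ++ [⟨l, _⟩]`, `up m l t = ⟨l, _⟩ :: up m (l+1) t` for `l < t ≤ m`,
`down m t s ++ down m s l = down m t l`, `up m l s ++ up m s t = up m l t` for `l ≤ s ≤ t`, and they are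
`[]` for `t ≤ l`.
(1) labels: `act L (down m t l)` (`l ≤ t ≤ m`) is `L` composed with the cycle: position `l` carries
`L t`, position `p` (`l < p ≤ t`) carries `L (p-1)`, all others are unchanged;
`act L (up m l t)`: position `t` carries `L l`, position `p` (`l ≤ p < t`) carries `L (p+1)`.
(2) If `L p = p` for `l ≤ p < t` and `L t = J`, then
`Del L (down m t l ++ up m l t) [] {s(p, J) : l ≤ p < t}`: induction on `l` from `t` down; the word is
`down m t (l+1) ++ l :: l :: up m (l+1) t` and after `down m t (l+1)` the strands `l`, `J` are at the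
positions `l`, `l+1`.
(3) If `μ l = J` and `μ (p+1) = p` for `l ≤ p < t`, then
`Del μ (up m l t ++ down m t l) [] {s(p, J) : l ≤ p < t}`: induction on `t`; the word is
`up m l (t-1) ++ (t-1) :: (t-1) :: down m (t-1) l` and after `up m l (t-1)` the strands `J`, `t-1` are
at the positions `t-1`, `t`.
(4) `jmWord_del`: each block `JMw m j` deletes by (2) with `L = 1`, `t = j`, `l = 0`.
(5) `jmWord_del_edge`: the blocks `JMw m j'`, `j' ≠ j`, delete completely.  In each block `JMw m j`
delete the inner part `down m i 0 ++ up m 0 i` (context `down m j i`, (2) with `t = i`, `J = j`);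
what remains is `down m j (i+1) ++ [i, i] ++ up m (i+1) j`.  Between two consecutive blocks delete
`up m (i+1) j ++ down m j (i+1)` by (3) with `l = i + 1`, `t = j` (the labels after
`down m j (i+1) ++ [i,i] ++ ⋯ ++ [i,i]` are those after `down m j (i+1)`: strand `j` at position `i+1`,
strand `p` at position `p+1` for `i < p < j`).  So one pair `s(p, j)`, `i < p < j`, of the
`b j` ones remains for each such `p`, and all the `b j` pairs `s(i, j)`.
-/

namespace Pool.Agent.H.MP_c30e5d_gt

/-- the multiset of pairs deleted from `jmWord m b`: `b j` times each pair `l < j` -/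
def SB (m : ℕ) (b : ℕ → ℕ) : Multiset (Sym2 (Fin (m + 1))) :=
  ∑ j : Fin (m + 1), b j • ((Finset.univ.filter fun l : Fin (m + 1) => l < j).val.map
    fun l => s(l, j))

/-! ## Structure of the words -/

theorem words_mem_up {m l t : ℕ} {a : Fin m} : a ∈ up m l t ↔ l ≤ (a : ℕ) ∧ (a : ℕ) < t := by
  simp [up]

theorem words_up_pw (m l t : ℕ) : (up m l t).Pairwise (· < ·) :=
  (List.sortedLT_finRange m).pairwise.filter _

theorem words_up_nil {m l t : ℕ} (h : t ≤ l) : up m l t = [] := by
  rw [List.eq_nil_iff_forall_not_mem]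
  intro a ha
  have := words_mem_up.1 ha
  omega

theorem words_up_cons {m l t : ℕ} (h : l < t) (hl : l < m) :
    up m l t = ⟨l, hl⟩ :: up m (l + 1) t := by
  refine (words_up_pw m l t).eq_of_mem_iff ?_ fun a => ?_
  · refine List.pairwise_cons.2 ⟨fun a ha => ?_, words_up_pw m (l + 1) t⟩
    have := words_mem_up.1 ha
    exact Fin.lt_def.2 (by simp only []; omega)
  · rw [List.mem_cons, words_mem_up, words_mem_up]
    constructor
    · rintro ⟨h1, h2⟩
      by_cases h3 : l = (a : ℕ)
      · left; exact Fin.ext h3.symm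
      · right; omega
    · rintro (rfl | h1)
      · exact ⟨le_refl l, h⟩
      · omega

theorem words_up_snoc {m l t : ℕ} (h : l ≤ t) (ht : t < m) :
    up m l (t + 1) = up m l t ++ [⟨t, ht⟩] := by
  refine (words_up_pw m l (t + 1)).eq_of_mem_iff ?_ fun a => ?_
  · refine List.pairwise_append.2 ⟨words_up_pw m l t, List.pairwise_singleton _ _, ?_⟩
    intro a ha b hb
    have := words_mem_up.1 ha
    rw [List.mem_singleton] at hb
    subst hb
    exact Fin.lt_def.2 (by simp only []; omega)
  · rw [List.mem_append, List.mem_singleton, words_mem_up, words_mem_up]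
    constructor
    · rintro ⟨h1, h2⟩
      by_cases h3 : (a : ℕ) = t
      · right; exact Fin.ext h3
      · left; omega
    · rintro (h1 | rfl)
      · omega
      · exact ⟨h, Nat.lt_succ_self t⟩

theorem words_up_append {m l s t : ℕ} (h1 : l ≤ s) (h2 : s ≤ t) :
    up m l s ++ up m s t = up m l t := by
  symm
  refine (words_up_pw m l t).eq_of_mem_iff ?_ fun a => ?_
  · refine List.pairwise_append.2 ⟨words_up_pw m l s, words_up_pw m s t, ?_⟩
    intro a ha b hb
    have := words_mem_up.1 ha
    have := words_mem_up.1 hb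
    exact Fin.lt_def.2 (by omega)
  · rw [List.mem_append, words_mem_up, words_mem_up, words_mem_up]
    omega

theorem words_down (m t l : ℕ) : down m t l = (up m l t).reverse := rfl

theorem words_down_nil {m l t : ℕ} (h : t ≤ l) : down m t l = [] := by
  rw [words_down, words_up_nil h, List.reverse_nil]

theorem words_down_snoc {m l t : ℕ} (h : l < t) (hl : l < m) :
    down m t l = down m t (l + 1) ++ [⟨l, hl⟩] := by
  rw [words_down, words_up_cons h hl, List.reverse_cons, words_down]

theorem words_down_cons {m l t : ℕ} (h : l ≤ t) (ht : t < m) :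
    down m (t + 1) l = ⟨t, ht⟩ :: down m t l := by
  rw [words_down, words_up_snoc h ht, List.reverse_append, words_down]
  rfl

theorem words_down_append {m l s t : ℕ} (h1 : l ≤ s) (h2 : s ≤ t) :
    down m t s ++ down m s l = down m t l := by
  rw [words_down, words_down, words_down, ← List.reverse_append, words_up_append h1 h2]

/-! ## Labels -/

/-- labels after a descending word -/
theorem words_act_down {m : ℕ} (L : Equiv.Perm (Fin (m + 1))) (k : ℕ) : ∀ (l : ℕ)
    (h : l + k < m + 1),
    (act L (down m (l + k) l) ⟨l, by omega⟩ = L ⟨l + k, h⟩) ∧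
    (∀ p (hp : p + 1 < m + 1), l ≤ p → p < l + k →
      act L (down m (l + k) l) ⟨p + 1, hp⟩ = L ⟨p, by omega⟩) ∧
    (∀ p (hp : p < m + 1), p < l ∨ l + k < p → act L (down m (l + k) l) ⟨p, hp⟩ = L ⟨p, hp⟩) := by
  induction k with
  | zero =>
    intro l h
    rw [words_down_nil (by omega)]
    refine ⟨rfl, fun p hp h1 h2 => by omega, fun p hp h1 => rfl⟩
  | succ k ih =>
    intro l h
    have hl : l < m := by omega
    obtain ⟨h1, h2, h3⟩ := ih (l + 1) (by omega)
    have e : l + 1 + k = l + (k + 1) := by omega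
    simp only [e] at h1 h2 h3
    have hw : down m (l + (k + 1)) l = down m (l + (k + 1)) (l + 1) ++ [⟨l, hl⟩] :=
      words_down_snoc (by omega) hl
    have hact : act L (down m (l + (k + 1)) l) =
        act L (down m (l + (k + 1)) (l + 1)) * sw ⟨l, hl⟩ := by
      rw [hw, act_append]; rfl
    rw [hact]
    refine ⟨?_, ?_, ?_⟩
    · have := mul_sw_castSucc (act L (down m (l + (k + 1)) (l + 1))) ⟨l, hl⟩
      exact this.trans h1
    · intro p hp hp1 hp2
      by_cases hpl : p = l
      · subst hpl
        have := mul_sw_succ (act L (down m (p + (k + 1)) (p + 1))) ⟨p, hl⟩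
        exact this.trans (h3 p (by omega) (by omega))
      · rw [mul_sw_other _ _ _ (by
            intro h'
            have := congrArg Fin.val h'
            simp only [Fin.val_castSucc] at this
            omega) (by
            intro h'
            have := congrArg Fin.val h'
            simp only [Fin.val_succ] at this
            omega)]
        exact h2 p hp (by omega) hp2
    · intro p hp hp1
      rw [mul_sw_other _ _ _ (by
            intro h'
            have := congrArg Fin.val h'
            simp only [Fin.val_castSucc] at this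
            omega) (by
            intro h'
            have := congrArg Fin.val h'
            simp only [Fin.val_succ] at this
            omega)]
      exact h3 p hp (by omega)

/-- labels after an ascending word -/
theorem words_act_up {m : ℕ} (L : Equiv.Perm (Fin (m + 1))) (l k : ℕ) :
    ∀ (h : l + k < m + 1),
    (act L (up m l (l + k)) ⟨l + k, h⟩ = L ⟨l, by omega⟩) ∧
    (∀ p (hp : p < m + 1), p < l ∨ l + k < p → act L (up m l (l + k)) ⟨p, hp⟩ = L ⟨p, hp⟩) := by
  induction k with
  | zero =>
    intro h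
    rw [words_up_nil (by omega)]
    exact ⟨rfl, fun p hp h1 => rfl⟩
  | succ k ih =>
    intro h
    have hl : l + k < m := by omega
    obtain ⟨h1, h3⟩ := ih (by omega)
    have hw : up m l (l + (k + 1)) = up m l (l + k) ++ [⟨l + k, hl⟩] :=
      words_up_snoc (by omega) hl
    have hact : act L (up m l (l + (k + 1))) = act L (up m l (l + k)) * sw ⟨l + k, hl⟩ := by
      rw [hw, act_append]; rfl
    rw [hact]
    refine ⟨?_, ?_⟩
    · have := mul_sw_succ (act L (up m l (l + k))) ⟨l + k, hl⟩
      exact this.trans h1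
    · intro p hp hp1
      rw [mul_sw_other _ _ _ (by
            intro h'
            have := congrArg Fin.val h'
            simp only [Fin.val_castSucc] at this
            omega) (by
            intro h'
            have := congrArg Fin.val h'
            simp only [Fin.val_succ] at this
            omega)]
      exact h3 p hp (by omega)

/-! ## The multisets of pairs -/

/-- the pairs `s(p, J)`, `l ≤ p < t` -/
def wordsMS (m l t : ℕ) (J : Fin (m + 1)) : Multiset (Sym2 (Fin (m + 1))) :=
  (Finset.univ.filter fun p : Fin (m + 1) => l ≤ (p : ℕ) ∧ (p : ℕ) < t).val.map fun p => s(p, J)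

theorem wordsMS_nil {m l t : ℕ} (h : t ≤ l) (J : Fin (m + 1)) : wordsMS m l t J = 0 := by
  have : (Finset.univ.filter fun p : Fin (m + 1) => l ≤ (p : ℕ) ∧ (p : ℕ) < t) = ∅ := by
    refine Finset.filter_eq_empty_iff.2 fun p _ => ?_
    omega
  rw [wordsMS, this]
  rfl

theorem wordsMS_append {m l s t : ℕ} (h1 : l ≤ s) (h2 : s ≤ t) (J : Fin (m + 1)) :
    wordsMS m l s J + wordsMS m s t J = wordsMS m l t J := by
  have hd : Disjoint (Finset.univ.filter fun p : Fin (m + 1) => l ≤ (p : ℕ) ∧ (p : ℕ) < s)
      (Finset.univ.filter fun p : Fin (m + 1) => s ≤ (p : ℕ) ∧ (p : ℕ) < t) := by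
    rw [Finset.disjoint_left]
    intro p hp hp'
    rw [Finset.mem_filter] at hp hp'
    omega
  have hu : (Finset.univ.filter fun p : Fin (m + 1) => l ≤ (p : ℕ) ∧ (p : ℕ) < s).disjUnion
      (Finset.univ.filter fun p : Fin (m + 1) => s ≤ (p : ℕ) ∧ (p : ℕ) < t) hd =
      Finset.univ.filter fun p : Fin (m + 1) => l ≤ (p : ℕ) ∧ (p : ℕ) < t := by
    ext p
    simp only [Finset.mem_disjUnion, Finset.mem_filter, Finset.mem_univ, true_and]
    omega
  rw [wordsMS, wordsMS, wordsMS, ← hu, Finset.disjUnion_val, Multiset.map_add]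

theorem wordsMS_one {m l : ℕ} (h : l < m + 1) (J : Fin (m + 1)) :
    wordsMS m l (l + 1) J = {s(⟨l, h⟩, J)} := by
  have : (Finset.univ.filter fun p : Fin (m + 1) => l ≤ (p : ℕ) ∧ (p : ℕ) < l + 1) =
      {⟨l, h⟩} := by
    ext p
    simp only [Finset.mem_filter, Finset.mem_univ, true_and, Finset.mem_singleton, Fin.ext_iff]
    omega
  rw [wordsMS, this]
  rfl

/-! ## The two basic deletions -/

theorem words_del_du {m : ℕ} (L : Equiv.Perm (Fin (m + 1))) (k : ℕ) : ∀ (l : ℕ)
    (h : l + k < m + 1) (_ : ∀ p (hp : p < m + 1), l ≤ p → p < l + k → L ⟨p, hp⟩ = ⟨p, hp⟩),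
    Del L (down m (l + k) l ++ up m l (l + k)) [] (wordsMS m l (l + k) (L ⟨l + k, h⟩)) := by
  induction k with
  | zero =>
    intro l h hL
    rw [words_down_nil (by omega), words_up_nil (by omega), wordsMS_nil (by omega)]
    exact Del.refl _ _
  | succ k ih =>
    intro l h hL
    have hl : l < m := by omega
    have e : l + 1 + k = l + (k + 1) := by omega
    have ih' := ih (l + 1) (by omega) fun p hp h1 h2 => hL p hp (by omega) (by omega)
    obtain ⟨a1, a2, a3⟩ := words_act_down L k (l + 1) (by omega)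
    simp only [e] at ih' a1 a2 a3
    have hw : down m (l + (k + 1)) l ++ up m l (l + (k + 1)) =
        down m (l + (k + 1)) (l + 1) ++ ⟨l, hl⟩ :: ⟨l, hl⟩ :: up m (l + 1) (l + (k + 1)) := by
      rw [words_down_snoc (by omega) hl, words_up_cons (by omega) hl, List.append_assoc]
      rfl
    rw [hw, ← wordsMS_append (show l ≤ l + 1 by omega) (show l + 1 ≤ l + (k + 1) by omega),
      wordsMS_one (by omega), Multiset.singleton_add]
    have hs := Del.step L (down m (l + (k + 1)) (l + 1)) ⟨l, hl⟩ (up m (l + 1) (l + (k + 1))) []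
      _ ih'
    have b1 : act L (down m (l + (k + 1)) (l + 1)) (Fin.castSucc ⟨l, hl⟩) = ⟨l, by omega⟩ :=
      (a3 l (by omega) (by omega)).trans (hL l (by omega) le_rfl (by omega))
    have b2 : act L (down m (l + (k + 1)) (l + 1)) (Fin.succ ⟨l, hl⟩) = L ⟨l + (k + 1), h⟩ := a1
    rw [b1, b2] at hs
    exact hs

theorem words_del_ud {m : ℕ} (L : Equiv.Perm (Fin (m + 1))) (l k : ℕ) :
    ∀ (h : l + k < m + 1) (_ : ∀ p (hp : p + 1 < m + 1), l ≤ p → p < l + k →
      L ⟨p + 1, hp⟩ = ⟨p, by omega⟩),
    Del L (up m l (l + k) ++ down m (l + k) l) []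
      (wordsMS m l (l + k) (L ⟨l, by omega⟩)) := by
  induction k with
  | zero =>
    intro h hL
    rw [words_down_nil (by omega), words_up_nil (by omega), wordsMS_nil (by omega)]
    exact Del.refl _ _
  | succ k ih =>
    intro h hL
    have hl : l + k < m := by omega
    have ih' := ih (by omega) fun p hp h1 h2 => hL p hp (by omega) (by omega)
    obtain ⟨a1, a3⟩ := words_act_up L l k (by omega)
    have hw : up m l (l + (k + 1)) ++ down m (l + (k + 1)) l =
        up m l (l + k) ++ ⟨l + k, hl⟩ :: ⟨l + k, hl⟩ :: down m (l + k) l := by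
      rw [← add_assoc, words_up_snoc (by omega) hl, words_down_cons (by omega) hl,
        List.append_assoc]
      rfl
    have hm : wordsMS m l (l + (k + 1)) (L ⟨l, by omega⟩) =
        s(⟨l + k, by omega⟩, L ⟨l, by omega⟩) ::ₘ wordsMS m l (l + k) (L ⟨l, by omega⟩) := by
      rw [← wordsMS_append (show l ≤ l + k by omega) (show l + k ≤ l + (k + 1) by omega),
        ← add_assoc l k 1, wordsMS_one (show l + k < m + 1 by omega),
        add_comm (wordsMS m l (l + k) _), Multiset.singleton_add]
    rw [hw, hm]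
    have hs := Del.step L (up m l (l + k)) ⟨l + k, hl⟩ (down m (l + k) l) [] _ ih'
    have b1 : act L (up m l (l + k)) (Fin.castSucc ⟨l + k, hl⟩) = L ⟨l, by omega⟩ := a1
    have b2 : act L (up m l (l + k)) (Fin.succ ⟨l + k, hl⟩) = ⟨l + k, by omega⟩ :=
      (a3 (l + k + 1) (by omega) (by omega)).trans (hL (l + k) (by omega) (by omega) (by omega))
    rw [b1, b2, Sym2.eq_swap] at hs
    exact hs

/-! ## Concatenation of deletable words -/

theorem words_del_append {m : ℕ} {L : Equiv.Perm (Fin (m + 1))} {w w' : List (Fin m)}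
    {S T : Multiset (Sym2 (Fin (m + 1)))} (h : Del L w [] S) (h' : Del L w' [] T) :
    Del L (w ++ w') [] (S + T) := by
  have h1 := Del.append_right w' h
  exact h1.trans h'

theorem words_del_flatten {m : ℕ} {L : Equiv.Perm (Fin (m + 1))} {w : List (Fin m)}
    {S : Multiset (Sym2 (Fin (m + 1)))} (h : Del L w [] S) (b : ℕ) :
    Del L (List.replicate b w).flatten [] (b • S) := by
  induction b with
  | zero =>
    rw [zero_smul]
    exact Del.refl _ _
  | succ b ih =>
    rw [List.replicate_succ, List.flatten_cons, add_comm b 1, add_smul, one_smul]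
    exact words_del_append h ih

/-- one block -/
theorem words_del_JMw {m j : ℕ} (h : j < m + 1) :
    Del 1 (JMw m j) [] (wordsMS m 0 j ⟨j, h⟩) := by
  have := words_del_du (1 : Equiv.Perm (Fin (m + 1))) j 0 (by omega) fun p hp _ _ => rfl
  simp only [zero_add] at this
  exact this

/-- the position `j` (or the last one) -/
def wordsPos (m j : ℕ) : Fin (m + 1) := ⟨min j m, by omega⟩

theorem wordsPos_eq {m j : ℕ} (h : j < m + 1) : wordsPos m j = ⟨j, h⟩ :=
  Fin.ext (by simp only [wordsPos]; omega)

/-- a product of blocks over a list of indices -/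
def wordsBl (m : ℕ) (b : ℕ → ℕ) (l : List ℕ) : List (Fin m) :=
  (l.map fun j => (List.replicate (b (j + 1)) (JMw m (j + 1))).flatten).flatten

theorem words_del_bl {m : ℕ} (b : ℕ → ℕ) (l : List ℕ) (hl : ∀ j ∈ l, j < m) :
    Del 1 (wordsBl m b l) []
      (l.map fun j => b (j + 1) • wordsMS m 0 (j + 1) (wordsPos m (j + 1))).sum := by
  induction l with
  | nil => exact Del.refl _ _
  | cons j l ih =>
    have hj : j < m := hl j (by simp)
    rw [wordsBl, List.map_cons, List.flatten_cons, List.map_cons, List.sum_cons]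
    refine words_del_append (words_del_flatten ?_ _) (ih fun i hi => hl i (by simp [hi]))
    rw [wordsPos_eq (show j + 1 < m + 1 by omega)]
    exact words_del_JMw _

theorem words_SB (m : ℕ) (b : ℕ → ℕ) :
    ((List.range m).map fun j => b (j + 1) • wordsMS m 0 (j + 1) (wordsPos m (j + 1))).sum =
      SB m b := by
  have h0 : ((List.range m).map fun j => b (j + 1) • wordsMS m 0 (j + 1) (wordsPos m (j + 1))).sum
      = ∑ j ∈ Finset.range m, b (j + 1) • wordsMS m 0 (j + 1) (wordsPos m (j + 1)) := rfl
  rw [h0, Finset.sum_range, SB, Fin.sum_univ_succ]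
  have h1 : (Finset.univ.filter fun l : Fin (m + 1) => l < 0) = ∅ :=
    Finset.filter_eq_empty_iff.2 fun l _ => by simp
  rw [h1]
  simp only [Finset.empty_val, Multiset.map_zero, smul_zero, zero_add]
  refine Finset.sum_congr rfl fun j _ => ?_
  rw [wordsPos_eq (show (j : ℕ) + 1 < m + 1 by omega), wordsMS]
  have h2 : (Finset.univ.filter fun p : Fin (m + 1) => 0 ≤ (p : ℕ) ∧ (p : ℕ) < (j : ℕ) + 1) =
      Finset.univ.filter fun l : Fin (m + 1) => l < j.succ := by
    ext p
    simp only [Finset.mem_filter, Finset.mem_univ, true_and, Fin.lt_def, Fin.val_succ]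
    omega
  rw [h2]
  rfl

theorem jmWord_del (m : ℕ) (b : ℕ → ℕ) : Del 1 (jmWord m b) [] (SB m b) := by
  have h := words_del_bl (m := m) b (List.range m) fun j hj => List.mem_range.1 hj
  rw [words_SB] at h
  exact h

theorem jmWord_act (m : ℕ) (b : ℕ → ℕ) : act 1 (jmWord m b) = 1 :=
  act_del (jmWord_del m b)

/-- the word of one block after the deletion of the inner part -/
theorem words_block_inner {m i j : ℕ} (hi : i < m) (hij : i < j) (hj : j < m + 1) :
    Del 1 (JMw m j) (down m j (i + 1) ++ ⟨i, hi⟩ :: ⟨i, hi⟩ :: up m (i + 1) j)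
      (wordsMS m 0 i ⟨j, hj⟩) := by
  have e1 : i + (j - i) = j := by omega
  obtain ⟨a1, a2, a3⟩ := words_act_down (1 : Equiv.Perm (Fin (m + 1))) (j - i) i (by omega)
  simp only [e1] at a1 a2 a3
  have h1 := words_del_du (act 1 (down m j i)) i 0 (by omega) fun p hp _ hpi =>
    a3 p hp (by omega)
  simp only [zero_add] at h1
  rw [a1] at h1
  have h2 := Del.append_right (up m i j) (Del.append_left (down m j i) h1)
  have e2 : down m j i ++ (down m i 0 ++ up m 0 i) ++ up m i j = JMw m j := by
    rw [JMw, ← words_down_append (show 0 ≤ i by omega) hij.le,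
      ← words_up_append (show 0 ≤ i by omega) hij.le]
    simp only [List.append_assoc]
  have e3 : down m j i ++ [] ++ up m i j =
      down m j (i + 1) ++ ⟨i, hi⟩ :: ⟨i, hi⟩ :: up m (i + 1) j := by
    rw [words_down_snoc hij hi, words_up_cons hij hi]
    simp only [List.append_assoc, List.append_nil, List.singleton_append]
  rw [e2, e3] at h2
  exact h2

theorem words_rep_append {m : ℕ} (i : Fin m) (n : ℕ) :
    List.replicate (2 * (n + 1)) i = List.replicate (2 * n) i ++ [i, i] := by
  rw [show 2 * (n + 1) = 2 * n + 2 by ring, List.replicate_add]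
  rfl

theorem words_act_ii {m : ℕ} (L : Equiv.Perm (Fin (m + 1))) (i : Fin m) (n : ℕ) :
    act L (List.replicate (2 * n) i) = L := by
  induction n with
  | zero => rfl
  | succ n ih =>
    rw [words_rep_append, act_append, ih, act_cons, act_cons, act_nil, mul_assoc, sw_sw, mul_one]

/-- a power of one block -/
theorem words_block_pow {m i j : ℕ} (hi : i < m) (hij : i < j) (hj : j < m + 1) (n : ℕ) :
    Del 1 (List.replicate (n + 1) (JMw m j)).flatten
      (down m j (i + 1) ++ List.replicate (2 * (n + 1)) ⟨i, hi⟩ ++ up m (i + 1) j)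
      ((n + 1) • wordsMS m 0 i ⟨j, hj⟩ + n • wordsMS m (i + 1) j ⟨j, hj⟩) := by
  induction n with
  | zero =>
    have h := words_block_inner hi hij hj
    have e : (List.replicate (0 + 1) (JMw m j)).flatten = JMw m j := by simp
    rw [e, zero_add, one_smul, zero_smul, add_zero]
    have e2 : down m j (i + 1) ++ List.replicate (2 * 1) ⟨i, hi⟩ ++ up m (i + 1) j =
      down m j (i + 1) ++ ⟨i, hi⟩ :: ⟨i, hi⟩ :: up m (i + 1) j := by
      rw [List.append_assoc]
      rfl
    rw [e2]
    exact h
  | succ n ih =>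
    have e : (List.replicate (n + 1 + 1) (JMw m j)).flatten =
        (List.replicate (n + 1) (JMw m j)).flatten ++ JMw m j := by
      rw [List.replicate_succ', List.flatten_append, List.flatten_singleton]
    have hact : act 1 (List.replicate (n + 1) (JMw m j)).flatten = 1 :=
      act_del (words_del_flatten (words_del_JMw hj) (n + 1))
    have h1 : Del (act 1 (List.replicate (n + 1) (JMw m j)).flatten) (JMw m j)
        (down m j (i + 1) ++ ⟨i, hi⟩ :: ⟨i, hi⟩ :: up m (i + 1) j)
        (wordsMS m 0 i ⟨j, hj⟩) := by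
      rw [hact]; exact words_block_inner hi hij hj
    have h2 := Del.append_left (List.replicate (n + 1) (JMw m j)).flatten h1
    have h3 := Del.append_right (down m j (i + 1) ++ ⟨i, hi⟩ :: ⟨i, hi⟩ :: up m (i + 1) j) ih
    -- the inner deletion
    have e1 : i + 1 + (j - (i + 1)) = j := by omega
    obtain ⟨a1, a2, a3⟩ := words_act_down (1 : Equiv.Perm (Fin (m + 1))) (j - (i + 1)) (i + 1)
      (by omega)
    simp only [e1] at a1 a2 a3
    have hμ : act 1 (down m j (i + 1) ++ List.replicate (2 * (n + 1)) ⟨i, hi⟩) =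
        act 1 (down m j (i + 1)) := by
      rw [act_append, words_act_ii]
    have h4 := words_del_ud (act 1 (down m j (i + 1) ++ List.replicate (2 * (n + 1)) ⟨i, hi⟩))
      (i + 1) (j - (i + 1)) (by omega) fun p hp h1 h2 => by
        rw [hμ]
        exact a2 p hp h1 (by omega)
    simp only [e1] at h4
    rw [hμ, a1] at h4
    rw [← hμ] at h4
    have h5 := Del.append_right (⟨i, hi⟩ :: ⟨i, hi⟩ :: up m (i + 1) j) (Del.append_left _ h4)
    have f1 : down m j (i + 1) ++ List.replicate (2 * (n + 1)) ⟨i, hi⟩ ++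
        (up m (i + 1) j ++ down m j (i + 1)) ++ ⟨i, hi⟩ :: ⟨i, hi⟩ :: up m (i + 1) j =
        down m j (i + 1) ++ List.replicate (2 * (n + 1)) ⟨i, hi⟩ ++ up m (i + 1) j ++
        (down m j (i + 1) ++ ⟨i, hi⟩ :: ⟨i, hi⟩ :: up m (i + 1) j) := by
      simp only [List.append_assoc]
    have f2 : down m j (i + 1) ++ List.replicate (2 * (n + 1)) ⟨i, hi⟩ ++ [] ++
        ⟨i, hi⟩ :: ⟨i, hi⟩ :: up m (i + 1) j =
        down m j (i + 1) ++ List.replicate (2 * (n + 1 + 1)) ⟨i, hi⟩ ++ up m (i + 1) j := by
      rw [words_rep_append _ (n + 1)]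
      simp only [List.append_assoc, List.nil_append, List.cons_append]
    rw [f1, f2] at h5
    have h6 := (h2.trans h3).trans h5
    rw [e]
    have g : wordsMS m 0 i ⟨j, hj⟩ + ((n + 1) • wordsMS m 0 i ⟨j, hj⟩ +
        n • wordsMS m (i + 1) j ⟨j, hj⟩) + wordsMS m (i + 1) j ⟨j, hj⟩ =
        (n + 1 + 1) • wordsMS m 0 i ⟨j, hj⟩ + (n + 1) • wordsMS m (i + 1) j ⟨j, hj⟩ := by
      rw [add_smul (n + 1) 1 (wordsMS m 0 i ⟨j, hj⟩), add_smul n 1 (wordsMS m (i + 1) j ⟨j, hj⟩),
        one_smul, one_smul]
      abel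
    rw [← g]
    exact h6

theorem jmWord_del_edge (m : ℕ) (b : ℕ → ℕ) (i : Fin m) (j : Fin (m + 1)) (hij : (i : ℕ) < j)
    (hb : 1 ≤ b j) :
    ∃ S' : Multiset (Sym2 (Fin (m + 1))),
      Del 1 (jmWord m b) (down m j (i + 1) ++ List.replicate (2 * b j) i ++ up m (i + 1) j) S' ∧
      S' + b j • {s(i.castSucc, j)} + ((Finset.univ.filter fun l : Fin (m + 1) =>
        (i : ℕ) < l ∧ l < j).val.map fun l => s(l, j)) = SB m b := by
  obtain ⟨i, hi⟩ := i
  obtain ⟨j, hj⟩ := j
  simp only [] at hij hb ⊢
  obtain ⟨n, hn⟩ : ∃ n, b j = n + 1 := ⟨b j - 1, by omega⟩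
  obtain ⟨q, rfl⟩ : ∃ q, j = q + 1 := ⟨j - 1, by omega⟩
  -- split the list of the indices
  have hr : List.range m = List.range q ++ q :: List.range' (q + 1) (m - (q + 1)) := by
    have h1 : q :: List.range' (q + 1) (m - (q + 1)) = List.range' q (m - q) := by
      rw [show m - q = (m - (q + 1)) + 1 by omega, List.range'_succ]
    have h2 := List.range'_append (s := 0) (m := q) (n := m - q) (step := 1)
    rw [one_mul, zero_add, show q + (m - q) = m by omega] at h2
    rw [List.range_eq_range', List.range_eq_range', h1, h2]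
  have hX := words_del_bl (m := m) b (List.range q) fun j hj => by
    have := List.mem_range.1 hj
    omega
  have hY := words_del_bl (m := m) b (List.range' (q + 1) (m - (q + 1))) fun j hj => by
    have := List.mem_range'_1.1 hj
    omega
  have hB := words_block_pow hi hij hj n
  have hBact : act 1 (List.replicate (n + 1) (JMw m (q + 1))).flatten = 1 :=
    act_del (words_del_flatten (words_del_JMw hj) (n + 1))
  have hw : jmWord m b = wordsBl m b (List.range q) ++
      (List.replicate (n + 1) (JMw m (q + 1))).flatten ++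
      wordsBl m b (List.range' (q + 1) (m - (q + 1))) := by
    rw [jmWord, hr, List.map_append, List.flatten_append, List.map_cons, List.flatten_cons, hn,
      ← List.append_assoc]
    rfl
  have h1 := Del.append_right (wordsBl m b (List.range' (q + 1) (m - (q + 1))))
    (Del.append_right (List.replicate (n + 1) (JMw m (q + 1))).flatten hX)
  rw [List.nil_append, ← hw] at h1
  rw [← hBact] at hY
  have h2 := Del.append_left (List.replicate (n + 1) (JMw m (q + 1))).flatten hY
  rw [List.append_nil] at h2
  have h3 := (h1.trans h2).trans hB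
  rw [hn]
  refine ⟨_, h3, ?_⟩
  rw [← words_SB m b, hr, List.map_append, List.sum_append, List.map_cons, List.sum_cons, hn,
    wordsPos_eq hj]
  have hs : wordsMS m 0 (q + 1) ⟨q + 1, hj⟩ = wordsMS m 0 i ⟨q + 1, hj⟩ +
      ({s(Fin.castSucc ⟨i, hi⟩, ⟨q + 1, hj⟩)} + wordsMS m (i + 1) (q + 1) ⟨q + 1, hj⟩) := by
    rw [← wordsMS_append (show 0 ≤ i by omega) (show i ≤ q + 1 by omega),
      ← wordsMS_append (show i ≤ i + 1 by omega) (show i + 1 ≤ q + 1 by omega),
      wordsMS_one (show i < m + 1 by omega)]
    rfl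
  have hf : ((Finset.univ.filter fun l : Fin (m + 1) =>
        i < (l : ℕ) ∧ l < ⟨q + 1, hj⟩).val.map fun l => s(l, (⟨q + 1, hj⟩ : Fin (m + 1)))) =
      wordsMS m (i + 1) (q + 1) ⟨q + 1, hj⟩ := by
    rw [wordsMS]
    have : (Finset.univ.filter fun l : Fin (m + 1) => i < (l : ℕ) ∧ l < ⟨q + 1, hj⟩) =
        Finset.univ.filter fun p : Fin (m + 1) => i + 1 ≤ (p : ℕ) ∧ (p : ℕ) < q + 1 := by
      ext p
      simp only [Finset.mem_filter, Finset.mem_univ, true_and, Fin.lt_def]
      omega
    rw [this]
  rw [hf, hs, smul_add, smul_add, add_smul n 1 (wordsMS m (i + 1) (q + 1) ⟨q + 1, hj⟩), one_smul]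
  abel

end Pool.Agent.H.MP_c30e5d_gt
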